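import Pool.Agent.Lib_MP_264ef2_ins.Base

set_option autoImplicit false

namespace Pool.Agent.GRI

open Finset

theorem Fp_nonneg (d : ℕ) {y : ℝ} (hy : 0 ≤ y) : 0 ≤ Fp d y := by
  unfold Fp
  have h := Real.sum_le_exp_of_nonneg hy d
  have h2 : Real.exp (-y) * ∑ j ∈ range d, y ^ j / (j.factorial : ℝ) ≤
      Real.exp (-y) * Real.exp y := mul_le_mul_of_nonneg_left h (Real.exp_pos _).le
  rw [← Real.exp_add, neg_add_cancel, Real.exp_zero] at h2
  linarith

theorem Fp_le_one (d : ℕ) {y : ℝ} (hy : 0 ≤ y) : Fp d y ≤ 1 := by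
  unfold Fp
  have : 0 ≤ Real.exp (-y) * ∑ j ∈ range d, y ^ j / (j.factorial : ℝ) :=
    mul_nonneg (Real.exp_pos _).le (Finset.sum_nonneg fun j _ => by positivity)
  linarith

theorem Fp_continuous (d : ℕ) : Continuous (Fp d) := by
  unfold Fp
  fun_prop

theorem fp_continuous (d : ℕ) : Continuous (fp d) := by
  unfold fp
  fun_prop

theorem Fp_succ (d : ℕ) (y : ℝ) :
    Fp (d + 1) y = Fp d y - Real.exp (-y) * (y ^ d / (d.factorial : ℝ)) := by
  unfold Fp
  rw [Finset.sum_range_succ]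
  ring

theorem Fp_hasDeriv (d : ℕ) (hd : 1 ≤ d) (y : ℝ) : HasDerivAt (Fp d) (fp d y) y := by
  obtain ⟨e, rfl⟩ := Nat.exists_eq_add_of_le' hd
  clear hd
  have hexp : HasDerivAt (fun y : ℝ => Real.exp (-y)) (-Real.exp (-y)) y := by
    have := (hasDerivAt_neg y).exp
    simpa using this
  induction e with
  | zero =>
    have h1 : Fp (0 + 1) = fun y : ℝ => 1 - Real.exp (-y) := by
      funext x
      simp [Fp]
    rw [h1]
    have : HasDerivAt (fun y : ℝ => 1 - Real.exp (-y)) (-(-Real.exp (-y))) y := by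
      simpa using hexp.const_sub 1
    simpa [fp] using this
  | succ e ih =>
    have h1 : Fp (e + 1 + 1) = fun y : ℝ =>
        Fp (e + 1) y - Real.exp (-y) * (y ^ (e + 1) / ((e + 1).factorial : ℝ)) := by
      funext x
      exact Fp_succ (e + 1) x
    rw [h1]
    have h2 : HasDerivAt (fun y : ℝ => y ^ (e + 1) / ((e + 1).factorial : ℝ))
        (((e + 1 : ℕ) : ℝ) * y ^ e / ((e + 1).factorial : ℝ)) y := by
      have := (hasDerivAt_pow (e + 1) y).div_const ((e + 1).factorial : ℝ)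
      simpa using this
    have h3 := ih.sub (hexp.mul h2)
    refine h3.congr_deriv ?_
    unfold fp
    have hf : ((e + 1).factorial : ℝ) = (e + 1 : ℝ) * (e.factorial : ℝ) := by
      rw [Nat.factorial_succ]; push_cast; ring
    have he : (e.factorial : ℝ) ≠ 0 := by exact_mod_cast Nat.factorial_ne_zero e
    have he1 : (e + 1 : ℝ) ≠ 0 := by positivity
    simp only [Nat.add_sub_cancel]
    rw [hf]
    push_cast
    field_simp
    ring

theorem fp_pos (d : ℕ) {y : ℝ} (hy : 0 < y) : 0 < fp d y := by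
  unfold fp
  positivity

theorem Fp_lt_one (d : ℕ) (hd : 1 ≤ d) {y : ℝ} (hy : 0 ≤ y) : Fp d y < 1 := by
  unfold Fp
  have : 0 < Real.exp (-y) * ∑ j ∈ range d, y ^ j / (j.factorial : ℝ) := by
    refine mul_pos (Real.exp_pos _) ?_
    refine lt_of_lt_of_le ?_ (Finset.single_le_sum (f := fun j => y ^ j / (j.factorial : ℝ))
      (fun j _ => by positivity) (Finset.mem_range.2 (show 0 < d by omega)))
    simp
  linarith

theorem Fp_zero (d : ℕ) (hd : 1 ≤ d) : Fp d 0 = 0 := by
  unfold Fp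
  obtain ⟨e, rfl⟩ := Nat.exists_eq_add_of_le' hd
  rw [Finset.sum_range_succ']
  simp

/-- `D = F - x f` -/
noncomputable def Dd (d : ℕ) (x : ℝ) : ℝ := Fp d x - x * fp d x

theorem fp_hasDeriv (d : ℕ) (hd : 2 ≤ d) (y : ℝ) :
    HasDerivAt (fun y => y * fp d y) (fp d y * ((d : ℝ) - y)) y := by
  obtain ⟨e, rfl⟩ := Nat.exists_eq_add_of_le' hd
  have hexp : HasDerivAt (fun y : ℝ => Real.exp (-y)) (-Real.exp (-y)) y := by
    have := (hasDerivAt_neg y).exp
    simpa using this
  have h1 : (fun y => y * fp (e + 2) y) =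
      fun y : ℝ => Real.exp (-y) * y ^ (e + 2) / ((e + 1).factorial : ℝ) := by
    funext x
    unfold fp
    simp only [Nat.add_succ_sub_one]
    ring
  rw [h1]
  have h2 := ((hexp.mul (hasDerivAt_pow (e + 2) y))).div_const ((e + 1).factorial : ℝ)
  refine h2.congr_deriv ?_
  unfold fp
  simp only [Nat.add_succ_sub_one]
  push_cast
  ring

theorem Dd_hasDeriv (d : ℕ) (hd : 2 ≤ d) (y : ℝ) :
    HasDerivAt (Dd d) (fp d y * (y - ((d : ℝ) - 1))) y := by
  have := (Fp_hasDeriv d (by omega) y).sub (fp_hasDeriv d hd y)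
  refine this.congr_deriv ?_
  ring

theorem Dd_continuous (d : ℕ) : Continuous (Dd d) := by
  unfold Dd
  exact (Fp_continuous d).sub (continuous_id.mul (fp_continuous d))

theorem Dd_anti (d : ℕ) (hd : 2 ≤ d) : StrictAntiOn (Dd d) (Set.Icc 0 ((d : ℝ) - 1)) := by
  apply strictAntiOn_of_deriv_neg (convex_Icc _ _) (Dd_continuous d).continuousOn
  intro x hx
  rw [interior_Icc] at hx
  rw [(Dd_hasDeriv d hd x).deriv]
  exact mul_neg_of_pos_of_neg (fp_pos d hx.1) (by linarith [hx.2])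

theorem Dd_mono (d : ℕ) (hd : 2 ≤ d) : StrictMonoOn (Dd d) (Set.Ici ((d : ℝ) - 1)) := by
  have hd1 : (1 : ℝ) ≤ (d : ℝ) - 1 := by
    have : (2 : ℝ) ≤ d := by exact_mod_cast hd
    linarith
  apply strictMonoOn_of_deriv_pos (convex_Ici _) (Dd_continuous d).continuousOn
  intro x hx
  rw [interior_Ici] at hx
  have hx' : (d : ℝ) - 1 < x := hx
  rw [(Dd_hasDeriv d hd x).deriv]
  exact mul_pos (fp_pos d (by linarith)) (by linarith)

theorem Dd_zero (d : ℕ) (hd : 2 ≤ d) : Dd d 0 = 0 := by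
  unfold Dd
  rw [Fp_zero d (by omega)]
  simp

/-- `D < 0` on `(0, d-1]` -/
theorem Dd_neg (d : ℕ) (hd : 2 ≤ d) {x : ℝ} (hx : 0 < x) (hx2 : x ≤ (d : ℝ) - 1) :
    Dd d x < 0 := by
  have hd1 : (1 : ℝ) ≤ (d : ℝ) - 1 := by
    have : (2 : ℝ) ≤ d := by exact_mod_cast hd
    linarith
  have := Dd_anti d hd (Set.left_mem_Icc.2 (by linarith)) ⟨hx.le, hx2⟩ hx
  rwa [Dd_zero d hd] at this

/-- if `D y ≤ 0` then `D < 0` on `(0,y)` -/
theorem Dd_neg_of_le (d : ℕ) (hd : 2 ≤ d) {x y : ℝ} (hx : 0 < x) (hxy : x < y)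
    (hy : Dd d y ≤ 0) : Dd d x < 0 := by
  rcases le_or_gt x ((d : ℝ) - 1) with h | h
  · exact Dd_neg d hd hx h
  · exact lt_of_lt_of_le (Dd_mono d hd h.le (show (d : ℝ) - 1 ≤ y by linarith) hxy) hy

theorem q_hasDeriv (d : ℕ) (hd : 2 ≤ d) {x : ℝ} (hx : 0 < x) :
    HasDerivAt (fun x => Fp d x / x) (-(Dd d x) / x ^ 2) x := by
  have := (Fp_hasDeriv d (by omega) x).div (hasDerivAt_id x) hx.ne'
  refine this.congr_deriv ?_
  unfold Dd
  simp only [id]
  congr 1
  ring

theorem q_cont (d : ℕ) {a b : ℝ} (ha : 0 < a) :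
    ContinuousOn (fun x => Fp d x / x) (Set.Icc a b) := by
  apply (Fp_continuous d).continuousOn.div continuousOn_id
  intro x hx
  exact (lt_of_lt_of_le ha hx.1).ne'

theorem q_mono (d : ℕ) (hd : 2 ≤ d) {a b : ℝ} (ha : 0 < a) (hab : a < b)
    (h : ∀ x, a < x → x < b → Dd d x < 0) : Fp d a / a < Fp d b / b := by
  have hm : StrictMonoOn (fun x => Fp d x / x) (Set.Icc a b) := by
    apply strictMonoOn_of_deriv_pos (convex_Icc _ _) (q_cont d ha)
    intro x hx
    rw [interior_Icc] at hx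
    have hx0 : 0 < x := ha.trans hx.1
    rw [(q_hasDeriv d hd hx0).deriv]
    have := h x hx.1 hx.2
    exact div_pos (by linarith) (by positivity)
  exact hm (Set.left_mem_Icc.2 hab.le) (Set.right_mem_Icc.2 hab.le) hab

theorem q_anti (d : ℕ) (hd : 2 ≤ d) {a b : ℝ} (ha : 0 < a) (hab : a < b)
    (h : ∀ x, a < x → x < b → 0 < Dd d x) : Fp d b / b < Fp d a / a := by
  have hm : StrictAntiOn (fun x => Fp d x / x) (Set.Icc a b) := by
    apply strictAntiOn_of_deriv_neg (convex_Icc _ _) (q_cont d ha)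
    intro x hx
    rw [interior_Icc] at hx
    have hx0 : 0 < x := ha.trans hx.1
    rw [(q_hasDeriv d hd hx0).deriv]
    have := h x hx.1 hx.2
    exact div_neg_of_neg_of_pos (by linarith) (by positivity)
  exact hm (Set.left_mem_Icc.2 hab.le) (Set.right_mem_Icc.2 hab.le) hab

/-- compactness: a continuous function without zeros on a compact set is bounded away from `0` -/
theorem away {K : Set ℝ} (hK : IsCompact K) {g : ℝ → ℝ} (hg : Continuous g)
    (h : ∀ x ∈ K, g x ≠ 0) : ∃ δ > 0, ∀ x ∈ K, δ < |g x| := by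
  rcases K.eq_empty_or_nonempty with rfl | hne
  · exact ⟨1, one_pos, by simp⟩
  · obtain ⟨x0, hx0, hmin⟩ := hK.exists_isMinOn hne (hg.abs.continuousOn)
    have hpos : 0 < |g x0| := abs_pos.2 (h x0 hx0)
    refine ⟨|g x0| / 2, by positivity, fun x hx => ?_⟩
    have : |g x0| ≤ |g x| := hmin hx
    linarith

/-- if `z > 0` is a fixed point at `c'` and `c > c'`, then at `c` there is exactly one fixed point
`y` beyond `z`; it is stable, and `y > d - 1` -/
theorem an_root (d : ℕ) (hd : 2 ≤ d) (c' c z : ℝ) (hc' : 0 < c') (hcc : c' < c) (hz : 0 < z)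
    (hz' : z = c' * Fp d z) :
    ∃ y, z < y ∧ y = c * Fp d y ∧ c * fp d y < 1 ∧ (d : ℝ) - 1 < y ∧
      (∀ ε > 0, ∃ δ > 0, ∀ x, z ≤ x → x ≤ c → |x - c * Fp d x| ≤ δ → |x - y| ≤ ε) := by
  have hc : 0 < c := hc'.trans hcc
  have hFz : 0 < Fp d z := by
    by_contra h
    have : c' * Fp d z ≤ 0 := mul_nonpos_of_nonneg_of_nonpos hc'.le (not_lt.1 h)
    linarith
  have hzc' : z ≤ c' := by
    have := mul_le_mul_of_nonneg_left (Fp_le_one d hz.le) hc'.le
    linarith
  have hGz : z - c * Fp d z < 0 := by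
    have := mul_lt_mul_of_pos_right hcc hFz
    linarith
  have hGc : 0 < c - c * Fp d c := by
    have := mul_lt_mul_of_pos_left (Fp_lt_one d (by omega) hc.le) hc
    linarith
  have hG : Continuous (fun x => x - c * Fp d x) :=
    continuous_id.sub (continuous_const.mul (Fp_continuous d))
  -- every fixed point beyond `z` has `D > 0`
  have key : ∀ y, z < y → y = c * Fp d y → 0 < Dd d y := by
    intro y hzy hy
    by_contra hD
    have hlt := q_mono d hd hz hzy
      (fun x hx1 hx2 => Dd_neg_of_le d hd (hz.trans hx1) hx2 (not_lt.1 hD))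
    have hy0 : 0 < y := hz.trans hzy
    have e1 : Fp d z / z = 1 / c' := by
      rw [div_eq_div_iff hz.ne' hc'.ne']
      linarith
    have e2 : Fp d y / y = 1 / c := by
      rw [div_eq_div_iff hy0.ne' hc.ne']
      linarith
    rw [e1, e2] at hlt
    have := one_div_lt_one_div_of_lt hc' hcc
    linarith
  have key2 : ∀ y, z < y → y = c * Fp d y → (d : ℝ) - 1 < y := by
    intro y hzy hy
    by_contra h
    have := Dd_neg d hd (hz.trans hzy) (not_lt.1 h)
    have := key y hzy hy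
    linarith
  have uniq : ∀ y1 y2, z < y1 → y1 < y2 → y1 = c * Fp d y1 → y2 = c * Fp d y2 → False := by
    intro y1 y2 h1 h12 e1 e2
    have hp1 : 0 < y1 := hz.trans h1
    have hp2 : 0 < y2 := hp1.trans h12
    have hD1 := key y1 h1 e1
    have hd1 := key2 y1 h1 e1
    have hlt := q_anti d hd hp1 h12 (fun x hx1 _ =>
      hD1.trans (Dd_mono d hd hd1.le (show (d : ℝ) - 1 ≤ x by linarith) hx1))
    have e1' : Fp d y1 / y1 = 1 / c := by
      rw [div_eq_div_iff hp1.ne' hc.ne']
      linarith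
    have e2' : Fp d y2 / y2 = 1 / c := by
      rw [div_eq_div_iff hp2.ne' hc.ne']
      linarith
    rw [e1', e2'] at hlt
    exact lt_irrefl _ hlt
  have hzc : z ≤ c := by linarith
  obtain ⟨y, hymem, hy⟩ := intermediate_value_Icc hzc hG.continuousOn
    (show (0 : ℝ) ∈ Set.Icc (z - c * Fp d z) (c - c * Fp d c) from ⟨hGz.le, hGc.le⟩)
  have hy' : y = c * Fp d y := by
    have : y - c * Fp d y = 0 := hy
    linarith
  have hzy : z < y := by
    rcases hymem.1.lt_or_eq with h | h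
    · exact h
    · exfalso
      rw [← h] at hy'
      linarith
  refine ⟨y, hzy, hy', ?_, key2 y hzy hy', ?_⟩
  · have hD := key y hzy hy'
    unfold Dd at hD
    have hy0 : 0 < y := hz.trans hzy
    have h1 : c * (y * fp d y) < c * Fp d y := mul_lt_mul_of_pos_left (by linarith) hc
    rw [← hy'] at h1
    have h2 : y * (c * fp d y) < y * 1 := by
      rw [mul_one]
      calc y * (c * fp d y) = c * (y * fp d y) := by ring
        _ < y := h1
    exact lt_of_mul_lt_mul_left h2 hy0.le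
  · intro ε hε
    have hK : IsCompact (Set.Icc z c ∩ {x | ε ≤ |x - y|}) :=
      isCompact_Icc.inter_right (isClosed_le continuous_const
        ((continuous_id.sub continuous_const).abs))
    obtain ⟨δ, hδ, h⟩ := away hK hG (by
      rintro x ⟨hx, hxe⟩ h0
      have hxe' : ε ≤ |x - y| := hxe
      have hx' : x = c * Fp d x := by
        have : x - c * Fp d x = 0 := h0
        linarith
      have hzx : z < x := by
        rcases hx.1.lt_or_eq with h | h
        · exact h
        · exfalso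
          rw [← h] at hx'
          linarith
      have hne : x ≠ y := by
        rintro rfl
        rw [sub_self, abs_zero] at hxe'
        linarith
      rcases lt_or_gt_of_ne hne with h | h
      · exact uniq x y hzx h hx' hy'
      · exact uniq y x hzy h hy' hx')
    refine ⟨δ, hδ, fun x h1 h2 h3 => ?_⟩
    by_contra h4
    have := h x ⟨⟨h1, h2⟩, (not_le.1 h4).le⟩
    linarith

/-- compactness: approximate fixed points above `a` give a smallest positive fixed point `z`, and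
approximate fixed points above `b > 0` are at least `z - ε` -/
theorem an_small (d : ℕ) (hd : 2 ≤ d) (c : ℝ) (hc : 0 < c) (a : ℝ) (ha : 0 < a)
    (h : ∀ δ > 0, ∃ x, a ≤ x ∧ x ≤ c ∧ |x - c * Fp d x| ≤ δ) :
    ∃ z, 0 < z ∧ z = c * Fp d z ∧
      ∀ b > 0, ∀ ε > 0, ∃ δ > 0, ∀ x, b ≤ x → x ≤ c → |x - c * Fp d x| ≤ δ → z - ε ≤ x := by
  have hG : Continuous (fun x => x - c * Fp d x) :=
    continuous_id.sub (continuous_const.mul (Fp_continuous d))
  -- a zero in `[a, c]`
  have hex : ∃ x ∈ Set.Icc a c, x - c * Fp d x = 0 := by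
    by_contra hno
    push Not at hno
    obtain ⟨δ, hδ, h'⟩ := away isCompact_Icc hG hno
    obtain ⟨x, h1, h2, h3⟩ := h δ hδ
    have := h' x ⟨h1, h2⟩
    linarith
  obtain ⟨x0, hx0, hx0'⟩ := hex
  -- zeros are bounded away from `0`
  set η : ℝ := min 1 (1 / c) with hη
  have hη0 : 0 < η := lt_min one_pos (by positivity)
  have hbd : ∀ x, 0 < x → x - c * Fp d x = 0 → η ≤ x := by
    intro x hx hx'
    by_contra hlt
    push Not at hlt
    have hx1 : x < 1 := lt_of_lt_of_le hlt (min_le_left _ _)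
    have hx2 : x < 1 / c := lt_of_lt_of_le hlt (min_le_right _ _)
    obtain ⟨ξ, hξ, hξ'⟩ := exists_hasDerivAt_eq_slope (Fp d) (fp d) hx
      (Fp_continuous d).continuousOn (fun y _ => Fp_hasDeriv d (by omega) y)
    rw [Fp_zero d (by omega), sub_zero, sub_zero] at hξ'
    have hfξ : fp d ξ ≤ x := by
      unfold fp
      have h1 : Real.exp (-ξ) ≤ 1 := Real.exp_le_one_iff.2 (by linarith [hξ.1])
      have h2 : ξ ^ (d - 1) ≤ ξ := by
        calc ξ ^ (d - 1) ≤ ξ ^ 1 :=
              pow_le_pow_of_le_one hξ.1.le (by linarith [hξ.2]) (by omega)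
          _ = ξ := pow_one ξ
      have h3 : (1 : ℝ) ≤ ((d - 1).factorial : ℝ) := by
        exact_mod_cast Nat.one_le_iff_ne_zero.2 (Nat.factorial_ne_zero _)
      have h4 : 0 ≤ ξ ^ (d - 1) := pow_nonneg hξ.1.le _
      calc Real.exp (-ξ) * ξ ^ (d - 1) / ((d - 1).factorial : ℝ)
          ≤ Real.exp (-ξ) * ξ ^ (d - 1) := div_le_self (by positivity) h3
        _ ≤ 1 * ξ ^ (d - 1) := mul_le_mul_of_nonneg_right h1 h4
        _ ≤ x := by linarith [hξ.2]
    have hF : Fp d x = x * fp d ξ := by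
      rw [hξ']
      field_simp
    have h5 : x = c * (x * fp d ξ) := by
      rw [← hF]; linarith
    have h6 : c * (x * fp d ξ) ≤ c * (x * x) :=
      mul_le_mul_of_nonneg_left (mul_le_mul_of_nonneg_left hfξ hx.le) hc.le
    have h7 : c * x < 1 := by
      have := mul_lt_mul_of_pos_left hx2 hc
      rwa [mul_one_div_cancel hc.ne'] at this
    have h8 : c * (x * x) < x := by
      calc c * (x * x) = (c * x) * x := by ring
        _ < 1 * x := mul_lt_mul_of_pos_right h7 hx
        _ = x := one_mul x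
    linarith
  have hle : ∀ x, 0 < x → x - c * Fp d x = 0 → x ≤ c := by
    intro x hx hx'
    have := mul_le_mul_of_nonneg_left (Fp_le_one d hx.le) hc.le
    linarith
  have hK : IsCompact (Set.Icc η c ∩ {x | x - c * Fp d x = 0}) :=
    isCompact_Icc.inter_right (isClosed_eq hG continuous_const)
  have hx0p : 0 < x0 := lt_of_lt_of_le ha hx0.1
  have hne : (Set.Icc η c ∩ {x | x - c * Fp d x = 0}).Nonempty :=
    ⟨x0, ⟨hbd x0 hx0p hx0', hx0.2⟩, hx0'⟩
  obtain ⟨z, hz, hzmin⟩ := hK.exists_isMinOn hne continuous_id.continuousOn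
  have hz0 : 0 < z := lt_of_lt_of_le hη0 hz.1.1
  have hz' : z - c * Fp d z = 0 := hz.2
  refine ⟨z, hz0, by linarith, ?_⟩
  intro b hb ε hε
  have hK2 : IsCompact (Set.Icc b c ∩ {x | x ≤ z - ε}) :=
    isCompact_Icc.inter_right (isClosed_le continuous_id continuous_const)
  obtain ⟨δ, hδ, h'⟩ := away hK2 hG (by
    rintro x ⟨hx, hxz⟩ h0
    have hxz' : x ≤ z - ε := hxz
    have hxp : 0 < x := lt_of_lt_of_le hb hx.1
    have hmem : x ∈ Set.Icc η c ∩ {x | x - c * Fp d x = 0} :=
      ⟨⟨hbd x hxp h0, hx.2⟩, h0⟩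
    have : z ≤ x := hzmin hmem
    linarith)
  refine ⟨δ, hδ, fun x h1 h2 h3 => ?_⟩
  by_contra h4
  have := h' x ⟨⟨h1, h2⟩, (not_le.1 h4).le⟩
  linarith

end Pool.Agent.GRI
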