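import Mathlib

set_option autoImplicit false

/-! Shared definitions for MP_264ef2_co (giant rigid component of sparse random graphs). -/

namespace Pool.Agent.GRI

open Finset
open scoped Classical

/-! ### random subsets -/

/-- expectation of `f A`, where `A` is a random subset of the finite type `α` which contains every
element independently with probability `p` -/
noncomputable def Ex {α : Type*} [Fintype α] (p : ℝ) (f : Finset α → ℝ) : ℝ :=
  ∑ A : Finset α, p ^ A.card * (1 - p) ^ (Fintype.card α - A.card) * f A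

/-- probability of the event `Q` -/
noncomputable def Pr {α : Type*} [Fintype α] (p : ℝ) (Q : Finset α → Prop) : ℝ :=
  Ex p (fun A => if Q A then 1 else 0)

/-- density of the union of `i` independent `p`-random subsets -/
noncomputable def th (p : ℝ) (i : ℕ) : ℝ := 1 - (1 - p) ^ i

/-! ### graphs -/

/-- potential edges -/
abbrev Edg (n : ℕ) := {e : Sym2 (Fin n) // ¬ e.IsDiag}

/-- the graph with edge set `A` -/
def gr {n : ℕ} (A : Finset (Edg n)) : SimpleGraph (Fin n) :=
  SimpleGraph.fromEdgeSet ((fun e : Edg n => (e : Sym2 (Fin n))) '' (A : Set (Edg n)))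

/-- neighbours -/
noncomputable def nb {n : ℕ} (G : SimpleGraph (Fin n)) (v : Fin n) : Finset (Fin n) :=
  univ.filter (fun u => G.Adj v u)

/-- edges inside `T` -/
def ind {n : ℕ} (G : SimpleGraph (Fin n)) (T : Finset (Fin n)) : SimpleGraph (Fin n) where
  Adj a b := G.Adj a b ∧ a ∈ T ∧ b ∈ T
  symm := ⟨fun _ _ h => ⟨h.1.symm, h.2.2, h.2.1⟩⟩
  loopless := ⟨fun a h => G.loopless.irrefl a h.1⟩

/-- edges not meeting `U` -/
noncomputable abbrev del {n : ℕ} (G : SimpleGraph (Fin n)) (U : Finset (Fin n)) :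
    SimpleGraph (Fin n) := ind G Uᶜ

/-- number of ordered adjacent pairs in `S` (twice the number of edges inside `S`) -/
noncomputable def eo {n : ℕ} (G : SimpleGraph (Fin n)) (S : Finset (Fin n)) : ℕ :=
  ((S ×ˢ S).filter (fun e => G.Adj e.1 e.2)).card

/-- density of a set of vertices -/
noncomputable def rho {n : ℕ} (X : Finset (Fin n)) : ℝ := (X.card : ℝ) / n

/-- the largest `B ⊇ T` in which every vertex outside `T` has at least `d+1` neighbours in `B` -/
noncomputable def Cor {n : ℕ} (d : ℕ) (G : SimpleGraph (Fin n)) (T : Finset (Fin n)) :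
    Finset (Fin n) :=
  univ.filter (fun v => ∃ B : Finset (Fin n), v ∈ B ∧
    ∀ w ∈ B, w ∈ T ∨ d + 1 ≤ (nb G w ∩ B).card)

/-- the `((d+1)+d)`-core, exactly as in the frozen statement -/
noncomputable def Hat {n : ℕ} (d : ℕ) (G : SimpleGraph (Fin n)) : Finset (Fin n) :=
  univ.filter (fun v => ∀ T : Finset (Fin n),
        (∀ u : Fin n, (∃ S : Finset (Fin n), u ∈ S ∧ ∀ w ∈ S, d + 1 ≤ (S.filter (G.Adj w)).card) →
          u ∈ T) →
        (∀ w : Fin n, d ≤ (T.filter (G.Adj w)).card → w ∈ T) → v ∈ T)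

/-! ### systems (abstract pinning rules) -/

/-- An abstract pinning rule: `k G T w` is the number of degrees of freedom of `w` in the graph `G`
when the vertices of `T` are grounded. -/
structure Sys (n d : ℕ) where
  k : SimpleGraph (Fin n) → Finset (Fin n) → Fin n → ℕ
  le : ∀ G T w, k G T w ≤ d
  anti : ∀ G T T' w, T ⊆ T' → k G T' w ≤ k G T w
  up : ∀ G T v w, w ≠ v → k G T w ≤ k (del G {v}) T w
  down : ∀ G T v w, w ≠ v → k (del G {v}) (T ∪ nb G v) w ≤ k G T w
  star : ∀ G T v, v ∉ T →
    (∀ u ∈ nb G v, k (del G {v}) (T ∪ (nb G v).erase u) u = k (del G {v}) T u) →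
    (k G T v = 0 ↔ d ≤ ((nb G v).filter (fun u => k (del G {v}) T u = 0)).card)

/-- the pinned vertices -/
noncomputable def Sys.Phi {n d : ℕ} (S : Sys n d) (G : SimpleGraph (Fin n)) (T : Finset (Fin n)) :
    Finset (Fin n) := univ.filter (fun v => S.k G T v = 0)

/-! ### rigidity -/

/-- velocity fields (and placements) -/
abbrev Mot (n d : ℕ) := Fin n → Fin d → ℝ

/-- motions of the framework `(G, q)` that vanish on `T` -/
def Mo {n d : ℕ} (q : Mot n d) (G : SimpleGraph (Fin n)) (T : Finset (Fin n)) :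
    Submodule ℝ (Mot n d) where
  carrier := {m | (∀ t ∈ T, m t = 0) ∧ ∀ u w, G.Adj u w → (q u - q w) ⬝ᵥ (m u - m w) = 0}
  zero_mem' := by simp
  add_mem' := by
    rintro a b ⟨ha, ha'⟩ ⟨hb, hb'⟩
    refine ⟨fun t ht => by simp [ha t ht, hb t ht], fun u w h => ?_⟩
    have : (a + b) u - (a + b) w = (a u - a w) + (b u - b w) := by
      simp only [Pi.add_apply]; abel
    rw [this, dotProduct_add, ha' u w h, hb' u w h, add_zero]
  smul_mem' := by
    rintro c a ⟨ha, ha'⟩
    refine ⟨fun t ht => by simp [ha t ht], fun u w h => ?_⟩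
    have : (c • a) u - (c • a) w = c • (a u - a w) := by
      simp only [Pi.smul_apply, smul_sub]
    rw [this, dotProduct_smul, ha' u w h, smul_zero]

/-- degrees of freedom of `w` -/
noncomputable def kk {n d : ℕ} (q : Mot n d) (G : SimpleGraph (Fin n)) (T : Finset (Fin n))
    (w : Fin n) : ℕ :=
  Module.finrank ℝ ((Mo q G T).map (LinearMap.proj (R := ℝ) (φ := fun _ : Fin n => Fin d → ℝ) w))

/-- projection to the velocities on `K` -/
noncomputable def PK {n d : ℕ} (K : Finset (Fin n)) : Mot n d →ₗ[ℝ] Mot n d where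
  toFun m v := if v ∈ K then m v else 0
  map_add' a b := by ext v i; by_cases h : v ∈ K <;> simp [h]
  map_smul' c a := by ext v i; by_cases h : v ∈ K <;> simp [h]

/-- dimension of the space of motions restricted to `K` -/
noncomputable def rd {n d : ℕ} (q : Mot n d) (G : SimpleGraph (Fin n)) (K : Finset (Fin n)) : ℕ :=
  Module.finrank ℝ ((Mo q G ∅).map (PK K))

/-- `K` moves rigidly in `(G, q)` -/
def Rg {n d : ℕ} (q : Mot n d) (G : SimpleGraph (Fin n)) (K : Finset (Fin n)) : Prop :=
  rd q G K ≤ d * (d + 1) / 2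

/-- `q` is generic: all motion spaces have minimal dimension -/
def Good {n d : ℕ} (q : Mot n d) : Prop :=
  ∀ (G : SimpleGraph (Fin n)) (T : Finset (Fin n)) (q' : Mot n d),
    Module.finrank ℝ (Mo q G T) ≤ Module.finrank ℝ (Mo q' G T)

/-- the vertices pinned by grounding `T` -/
noncomputable def PhiR {n d : ℕ} (q : Mot n d) (G : SimpleGraph (Fin n)) (T : Finset (Fin n)) :
    Finset (Fin n) := univ.filter (fun v => kk q G T v = 0)

/-- the vertices pinned in the core system -/
noncomputable def PhiC {n : ℕ} (d : ℕ) (G : SimpleGraph (Fin n)) (T : Finset (Fin n)) :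
    Finset (Fin n) := univ.filter (fun v => v ∈ T ∨ d ≤ (nb G v ∩ Cor d G (insert v T)).card)

/-- `K` is a maximal set moving rigidly -/
def MaxRg {n d : ℕ} (q : Mot n d) (G : SimpleGraph (Fin n)) (K : Finset (Fin n)) : Prop :=
  Rg q G K ∧ ∀ K', K ⊆ K' → Rg q G K' → K' = K

/-- every nonempty `S` with at most `ε n` vertices spans fewer than `(1 + 1/L) |S|` edges -/
def Sp {n : ℕ} (L : ℕ) (ε : ℝ) (G : SimpleGraph (Fin n)) : Prop :=
  ∀ S : Finset (Fin n), S.Nonempty → (S.card : ℝ) ≤ ε * n → L * eo G S < 2 * (L + 1) * S.card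

/-- the predicate `rig` of the frozen statement -/
def rigF (d n : ℕ) (G : SimpleGraph (Fin n)) (S : Finset (Fin n)) : Prop :=
  ((S.card ≤ d ∧ ∀ u ∈ S, ∀ v ∈ S, u ≠ v → G.Adj u v) ∨
         (d + 1 ≤ S.card ∧ ∃ q : Fin n → Fin d → ℝ,
            d * S.card - d * (d + 1) / 2 ≤
              (Matrix.of (fun (e : Fin n × Fin n) (x : Fin n × Fin d) =>
                if e.1 ∈ S ∧ e.2 ∈ S ∧ G.Adj e.1 e.2 then
                  (if x.1 = e.1 then q e.1 x.2 - q e.2 x.2
                   else if x.1 = e.2 then q e.2 x.2 - q e.1 x.2 else 0)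
                else 0)).rank))

/-! ### the limiting function -/

/-- `P(Poisson(y) ≥ d)` -/
noncomputable def Fp (d : ℕ) (y : ℝ) : ℝ :=
  1 - Real.exp (-y) * ∑ j ∈ range d, y ^ j / (j.factorial : ℝ)

/-- `P(Poisson(y) = d - 1)`, the derivative of `Fp d` -/
noncomputable def fp (d : ℕ) (y : ℝ) : ℝ :=
  Real.exp (-y) * y ^ (d - 1) / ((d - 1).factorial : ℝ)

end Pool.Agent.GRI
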