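import Pool.Agent.Lib_MP_264ef2_ins.Mat

set_option autoImplicit false

namespace Pool.Agent.RigidINS

open Finset
open scoped Classical
open Pool.Agent.GRI

variable {n : ℕ}

/-! ### the core -/

theorem filter_mono {A B : Finset (Fin n)} (G : SimpleGraph (Fin n)) (v : Fin n) (h : A ⊆ B) :
    (A.filter (G.Adj v)).card ≤ (B.filter (G.Adj v)).card :=
  Finset.card_le_card (Finset.filter_subset_filter _ h)

/-- union of all sets inducing minimum degree at least `k` -/
noncomputable def core0 (k : ℕ) (G : SimpleGraph (Fin n)) : Finset (Fin n) :=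
  univ.filter (fun v => ∃ S : Finset (Fin n), v ∈ S ∧ ∀ w ∈ S, k ≤ (S.filter (G.Adj w)).card)

theorem isCore_core0 (k : ℕ) (G : SimpleGraph (Fin n)) : IsCore k G (core0 k G) := by
  constructor
  · intro w hw
    obtain ⟨S, hwS, hS⟩ := (Finset.mem_filter.1 hw).2
    refine (hS w hwS).trans (filter_mono G w ?_)
    intro x hx
    exact Finset.mem_filter.2 ⟨mem_univ _, S, hx, hS⟩
  · intro S hS x hx
    exact Finset.mem_filter.2 ⟨mem_univ _, S, hx, hS⟩

theorem isCore_iff (k : ℕ) (G : SimpleGraph (Fin n)) (C : Finset (Fin n)) :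
    IsCore k G C ↔ C = core0 k G := by
  constructor
  · intro h
    exact IsGreatest.unique h (isCore_core0 k G)
  · rintro rfl
    exact isCore_core0 k G

theorem hat_least {d : ℕ} {G : SimpleGraph (Fin n)} {B : Finset (Fin n)}
    (h : Relation.ReflTransGen (Step d G) (core0 (d + 1) G) B) :
    core0 (d + 1) G ⊆ B ∧ B ⊆ Hat d G := by
  induction h with
  | refl =>
    refine ⟨subset_rfl, ?_⟩
    intro v hv
    refine Finset.mem_filter.2 ⟨mem_univ _, fun T hT1 hT2 => ?_⟩
    exact hT1 v (Finset.mem_filter.1 hv).2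
  | tail _ hst ih =>
    obtain ⟨v, hv, hd, rfl⟩ := hst
    refine ⟨ih.1.trans (Finset.subset_insert _ _), ?_⟩
    intro x hx
    rcases Finset.mem_insert.1 hx with rfl | hx
    · refine Finset.mem_filter.2 ⟨mem_univ _, fun T hT1 hT2 => ?_⟩
      apply hT2
      refine hd.trans (filter_mono G x ?_)
      intro y hy
      exact (Finset.mem_filter.1 (ih.2 hy)).2 T hT1 hT2
    · exact ih.2 hx

theorem hat_of_stuck {d : ℕ} {G : SimpleGraph (Fin n)} {B : Finset (Fin n)}
    (h : Relation.ReflTransGen (Step d G) (core0 (d + 1) G) B) (hB : ¬ ∃ B', Step d G B B') :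
    B = Hat d G := by
  obtain ⟨h1, h2⟩ := hat_least h
  refine Finset.Subset.antisymm h2 ?_
  intro v hv
  refine (Finset.mem_filter.1 hv).2 B ?_ ?_
  · intro u hu
    exact h1 (Finset.mem_filter.2 ⟨mem_univ _, hu⟩)
  · intro w hw
    by_contra hwB
    exact hB ⟨insert w B, w, hwB, hw, rfl⟩

theorem isHatCore_iff (d : ℕ) (G : SimpleGraph (Fin n)) (B : Finset (Fin n)) :
    IsHatCore d G B ↔ B = Hat d G := by
  constructor
  · rintro ⟨C, hC, h1, h2⟩
    rw [isCore_iff] at hC
    subst hC
    exact hat_of_stuck h1 h2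
  · rintro rfl
    -- a largest reachable set
    obtain ⟨B, hB, hmax⟩ := Finset.exists_max_image
      (univ.filter (fun B : Finset (Fin n) =>
        Relation.ReflTransGen (Step d G) (core0 (d + 1) G) B)) Finset.card
      ⟨core0 (d + 1) G, Finset.mem_filter.2 ⟨mem_univ _, Relation.ReflTransGen.refl⟩⟩
    have h1 := (Finset.mem_filter.1 hB).2
    have h2 : ¬ ∃ B', Step d G B B' := by
      rintro ⟨B', hB'⟩
      have h3 := hmax B' (Finset.mem_filter.2 ⟨mem_univ _, h1.tail hB'⟩)
      obtain ⟨v, hv, -, rfl⟩ := hB'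
      rw [Finset.card_insert_of_notMem hv] at h3
      omega
    have h3 := hat_of_stuck h1 h2
    rw [← h3]
    exact ⟨core0 (d + 1) G, isCore_core0 _ G, h1, h2⟩

/-! ### orientations -/

/-- edges inside `S` -/
noncomputable def inside (G : SimpleGraph (Fin n)) (S : Finset (Fin n)) : Finset G.edgeSet :=
  univ.filter (fun e : G.edgeSet => ∀ v ∈ (e : Sym2 (Fin n)), v ∈ S)

theorem eo_eq (G : SimpleGraph (Fin n)) (S : Finset (Fin n)) :
    eo G S = 2 * (inside G S).card := by
  have h1 : (inside G S).card = (ind G S).edgeFinset.card := by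
    refine Finset.card_bij (fun e _ => (e : Sym2 (Fin n))) ?_ ?_ ?_
    · rintro ⟨e, he⟩ h
      induction e using Sym2.ind with
      | _ u w =>
        have h2 := (Finset.mem_filter.1 h).2
        rw [SimpleGraph.mem_edgeFinset]
        exact ⟨he, h2 u (Sym2.mem_mk_left u w), h2 w (Sym2.mem_mk_right u w)⟩
    · intro a _ b _ hab
      exact Subtype.ext hab
    · intro e he
      rw [SimpleGraph.mem_edgeFinset] at he
      induction e using Sym2.ind with
      | _ u w =>
        have he' : (ind G S).Adj u w := he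
        refine ⟨⟨s(u, w), he'.1⟩, Finset.mem_filter.2 ⟨mem_univ _, ?_⟩, rfl⟩
        intro v hv
        rcases Sym2.mem_iff.1 hv with rfl | rfl
        · exact he'.2.1
        · exact he'.2.2
  rw [h1, ← SimpleGraph.sum_degrees_eq_twice_card_edges]
  have h2 : (S ×ˢ S).filter (fun e : Fin n × Fin n => G.Adj e.1 e.2) =
      univ.filter (fun e : Fin n × Fin n => (ind G S).Adj e.1 e.2) := by
    ext ⟨a, b⟩
    simp only [ind, Finset.mem_filter, Finset.mem_product, Finset.mem_univ, true_and]
    tauto
  rw [eo, h2, Finset.card_filter, Fintype.sum_prod_type]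
  refine Finset.sum_congr rfl fun v _ => ?_
  rw [← Finset.card_filter, ← SimpleGraph.card_neighborFinset_eq_degree]
  congr 1
  ext w
  simp

theorem orientable_iff (d : ℕ) (G : SimpleGraph (Fin n)) :
    Orientable d G ↔ ∀ S : Finset (Fin n), eo G S ≤ 2 * d * S.card := by
  constructor
  · rintro ⟨f, hf, hd⟩ S
    rw [eo_eq]
    have h1 : (inside G S).card = ∑ v ∈ S, ((inside G S).filter (fun e => f e = v)).card := by
      apply Finset.card_eq_sum_card_fiberwise
      intro e he
      have he' : e ∈ inside G S := he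
      exact (Finset.mem_filter.1 he').2 _ (hf e)
    have h2 : ∑ v ∈ S, ((inside G S).filter (fun e => f e = v)).card ≤ ∑ _v ∈ S, d := by
      refine Finset.sum_le_sum fun v _ => ?_
      refine (Finset.card_le_card ?_).trans (hd v)
      exact Finset.filter_subset_filter _ (Finset.subset_univ _)
    rw [Finset.sum_const, smul_eq_mul] at h2
    rw [h1, mul_assoc, mul_comm d]
    omega
  · intro h
    let t : G.edgeSet → Finset (Fin n × Fin d) := fun e =>
      (univ.filter (fun v => v ∈ (e : Sym2 (Fin n)))) ×ˢ univ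
    have hall : ∀ s : Finset G.edgeSet, s.card ≤ (s.biUnion t).card := by
      intro s
      let W : Finset (Fin n) := s.biUnion (fun e => univ.filter (fun v => v ∈ (e : Sym2 (Fin n))))
      have h1 : s.biUnion t = W ×ˢ univ := by
        ext ⟨v, i⟩
        simp only [t, W, Finset.mem_biUnion, Finset.mem_product, Finset.mem_filter,
          Finset.mem_univ, true_and, and_true]
      have h2 : s ⊆ inside G W := by
        intro e he
        refine Finset.mem_filter.2 ⟨mem_univ _, fun v hv => ?_⟩
        exact Finset.mem_biUnion.2 ⟨e, he, Finset.mem_filter.2 ⟨mem_univ _, hv⟩⟩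
      have h3 := Finset.card_le_card h2
      have h4 := h W
      rw [eo_eq] at h4
      rw [h1, Finset.card_product, Finset.card_univ, Fintype.card_fin, mul_comm]
      rw [mul_assoc] at h4
      omega
    obtain ⟨F, hF, hFt⟩ := (Finset.all_card_le_biUnion_card_iff_exists_injective t).1 hall
    refine ⟨fun e => (F e).1, fun e => ?_, fun v => ?_⟩
    · have h1 := hFt e
      exact (Finset.mem_filter.1 (Finset.mem_product.1 h1).1).2
    · have h1 : ((univ.filter (fun e : G.edgeSet => (F e).1 = v)).card) ≤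
          (univ : Finset (Fin d)).card := by
        refine Finset.card_le_card_of_injOn (fun e => (F e).2) (fun _ _ => mem_univ _) ?_
        intro a ha b hb hab
        have ha' : (F a).1 = v := by simpa using ha
        have hb' : (F b).1 = v := by simpa using hb
        apply hF
        exact Prod.ext (ha'.trans hb'.symm) hab
      simpa using h1

/-! ### probability -/

theorem msing : MeasurableSingletonClass (SimpleGraph (Fin n)) := ⟨fun G => by
  rw [← SimpleGraph.measurableEmbedding_edgeSet.measurableSet_image, Set.image_singleton]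
  exact measurableSet_singleton _⟩

theorem real_eq (p : unitInterval) (Q : SimpleGraph (Fin n) → Prop) :
    (SimpleGraph.binomialRandom (Fin n) p).real {G | Q G} =
      Pr (p : ℝ) (fun A : Finset (Edg n) => Q (gr A)) := by
  rw [← Pr_eq]
  have := msing (n := n)
  have h1 : {G : SimpleGraph (Fin n) | Q G} =
      ((univ.filter Q : Finset (SimpleGraph (Fin n))) : Set (SimpleGraph (Fin n))) := by
    ext G
    simp
  rw [h1, ← MeasureTheory.sum_measureReal_singleton, Finset.sum_filter]
  refine Finset.sum_congr rfl fun G _ => ?_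
  by_cases hQ : Q G
  · rw [if_pos hQ, if_pos hQ, MeasureTheory.measureReal_def, SimpleGraph.binomialRandom_singleton]
    have h2 : G.edgeSet.ncard = G.edgeFinset.card := by
      rw [Set.ncard_eq_toFinset_card']
      rfl
    rw [h2, Nat.card_eq_fintype_card, Fintype.card_fin]
    simp
  · rw [if_neg hQ, if_neg hQ]

theorem AAS_iff (c : ℝ) (hc : 0 < c) (Q : (n : ℕ) → SimpleGraph (Fin n) → Prop) :
    AAS c Q ↔ Filter.Tendsto (fun n : ℕ => Pr (c / (n : ℝ)) (fun A : Finset (Edg n) => Q n (gr A)))
      Filter.atTop (nhds 1) := by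
  unfold AAS
  apply Filter.tendsto_congr'
  obtain ⟨N, hN⟩ := exists_nat_gt_of c
  filter_upwards [Filter.eventually_ge_atTop N] with n hn
  obtain ⟨p0, p1⟩ := p_bounds hc (hN n hn)
  rw [real_eq, Set.projIcc_of_mem (zero_le_one' ℝ) (⟨p0, p1⟩ : c / (n : ℝ) ∈ Set.Icc (0 : ℝ) 1)]

/-- from small bad probability to a.a.s. -/
theorem AAS_of_small (c : ℝ) (hc : 0 < c)
    (Q : (n : ℕ) → SimpleGraph (Fin n) → Prop)
    (h : ∀ η > 0, ∃ N : ℕ, ∀ n : ℕ, N ≤ n →
      Pr (c / n) (fun A : Finset (Edg n) => ¬ Q n (gr A)) ≤ η) : AAS c Q := by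
  rw [AAS_iff c hc, Metric.tendsto_atTop]
  intro ε hε
  obtain ⟨N1, h1⟩ := h (ε / 2) (by positivity)
  obtain ⟨N2, h2⟩ := exists_nat_gt_of c
  refine ⟨N1 + N2, fun n hn => ?_⟩
  obtain ⟨p0, p1⟩ := p_bounds hc (h2 n (by omega))
  have a1 := h1 n (by omega)
  have a2 := Pr_not (c / n) (fun A : Finset (Edg n) => Q n (gr A))
  have a3 := Pr_le_one p0 p1 (fun A : Finset (Edg n) => Q n (gr A))
  rw [Real.dist_eq, abs_lt]
  constructor <;> linarith

theorem small_of_AAS (c : ℝ) (hc : 0 < c)
    (Q : (n : ℕ) → SimpleGraph (Fin n) → Prop) (h : AAS c Q) :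
    ∀ η > 0, ∃ N : ℕ, ∀ n : ℕ, N ≤ n →
      Pr (c / n) (fun A : Finset (Edg n) => ¬ Q n (gr A)) ≤ η := by
  intro η hη
  rw [AAS_iff c hc, Metric.tendsto_atTop] at h
  obtain ⟨N, hN⟩ := h η hη
  refine ⟨N, fun n hn => ?_⟩
  have := hN n hn
  rw [Real.dist_eq, abs_lt] at this
  have a2 := Pr_not (c / n) (fun A : Finset (Edg n) => Q n (gr A))
  linarith

end Pool.Agent.RigidINS
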