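import Pool.Agent.Lib_MP_264ef2_ins.Rigid

set_option autoImplicit false

namespace Pool.Agent.GRI

open Finset
open scoped Classical

namespace DLem

variable {n d : ℕ} {q : Mot n d}

theorem mem_nb {G : SimpleGraph (Fin n)} {u v : Fin n} : u ∈ nb G v ↔ G.Adj v u := by
  simp [nb]

theorem nb_ind {G : SimpleGraph (Fin n)} {S : Finset (Fin n)} {w : Fin n} (hw : w ∈ S) :
    nb (ind G S) w = nb G w ∩ S := by
  ext u
  simp [mem_nb, ind, hw]

theorem eo_eq_sum (G : SimpleGraph (Fin n)) (S : Finset (Fin n)) :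
    eo G S = ∑ v ∈ S, (nb G v ∩ S).card := by
  unfold eo
  rw [Finset.card_filter, Finset.sum_product]
  refine Finset.sum_congr rfl fun v _ => ?_
  rw [← Finset.card_filter]
  congr 1
  ext u
  simp [mem_nb, and_comm]

/-- the number of ordered pairs, erasing a vertex -/
theorem cE_erase (G : SimpleGraph (Fin n)) (W K : Finset (Fin n)) (hWK : Disjoint W K)
    {w : Fin n} (hw : w ∈ W) :
    eo G W + 2 * ∑ v ∈ W, (nb G v ∩ K).card =
      (eo G (W.erase w) + 2 * ∑ v ∈ W.erase w, (nb G v ∩ K).card) +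
        2 * (nb G w ∩ (W ∪ K)).card := by
  have h1 : (nb G w ∩ (W ∪ K)).card = (nb G w ∩ W).card + (nb G w ∩ K).card := by
    rw [Finset.inter_union_distrib_left]
    refine Finset.card_union_of_disjoint ?_
    exact Finset.disjoint_of_subset_left Finset.inter_subset_right
      (Finset.disjoint_of_subset_right Finset.inter_subset_right hWK)
  have h2 : ∑ v ∈ W, (nb G v ∩ K).card =
      (nb G w ∩ K).card + ∑ v ∈ W.erase w, (nb G v ∩ K).card :=
    (Finset.add_sum_erase W (fun v => (nb G v ∩ K).card) hw).symm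
  have h3 : eo G W = eo G (W.erase w) + 2 * (nb G w ∩ W).card := by
    rw [eo_eq_sum, eo_eq_sum, ← Finset.add_sum_erase W (fun v => (nb G v ∩ W).card) hw]
    have h4 : ∀ v ∈ W.erase w, (nb G v ∩ W).card =
        (nb G v ∩ W.erase w).card + (if G.Adj w v then 1 else 0) := by
      intro v hv
      by_cases hadj : G.Adj w v
      · rw [if_pos hadj]
        have : nb G v ∩ W = insert w (nb G v ∩ W.erase w) := by
          ext u
          simp only [Finset.mem_inter, mem_nb, Finset.mem_insert, Finset.mem_erase]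
          constructor
          · rintro ⟨h1, h2⟩
            by_cases hu : u = w
            · exact Or.inl hu
            · exact Or.inr ⟨h1, hu, h2⟩
          · rintro (rfl | ⟨h1, h2, h3⟩)
            · exact ⟨hadj.symm, hw⟩
            · exact ⟨h1, h3⟩
        rw [this, Finset.card_insert_of_notMem]
        simp
      · rw [if_neg hadj, add_zero]
        congr 1
        ext u
        simp only [Finset.mem_inter, mem_nb, Finset.mem_erase]
        constructor
        · rintro ⟨g1, g2⟩
          refine ⟨g1, ?_, g2⟩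
          intro huw
          exact hadj (huw ▸ g1.symm)
        · rintro ⟨g1, _, g3⟩
          exact ⟨g1, g3⟩
    rw [Finset.sum_congr rfl h4, Finset.sum_add_distrib]
    have h5 : ∑ v ∈ W.erase w, (if G.Adj w v then 1 else 0) = (nb G w ∩ W).card := by
      rw [← Finset.card_filter]
      congr 1
      ext u
      simp only [Finset.mem_filter, Finset.mem_erase, Finset.mem_inter, mem_nb]
      constructor
      · rintro ⟨⟨_, h2⟩, h3⟩
        exact ⟨h3, h2⟩
      · rintro ⟨h1, h2⟩
        exact ⟨⟨fun h => G.loopless.irrefl w (h ▸ h1), h2⟩, h1⟩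
    omega
  rw [h1, h2, h3]
  ring

theorem ind_del {G : SimpleGraph (Fin n)} {W K : Finset (Fin n)} {w : Fin n} (hwK : w ∉ K) :
    del (ind G (W ∪ K)) {w} = ind G (W.erase w ∪ K) := by
  ext a b
  simp only [del, ind, Finset.mem_union, Finset.mem_compl, Finset.mem_singleton,
    Finset.mem_erase]
  constructor
  · rintro ⟨⟨h1, h2, h3⟩, h4, h5⟩
    refine ⟨h1, ?_, ?_⟩
    · rcases h2 with h2 | h2
      · exact Or.inl ⟨h4, h2⟩
      · exact Or.inr h2
    · rcases h3 with h3 | h3
      · exact Or.inl ⟨h5, h3⟩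
      · exact Or.inr h3
  · rintro ⟨h1, h2, h3⟩
    refine ⟨⟨h1, ?_, ?_⟩, ?_, ?_⟩
    · rcases h2 with h2 | h2
      · exact Or.inl h2.2
      · exact Or.inr h2
    · rcases h3 with h3 | h3
      · exact Or.inl h3.2
      · exact Or.inr h3
    · rcases h2 with h2 | h2
      · exact h2.1
      · rintro rfl; exact hwK h2
    · rcases h3 with h3 | h3
      · exact h3.1
      · rintro rfl; exact hwK h3

theorem insert_compl {W : Finset (Fin n)} {w : Fin n} (_hw : w ∈ W) :
    insert w Wᶜ = (W.erase w)ᶜ := by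
  ext u
  simp only [Finset.mem_insert, Finset.mem_compl, Finset.mem_erase]
  tauto

/-- isolating a vertex of `W` -/
theorem finrank_step (q : Mot n d) (G : SimpleGraph (Fin n)) (W K : Finset (Fin n)) {w : Fin n}
    (hw : w ∈ W) (hwK : w ∉ K) :
    Module.finrank ℝ (Mo q (ind G (W.erase w ∪ K)) (W.erase w)ᶜ) + d =
      Module.finrank ℝ (Mo q (del (ind G (W ∪ K)) {w}) Wᶜ) := by
  have h := finrank_insert_isolated q (del (ind G (W ∪ K)) {w}) w (by
    ext u
    simp [mem_nb, del, ind]) Wᶜ (by simpa using hw)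
  rw [insert_compl hw, ind_del hwK] at h
  rw [ind_del hwK]
  exact h

/-- lower bound from the induction hypothesis -/
theorem step_ge (q : Mot n d) (G : SimpleGraph (Fin n)) (W K : Finset (Fin n)) {w : Fin n}
    (hw : w ∈ W) (hwK : w ∉ K) :
    Module.finrank ℝ (Mo q (ind G (W.erase w ∪ K)) (W.erase w)ᶜ) + d ≤
      Module.finrank ℝ (Mo q (ind G (W ∪ K)) Wᶜ) + (nb G w ∩ (W ∪ K)).card := by
  rw [finrank_step q G W K hw hwK, ← nb_ind (Finset.mem_union_left K hw)]
  exact finrank_del_le q (ind G (W ∪ K)) w Wᶜ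

theorem step_eq (hq : Good q) (G : SimpleGraph (Fin n)) (W K : Finset (Fin n)) {w : Fin n}
    (hw : w ∈ W) (hwK : w ∉ K) (hd : (nb G w ∩ (W ∪ K)).card ≤ d) :
    Module.finrank ℝ (Mo q (ind G (W ∪ K)) Wᶜ) + (nb G w ∩ (W ∪ K)).card =
    Module.finrank ℝ (Mo q (ind G (W.erase w ∪ K)) (W.erase w)ᶜ) + d := by
  rw [finrank_step q G W K hw hwK, ← nb_ind (Finset.mem_union_left K hw)]
  rw [← nb_ind (Finset.mem_union_left K hw)] at hd
  exact finrank_del hq (ind G (W ∪ K)) w hd Wᶜ (by simpa using hw)

/-- linear algebra: moving the point -/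
theorem vec_zero (N : Finset (Fin d → ℝ)) (y0 t : Fin d → ℝ)
    (hP : ∀ x : Fin d → ℝ, (∀ e ∈ N, e ⬝ᵥ x = 0) → y0 ⬝ᵥ x = 0 → x = 0)
    (ht : ∀ y : Fin d → ℝ, (∀ x : Fin d → ℝ, (∀ e ∈ N, e ⬝ᵥ x = 0) → y ⬝ᵥ x = 0 → x = 0) →
      y ⬝ᵥ t = 0) : t = 0 := by
  have h0 := ht y0 hP
  have key : ∀ v : Fin d → ℝ, v ⬝ᵥ t = 0 := by
    intro v
    by_cases h1 : ∀ x : Fin d → ℝ, (∀ e ∈ N, e ⬝ᵥ x = 0) → (y0 + v) ⬝ᵥ x = 0 → x = 0
    · have := ht _ h1
      rw [add_dotProduct, h0, zero_add] at this
      exact this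
    by_cases h2 : ∀ x : Fin d → ℝ, (∀ e ∈ N, e ⬝ᵥ x = 0) → (y0 + (2 : ℝ) • v) ⬝ᵥ x = 0 → x = 0
    · have := ht _ h2
      rw [add_dotProduct, h0, zero_add, smul_dotProduct, smul_eq_mul] at this
      linarith
    exfalso
    push Not at h1 h2
    obtain ⟨x1, hx1, hy1, hn1⟩ := h1
    obtain ⟨x2, hx2, hy2, hn2⟩ := h2
    rw [add_dotProduct] at hy1 hy2
    rw [smul_dotProduct, smul_eq_mul] at hy2
    -- a combination of x1 and x2 is orthogonal to y0
    have h3 : (y0 ⬝ᵥ x2) • x1 - (y0 ⬝ᵥ x1) • x2 = 0 := by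
      apply hP
      · intro e he
        rw [dotProduct_sub, dotProduct_smul, dotProduct_smul, hx1 e he, hx2 e he]
        simp
      · rw [dotProduct_sub, dotProduct_smul, dotProduct_smul, smul_eq_mul, smul_eq_mul]
        ring
    have h4 : v ⬝ᵥ ((y0 ⬝ᵥ x2) • x1 - (y0 ⬝ᵥ x1) • x2) = 0 := by rw [h3]; simp
    rw [dotProduct_sub, dotProduct_smul, dotProduct_smul, smul_eq_mul, smul_eq_mul] at h4
    have h5 : y0 ⬝ᵥ x1 ≠ 0 := fun h => hn1 (hP x1 hx1 h)
    have h6 : y0 ⬝ᵥ x2 ≠ 0 := fun h => hn2 (hP x2 hx2 h)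
    have h7 : v ⬝ᵥ x1 = - (y0 ⬝ᵥ x1) := by linarith
    have h8 : v ⬝ᵥ x2 = - (y0 ⬝ᵥ x2) / 2 := by linarith
    rw [h7, h8] at h4
    have : (y0 ⬝ᵥ x1) * (y0 ⬝ᵥ x2) = 0 := by linarith
    rcases mul_eq_zero.1 this with h | h
    · exact h5 h
    · exact h6 h
  have := key t
  exact dotProduct_self_eq_zero.1 this

theorem sum_nb_comm (G : SimpleGraph (Fin n)) (A B : Finset (Fin n)) :
    ∑ u ∈ A, (nb G u ∩ B).card = ∑ v ∈ B, (nb G v ∩ A).card := by
  have h1 : ∀ A B : Finset (Fin n), ∑ u ∈ A, (nb G u ∩ B).card =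
      ∑ u ∈ A, ∑ v ∈ B, (if G.Adj u v then 1 else 0) := by
    intro A B
    refine Finset.sum_congr rfl fun u _ => ?_
    rw [← Finset.card_filter]
    congr 1
    ext v
    simp [mem_nb, and_comm]
  rw [h1, h1, Finset.sum_comm]
  refine Finset.sum_congr rfl fun v _ => Finset.sum_congr rfl fun u _ => ?_
  simp [G.adj_comm]

/-- counting: some vertex of `W` has exactly two neighbours in `W` and private neighbours in `K` -/
theorem exists_w (hd : 2 ≤ d) (G : SimpleGraph (Fin n)) (ε : ℝ) (hS : Sp (8 * d) ε G)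
    (W K : Finset (Fin n)) (hWK : Disjoint W K) (hW : (d : ℝ) * W.card ≤ ε * n)
    (hne : W.Nonempty) (hK : ∀ w ∈ W, (nb G w ∩ K).card + 1 ≤ d)
    (hdeg : ∀ w ∈ W, d + 1 ≤ (nb G w ∩ (W ∪ K)).card) :
    ∃ w ∈ W, (nb G w ∩ W).card = 2 ∧ (nb G w ∩ K).card + 1 = d ∧
      ∀ u ∈ nb G w ∩ K, ∀ w' ∈ W, G.Adj w' u → w' = w := by
  have hsplit : ∀ (w : Fin n) (A B : Finset (Fin n)), Disjoint A B →
      (nb G w ∩ (A ∪ B)).card = (nb G w ∩ A).card + (nb G w ∩ B).card := by
    intro w A B hAB
    rw [Finset.inter_union_distrib_left]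
    refine Finset.card_union_of_disjoint ?_
    exact Finset.disjoint_of_subset_left Finset.inter_subset_right
      (Finset.disjoint_of_subset_right Finset.inter_subset_right hAB)
  have h2 : ∀ w ∈ W, 2 ≤ (nb G w ∩ W).card := by
    intro w hw
    have e1 := hdeg w hw
    rw [hsplit w W K hWK] at e1
    have e2 := hK w hw
    omega
  set N : Finset (Fin n) := K.filter (fun u => ∃ w ∈ W, G.Adj w u) with hN
  have hNK : N ⊆ K := Finset.filter_subset _ _
  have hWN : Disjoint W N := Finset.disjoint_of_subset_right hNK hWK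
  have hnbN : ∀ w ∈ W, nb G w ∩ N = nb G w ∩ K := by
    intro w hw
    ext u
    simp only [Finset.mem_inter, mem_nb, hN, Finset.mem_filter]
    constructor
    · rintro ⟨g1, g2, _⟩
      exact ⟨g1, g2⟩
    · rintro ⟨g1, g2⟩
      exact ⟨g1, g2, w, hw, g1⟩
  set e : ℕ := ∑ w ∈ W, (nb G w ∩ K).card with he
  have he1 : ∑ w ∈ W, (nb G w ∩ N).card = e :=
    Finset.sum_congr rfl fun w hw => by rw [hnbN w hw]
  have he2 : ∑ u ∈ N, (nb G u ∩ W).card = e := by
    rw [sum_nb_comm G N W, he1]
  have hN1 : ∀ u ∈ N, 1 ≤ (nb G u ∩ W).card := by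
    intro u hu
    rw [hN, Finset.mem_filter] at hu
    obtain ⟨_, w, hw, hadj⟩ := hu
    exact Finset.card_pos.2 ⟨w, Finset.mem_inter.2 ⟨mem_nb.2 hadj.symm, hw⟩⟩
  have hNe : N.card ≤ e := by
    rw [← he2, Finset.card_eq_sum_ones]
    exact Finset.sum_le_sum hN1
  have heW : e + W.card ≤ d * W.card := by
    have : ∑ w ∈ W, ((nb G w ∩ K).card + 1) ≤ ∑ w ∈ W, d := Finset.sum_le_sum hK
    rw [Finset.sum_add_distrib, ← Finset.card_eq_sum_ones, Finset.sum_const, smul_eq_mul] at this
    rw [mul_comm d]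
    exact this
  -- the set W is sparse
  have hWpos : 0 < W.card := Finset.card_pos.2 hne
  have s1 : 8 * d * eo G W < 2 * (8 * d + 1) * W.card := by
    refine hS W hne (le_trans ?_ hW)
    have : (1 : ℝ) ≤ d := by exact_mod_cast (by omega : 1 ≤ d)
    nlinarith [(Nat.cast_nonneg W.card : (0 : ℝ) ≤ W.card)]
  have hcardS : (W ∪ N).card = W.card + N.card := Finset.card_union_of_disjoint hWN
  have s2 : 8 * d * eo G (W ∪ N) < 2 * (8 * d + 1) * (W ∪ N).card := by
    refine hS (W ∪ N) (hne.mono Finset.subset_union_left) (le_trans ?_ hW)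
    rw [hcardS]
    have : W.card + N.card ≤ d * W.card := by omega
    exact_mod_cast this
  have s3 : eo G W + 2 * e ≤ eo G (W ∪ N) := by
    rw [eo_eq_sum G (W ∪ N), Finset.sum_union hWN]
    have e1 : ∑ v ∈ W, (nb G v ∩ (W ∪ N)).card = eo G W + e := by
      rw [Finset.sum_congr rfl fun v _ => hsplit v W N hWN, Finset.sum_add_distrib, he1,
        ← eo_eq_sum]
    have e2 : e ≤ ∑ v ∈ N, (nb G v ∩ (W ∪ N)).card := by
      rw [← he2]
      exact Finset.sum_le_sum fun v _ => Finset.card_le_card
        (Finset.inter_subset_inter_left Finset.subset_union_left)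
    omega
  -- the bad vertices
  set B1 : Finset (Fin n) := W.filter (fun w => 3 ≤ (nb G w ∩ W).card) with hB1
  set B2 : Finset (Fin n) := W.filter
    (fun w => ∃ u ∈ nb G w ∩ K, ∃ w' ∈ W, G.Adj w' u ∧ w' ≠ w) with hB2
  have b1 : 2 * W.card + B1.card ≤ eo G W := by
    rw [eo_eq_sum, hB1, Finset.card_filter]
    have : ∑ w ∈ W, (2 + if 3 ≤ (nb G w ∩ W).card then 1 else 0) ≤
        ∑ w ∈ W, (nb G w ∩ W).card := by
      refine Finset.sum_le_sum fun w hw => ?_
      have := h2 w hw
      split_ifs <;> omega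
    rw [Finset.sum_add_distrib, Finset.sum_const, smul_eq_mul, mul_comm] at this
    exact this
  have b2 : B2.card + 2 * N.card ≤ 2 * e := by
    have c1 : B2 ⊆ (N.filter (fun u => 2 ≤ (nb G u ∩ W).card)).biUnion (fun u => nb G u ∩ W) := by
      intro w hw
      rw [hB2, Finset.mem_filter] at hw
      obtain ⟨hwW, u, hu, w', hw', hadj, hne'⟩ := hw
      rw [Finset.mem_inter, mem_nb] at hu
      rw [Finset.mem_biUnion]
      refine ⟨u, ?_, ?_⟩
      · rw [Finset.mem_filter, hN, Finset.mem_filter]
        refine ⟨⟨hu.2, w, hwW, hu.1⟩, ?_⟩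
        have : ({w, w'} : Finset (Fin n)) ⊆ nb G u ∩ W := by
          intro x hx
          rw [Finset.mem_insert, Finset.mem_singleton] at hx
          rcases hx with rfl | rfl
          · exact Finset.mem_inter.2 ⟨mem_nb.2 hu.1.symm, hwW⟩
          · exact Finset.mem_inter.2 ⟨mem_nb.2 hadj.symm, hw'⟩
        have h3 := Finset.card_le_card this
        rwa [Finset.card_pair (Ne.symm hne')] at h3
      · exact Finset.mem_inter.2 ⟨mem_nb.2 hu.1.symm, hwW⟩
    have c2 : B2.card ≤ ∑ u ∈ N.filter (fun u => 2 ≤ (nb G u ∩ W).card), (nb G u ∩ W).card :=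
      (Finset.card_le_card c1).trans Finset.card_biUnion_le
    have c3 : ∑ u ∈ N.filter (fun u => 2 ≤ (nb G u ∩ W).card), (nb G u ∩ W).card + 2 * N.card ≤
        2 * ∑ u ∈ N, (nb G u ∩ W).card := by
      rw [Finset.sum_filter, Finset.mul_sum, mul_comm 2 N.card, ← smul_eq_mul,
        ← Finset.sum_const, ← Finset.sum_add_distrib]
      refine Finset.sum_le_sum fun u hu => ?_
      have := hN1 u hu
      split_ifs <;> omega
    rw [he2] at c3
    omega
  -- conclusion
  have d1 : 8 * d * (2 * W.card + B1.card) ≤ 8 * d * eo G W := Nat.mul_le_mul_left _ b1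
  have d2 : 8 * d * (2 * W.card + (B2.card + 2 * N.card)) ≤ 8 * d * eo G (W ∪ N) := by
    refine Nat.mul_le_mul_left _ ?_
    omega
  have d3 : W.card + N.card ≤ d * W.card := by omega
  rw [hcardS] at s2
  have f1 : 4 * d * B1.card < W.card := by nlinarith
  have f2 : 4 * B2.card < W.card := by
    have : d * (4 * B2.card) < d * W.card := by nlinarith
    exact lt_of_mul_lt_mul_left this (Nat.zero_le d)
  have f3 : 8 * B1.card < W.card := by
    refine lt_of_le_of_lt ?_ f1
    exact Nat.mul_le_mul_right _ (by omega)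
  have f4 : (B1 ∪ B2).card < W.card := by
    have := Finset.card_union_le B1 B2
    omega
  obtain ⟨w, hw, hwB⟩ := Finset.exists_mem_notMem_of_card_lt_card f4
  rw [Finset.mem_union, not_or] at hwB
  obtain ⟨g1, g2⟩ := hwB
  have e3 : (nb G w ∩ W).card = 2 := by
    rw [hB1, Finset.mem_filter, not_and] at g1
    have := g1 hw
    have := h2 w hw
    omega
  refine ⟨w, hw, e3, ?_, ?_⟩
  · have e1 := hdeg w hw
    rw [hsplit w W K hWK] at e1
    have e2 := hK w hw
    omega
  · intro u hu w' hw' hadj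
    rw [hB2, Finset.mem_filter, not_and] at g2
    have := g2 hw
    push Not at this
    exact this u hu w' hw' hadj

/-- forget the velocity of `w` -/
noncomputable def Z (w : Fin n) : Mot n d →ₗ[ℝ] Mot n d where
  toFun m v := if v = w then 0 else m v
  map_add' a b := by ext v i; by_cases h : v = w <;> simp [h]
  map_smul' c a := by ext v i; by_cases h : v = w <;> simp [h]

theorem key (hd : 2 ≤ d) (hq : Good q) (G : SimpleGraph (Fin n)) (K : Finset (Fin n))
    (hmax : MaxRg q G K) (W : Finset (Fin n)) (hWK : Disjoint W K) {w a b : Fin n} (hw : w ∈ W)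
    (hab : a ≠ b) (hnb : nb G w ∩ W = {a, b}) (hcard : (nb G w ∩ K).card + 1 = d)
    (hpriv : ∀ u ∈ nb G w ∩ K, ∀ w' ∈ W, G.Adj w' u → w' = w)
    (hge : Module.finrank ℝ (Mo q (ind G (W.erase w ∪ K)) (W.erase w)ᶜ) ≤
      Module.finrank ℝ (Mo q (ind G (W ∪ K)) Wᶜ)) : False := by
  have ha : a ∈ nb G w ∩ W := by rw [hnb]; simp
  have hb : b ∈ nb G w ∩ W := by rw [hnb]; simp
  rw [Finset.mem_inter, mem_nb] at ha hb
  have hwK : w ∉ K := Finset.disjoint_left.1 hWK hw
  have haK : a ∉ K := Finset.disjoint_left.1 hWK ha.2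
  have hbK : b ∉ K := Finset.disjoint_left.1 hWK hb.2
  have haw : a ≠ w := fun h => G.loopless.irrefl w (h ▸ ha.1)
  have hbw : b ≠ w := fun h => G.loopless.irrefl w (h ▸ hb.1)
  have hne : (nb G w ∩ K).Nonempty := by
    rw [← Finset.card_pos]; omega
  obtain ⟨u1, hu1⟩ := hne
  have hu1' := hu1
  rw [Finset.mem_inter, mem_nb] at hu1'
  have hu1w : u1 ≠ w := fun h => hwK (h ▸ hu1'.2)
  have hau1 : a ≠ u1 := fun h => haK (h ▸ hu1'.2)
  have hbu1 : b ≠ u1 := fun h => hbK (h ▸ hu1'.2)
  set N' : Finset (Fin n) := (nb G w ∩ K).erase u1 with hN'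
  have hN'mem : ∀ u ∈ N', u ≠ u1 ∧ G.Adj w u ∧ u ∈ K := by
    intro u hu
    rw [hN', Finset.mem_erase, Finset.mem_inter, mem_nb] at hu
    exact hu
  have hN'card : N'.card + 2 = d := by
    rw [hN', Finset.card_erase_of_mem hu1]
    have : 0 < (nb G w ∩ K).card := Finset.card_pos.2 ⟨u1, hu1⟩
    omega
  have hbN' : b ∉ N' := fun h => hbK (hN'mem b h).2.2
  have haN' : a ∉ insert b N' := by
    rw [Finset.mem_insert, not_or]
    exact ⟨hab, fun h => haK (hN'mem a h).2.2⟩
  have hU : (insert a (insert b N')).card = d := by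
    rw [Finset.card_insert_of_notMem haN', Finset.card_insert_of_notMem hbN']
    omega
  have hwU : w ∉ insert a (insert b N') := by
    rw [Finset.mem_insert, Finset.mem_insert, not_or, not_or]
    exact ⟨haw.symm, hbw.symm, fun h => hwK (hN'mem w h).2.2⟩
  have hadjK : ∀ u, G.Adj w u → u ∈ K → (ind G (W ∪ K)).Adj w u := by
    intro u h1 h2
    exact ⟨h1, Finset.mem_union_left K hw, Finset.mem_union_right W h2⟩
  have hadjW : ∀ u, G.Adj w u → u ∈ W → (ind G (W ∪ K)).Adj w u := by
    intro u h1 h2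
    exact ⟨h1, Finset.mem_union_left K hw, Finset.mem_union_left K h2⟩
  -- the velocity of `a` vanishes
  have hzero : ∀ m' ∈ Mo q (ind G (W.erase w ∪ K)) (W.erase w)ᶜ, m' a = 0 := by
    intro m' hm'
    refine vec_zero ((insert b N').image (fun u => q a - q u)) (q w - q a) (m' a) ?_ ?_
    · intro x hx hx0
      refine good_zero hq w (insert a (insert b N')) hwU (le_of_eq hU.symm) x ?_
      intro u hu
      rw [Finset.mem_insert] at hu
      rcases hu with rfl | hu
      · exact hx0
      · have h1 := hx (q a - q u) (Finset.mem_image_of_mem _ hu)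
        have h2 : q w - q u = (q w - q a) + (q a - q u) := by abel
        rw [h2, add_dotProduct, hx0, h1, add_zero]
    · intro y hy
      set q' : Mot n d := Function.update (Function.update q w (q a + y)) u1 (q a) with hq'
      have e1 : q' w = q a + y := by
        rw [hq', Function.update_of_ne hu1w.symm, Function.update_self]
      have e2 : q' u1 = q a := by rw [hq', Function.update_self]
      have e3 : ∀ v, v ≠ w → v ≠ u1 → q' v = q v := by
        intro v hv1 hv2
        rw [hq', Function.update_of_ne hv2, Function.update_of_ne hv1]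
      have hcongr : Mo q (ind G (W.erase w ∪ K)) (W.erase w)ᶜ =
          Mo q' (ind G (W.erase w ∪ K)) (W.erase w)ᶜ := by
        apply Mo_congr
        intro u v huv
        obtain ⟨hadj, hu, hv⟩ := huv
        have hnw : ∀ x ∈ W.erase w ∪ K, x ≠ w := by
          intro x hx hxw
          subst hxw
          rw [Finset.mem_union] at hx
          rcases hx with hx | hx
          · exact Finset.notMem_erase _ _ hx
          · exact hwK hx
        have hu1W : u1 ∉ W.erase w := by
          intro h
          exact Finset.disjoint_left.1 hWK (Finset.mem_of_mem_erase h) hu1'.2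
        by_cases h1 : u = u1
        · subst h1
          refine Or.inl ⟨Finset.mem_compl.2 hu1W, Finset.mem_compl.2 ?_⟩
          intro hvW
          have := hpriv u hu1 v (Finset.mem_of_mem_erase hvW) hadj.symm
          exact (Finset.ne_of_mem_erase hvW) this
        · by_cases h2 : v = u1
          · subst h2
            refine Or.inl ⟨Finset.mem_compl.2 ?_, Finset.mem_compl.2 hu1W⟩
            intro huW
            have := hpriv v hu1 u (Finset.mem_of_mem_erase huW) hadj
            exact (Finset.ne_of_mem_erase huW) this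
          · exact Or.inr ⟨(e3 u (hnw u hu) h1).symm, (e3 v (hnw v hv) h2).symm⟩
      have hZ : ∀ m ∈ Mo q' (ind G (W ∪ K)) Wᶜ,
          (Z w : Mot n d →ₗ[ℝ] Mot n d) m ∈ Mo q' (ind G (W.erase w ∪ K)) (W.erase w)ᶜ := by
        intro m hm
        rw [mem_Mo] at hm ⊢
        refine ⟨?_, ?_⟩
        · intro t ht
          rw [← insert_compl hw, Finset.mem_insert] at ht
          show (if t = w then 0 else m t) = 0
          rcases ht with rfl | ht
          · simp
          · rw [hm.1 t ht]; simp
        · intro u v huv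
          obtain ⟨hadj, hu, hv⟩ := huv
          have hnw : ∀ x ∈ W.erase w ∪ K, x ≠ w := by
            intro x hx hxw
            subst hxw
            rw [Finset.mem_union] at hx
            rcases hx with hx | hx
            · exact Finset.notMem_erase _ _ hx
            · exact hwK hx
          show (q' u - q' v) ⬝ᵥ ((if u = w then 0 else m u) - (if v = w then 0 else m v)) = 0
          rw [if_neg (hnw u hu), if_neg (hnw v hv)]
          apply hm.2
          refine ⟨hadj, ?_, ?_⟩
          · exact Finset.union_subset_union_left (Finset.erase_subset _ _) hu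
          · exact Finset.union_subset_union_left (Finset.erase_subset _ _) hv
      set Φ := (Z w : Mot n d →ₗ[ℝ] Mot n d).restrict hZ with hΦ
      have hinj : Function.Injective Φ := by
        rw [← LinearMap.ker_eq_bot, LinearMap.ker_eq_bot']
        rintro ⟨m, hm⟩ hmz
        have hmz' : (Z w : Mot n d →ₗ[ℝ] Mot n d) m = 0 := congrArg Subtype.val hmz
        have hm0 : ∀ v, v ≠ w → m v = 0 := by
          intro v hv
          have h1 := congrFun hmz' v
          change (if v = w then 0 else m v) = 0 at h1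
          rwa [if_neg hv] at h1
        rw [mem_Mo] at hm
        have hmw : m w = 0 := by
          have ca : y ⬝ᵥ m w = 0 := by
            have h1 := hm.2 w a (hadjW a ha.1 ha.2)
            rw [e1, e3 a haw hau1, hm0 a haw, sub_zero, add_sub_cancel_left] at h1
            exact h1
          apply hy _ _ ca
          intro v hv
          rw [Finset.mem_image] at hv
          obtain ⟨u, hu, rfl⟩ := hv
          have h3 : (q' w - q' u) ⬝ᵥ (m w - m u) = 0 ∧ u ≠ w ∧ u ≠ u1 := by
            rw [Finset.mem_insert] at hu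
            rcases hu with rfl | hu
            · exact ⟨hm.2 w u (hadjW u hb.1 hb.2), hbw, hbu1⟩
            · have h4 := hN'mem u hu
              exact ⟨hm.2 w u (hadjK u h4.2.1 h4.2.2), fun h => hwK (h ▸ h4.2.2), h4.1⟩
          obtain ⟨h3, h4, h5⟩ := h3
          rw [e1, e3 u h4 h5, hm0 u h4, sub_zero] at h3
          have h6 : q a + y - q u = (q a - q u) + y := by abel
          rw [h6, add_dotProduct, ca, add_zero] at h3
          exact h3
        apply Subtype.ext
        funext v
        by_cases hv : v = w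
        · rw [hv]; exact hmw
        · exact hm0 v hv
      have hfin : Module.finrank ℝ (Mo q' (ind G (W ∪ K)) Wᶜ) =
          Module.finrank ℝ (Mo q' (ind G (W.erase w ∪ K)) (W.erase w)ᶜ) := by
        apply le_antisymm
        · exact LinearMap.finrank_le_finrank_of_injective hinj
        · rw [← hcongr]
          exact hge.trans (hq _ _ _)
      have hsurj : Function.Surjective Φ :=
        (LinearMap.injective_iff_surjective_of_finrank_eq_finrank hfin).1 hinj
      have hm'' : m' ∈ Mo q' (ind G (W.erase w ∪ K)) (W.erase w)ᶜ := by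
        rw [← hcongr]; exact hm'
      obtain ⟨⟨m, hm⟩, hmm⟩ := hsurj ⟨m', hm''⟩
      have hmm' : (Z w : Mot n d →ₗ[ℝ] Mot n d) m = m' := congrArg Subtype.val hmm
      have hv : ∀ v, v ≠ w → m v = m' v := by
        intro v hv
        have h1 := congrFun hmm' v
        change (if v = w then 0 else m v) = m' v at h1
        rwa [if_neg hv] at h1
      rw [mem_Mo] at hm
      have c1 : y ⬝ᵥ m w = 0 := by
        have h1 := hm.2 w u1 (hadjK u1 hu1'.1 hu1'.2)
        have h2 : m u1 = 0 := hm.1 u1
          (Finset.mem_compl.2 (fun h => Finset.disjoint_left.1 hWK h hu1'.2))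
        rw [e1, e2, h2, sub_zero, add_sub_cancel_left] at h1
        exact h1
      have c2 := hm.2 w a (hadjW a ha.1 ha.2)
      rw [e1, e3 a haw hau1, hv a haw, add_sub_cancel_left, dotProduct_sub, c1] at c2
      linarith
  -- so `a` is pinned by `K`
  refine haK (hmax.mem_of_pin ?_)
  intro m hm
  rw [mem_Mo] at hm
  set m' : Mot n d := fun v => if v ∈ W.erase w then m v else 0 with hm'
  have hmem : m' ∈ Mo q (ind G (W.erase w ∪ K)) (W.erase w)ᶜ := by
    rw [mem_Mo]
    refine ⟨?_, ?_⟩
    · intro t ht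
      rw [Finset.mem_compl] at ht
      simp only [hm', if_neg ht]
    · intro u v huv
      obtain ⟨hadj, hu, hv⟩ := huv
      have h1 : ∀ x ∈ W.erase w ∪ K, m' x = m x := by
        intro x hx
        by_cases hxW : x ∈ W.erase w
        · simp only [hm', if_pos hxW]
        · have hxK : x ∈ K := by
            rw [Finset.mem_union] at hx
            rcases hx with hx | hx
            · exact absurd hx hxW
            · exact hx
          simp only [hm', if_neg hxW]
          exact (hm.1 x hxK).symm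
      rw [h1 u hu, h1 v hv]
      exact hm.2 u v hadj
  have h2 := hzero m' hmem
  have h3 : a ∈ W.erase w := Finset.mem_erase.2 ⟨haw, ha.2⟩
  simp only [hm', if_pos h3] at h2
  exact h2

end DLem

/-- edges meeting a small set outside a maximal rigid set impose independent conditions -/
theorem Dlem {n d : ℕ} (hd : 2 ≤ d) {q : Mot n d} (hq : Good q) (G : SimpleGraph (Fin n)) (ε : ℝ)
    (hS : Sp (8 * d) ε G) (K : Finset (Fin n)) (hK : d ≤ K.card) (hmax : MaxRg q G K)
    (W : Finset (Fin n)) (hWK : Disjoint W K) (hW : (d : ℝ) * W.card ≤ ε * n) :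
    2 * Module.finrank ℝ (Mo q (ind G (W ∪ K)) Wᶜ) +
      (eo G W + 2 * ∑ w ∈ W, (nb G w ∩ K).card) = 2 * (d * W.card) := by
  induction hk : W.card generalizing W with
  | zero =>
    have hW0 : W = ∅ := Finset.card_eq_zero.1 hk
    subst hW0
    have h1 : Mo q (ind G (∅ ∪ K)) (∅ : Finset (Fin n))ᶜ = ⊥ := by
      rw [Submodule.eq_bot_iff]
      intro m hm
      funext v
      exact hm.1 v (by simp)
    rw [h1]
    simp [eo]
  | succ k ih =>
    have hne : W.Nonempty := by rw [← Finset.card_pos]; omega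
    have hIH : ∀ w ∈ W, 2 * Module.finrank ℝ (Mo q (ind G (W.erase w ∪ K)) (W.erase w)ᶜ) +
        (eo G (W.erase w) + 2 * ∑ v ∈ W.erase w, (nb G v ∩ K).card) = 2 * (d * k) := by
      intro w hw
      have hc : (W.erase w).card = k := by
        rw [Finset.card_erase_of_mem hw]; omega
      refine ih (W.erase w) (Finset.disjoint_of_subset_left (Finset.erase_subset _ _) hWK)
        (le_trans ?_ hW) hc
      have : ((W.erase w).card : ℝ) ≤ W.card := by
        exact_mod_cast Finset.card_le_card (Finset.erase_subset _ _)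
      exact mul_le_mul_of_nonneg_left this (Nat.cast_nonneg d)
    by_cases hsmall : ∃ w ∈ W, (nb G w ∩ (W ∪ K)).card ≤ d
    · obtain ⟨w, hw, hdeg⟩ := hsmall
      have hwK : w ∉ K := Finset.disjoint_left.1 hWK hw
      have h1 := DLem.step_eq hq G W K hw hwK hdeg
      have h2 := DLem.cE_erase G W K hWK hw
      have h3 := hIH w hw
      have h4 : 2 * (d * (k + 1)) = 2 * (d * k) + 2 * d := by ring
      omega
    · push Not at hsmall
      obtain ⟨w, hw, hw2, hwc, hpriv⟩ := DLem.exists_w hd G ε hS W K hWK hW hne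
        (fun w hw => hmax.nb_le hq (Finset.disjoint_left.1 hWK hw))
        (fun w hw => hsmall w hw)
      have hwK : w ∉ K := Finset.disjoint_left.1 hWK hw
      obtain ⟨a, b, hab, hnb⟩ := Finset.card_eq_two.1 hw2
      have h1 := DLem.step_ge q G W K hw hwK
      have h2 := DLem.cE_erase G W K hWK hw
      have h3 := hIH w hw
      have h4 : 2 * (d * (k + 1)) = 2 * (d * k) + 2 * d := by ring
      have h5 : (nb G w ∩ (W ∪ K)).card = d + 1 := by
        rw [Finset.inter_union_distrib_left, Finset.card_union_of_disjoint, hw2]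
        · omega
        · exact Finset.disjoint_of_subset_left Finset.inter_subset_right
            (Finset.disjoint_of_subset_right Finset.inter_subset_right hWK)
      by_contra hcon
      refine DLem.key hd hq G K hmax W hWK hw hab hnb hwc hpriv ?_
      omega

end Pool.Agent.GRI
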