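import Mathlib

set_option autoImplicit false

/-! Vocabulary of the problem file of MP_264ef2_co, in its own words: generic placements, the
rigidity matrix with one row for every edge, rigid graphs, rigid components, orientations, cores. -/

namespace Pool.Agent.RigidINS

open Finset
open scoped Classical

/-- A placement `p` of `V` in `ℝ^d` is generic: all its coordinates are algebraically independent
over `ℚ`. -/
def Generic {V : Type} {d : ℕ} (p : V → Fin d → ℝ) : Prop :=
  AlgebraicIndependent ℚ (fun x : V × Fin d => p x.1 x.2)

/-- The rigidity matrix of the framework `(H, p)`: one row for every edge of `H`, one column for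
every coordinate of every vertex; the row of the edge `uv` has `p u - p v` in the columns of `u`,
`p v - p u` in the columns of `v` and `0` in all other columns. -/
noncomputable def rigidityMatrix {V : Type} [Fintype V] {d : ℕ} (H : SimpleGraph V)
    (p : V → Fin d → ℝ) : Matrix H.edgeSet (V × Fin d) ℝ :=
  Matrix.of fun e x => ∑ y : V, if s(x.1, y) = (e : Sym2 V) then p x.1 x.2 - p y x.2 else 0

/-- `H` is `d`-rigid: it is complete if it has at most `d` vertices, and otherwise its rigidity
matrix has rank `d |V| - (d+1 choose 2)` at every generic placement in `ℝ^d`. -/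
def Rigid (d : ℕ) {V : Type} [Fintype V] (H : SimpleGraph V) : Prop :=
  (Fintype.card V ≤ d ∧ H = ⊤) ∨
    (d + 1 ≤ Fintype.card V ∧ ∀ p : V → Fin d → ℝ, Generic p →
      (rigidityMatrix H p).rank + (d + 1).choose 2 = d * Fintype.card V)

/-- `A` is a `d`-rigid component of `G`: it is inclusion-maximal among the sets of vertices whose
induced subgraph is `d`-rigid. -/
def IsRigidComponent (d : ℕ) {n : ℕ} (G : SimpleGraph (Fin n)) (A : Finset (Fin n)) : Prop :=
  Maximal (fun B : Finset (Fin n) => Rigid d (G.induce (B : Set (Fin n)))) A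

/-- `G` is `d`-orientable: for every edge `e` one can choose one of its ends as its head `f e` so
that every vertex is the head of at most `d` edges. -/
def Orientable (d : ℕ) {n : ℕ} (G : SimpleGraph (Fin n)) : Prop :=
  ∃ f : G.edgeSet → Fin n, (∀ e : G.edgeSet, f e ∈ (e : Sym2 (Fin n))) ∧
    ∀ v : Fin n, (univ.filter (fun e : G.edgeSet => f e = v)).card ≤ d

/-- `C` is the vertex set of the `k`-core of `G`: the largest set of vertices whose induced
subgraph has minimum degree at least `k`. -/
def IsCore (k : ℕ) {n : ℕ} (G : SimpleGraph (Fin n)) (C : Finset (Fin n)) : Prop :=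
  IsGreatest {S : Finset (Fin n) | ∀ w ∈ S, k ≤ (S.filter (G.Adj w)).card} C

/-- `B` arises from `A` by adding a vertex outside `A` with at least `d` neighbours in `A`. -/
def Step (d : ℕ) {n : ℕ} (G : SimpleGraph (Fin n)) (A B : Finset (Fin n)) : Prop :=
  ∃ v : Fin n, v ∉ A ∧ d ≤ (A.filter (G.Adj v)).card ∧ B = insert v A

/-- `B` is the vertex set of an `((d+1)+d)`-core of `G`: it is obtained from the `(d+1)`-core by
repeatedly adding a vertex outside the current set with at least `d` neighbours in it, as long as
possible. -/
def IsHatCore (d : ℕ) {n : ℕ} (G : SimpleGraph (Fin n)) (B : Finset (Fin n)) : Prop :=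
  ∃ C : Finset (Fin n), IsCore (d + 1) G C ∧ Relation.ReflTransGen (Step d G) C B ∧
    ¬ ∃ B', Step d G B B'

/-- The property `Q` holds asymptotically almost surely in the binomial random graph `G(n, c/n)`
(the law `SimpleGraph.binomialRandom` of Mathlib; `c/n` is cut off at `1` while `n < c`). -/
def AAS (c : ℝ) (Q : (n : ℕ) → SimpleGraph (Fin n) → Prop) : Prop :=
  Filter.Tendsto (fun n : ℕ =>
    (SimpleGraph.binomialRandom (Fin n) (Set.projIcc (0 : ℝ) 1 zero_le_one (c / n))).real
      {G | Q n G}) Filter.atTop (nhds 1)

/-- `c/n` at `c = cd` is the sharp threshold for `d`-orientability: `G(n, c/n)` is a.a.s.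
`d`-orientable for `c < cd` and a.a.s. not `d`-orientable for `c > cd`. -/
def IsThreshold (d : ℕ) (cd : ℝ) : Prop :=
  0 < cd ∧ (∀ c : ℝ, 0 < c → c < cd → AAS c (fun _ G => Orientable d G)) ∧
    ∀ c : ℝ, cd < c → AAS c (fun _ G => ¬ Orientable d G)

end Pool.Agent.RigidINS
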