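import Pool.Agent.Lib_MP_264ef2_ins.Base

set_option autoImplicit false

namespace Pool.Agent.GRI

open Finset
open scoped Classical

variable {n d : ℕ}

namespace Peel

theorem mem_nb {G : SimpleGraph (Fin n)} {v u : Fin n} : u ∈ nb G v ↔ G.Adj v u := by
  simp [nb]

theorem nb_symm {G : SimpleGraph (Fin n)} {v u : Fin n} (h : u ∈ nb G v) : v ∈ nb G u := by
  rw [mem_nb] at h ⊢; exact h.symm

theorem not_self {G : SimpleGraph (Fin n)} {v : Fin n} : v ∉ nb G v := by
  rw [mem_nb]; exact fun h => G.loopless.irrefl v h

theorem nb_inter (G : SimpleGraph (Fin n)) (w : Fin n) (B : Finset (Fin n)) :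
    nb G w ∩ B = B.filter (G.Adj w) := by
  ext x; simp [nb, and_comm]

theorem nb_del {G : SimpleGraph (Fin n)} {v w : Fin n} (h : w ≠ v) :
    nb (del G {v}) w = (nb G w).erase v := by
  ext x
  simp only [nb, ind, mem_filter, mem_univ, true_and, mem_compl, mem_singleton, mem_erase]
  constructor
  · rintro ⟨h1, _, h3⟩; exact ⟨h3, h1⟩
  · rintro ⟨h1, h2⟩; exact ⟨h2, h, h1⟩

theorem sub_Cor (G : SimpleGraph (Fin n)) (T : Finset (Fin n)) : T ⊆ Cor d G T := by
  intro x hx
  simp only [Cor, mem_filter, mem_univ, true_and]
  exact ⟨T, hx, fun w hw => Or.inl hw⟩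

end Peel

open Peel

theorem Cor_mono {G : SimpleGraph (Fin n)} {T T' : Finset (Fin n)} (h : T ⊆ T') :
    Cor d G T ⊆ Cor d G T' := by
  intro x hx
  simp only [Cor, mem_filter, mem_univ, true_and] at hx ⊢
  obtain ⟨B, hB, hB'⟩ := hx
  exact ⟨B, hB, fun w hw => (hB' w hw).imp_left (fun h' => h h')⟩

theorem Cor_max (G : SimpleGraph (Fin n)) (T B : Finset (Fin n))
    (h : ∀ w ∈ B, w ∈ T ∨ d + 1 ≤ (nb G w ∩ B).card) : B ⊆ Cor d G T := by
  intro x hx
  simp only [Cor, mem_filter, mem_univ, true_and]
  exact ⟨B, hx, h⟩

theorem Cor_spec (G : SimpleGraph (Fin n)) (T : Finset (Fin n)) {w : Fin n}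
    (hw : w ∈ Cor d G T) : w ∈ T ∨ d + 1 ≤ (nb G w ∩ Cor d G T).card := by
  have hw' := hw
  simp only [Cor, mem_filter, mem_univ, true_and] at hw'
  obtain ⟨B, hB, hB'⟩ := hw'
  rcases hB' w hB with h | h
  · exact Or.inl h
  · exact Or.inr (h.trans (card_le_card (inter_subset_inter (Subset.refl _)
      (Cor_max G T B hB'))))

theorem Cor_subset_Hat (G : SimpleGraph (Fin n)) : Cor d G ∅ ⊆ Hat d G := by
  intro v hv
  simp only [Cor, mem_filter, mem_univ, true_and] at hv
  obtain ⟨B, hB, hB'⟩ := hv
  simp only [Hat, mem_filter, mem_univ, true_and]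
  intro T h1 _
  refine h1 v ⟨B, hB, fun w hw => ?_⟩
  rcases hB' w hw with h | h
  · simp at h
  · rwa [nb_inter] at h

theorem Hat_min (G : SimpleGraph (Fin n)) (T : Finset (Fin n)) (h : Cor d G ∅ ⊆ T)
    (h' : ∀ w, d ≤ (nb G w ∩ T).card → w ∈ T) : Hat d G ⊆ T := by
  intro v hv
  simp only [Hat, mem_filter, mem_univ, true_and] at hv
  refine hv T ?_ ?_
  · rintro u ⟨S, hu, hS⟩
    apply h
    refine Cor_max G ∅ S (fun w hw => Or.inr ?_) hu
    rw [nb_inter]; exact hS w hw
  · intro w hw
    apply h'
    rw [nb_inter]; exact hw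

theorem Hat_closed (G : SimpleGraph (Fin n)) {w : Fin n} (h : d ≤ (nb G w ∩ Hat d G).card) :
    w ∈ Hat d G := by
  simp only [Hat, mem_filter, mem_univ, true_and]
  intro T h1 h2
  apply h2
  rw [← nb_inter]
  refine h.trans (card_le_card (inter_subset_inter (Subset.refl _) ?_))
  intro v hv
  simp only [Hat, mem_filter, mem_univ, true_and] at hv
  exact hv T h1 h2

namespace Peel

/-- the inductive invariant -/
structure Gd (d : ℕ) (G : SimpleGraph (Fin n)) (T : Finset (Fin n)) : Prop where
  lo : Cor d G ∅ ⊆ T
  hi : T ⊆ Hat d G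
  peel : ∀ W : Finset (Fin n), W.Nonempty → Disjoint W T → ∃ w ∈ W, (nb G w ∩ (W ∪ T)).card ≤ d
  cor : ∀ W : Finset (Fin n), Disjoint W T → ∀ w ∈ W, nb G w ∩ T ⊆ Cor d G W
  phi : T ⊆ PhiC d G ∅

theorem Gd_Cor (G : SimpleGraph (Fin n)) : Gd d G (Cor d G ∅) where
  lo := Subset.refl _
  hi := Cor_subset_Hat G
  peel := by
    intro W hW hd
    by_contra hcon
    push Not at hcon
    have : W ∪ Cor d G ∅ ⊆ Cor d G ∅ := by
      refine Cor_max G ∅ _ (fun w hw => Or.inr ?_)
      rcases mem_union.1 hw with h | h
      · exact hcon w h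
      · rcases Cor_spec G ∅ h with h' | h'
        · simp at h'
        · exact h'.trans (card_le_card (inter_subset_inter (Subset.refl _) subset_union_right))
    obtain ⟨w, hw⟩ := hW
    exact (disjoint_left.1 hd hw) (this (mem_union_left _ hw))
  cor := by
    intro W _ w _
    exact inter_subset_right.trans (Cor_mono (empty_subset _))
  phi := by
    intro v hv
    simp only [PhiC, mem_filter, mem_univ, true_and]
    right
    rcases Cor_spec G ∅ hv with h' | h'
    · simp at h'
    · have := h'.trans (card_le_card (inter_subset_inter (Subset.refl (nb G v))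
        (Cor_mono (d := d) (G := G) (empty_subset (insert v ∅)))))
      omega

theorem card_step {G : SimpleGraph (Fin n)} {T C : Finset (Fin n)} {v w : Fin n}
    (h : d ≤ (nb G v ∩ T).card) (hw : w ∈ nb G v) (hwT : w ∉ T) (hwC : w ∈ C)
    (hTC : nb G v ∩ T ⊆ C) : d + 1 ≤ (nb G v ∩ C).card := by
  have h1 : insert w (nb G v ∩ T) ⊆ nb G v ∩ C := by
    intro x hx
    rcases mem_insert.1 hx with h | h
    · subst h; exact mem_inter.2 ⟨hw, hwC⟩
    · exact mem_inter.2 ⟨(mem_inter.1 h).1, hTC h⟩
  have h2 := card_le_card h1
  rw [card_insert_of_notMem (fun hx => hwT (mem_inter.1 hx).2)] at h2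
  omega

theorem Gd_step {G : SimpleGraph (Fin n)} {T : Finset (Fin n)} (hT : Gd d G T) {v : Fin n}
    (hv : v ∉ T) (hdv : d ≤ (nb G v ∩ T).card) : Gd d G (insert v T) where
  lo := hT.lo.trans (subset_insert _ _)
  hi := by
    intro x hx
    rcases mem_insert.1 hx with h | h
    · subst h
      exact Hat_closed G (hdv.trans (card_le_card (inter_subset_inter (Subset.refl _) hT.hi)))
    · exact hT.hi h
  peel := by
    intro W hW hd
    have hdT : Disjoint W T := disjoint_of_subset_right (subset_insert _ _) hd
    have hvW : v ∉ W := fun h => disjoint_left.1 hd h (mem_insert_self _ _)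
    by_cases hN : ∃ w ∈ W, w ∈ nb G v
    · obtain ⟨w0, hw0, hw0v⟩ := hN
      have hd' : Disjoint (insert v W) T := by
        rw [disjoint_insert_left]; exact ⟨hv, hdT⟩
      obtain ⟨w, hw, hwc⟩ := hT.peel (insert v W) (insert_nonempty _ _) hd'
      rcases mem_insert.1 hw with h | h
      · exfalso
        subst h
        have h3 : d + 1 ≤ (nb G w ∩ (insert w W ∪ T)).card :=
          card_step hdv hw0v (disjoint_left.1 hdT hw0)
            (mem_union_left _ (mem_insert_of_mem hw0))
            (inter_subset_right.trans subset_union_right)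
        omega
      · refine ⟨w, h, le_trans (card_le_card ?_) hwc⟩
        apply inter_subset_inter (Subset.refl _)
        intro x hx
        rcases mem_union.1 hx with h' | h'
        · exact mem_union_left _ (mem_insert_of_mem h')
        · rcases mem_insert.1 h' with h'' | h''
          · subst h''; exact mem_union_left _ (mem_insert_self _ _)
          · exact mem_union_right _ h''
    · push Not at hN
      obtain ⟨w, hw, hwc⟩ := hT.peel W hW hdT
      refine ⟨w, hw, le_trans (card_le_card ?_) hwc⟩
      intro x hx
      obtain ⟨hx1, hx2⟩ := mem_inter.1 hx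
      refine mem_inter.2 ⟨hx1, ?_⟩
      rcases mem_union.1 hx2 with h' | h'
      · exact mem_union_left _ h'
      · rcases mem_insert.1 h' with h'' | h''
        · subst h''; exact absurd (nb_symm hx1) (hN w hw)
        · exact mem_union_right _ h''
  cor := by
    intro W hd w hw
    have hdT : Disjoint W T := disjoint_of_subset_right (subset_insert _ _) hd
    by_cases hN : ∃ w ∈ W, w ∈ nb G v
    · obtain ⟨w0, hw0, hw0v⟩ := hN
      have hd' : Disjoint (insert v W) T := by
        rw [disjoint_insert_left]; exact ⟨hv, hdT⟩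
      have hc := hT.cor (insert v W) hd'
      have hsub : Cor d G (insert v W) ⊆ Cor d G W := by
        refine Cor_max G W _ (fun x hx => ?_)
        rcases Cor_spec G _ hx with h | h
        · rcases mem_insert.1 h with h' | h'
          · subst h'
            right
            exact card_step hdv hw0v (disjoint_left.1 hdT hw0)
              (sub_Cor G _ (mem_insert_of_mem hw0)) (hc x (mem_insert_self _ _))
          · exact Or.inl h'
        · exact Or.inr h
      refine Subset.trans ?_ hsub
      intro x hx
      obtain ⟨hx1, hx2⟩ := mem_inter.1 hx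
      rcases mem_insert.1 hx2 with h | h
      · subst h; exact sub_Cor G _ (mem_insert_self _ _)
      · exact hc w (mem_insert_of_mem hw) (mem_inter.2 ⟨hx1, h⟩)
    · push Not at hN
      intro x hx
      obtain ⟨hx1, hx2⟩ := mem_inter.1 hx
      rcases mem_insert.1 hx2 with h | h
      · subst h; exact absurd (nb_symm hx1) (hN w hw)
      · exact hT.cor W hdT w hw (mem_inter.2 ⟨hx1, h⟩)
  phi := by
    intro x hx
    rcases mem_insert.1 hx with h | h
    · subst h
      simp only [PhiC, mem_filter, mem_univ, true_and]
      right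
      have h1 := hT.cor {x} (by rw [disjoint_singleton_left]; exact hv) x (mem_singleton_self x)
      refine hdv.trans (card_le_card ?_)
      intro y hy
      refine mem_inter.2 ⟨(mem_inter.1 hy).1, ?_⟩
      have := h1 hy
      simpa using this
    · exact hT.phi h

theorem Gd_Hat (G : SimpleGraph (Fin n)) : Gd d G (Hat d G) := by
  have key : ∀ k : ℕ, ∀ T : Finset (Fin n), Gd d G T → n - T.card = k → Gd d G (Hat d G) := by
    intro k
    induction k using Nat.strong_induction_on with
    | _ k ih =>
      intro T hT hk
      by_cases hcl : ∀ w, d ≤ (nb G w ∩ T).card → w ∈ T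
      · have := Hat_min G T hT.lo hcl
        have h2 : T = Hat d G := Subset.antisymm hT.hi this
        rwa [← h2]
      · push Not at hcl
        obtain ⟨w, hw1, hw2⟩ := hcl
        have h3 := Gd_step hT hw2 hw1
        have h4 : (insert w T).card = T.card + 1 := card_insert_of_notMem hw2
        have h5 : (insert w T).card ≤ n := by
          have := card_le_univ (insert w T)
          simpa using this
        exact ih (n - (insert w T).card) (by omega) _ h3 rfl
  exact key _ _ (Gd_Cor G) rfl

theorem Cor_le {G G' : SimpleGraph (Fin n)} (h : ∀ w, nb G' w ⊆ nb G w) (T : Finset (Fin n)) :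
    Cor d G' T ⊆ Cor d G T := by
  refine Cor_max G T _ (fun w hw => ?_)
  rcases Cor_spec G' T hw with h' | h'
  · exact Or.inl h'
  · exact Or.inr (h'.trans (card_le_card (inter_subset_inter (h w) (Subset.refl _))))

theorem nb_del_subset (G : SimpleGraph (Fin n)) (v w : Fin n) : nb (del G {v}) w ⊆ nb G w := by
  intro x hx
  simp only [nb, ind, mem_filter, mem_univ, true_and] at hx ⊢
  exact hx.1

/-- the pinned predicate of the core system -/
def Pin (d : ℕ) (G : SimpleGraph (Fin n)) (T : Finset (Fin n)) (v : Fin n) : Prop :=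
  v ∈ T ∨ d ≤ (nb G v ∩ Cor d G (insert v T)).card

theorem Pin_mono {G : SimpleGraph (Fin n)} {T T' : Finset (Fin n)} (h : T ⊆ T') {v : Fin n}
    (hp : Pin d G T v) : Pin d G T' v := by
  rcases hp with h' | h'
  · exact Or.inl (h h')
  · exact Or.inr (h'.trans (card_le_card (inter_subset_inter (Subset.refl _)
      (Cor_mono (insert_subset_insert v h)))))

theorem Pin_up {G : SimpleGraph (Fin n)} {T : Finset (Fin n)} {v w : Fin n}
    (hp : Pin d (del G {v}) T w) : Pin d G T w := by
  rcases hp with h' | h'
  · exact Or.inl h'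
  · exact Or.inr (h'.trans (card_le_card (inter_subset_inter (nb_del_subset G v w)
      (Cor_le (nb_del_subset G v) _))))

theorem Cor_erase {G : SimpleGraph (Fin n)} {T : Finset (Fin n)} {v : Fin n}
    (U : Finset (Fin n)) (hU : ∀ x ∈ T, x ≠ v → x ∈ U) (hU' : nb G v ⊆ U) :
    (Cor d G T).erase v ⊆ Cor d (del G {v}) U := by
  refine Cor_max _ _ _ (fun x hx => ?_)
  obtain ⟨hxv, hx2⟩ := mem_erase.1 hx
  rcases Cor_spec G T hx2 with h | h
  · exact Or.inl (hU x h hxv)
  · by_cases hxn : x ∈ nb G v
    · exact Or.inl (hU' hxn)
    · right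
      rw [nb_del hxv]
      refine h.trans (card_le_card ?_)
      intro y hy
      obtain ⟨hy1, hy2⟩ := mem_inter.1 hy
      have hyv : y ≠ v := by
        rintro rfl
        exact hxn (nb_symm hy1)
      exact mem_inter.2 ⟨mem_erase.2 ⟨hyv, hy1⟩, mem_erase.2 ⟨hyv, hy2⟩⟩

theorem Pin_down {G : SimpleGraph (Fin n)} {T : Finset (Fin n)} {v w : Fin n} (hwv : w ≠ v)
    (hp : Pin d G T w) : Pin d (del G {v}) (T ∪ nb G v) w := by
  rcases hp with h' | h'
  · exact Or.inl (mem_union_left _ h')
  · by_cases hwn : w ∈ nb G v
    · exact Or.inl (mem_union_right _ hwn)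
    · right
      rw [nb_del hwv]
      refine h'.trans (card_le_card ?_)
      intro y hy
      obtain ⟨hy1, hy2⟩ := mem_inter.1 hy
      have hyv : y ≠ v := by
        rintro rfl
        exact hwn (nb_symm hy1)
      refine mem_inter.2 ⟨mem_erase.2 ⟨hyv, hy1⟩, ?_⟩
      refine Cor_erase (T := insert w T) _ ?_ ?_ (mem_erase.2 ⟨hyv, hy2⟩)
      · intro x hx _
        rcases mem_insert.1 hx with h | h
        · subst h; exact mem_insert_self _ _
        · exact mem_insert_of_mem (mem_union_left _ h)
      · exact subset_union_right.trans (subset_insert _ _)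

theorem Pin_star {G : SimpleGraph (Fin n)} {T : Finset (Fin n)} {v u : Fin n}
    (hu : u ∈ nb G v)
    (H : Pin d (del G {v}) (T ∪ (nb G v).erase u) u → Pin d (del G {v}) T u) :
    u ∈ Cor d G (insert v T) ↔ Pin d (del G {v}) T u := by
  have huv : u ≠ v := by rintro rfl; exact not_self hu
  constructor
  · intro h
    by_cases huT : u ∈ T
    · exact Or.inl huT
    · apply H
      right
      have hsp := Cor_spec G (insert v T) h
      rcases hsp with h1 | h1
      · exfalso
        rcases mem_insert.1 h1 with h2 | h2
        · exact huv h2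
        · exact huT h2
      · rw [nb_del huv]
        have h3 : ((nb G u ∩ Cor d G (insert v T)).erase v).card ≤
            ((nb G u).erase v ∩ Cor d (del G {v}) (insert u (T ∪ (nb G v).erase u))).card := by
          apply card_le_card
          intro y hy
          obtain ⟨hyv, hy'⟩ := mem_erase.1 hy
          obtain ⟨hy1, hy2⟩ := mem_inter.1 hy'
          refine mem_inter.2 ⟨mem_erase.2 ⟨hyv, hy1⟩, ?_⟩
          refine Cor_erase (T := insert v T) _ ?_ ?_ (mem_erase.2 ⟨hyv, hy2⟩)
          · intro x hx hxv
            rcases mem_insert.1 hx with h | h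
            · exact absurd h hxv
            · exact mem_insert_of_mem (mem_union_left _ h)
          · intro x hx
            by_cases hxu : x = u
            · subst hxu; exact mem_insert_self _ _
            · exact mem_insert_of_mem (mem_union_right _ (mem_erase.2 ⟨hxu, hx⟩))
        have h4 := pred_card_le_card_erase (s := nb G u ∩ Cor d G (insert v T)) (a := v)
        omega
  · intro h
    rcases h with h1 | h1
    · exact sub_Cor G _ (mem_insert_of_mem h1)
    · set B := Cor d (del G {v}) (insert u T) with hB
      have huB : u ∈ B := sub_Cor _ _ (mem_insert_self _ _)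
      have : insert v B ⊆ Cor d G (insert v T) := by
        refine Cor_max _ _ _ (fun x hx => ?_)
        rcases mem_insert.1 hx with h2 | h2
        · subst h2; exact Or.inl (mem_insert_self _ _)
        · rcases Cor_spec _ _ h2 with h3 | h3
          · rcases mem_insert.1 h3 with h4 | h4
            · subst h4
              right
              rw [nb_del huv] at h1
              have h5 : insert v ((nb G x).erase v ∩ B) ⊆ nb G x ∩ insert v B := by
                intro y hy
                rcases mem_insert.1 hy with h6 | h6
                · subst h6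
                  exact mem_inter.2 ⟨nb_symm hu, mem_insert_self _ _⟩
                · obtain ⟨h7, h8⟩ := mem_inter.1 h6
                  exact mem_inter.2 ⟨(mem_erase.1 h7).2, mem_insert_of_mem h8⟩
              have h9 := card_le_card h5
              rw [card_insert_of_notMem (fun hx => (mem_erase.1 (mem_inter.1 hx).1).1 rfl)] at h9
              omega
            · exact Or.inl (mem_insert_of_mem h4)
          · right
            exact h3.trans (card_le_card (inter_subset_inter (nb_del_subset G v x)
              (subset_insert _ _)))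
      exact this (mem_insert_of_mem huB)

end Peel

/-- outside `Hat` everything can be peeled -/
theorem Hat_peel (G : SimpleGraph (Fin n)) (W : Finset (Fin n)) (hW : W.Nonempty)
    (hd : Disjoint W (Hat d G)) : ∃ w ∈ W, (nb G w ∩ (W ∪ Hat d G)).card ≤ d :=
  (Gd_Hat G).peel W hW hd

theorem Hat_subset_PhiC (G : SimpleGraph (Fin n)) (T : Finset (Fin n)) :
    Hat d G ⊆ PhiC d G T := by
  intro v hv
  have h := (Gd_Hat (d := d) G).phi hv
  simp only [PhiC, mem_filter, mem_univ, true_and] at h ⊢
  exact Pin_mono (empty_subset T) h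

/-- the core system -/
theorem coreSys (n : ℕ) (hd : 1 ≤ d) :
    ∃ S : Sys n d, ∀ G T, S.Phi G T = PhiC d G T := by
  refine ⟨{ k := fun G T v => if Pin d G T v then 0 else 1
            le := ?_
            anti := ?_
            up := ?_
            down := ?_
            star := ?_ }, ?_⟩
  · intro G T w
    split_ifs <;> omega
  · intro G T T' w hTT
    by_cases h : Pin d G T w
    · simp [h, Pin_mono hTT h]
    · simp only [h, if_false]; split_ifs <;> omega
  · intro G T v w _
    by_cases h : Pin d (del G {v}) T w
    · simp [h, Pin_up h]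
    · simp only [h, if_false]; split_ifs <;> omega
  · intro G T v w hwv
    by_cases h : Pin d G T w
    · simp [h, Pin_down hwv h]
    · simp only [h, if_false]; split_ifs <;> omega
  · intro G T v hvT H
    have key : ∀ u ∈ nb G v, (u ∈ Cor d G (insert v T) ↔ Pin d (del G {v}) T u) := by
      intro u hu
      apply Pin_star hu
      intro hp
      have h1 := H u hu
      simp only [hp, if_true] at h1
      by_contra hcon
      simp [hcon] at h1
    have h2 : (nb G v).filter (fun u => (if Pin d (del G {v}) T u then (0 : ℕ) else 1) = 0) =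
        nb G v ∩ Cor d G (insert v T) := by
      ext u
      simp only [mem_filter, mem_inter]
      constructor
      · rintro ⟨h3, h4⟩
        refine ⟨h3, (key u h3).2 ?_⟩
        by_contra hcon
        simp [hcon] at h4
      · rintro ⟨h3, h4⟩
        refine ⟨h3, ?_⟩
        simp [(key u h3).1 h4]
    rw [h2]
    by_cases h : Pin d G T v
    · simp only [h, if_true, true_iff]
      rcases h with h' | h'
      · exact absurd h' hvT
      · exact h'
    · simp only [h, if_false]
      constructor
      · intro h'; exact absurd h' one_ne_zero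
      · intro h'; exact absurd (Or.inr h') h
  · intro G T
    ext v
    simp only [Sys.Phi, PhiC, mem_filter, mem_univ, true_and]
    constructor
    · intro h
      by_contra hcon
      have : ¬ Pin d G T v := hcon
      simp [this] at h
    · intro h
      have : Pin d G T v := h
      simp [this]

end Pool.Agent.GRI
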