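import Pool.Agent.Lib_MP_264ef2_ins.Rigid
import Pool.Agent.Lib_MP_264ef2_ins.Peel

set_option autoImplicit false

namespace Pool.Agent.GRI

open Finset
open scoped Classical

namespace KC

variable {n d : ℕ} {q : Mot n d}

theorem del_le (G : SimpleGraph (Fin n)) (U : Finset (Fin n)) : del G U ≤ G :=
  fun _ _ h => h.1

theorem ind_le (G : SimpleGraph (Fin n)) (U : Finset (Fin n)) : ind G U ≤ G :=
  fun _ _ h => h.1

theorem ind_univ (G : SimpleGraph (Fin n)) : ind G univ = G := by
  ext a b; simp [ind]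

theorem del_ind (G : SimpleGraph (Fin n)) (R : Finset (Fin n)) (w : Fin n) :
    del (ind G R) {w} = ind G (R.erase w) := by
  ext a b
  simp only [ind, mem_compl, mem_singleton, mem_erase]
  tauto

theorem nb_ind (G : SimpleGraph (Fin n)) (R : Finset (Fin n)) {w : Fin n} (hw : w ∈ R) :
    nb (ind G R) w = nb G w ∩ R := by
  ext a
  simp only [nb, ind, mem_filter, mem_univ, true_and, mem_inter]
  tauto

theorem nb_del_self (G : SimpleGraph (Fin n)) (w : Fin n) : nb (del G {w}) w = ∅ := by
  ext a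
  simp [nb, ind]

/-- removing a vertex of degree at most `d` outside a rigid set keeps it rigid -/
theorem Rg_del (hq : Good q) {G : SimpleGraph (Fin n)} {w : Fin n} (hw : (nb G w).card ≤ d)
    {L : Finset (Fin n)} (hL : w ∉ L) (h : Rg q G L) : Rg q (del G {w}) L := by
  refine le_trans ?_ h
  unfold rd
  apply Submodule.finrank_mono
  rintro x ⟨m, hm, rfl⟩
  obtain ⟨m', hm', hv⟩ := ext0 hq G w hw ∅ (by simp) m hm
  refine ⟨m', hm', ?_⟩
  ext v i
  show (if v ∈ L then m' v else 0) i = (if v ∈ L then m v else 0) i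
  by_cases hvL : v ∈ L
  · rw [if_pos hvL, if_pos hvL, hv v (fun h => hL (h ▸ hvL))]
  · rw [if_neg hvL, if_neg hvL]

/-- the key step: removing a vertex of the rigid set -/
theorem step (hd : 1 ≤ d) (hq : Good q) {G : SimpleGraph (Fin n)} {w : Fin n}
    (hw : (nb G w).card ≤ d) {L : Finset (Fin n)} (hL : MaxRg q G L) (hwL : w ∈ L)
    (hc : d ≤ (L.erase w).card) :
    MaxRg q (del G {w}) (L.erase w) ∧ (nb G w).card = d ∧ nb G w ⊆ L.erase w := by
  have hRg' : Rg q G (L.erase w) := Rg_mono le_rfl (erase_subset _ _) hL.1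
  have hpin := pin_of_Rg hq hL.1 (erase_subset w L) hc
  have hwE : w ∉ L.erase w := by simp
  have e1 := finrank_del hq G w hw (L.erase w) hwE
  have e2 := finrank_insert_isolated q (del G {w}) w (nb_del_self G w) (L.erase w) hwE
  have e3 : Mo q G (insert w (L.erase w)) = Mo q G (L.erase w) := by
    apply le_antisymm (Mo_anti le_rfl (subset_insert _ _))
    intro m hm
    refine ⟨fun t ht => ?_, hm.2⟩
    rcases mem_insert.1 ht with h | h
    · subst h; exact hpin m hm _ hwL
    · exact hm.1 t h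
  have e4 : Mo q G (insert w (L.erase w)) ≤ Mo q (del G {w}) (insert w (L.erase w)) :=
    Mo_anti (del_le G {w}) (Subset.refl _)
  have e5 := Submodule.finrank_mono e4
  rw [e3] at e5
  have hN : (nb G w).card = d := by omega
  have e6 : Module.finrank ℝ (Mo q (del G {w}) (insert w (L.erase w))) =
      Module.finrank ℝ (Mo q G (insert w (L.erase w))) := by rw [e3]; omega
  -- every neighbour of `w` is pinned
  have hzero : ∀ m ∈ Mo q (del G {w}) (insert w (L.erase w)), ∀ u ∈ nb G w, m u = 0 := by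
    intro m hm u hu
    have huw : G.Adj w u := by simpa [nb] using hu
    have hne : u ≠ w := huw.ne'
    set q' : Mot n d := Function.update q w (q u + m u) with hq'
    have c1 : Mo q' (del G {w}) (insert w (L.erase w)) =
        Mo q (del G {w}) (insert w (L.erase w)) := by
      apply Mo_congr
      intro a b hab
      right
      have ha : a ≠ w := by
        have := hab.2.1; simpa using this
      have hb : b ≠ w := by
        have := hab.2.2; simpa using this
      simp [hq', ha, hb]
    have c2 : Mo q' G (insert w (L.erase w)) ≤ Mo q' (del G {w}) (insert w (L.erase w)) :=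
      Mo_anti (del_le G {w}) (Subset.refl _)
    have c3 : Module.finrank ℝ (Mo q' (del G {w}) (insert w (L.erase w))) ≤
        Module.finrank ℝ (Mo q' G (insert w (L.erase w))) := by
      rw [c1, e6]
      exact hq G _ q'
    have c4 := Submodule.eq_of_le_of_finrank_le c2 c3
    have c5 : m ∈ Mo q' G (insert w (L.erase w)) := by rw [c4, c1]; exact hm
    have c6 := c5.2 w u huw
    have c7 : m w = 0 := hm.1 w (mem_insert_self _ _)
    have c8 : q' w = q u + m u := by simp [hq']
    have c9 : q' u = q u := by simp [hq', hne]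
    rw [c7, c8, c9, zero_sub, dotProduct_neg, neg_eq_zero, add_sub_cancel_left] at c6
    exact dotProduct_self_eq_zero.1 c6
  have hiso : ∀ (m : Mot n d) (x : Fin d → ℝ), m ∈ Mo q (del G {w}) (L.erase w) →
      Function.update m w x ∈ Mo q (del G {w}) (L.erase w) := by
    intro m x hm
    refine ⟨fun t ht => ?_, fun a b hab => ?_⟩
    · have : t ≠ w := fun h => hwE (h ▸ ht)
      rw [Function.update_of_ne this]; exact hm.1 t ht
    · have ha : a ≠ w := by
        have := hab.2.1; simpa using this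
      have hb : b ≠ w := by
        have := hab.2.2; simpa using this
      rw [Function.update_of_ne ha, Function.update_of_ne hb]
      exact hm.2 a b hab
  have hzero' : ∀ m ∈ Mo q (del G {w}) (L.erase w), ∀ u ∈ nb G w, m u = 0 := by
    intro m hm u hu
    have huw : G.Adj w u := by simpa [nb] using hu
    have hne : u ≠ w := huw.ne'
    have h1 := hiso m 0 hm
    have h2 : Function.update m w 0 ∈ Mo q (del G {w}) (insert w (L.erase w)) := by
      refine ⟨fun t ht => ?_, h1.2⟩
      rcases mem_insert.1 ht with h | h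
      · subst h; simp
      · exact h1.1 t h
    have h3 := hzero _ h2 u hu
    rwa [Function.update_of_ne hne] at h3
  have hMax : MaxRg q (del G {w}) (L.erase w) := by
    refine ⟨Rg_del hq hw hwE hRg', ?_⟩
    intro K' hK' hR
    have hwK' : w ∉ K' := by
      intro hwK'
      have h1 := pin_of_Rg hq hR hK' hc
      have h2 := h1 (Function.update 0 w 1) (hiso 0 1 (Submodule.zero_mem _)) w hwK'
      rw [Function.update_self] at h2
      have h3 := congrFun h2 ⟨0, hd⟩
      simp at h3
    have hR' : Rg q G K' := by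
      refine Rg_mono (del_le G {w}) (Subset.refl _) hR
    have hU := Rg_union hq hL.1 hR' (le_trans hc (card_le_card (subset_inter (erase_subset _ _) hK')))
    have hE := hL.2 _ subset_union_left hU
    apply Subset.antisymm _ hK'
    intro x hx
    refine mem_erase.2 ⟨fun h => hwK' (h ▸ hx), ?_⟩
    rw [← hE]; exact mem_union_right _ hx
  refine ⟨hMax, hN, ?_⟩
  intro u hu
  exact hMax.mem_of_pin (fun m hm => hzero' m hm u hu)

theorem eo_erase (G : SimpleGraph (Fin n)) {L : Finset (Fin n)} {w : Fin n} (hw : w ∈ L) :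
    eo G (L.erase w) + 2 * (nb G w ∩ L.erase w).card ≤ eo G L := by
  unfold eo
  have h1 : Disjoint (((L.erase w) ×ˢ (L.erase w)).filter (fun e => G.Adj e.1 e.2))
      ((nb G w ∩ L.erase w).image (fun u => (w, u))) := by
    rw [Finset.disjoint_left]
    rintro ⟨a, b⟩ h h'
    simp only [mem_filter, mem_product, mem_erase] at h
    simp only [mem_image, Prod.mk.injEq] at h'
    obtain ⟨u, -, h1, -⟩ := h'
    exact h.1.1.1 h1.symm
  have h2 : Disjoint ((((L.erase w) ×ˢ (L.erase w)).filter (fun e => G.Adj e.1 e.2)) ∪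
      ((nb G w ∩ L.erase w).image (fun u => (w, u))))
      ((nb G w ∩ L.erase w).image (fun u => (u, w))) := by
    rw [Finset.disjoint_left]
    rintro ⟨a, b⟩ h h'
    simp only [mem_image, Prod.mk.injEq, mem_inter, mem_erase] at h'
    obtain ⟨u, ⟨-, hu, -⟩, h1, h2⟩ := h'
    simp only [mem_union, mem_filter, mem_product, mem_erase, mem_image, Prod.mk.injEq] at h
    rcases h with h | ⟨u', -, h3, -⟩
    · exact h.1.2.1 h2.symm
    · exact hu (h1.trans h3.symm)
  have h3 : ((((L.erase w) ×ˢ (L.erase w)).filter (fun e => G.Adj e.1 e.2)) ∪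
      ((nb G w ∩ L.erase w).image (fun u => (w, u)))) ∪
      ((nb G w ∩ L.erase w).image (fun u => (u, w))) ⊆
      ((L ×ˢ L).filter (fun e => G.Adj e.1 e.2)) := by
    rintro ⟨a, b⟩ h
    simp only [mem_union, mem_filter, mem_product, mem_erase, mem_image, Prod.mk.injEq,
      mem_inter, nb, mem_univ, true_and] at h ⊢
    rcases h with (h | ⟨u, ⟨hu, -, hu'⟩, h1, h2⟩) | ⟨u, ⟨hu, -, hu'⟩, h1, h2⟩
    · exact ⟨⟨h.1.1.2, h.1.2.2⟩, h.2⟩
    · subst h1; subst h2; exact ⟨⟨hw, hu'⟩, hu⟩
    · subst h1; subst h2; exact ⟨⟨hu', hw⟩, hu.symm⟩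
  have h4 := card_le_card h3
  rw [card_union_of_disjoint h2, card_union_of_disjoint h1,
    card_image_of_injective _ (fun a b h => by simpa using h),
    card_image_of_injective _ (fun a b h => by simpa using h)] at h4
  omega

/-- the invariant of the peeling process -/
def Inv (q : Mot n d) (G : SimpleGraph (Fin n)) (K R : Finset (Fin n)) : Prop :=
  Hat d G ⊆ R ∧ MaxRg q (ind G R) (K ∩ R) ∧ d + 1 ≤ (K ∩ R).card ∧
  (∃ Q : Finset (Fin n), Q.card = max (5 * d) (K ∩ R).card ∧
    eo G (K ∩ R) + 2 * d * (Q.card - (K ∩ R).card) ≤ eo G Q) ∧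
  (K ⊆ R ∨ ∃ w ∉ R, d ≤ (nb G w ∩ (K ∩ R)).card)

theorem Inv_step (hd : 2 ≤ d) (hq : Good q) {G : SimpleGraph (Fin n)} {ε : ℝ}
    (hS : Sp 4 ε G) (hn : 5 * (d : ℝ) ≤ ε * n) {K R : Finset (Fin n)} (h : Inv q G K R)
    (hne : R ≠ Hat d G) : ∃ w ∈ R, Inv q G K (R.erase w) := by
  obtain ⟨hHat, hMax, hcard, ⟨Q, hQ, hQe⟩, hlast⟩ := h
  have hW : (R \ Hat d G).Nonempty := by
    rw [Finset.nonempty_iff_ne_empty]
    intro h0
    exact hne (Subset.antisymm (sdiff_eq_empty_iff_subset.1 h0) hHat)
  obtain ⟨w, hw, hdeg⟩ := Hat_peel G (R \ Hat d G) hW sdiff_disjoint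
  rw [sdiff_union_of_subset hHat] at hdeg
  have hwR : w ∈ R := (mem_sdiff.1 hw).1
  have hwH : w ∉ Hat d G := (mem_sdiff.1 hw).2
  refine ⟨w, hwR, ?_⟩
  have hdeg' : (nb (ind G R) w).card ≤ d := by rwa [nb_ind G R hwR]
  have hHat' : Hat d G ⊆ R.erase w := fun x hx => mem_erase.2 ⟨fun h => hwH (h ▸ hx), hHat hx⟩
  by_cases hwK : w ∈ K
  · have hwL : w ∈ K ∩ R := mem_inter.2 ⟨hwK, hwR⟩
    have hce : (K ∩ R.erase w).card + 1 = (K ∩ R).card := by
      rw [inter_erase, card_erase_of_mem hwL]
      have : 0 < (K ∩ R).card := card_pos.2 ⟨w, hwL⟩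
      omega
    have hstep := step (by omega) hq hdeg' hMax hwL (by rw [← inter_erase]; omega)
    rw [← inter_erase, del_ind, nb_ind G R hwR] at hstep
    obtain ⟨s1, s2, s3⟩ := hstep
    have s4 : nb G w ∩ R ⊆ nb G w ∩ (K ∩ R.erase w) :=
      fun x hx => mem_inter.2 ⟨(mem_inter.1 hx).1, s3 hx⟩
    have s5 : d ≤ (nb G w ∩ (K ∩ R.erase w)).card := by rw [← s2]; exact card_le_card s4
    have s6 := eo_erase G hwL
    rw [← inter_erase] at s6
    -- the new certificate
    have hcert : ∃ Q : Finset (Fin n), Q.card = max (5 * d) (K ∩ R.erase w).card ∧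
        eo G (K ∩ R.erase w) + 2 * d * (Q.card - (K ∩ R.erase w).card) ≤ eo G Q := by
      by_cases hbig : 5 * d < (K ∩ R).card
      · refine ⟨K ∩ R.erase w, by rw [max_eq_right]; omega, by simp⟩
      · refine ⟨Q, ?_, ?_⟩
        · rw [hQ, max_eq_left (by omega), max_eq_left (by omega)]
        · have hQ' : Q.card = 5 * d := by rw [hQ, max_eq_left (by omega)]
          rw [hQ'] at hQe ⊢
          have : 5 * d - (K ∩ R.erase w).card = (5 * d - (K ∩ R).card) + 1 := by omega
          rw [this, mul_add]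
          have : 2 * (nb G w ∩ (K ∩ R.erase w)).card ≥ 2 * d := by omega
          omega
    have hcard' : d + 1 ≤ (K ∩ R.erase w).card := by
      by_contra hlt
      have hd1 : (K ∩ R.erase w).card = d := by omega
      obtain ⟨Q', hQ', hQe'⟩ := hcert
      rw [hd1, max_eq_left (by omega)] at hQ'
      rw [hd1, hQ'] at hQe'
      have hne' : Q'.Nonempty := by rw [← card_pos]; omega
      have h1 := hS Q' hne' (by rw [hQ']; push_cast; exact hn)
      rw [hQ'] at h1
      have h2 : 5 * d - d = 4 * d := by omega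
      rw [h2] at hQe'
      have h3 : 8 * (d * d) ≤ eo G Q' := by nlinarith
      nlinarith
    exact ⟨hHat', s1, hcard', hcert, Or.inr ⟨w, by simp, s5⟩⟩
  · have hKR : K ∩ R.erase w = K ∩ R := by
      rw [inter_erase, erase_eq_of_notMem]
      simp [hwK]
    have hwL : w ∉ K ∩ R := by simp [hwK]
    refine ⟨hHat', ?_, ?_, ?_, ?_⟩
    · rw [hKR, ← del_ind]
      refine ⟨Rg_del hq hdeg' hwL hMax.1, ?_⟩
      intro K' h1 h2
      exact hMax.2 K' h1 (Rg_mono (del_le _ _) (Subset.refl _) h2)
    · rw [hKR]; exact hcard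
    · rw [hKR]; exact ⟨Q, hQ, hQe⟩
    · rw [hKR]
      rcases hlast with h | ⟨v, hv, hv'⟩
      · left
        intro x hx
        exact mem_erase.2 ⟨fun h' => hwK (h' ▸ hx), h hx⟩
      · right
        exact ⟨v, fun h' => hv (mem_of_mem_erase h'), hv'⟩

end KC

open KC in
/-- large maximal rigid sets lie in `Hat`, and are already rigid there -/
theorem KC {n d : ℕ} (hd : 2 ≤ d) {q : Mot n d} (hq : Good q) (G : SimpleGraph (Fin n)) (ε : ℝ)
    (hS : Sp 4 ε G) (hn : 5 * (d : ℝ) ≤ ε * n) (K : Finset (Fin n)) (hK : MaxRg q G K)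
    (hc : 5 * d ≤ K.card) : K ⊆ Hat d G ∧ Rg q (ind G (Hat d G)) K := by
  have h0 : Inv q G K univ := by
    refine ⟨subset_univ _, ?_, ?_, ?_, Or.inl (subset_univ _)⟩
    · rw [ind_univ, inter_univ]; exact hK
    · rw [inter_univ]; omega
    · refine ⟨K, ?_, ?_⟩
      · rw [inter_univ, max_eq_right hc]
      · rw [inter_univ]; simp
  have hex : ∃ k, ∃ R : Finset (Fin n), R.card = k ∧ Inv q G K R := ⟨_, univ, rfl, h0⟩
  obtain ⟨R, hRc, hR⟩ := Nat.find_spec hex
  have hRH : R = Hat d G := by
    by_contra hne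
    obtain ⟨w, hw, hI⟩ := Inv_step hd hq hS hn hR hne
    have hlt : (R.erase w).card < Nat.find hex := by
      rw [← hRc]; exact card_erase_lt_of_mem hw
    exact Nat.find_min hex hlt ⟨_, rfl, hI⟩
  subst hRH
  obtain ⟨-, hMax, -, -, hlast⟩ := hR
  have hsub : K ⊆ Hat d G := by
    rcases hlast with h | ⟨w, hw, hw'⟩
    · exact h
    · exfalso
      apply hw
      apply Hat_closed
      refine le_trans hw' (card_le_card ?_)
      exact inter_subset_inter (Subset.refl _) inter_subset_right
  refine ⟨hsub, ?_⟩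
  have := hMax.1
  rwa [inter_eq_left.2 hsub] at this

end Pool.Agent.GRI
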