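import Pool.Agent.Lib_MP_264ef2_ins.Prob

set_option autoImplicit false

namespace Pool.Agent.GRI

open Finset
open scoped Classical

namespace FM

/-- weights -/
noncomputable def wt (π : ℝ) (j : ℕ) : ℝ := if j < 2 then 0 else if j = 2 then π else 1

/-- the generating function of the weights and its derivatives -/
noncomputable def GG (π : ℝ) : ℕ → ℝ → ℝ
  | 0, z => Real.exp z - 1 - z - z ^ 2 / 2 + π * z ^ 2 / 2
  | 1, z => Real.exp z - 1 - z + π * z
  | 2, z => Real.exp z - 1 + π
  | (_ + 3), z => Real.exp z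

theorem wt_nonneg {π : ℝ} (h : 0 ≤ π) (j : ℕ) : 0 ≤ wt π j := by
  unfold wt; split_ifs <;> linarith

theorem GG_deriv (π : ℝ) (j : ℕ) (z : ℝ) : HasDerivAt (GG π j) (GG π (j + 1) z) z := by
  match j with
  | 0 =>
    have h := ((((Real.hasDerivAt_exp z).sub_const 1).sub (hasDerivAt_id z)).sub
      (((hasDerivAt_id z).pow 2).div_const 2)).add
      ((((hasDerivAt_id z).pow 2).const_mul π).div_const 2)
    have h2 : HasDerivAt (GG π 0) (Real.exp z - 1 - (↑2 * id z ^ (2 - 1) * 1) / 2
        + π * (↑2 * id z ^ (2 - 1) * 1) / 2) z := h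
    convert h2 using 1
    simp only [GG, id]
    norm_num
    ring
  | 1 =>
    have h := (((Real.hasDerivAt_exp z).sub_const 1).sub (hasDerivAt_id z)).add
      ((hasDerivAt_id z).const_mul π)
    have h2 : HasDerivAt (GG π 1) (Real.exp z - 1 + π * 1) z := h
    convert h2 using 1
    simp only [GG]; ring
  | 2 =>
    have h := ((Real.hasDerivAt_exp z).sub_const 1).add_const π
    exact h
  | (k + 3) =>
    exact Real.hasDerivAt_exp z

theorem GG_zero (π : ℝ) (j : ℕ) : GG π j 0 = wt π j := by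
  match j with
  | 0 => simp [GG, wt]
  | 1 => simp [GG, wt]
  | 2 => simp [GG, wt]
  | (k + 3) =>
    have h1 : ¬ (k + 3 < 2) := by omega
    have h2 : ¬ (k + 3 = 2) := by omega
    simp [GG, wt, h1, h2]

theorem GG_nonneg {π : ℝ} (h : 0 ≤ π) (j : ℕ) {z : ℝ} (hz : 0 ≤ z) : 0 ≤ GG π j z := by
  have h1 : 1 + z + z ^ 2 / 2 ≤ Real.exp z := Real.quadratic_le_exp_of_nonneg hz
  have h2 : z + 1 ≤ Real.exp z := Real.add_one_le_exp z
  match j with
  | 0 => simp only [GG]; nlinarith [mul_nonneg h (sq_nonneg z)]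
  | 1 => simp only [GG]; nlinarith [mul_nonneg h hz]
  | 2 => simp only [GG]; nlinarith
  | (k + 3) => exact (Real.exp_pos z).le

theorem GG_mono {π : ℝ} (h : 0 ≤ π) (j : ℕ) {z : ℝ} (hz : 0 ≤ z) : GG π j 0 ≤ GG π j z := by
  have hm : MonotoneOn (GG π j) (Set.Ici 0) := by
    apply monotoneOn_of_deriv_nonneg (convex_Ici 0)
    · exact fun x _ => (GG_deriv π j x).continuousAt.continuousWithinAt
    · exact fun x _ => (GG_deriv π j x).differentiableAt.differentiableWithinAt
    · intro x hx
      rw [interior_Ici] at hx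
      rw [(GG_deriv π j x).deriv]
      exact GG_nonneg h _ (le_of_lt hx)
  exact hm (by simp) hz hz

/-- weighted number of words of length `m` with letters in `U` -/
noncomputable def HH {n : ℕ} (U : Finset (Fin n)) (π : ℝ) : ℕ → (Fin n → ℕ) → ℝ
  | 0, κ => ∏ w ∈ U, wt π (κ w)
  | m + 1, κ => ∑ v ∈ U, HH U π m (fun w => κ w + if w = v then 1 else 0)

theorem HH_le {n : ℕ} (U : Finset (Fin n)) {π : ℝ} (hπ : 0 ≤ π) :
    ∀ (m : ℕ) (κ : Fin n → ℕ) (z : ℝ), 0 ≤ z →
      HH U π m κ * (z ^ m / (m.factorial : ℝ)) ≤ ∏ w ∈ U, GG π (κ w) z := by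
  intro m
  induction m with
  | zero =>
    intro κ z hz
    simp only [HH, pow_zero, Nat.factorial_zero, Nat.cast_one, div_one, mul_one]
    apply Finset.prod_le_prod
    · intro i _; exact wt_nonneg hπ _
    · intro i _
      rw [← GG_zero]
      exact GG_mono hπ _ hz
  | succ m ih =>
    intro κ z hz
    have hd : ∀ x : ℝ, HasDerivAt (fun x => (∏ w ∈ U, GG π (κ w) x)
        - HH U π (m + 1) κ * (x ^ (m + 1) / ((m + 1).factorial : ℝ)))
        ((∑ v ∈ U, (∏ w ∈ U.erase v, GG π (κ w) x) • GG π (κ v + 1) x)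
          - HH U π (m + 1) κ * (x ^ m / (m.factorial : ℝ))) x := by
      intro x
      apply HasDerivAt.sub
      · exact HasDerivAt.fun_finsetProd (fun i _ => GG_deriv π (κ i) x)
      · apply HasDerivAt.const_mul
        have h := ((hasDerivAt_id x).pow (m + 1)).div_const ((m + 1).factorial : ℝ)
        have h2 : HasDerivAt (fun x : ℝ => x ^ (m + 1) / ((m + 1).factorial : ℝ))
          ((↑(m + 1) * id x ^ (m + 1 - 1) * 1) / ((m + 1).factorial : ℝ)) x := h
        have h3 : (↑(m + 1) * id x ^ (m + 1 - 1) * 1) / ((m + 1).factorial : ℝ)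
            = x ^ m / (m.factorial : ℝ) := by
          rw [Nat.factorial_succ]
          have : ((m.factorial : ℝ)) ≠ 0 := by positivity
          have : ((m : ℝ) + 1) ≠ 0 := by positivity
          simp only [id, Nat.add_sub_cancel, mul_one]
          push_cast
          field_simp
        rw [h3] at h2
        exact h2
    have hm : MonotoneOn (fun x => (∏ w ∈ U, GG π (κ w) x)
        - HH U π (m + 1) κ * (x ^ (m + 1) / ((m + 1).factorial : ℝ))) (Set.Ici 0) := by
      apply monotoneOn_of_deriv_nonneg (convex_Ici 0)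
      · exact fun x _ => (hd x).continuousAt.continuousWithinAt
      · exact fun x _ => (hd x).differentiableAt.differentiableWithinAt
      · intro x hx
        rw [interior_Ici] at hx
        rw [(hd x).deriv]
        have hx0 : (0 : ℝ) ≤ x := le_of_lt hx
        rw [sub_nonneg]
        simp only [HH]
        rw [Finset.sum_mul]
        apply Finset.sum_le_sum
        intro v hv
        refine (ih _ x hx0).trans (le_of_eq ?_)
        rw [← Finset.prod_erase_mul _ _ hv, smul_eq_mul]
        congr 1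
        · apply Finset.prod_congr rfl
          intro w hw
          simp [Finset.ne_of_mem_erase hw]
        · simp
    have h0 := hm (by simp) hz hz
    simp only at h0
    have h1 : 0 ≤ ∏ w ∈ U, GG π (κ w) 0 :=
      Finset.prod_nonneg (fun i _ => GG_nonneg hπ _ le_rfl)
    simp only [ne_eq, Nat.add_eq_zero_iff, one_ne_zero, and_false, not_false_eq_true, zero_pow,
      zero_div, mul_zero, sub_zero] at h0
    linarith

/-- edges inside `U` -/
noncomputable def IE {n : ℕ} (U : Finset (Fin n)) : Finset (Edg n) :=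
  univ.filter (fun e : Edg n => ∀ v ∈ (e : Sym2 (Fin n)), v ∈ U)

/-- the degree of `w` -/
noncomputable def dg {n : ℕ} (H : Finset (Edg n)) (w : Fin n) : ℕ :=
  (H.filter (fun e : Edg n => w ∈ (e : Sym2 (Fin n)))).card

/-- weighted number of graphs on `U` with `e` edges -/
noncomputable def NN {n : ℕ} (U : Finset (Fin n)) (π : ℝ) (e : ℕ) (κ : Fin n → ℕ) : ℝ :=
  ∑ H ∈ powersetCard e (IE U), ∏ w ∈ U, wt π (κ w + dg H w)

theorem NN_nonneg {n : ℕ} (U : Finset (Fin n)) {π : ℝ} (hπ : 0 ≤ π) (e : ℕ) (κ : Fin n → ℕ) :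
    0 ≤ NN U π e κ :=
  Finset.sum_nonneg (fun _ _ => Finset.prod_nonneg (fun _ _ => wt_nonneg hπ _))

theorem NN_step1 {n : ℕ} (U : Finset (Fin n)) {π : ℝ} (hπ : 0 ≤ π) (e : ℕ) (κ : Fin n → ℕ) :
    NN U π (e + 1) κ * (e + 1) ≤
      ∑ ε ∈ IE U, NN U π e (fun w => κ w + if w ∈ (ε : Sym2 (Fin n)) then 1 else 0) := by
  have h1 : NN U π (e + 1) κ * (e + 1) = ∑ x ∈ (powersetCard (e + 1) (IE U)).sigma (fun H => H),
      ∏ w ∈ U, wt π (κ w + dg x.1 w) := by
    rw [Finset.sum_sigma, NN, Finset.sum_mul]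
    apply Finset.sum_congr rfl
    intro H hH
    simp only
    rw [Finset.sum_const, (Finset.mem_powersetCard.1 hH).2]
    simp only [nsmul_eq_mul]
    push_cast
    ring
  have h2 : ∑ ε ∈ IE U, NN U π e (fun w => κ w + if w ∈ (ε : Sym2 (Fin n)) then 1 else 0) =
      ∑ x ∈ (IE U) ×ˢ (powersetCard e (IE U)),
        ∏ w ∈ U, wt π (κ w + (if w ∈ (x.1 : Sym2 (Fin n)) then 1 else 0) + dg x.2 w) := by
    rw [Finset.sum_product]
    rfl
  rw [h1, h2]
  have key : ∀ x ∈ (powersetCard (e + 1) (IE U)).sigma (fun H => H),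
      (x.2, x.1.erase x.2) ∈ (IE U) ×ˢ (powersetCard e (IE U)) := by
    intro x hx
    rw [Finset.mem_sigma, Finset.mem_powersetCard] at hx
    rw [Finset.mem_product, Finset.mem_powersetCard]
    refine ⟨hx.1.1 hx.2, (Finset.erase_subset _ _).trans hx.1.1, ?_⟩
    rw [Finset.card_erase_of_mem hx.2, hx.1.2]; simp
  have hinj : Set.InjOn (fun x : (Σ _ : Finset (Edg n), Edg n) => (x.2, x.1.erase x.2))
      ((powersetCard (e + 1) (IE U)).sigma (fun H => H) : Set (Σ _ : Finset (Edg n), Edg n)) := by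
    rintro ⟨H, a⟩ hx ⟨H', a'⟩ hy hxy
    simp only [Finset.coe_sigma, Set.mem_sigma_iff, Finset.mem_coe] at hx hy
    simp only [Prod.mk.injEq] at hxy
    obtain ⟨h1, h2⟩ := hxy
    subst h1
    have : H = H' := by
      rw [← Finset.insert_erase hx.2, ← Finset.insert_erase hy.2, h2]
    subst this
    rfl
  calc _ = ∑ x ∈ (powersetCard (e + 1) (IE U)).sigma (fun H => H),
        (fun y : Edg n × Finset (Edg n) =>
          ∏ w ∈ U, wt π (κ w + (if w ∈ (y.1 : Sym2 (Fin n)) then 1 else 0) + dg y.2 w))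
          (x.2, x.1.erase x.2) := by
        apply Finset.sum_congr rfl
        intro x hx
        apply Finset.prod_congr rfl
        intro w hw
        simp only
        congr 1
        rw [Finset.mem_sigma] at hx
        rw [add_assoc]
        congr 1
        unfold dg
        rw [Finset.filter_erase]
        split_ifs with h
        · rw [Finset.card_erase_of_mem (by simp [h, hx.2])]
          have : 0 < (x.1.filter (fun e : Edg n => w ∈ (e : Sym2 (Fin n)))).card := by
            rw [Finset.card_pos]; exact ⟨x.2, by simp [h, hx.2]⟩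
          omega
        · rw [Finset.erase_eq_of_notMem (by simp [h])]
          omega
    _ = ∑ y ∈ ((powersetCard (e + 1) (IE U)).sigma (fun H => H)).image
          (fun x : (Σ _ : Finset (Edg n), Edg n) => ((x.2, x.1.erase x.2) : Edg n × Finset (Edg n))),
          ∏ w ∈ U, wt π (κ w + (if w ∈ (y.1 : Sym2 (Fin n)) then 1 else 0) + dg y.2 w) := by
        rw [Finset.sum_image hinj]
    _ ≤ _ := by
        apply Finset.sum_le_sum_of_subset_of_nonneg
        · intro y hy
          rw [Finset.mem_image] at hy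
          obtain ⟨x, hx, rfl⟩ := hy
          exact key x hx
        · intro i _ _
          exact Finset.prod_nonneg (fun _ _ => wt_nonneg hπ _)

theorem NN_step2 {n : ℕ} (U : Finset (Fin n)) {π : ℝ} (hπ : 0 ≤ π) (e : ℕ) (κ : Fin n → ℕ) :
    2 * ∑ ε ∈ IE U, NN U π e (fun w => κ w + if w ∈ (ε : Sym2 (Fin n)) then 1 else 0) ≤
      ∑ u ∈ U, ∑ v ∈ U, NN U π e (fun w => κ w + (if w = u then 1 else 0)
        + if w = v then 1 else 0) := by
  set g : Edg n → ℝ := fun ε =>
    NN U π e (fun w => κ w + if w ∈ (ε : Sym2 (Fin n)) then 1 else 0) with hg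
  have hg0 : ∀ ε, 0 ≤ g ε := fun ε => NN_nonneg U hπ e _
  have h1 : ∀ ε ∈ IE U, 2 * g ε = ∑ u ∈ U, ∑ v ∈ U, if (ε : Sym2 (Fin n)) = s(u, v) then g ε else 0 := by
    intro ε hε
    obtain ⟨⟨a, b⟩, hab⟩ := ε
    have hab' : a ≠ b := by simpa using hab
    have haU : a ∈ U := by
      have := (Finset.mem_filter.1 hε).2 a; simpa using this
    have hbU : b ∈ U := by
      have := (Finset.mem_filter.1 hε).2 b; simpa using this
    set γ := g ⟨Quot.mk _ (a, b), hab⟩
    have e1 : ∀ u ∈ U, (∑ v ∈ U, if (Quot.mk _ (a, b) : Sym2 (Fin n)) = s(u, v) then γ else 0) =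
        (if u = a then γ else 0) + (if u = b then γ else 0) := by
      intro u hu
      have e2 : ∀ v ∈ U, (if (Quot.mk _ (a, b) : Sym2 (Fin n)) = s(u, v) then γ else 0) =
          (if u = a then (if v = b then γ else 0) else 0) +
          (if u = b then (if v = a then γ else 0) else 0) := by
        intro v hv
        have : (Quot.mk _ (a, b) : Sym2 (Fin n)) = s(u, v) ↔ (a = u ∧ b = v) ∨ (a = v ∧ b = u) :=
          Sym2.eq_iff
        rw [if_congr this rfl rfl]
        by_cases h1 : u = a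
        · subst h1
          have h2 : u ≠ b := hab'
          by_cases h3 : v = b
          · subst h3; simp [h2]
          · have : ¬ b = v := fun h => h3 h.symm
            simp [h2, h3, this, hab'.symm]
        · have h1' : ¬ a = u := fun h => h1 h.symm
          by_cases h2 : u = b
          · subst h2
            by_cases h3 : v = a
            · subst h3; simp [h1]
            · have : ¬ a = v := fun h => h3 h.symm
              simp [h1, h1', h3, this]
          · have h2' : ¬ b = u := fun h => h2 h.symm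
            simp [h1, h2, h1', h2']
      rw [Finset.sum_congr rfl e2, Finset.sum_add_distrib]
      congr 1
      · split_ifs with h
        · simp [hbU]
        · simp
      · split_ifs with h
        · simp [haU]
        · simp
    rw [Finset.sum_congr rfl e1, Finset.sum_add_distrib]
    simp [haU, hbU]
    ring
  rw [Finset.mul_sum, Finset.sum_congr rfl h1, Finset.sum_comm]
  apply Finset.sum_le_sum
  intro u hu
  rw [Finset.sum_comm]
  apply Finset.sum_le_sum
  intro v hv
  by_cases huv : u = v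
  · subst huv
    have : ∀ ε ∈ IE U, (if (ε : Sym2 (Fin n)) = s(u, u) then g ε else 0) = 0 := by
      intro ε _
      rw [if_neg]
      intro h
      apply ε.2
      rw [h]; simp
    rw [Finset.sum_congr rfl this]
    simp only [Finset.sum_const_zero]
    exact NN_nonneg U hπ e _
  · have hd : ¬ (s(u, v) : Sym2 (Fin n)).IsDiag := by simpa using huv
    have : ∀ ε ∈ IE U, (if (ε : Sym2 (Fin n)) = s(u, v) then g ε else 0) =
        if ε = ⟨s(u, v), hd⟩ then g ⟨s(u, v), hd⟩ else 0 := by
      intro ε _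
      by_cases h : ε = ⟨s(u, v), hd⟩
      · subst h; simp
      · rw [if_neg h, if_neg]
        intro h2
        exact h (Subtype.ext h2)
    rw [Finset.sum_congr rfl this, Finset.sum_ite_eq']
    have hmem : (⟨s(u, v), hd⟩ : Edg n) ∈ IE U := by
      unfold IE
      simp only [Finset.mem_filter, Finset.mem_univ, true_and, Sym2.mem_iff]
      rintro w (rfl | rfl)
      · exact hu
      · exact hv
    rw [if_pos hmem]
    apply le_of_eq
    rw [hg]
    simp only
    congr 1
    ext w
    rw [add_assoc]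
    congr 1
    simp only [Sym2.mem_iff]
    by_cases h1 : w = u
    · subst h1; simp [huv]
    · simp [h1]

theorem NN_le {n : ℕ} (U : Finset (Fin n)) {π : ℝ} (hπ : 0 ≤ π) : ∀ (e : ℕ) (κ : Fin n → ℕ),
    NN U π e κ * (2 ^ e * (e.factorial : ℝ)) ≤ HH U π (2 * e) κ := by
  intro e
  induction e with
  | zero =>
    intro κ
    simp [NN, HH, dg]
  | succ e ih =>
    intro κ
    have h1 := NN_step1 U hπ e κ
    have h2 := NN_step2 U hπ e κ
    have h3 : HH U π (2 * (e + 1)) κ = ∑ u ∈ U, ∑ v ∈ U, HH U π (2 * e) (fun w => κ w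
        + (if w = u then 1 else 0) + if w = v then 1 else 0) := by
      rw [show 2 * (e + 1) = (2 * e + 1) + 1 by ring]
      rfl
    have h4 : (∑ u ∈ U, ∑ v ∈ U, NN U π e (fun w => κ w + (if w = u then 1 else 0)
        + if w = v then 1 else 0)) * (2 ^ e * (e.factorial : ℝ)) ≤ HH U π (2 * (e + 1)) κ := by
      rw [h3, Finset.sum_mul]
      apply Finset.sum_le_sum
      intro u _
      rw [Finset.sum_mul]
      apply Finset.sum_le_sum
      intro v _
      exact ih _
    rw [Nat.factorial_succ]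
    push_cast
    have h5 : (0 : ℝ) < 2 ^ e * (e.factorial : ℝ) := by positivity
    calc NN U π (e + 1) κ * (2 ^ (e + 1) * (((e : ℝ) + 1) * (e.factorial : ℝ)))
        = (2 * (NN U π (e + 1) κ * (e + 1))) * (2 ^ e * (e.factorial : ℝ)) := by ring
      _ ≤ (∑ u ∈ U, ∑ v ∈ U, NN U π e (fun w => κ w + (if w = u then 1 else 0)
        + if w = v then 1 else 0)) * (2 ^ e * (e.factorial : ℝ)) := by
          apply mul_le_mul_of_nonneg_right _ h5.le
          linarith
      _ ≤ _ := h4


/-! ### probability -/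

theorem resample' {n : ℕ} (S : Finset (Edg n)) (p : ℝ) (f : Finset (Edg n) → ℝ) :
    Ex p f = Ex p (fun A => Ex p (fun B => f ((A \ S) ∪ (B ∩ S)))) := by
  rw [Ex_resample S p f]
  congr 1
  funext A
  congr 1
  funext B
  congr 1
  ext x
  simp only [Finset.mem_union, Finset.mem_sdiff, Finset.mem_inter]

theorem prod_disjoint' {n : ℕ} {ι : Type*} (s : Finset ι) (S : ι → Finset (Edg n))
    (h : ∀ i ∈ s, ∀ j ∈ s, i ≠ j → Disjoint (S i) (S j)) (p : ℝ) (f : ι → Finset (Edg n) → ℝ) :
    Ex p (fun A => ∏ i ∈ s, f i (A ∩ S i)) = ∏ i ∈ s, Ex p (fun A => f i (A ∩ S i)) := by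
  have h := Ex_prod_disjoint s S h p f
  have e : ∀ (A : Finset (Edg n)) (i : ι), @Inter.inter _ (@Finset.instInter _
      (fun a b => Classical.propDecidable (a = b))) A (S i) = A ∩ S i := by
    intro A i
    ext x
    simp only [Finset.mem_inter]
  simp only [e] at h
  exact h

theorem prob_card {n : ℕ} {p : ℝ} (h0 : 0 ≤ p) (h1 : p ≤ 1) (X : Finset (Edg n)) (k : ℕ) :
    Pr p (fun B => (B ∩ X).card = k) ≤
      (X.card.choose k : ℝ) * (p ^ k * (1 - p) ^ (X.card - k)) := by
  calc Pr p (fun B => (B ∩ X).card = k)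
      ≤ Pr p (fun B => ∃ F ∈ powersetCard k X, F ⊆ B ∧ Disjoint (X \ F) B) := by
        apply Pr_mono h0 h1
        intro B hB
        refine ⟨B ∩ X, ?_, Finset.inter_subset_left, ?_⟩
        · rw [Finset.mem_powersetCard]
          exact ⟨Finset.inter_subset_right, hB⟩
        · rw [Finset.disjoint_left]
          intro a ha haB
          rw [Finset.mem_sdiff, Finset.mem_inter] at ha
          exact ha.2 ⟨haB, ha.1⟩
    _ ≤ ∑ F ∈ powersetCard k X, Pr p (fun B => F ⊆ B ∧ Disjoint (X \ F) B) :=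
        Pr_exists_le h0 h1 _ _
    _ = ∑ F ∈ powersetCard k X, (p ^ k * (1 - p) ^ (X.card - k)) := by
        apply Finset.sum_congr rfl
        intro F hF
        rw [Finset.mem_powersetCard] at hF
        rw [Pr_subset_disjoint p F (X \ F) Finset.disjoint_sdiff, hF.2,
          Finset.card_sdiff_of_subset hF.1, hF.2]
    _ = _ := by
        rw [Finset.sum_const, Finset.card_powersetCard, nsmul_eq_mul]

/-- the edge `wx` -/
def ed {n : ℕ} (w x : Fin n) (h : w ≠ x) : Edg n := ⟨s(w, x), by simpa using h⟩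

/-- edges between `w` and `R` -/
noncomputable def ER {n : ℕ} (R : Finset (Fin n)) (w : Fin n) : Finset (Edg n) :=
  univ.filter (fun e : Edg n => ∃ x ∈ R, (e : Sym2 (Fin n)) = s(w, x))

/-- edges meeting `U` -/
noncomputable def SE {n : ℕ} (U : Finset (Fin n)) : Finset (Edg n) :=
  univ.filter (fun e : Edg n => ∃ v ∈ U, v ∈ (e : Sym2 (Fin n)))

theorem card_inter_ER {n : ℕ} (B : Finset (Edg n)) (R : Finset (Fin n)) (w : Fin n) (hw : w ∉ R) :
    (B ∩ ER R w).card = (nb (gr B) w ∩ R).card := by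
  symm
  apply Finset.card_bij (fun x hx => ed w x (by
    rintro rfl
    exact hw (Finset.mem_inter.1 hx).2))
  · intro x hx
    rw [Finset.mem_inter] at hx
    unfold nb at hx
    rw [Finset.mem_filter, gr_adj] at hx
    obtain ⟨⟨-, h, hB⟩, hR⟩ := hx
    rw [Finset.mem_inter]
    refine ⟨hB, ?_⟩
    unfold ER
    rw [Finset.mem_filter]
    exact ⟨Finset.mem_univ _, x, hR, rfl⟩
  · intro x hx y hy hxy
    have h := congrArg Subtype.val hxy
    simp only [ed] at h
    rw [Sym2.congr_right] at h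
    exact h
  · intro e he
    rw [Finset.mem_inter] at he
    obtain ⟨heB, he⟩ := he
    unfold ER at he
    rw [Finset.mem_filter] at he
    obtain ⟨-, x, hx, hex⟩ := he
    have hwx : w ≠ x := by
      rintro rfl
      exact hw hx
    refine ⟨x, ?_, ?_⟩
    · rw [Finset.mem_inter]
      refine ⟨?_, hx⟩
      unfold nb
      rw [Finset.mem_filter, gr_adj]
      refine ⟨Finset.mem_univ _, hwx, ?_⟩
      have : (⟨s(w, x), by simpa using hwx⟩ : Edg n) = e := Subtype.ext hex.symm
      rw [this]; exact heB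
    · exact Subtype.ext hex.symm

theorem card_ER {n : ℕ} (R : Finset (Fin n)) (w : Fin n) (hw : w ∉ R) :
    (ER R w).card = R.card := by
  symm
  apply Finset.card_bij (fun x hx => ed w x (by
    rintro rfl
    exact hw hx))
  · intro x hx
    unfold ER
    rw [Finset.mem_filter]
    exact ⟨Finset.mem_univ _, x, hx, rfl⟩
  · intro x hx y hy hxy
    have h := congrArg Subtype.val hxy
    simp only [ed] at h
    rw [Sym2.congr_right] at h
    exact h
  · intro e he
    unfold ER at he
    rw [Finset.mem_filter] at he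
    obtain ⟨-, x, hx, hex⟩ := he
    exact ⟨x, hx, Subtype.ext hex.symm⟩

theorem dg_inter_IE {n : ℕ} (B : Finset (Edg n)) (U : Finset (Fin n)) (w : Fin n) (hw : w ∈ U) :
    dg (B ∩ IE U) w = (nb (gr B) w ∩ U).card := by
  symm
  have hne : ∀ x, x ∈ nb (gr B) w ∩ U → w ≠ x := by
    intro x hx
    rw [Finset.mem_inter] at hx
    unfold nb at hx
    rw [Finset.mem_filter, gr_adj] at hx
    exact hx.1.2.1
  apply Finset.card_bij (fun x hx => ed w x (hne x hx))
  · intro x hx
    have hx' := hx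
    rw [Finset.mem_inter] at hx
    unfold nb at hx
    rw [Finset.mem_filter, gr_adj] at hx
    obtain ⟨⟨-, h, hB⟩, hU⟩ := hx
    rw [Finset.mem_filter, Finset.mem_inter]
    refine ⟨⟨hB, ?_⟩, ?_⟩
    · unfold IE
      rw [Finset.mem_filter]
      refine ⟨Finset.mem_univ _, ?_⟩
      intro v hv
      simp only [ed, Sym2.mem_iff] at hv
      rcases hv with rfl | rfl
      · exact hw
      · exact hU
    · simp [ed]
  · intro x hx y hy hxy
    have h := congrArg Subtype.val hxy
    simp only [ed] at h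
    rw [Sym2.congr_right] at h
    exact h
  · intro e he
    rw [Finset.mem_filter, Finset.mem_inter] at he
    obtain ⟨⟨heB, heI⟩, hwe⟩ := he
    obtain ⟨x, hex⟩ := Sym2.mem_iff_exists.1 hwe
    have hwx : w ≠ x := by
      intro h
      apply e.2
      rw [hex]; simpa using h
    have hxU : x ∈ U := by
      unfold IE at heI
      rw [Finset.mem_filter] at heI
      apply heI.2
      rw [hex]; simp
    refine ⟨x, ?_, ?_⟩
    · rw [Finset.mem_inter]
      refine ⟨?_, hxU⟩
      unfold nb
      rw [Finset.mem_filter, gr_adj]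
      refine ⟨Finset.mem_univ _, hwx, ?_⟩
      have : (⟨s(w, x), by simpa using hwx⟩ : Edg n) = e := Subtype.ext hex.symm
      rw [this]; exact heB
    · exact Subtype.ext hex.symm

theorem sum_dg {n : ℕ} (U : Finset (Fin n)) (H : Finset (Edg n)) (hH : H ⊆ IE U) :
    ∑ w ∈ U, dg H w = 2 * H.card := by
  unfold dg
  simp only [Finset.card_filter]
  rw [Finset.sum_comm]
  rw [Finset.card_eq_sum_ones, Finset.mul_sum]
  apply Finset.sum_congr rfl
  intro e he
  have heI := hH he
  unfold IE at heI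
  rw [Finset.mem_filter] at heI
  obtain ⟨⟨a, b⟩, hab⟩ := e
  have hab' : a ≠ b := by simpa using hab
  have haU : a ∈ U := by
    have := heI.2 a; simpa using this
  have hbU : b ∈ U := by
    have := heI.2 b; simpa using this
  rw [← Finset.card_filter]
  have : U.filter (fun w => w ∈ (Quot.mk _ (a, b) : Sym2 (Fin n))) = {a, b} := by
    ext w
    rw [Finset.mem_filter]
    have : w ∈ (Quot.mk _ (a, b) : Sym2 (Fin n)) ↔ w = a ∨ w = b := Sym2.mem_iff
    rw [this]
    simp only [Finset.mem_insert, Finset.mem_singleton]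
    constructor
    · exact fun h => h.2
    · rintro (rfl | rfl)
      · exact ⟨haU, Or.inl rfl⟩
      · exact ⟨hbU, Or.inr rfl⟩
  rw [this, Finset.card_pair hab', mul_one]

theorem eo_eq_sum {n : ℕ} (G : SimpleGraph (Fin n)) (U : Finset (Fin n)) :
    eo G U = ∑ w ∈ U, (nb G w ∩ U).card := by
  unfold eo
  rw [Finset.card_filter, Finset.sum_product]
  apply Finset.sum_congr rfl
  intro w _
  rw [← Finset.card_filter]
  congr 1
  ext x
  simp only [Finset.mem_filter, Finset.mem_inter, nb, Finset.mem_univ, true_and]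
  tauto

theorem eo_eq {n : ℕ} (B : Finset (Edg n)) (U : Finset (Fin n)) :
    eo (gr B) U = 2 * (B ∩ IE U).card := by
  rw [eo_eq_sum, ← sum_dg U (B ∩ IE U) Finset.inter_subset_right]
  apply Finset.sum_congr rfl
  intro w hw
  rw [dg_inter_IE B U w hw]

theorem prob_H {n : ℕ} {p π : ℝ} (h0 : 0 ≤ p) (h1 : p ≤ 1) (U R : Finset (Fin n))
    (hUR : Disjoint U R) (d : ℕ)
    (hb : ∀ w ∈ U, Pr p (fun B => (B ∩ ER R w).card = d - 1) ≤ π)
    (H : Finset (Edg n)) (hH : H ⊆ IE U) (hH2 : ∀ w ∈ U, 2 ≤ dg H w) :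
    Pr p (fun B => H ⊆ B ∧ ∀ w ∈ U, dg H w = 2 → (B ∩ ER R w).card = d - 1) ≤
      p ^ H.card * ∏ w ∈ U, wt π (dg H w) := by
  set D := U.filter (fun w => dg H w = 2) with hD
  set S : Option (Fin n) → Finset (Edg n) := fun i => i.elim (IE U) (fun w => ER R w) with hS
  set f : Option (Fin n) → Finset (Edg n) → ℝ := fun i X => i.elim (if H ⊆ X then 1 else 0)
    (fun _ => if X.card = d - 1 then 1 else 0) with hf
  have hdis : ∀ i ∈ Finset.insertNone D, ∀ j ∈ Finset.insertNone D, i ≠ j →
      Disjoint (S i) (S j) := by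
    have hA : ∀ w ∈ U, Disjoint (IE U) (ER R w) := by
      intro w hw
      rw [Finset.disjoint_left]
      intro e he he2
      unfold IE at he
      unfold ER at he2
      rw [Finset.mem_filter] at he he2
      obtain ⟨-, x, hx, hex⟩ := he2
      have : x ∈ U := he.2 x (by rw [hex]; simp)
      exact Finset.disjoint_left.1 hUR this hx
    have hB : ∀ w ∈ U, ∀ w' ∈ U, w ≠ w' → Disjoint (ER R w) (ER R w') := by
      intro w hw w' hw' hne
      rw [Finset.disjoint_left]
      intro e he he2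
      unfold ER at he he2
      rw [Finset.mem_filter] at he he2
      obtain ⟨-, x, hx, hex⟩ := he
      obtain ⟨-, y, hy, hey⟩ := he2
      rw [hex, Sym2.eq_iff] at hey
      rcases hey with ⟨h, -⟩ | ⟨h, -⟩
      · exact hne h
      · subst h
        exact Finset.disjoint_left.1 hUR hw hy
    rintro (_ | w) hi (_ | w') hj hne
    · exact absurd rfl hne
    · simp only [hS, Option.elim]
      apply hA
      rw [Finset.some_mem_insertNone, hD, Finset.mem_filter] at hj
      exact hj.1
    · simp only [hS, Option.elim]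
      apply Disjoint.symm
      apply hA
      rw [Finset.some_mem_insertNone, hD, Finset.mem_filter] at hi
      exact hi.1
    · simp only [hS, Option.elim]
      rw [Finset.some_mem_insertNone, hD, Finset.mem_filter] at hi hj
      apply hB _ hi.1 _ hj.1
      intro h
      exact hne (by rw [h])
  have key := prod_disjoint' (Finset.insertNone D) S hdis p f
  have h2 : Pr p (fun B => H ⊆ B ∧ ∀ w ∈ U, dg H w = 2 → (B ∩ ER R w).card = d - 1) =
      Ex p (fun A => ∏ i ∈ Finset.insertNone D, f i (A ∩ S i)) := by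
    unfold Pr
    congr 1
    funext A
    rw [Finset.prod_insertNone]
    simp only [hf, hS, Option.elim]
    by_cases hc : H ⊆ A ∧ ∀ w ∈ U, dg H w = 2 → (A ∩ ER R w).card = d - 1
    · rw [if_pos hc, if_pos (Finset.subset_inter hc.1 hH), one_mul]
      symm
      apply Finset.prod_eq_one
      intro w hw
      rw [hD, Finset.mem_filter] at hw
      rw [if_pos (hc.2 w hw.1 hw.2)]
    · rw [if_neg hc]
      by_cases hHA : H ⊆ A
      · have : ∃ w ∈ D, ¬ (A ∩ ER R w).card = d - 1 := by
          by_contra hcon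
          push Not at hcon
          apply hc
          refine ⟨hHA, fun w hw hw2 => hcon w ?_⟩
          rw [hD, Finset.mem_filter]
          exact ⟨hw, hw2⟩
        obtain ⟨w, hw, hw2⟩ := this
        rw [Finset.prod_eq_zero hw (if_neg hw2), mul_zero]
      · rw [if_neg, zero_mul]
        intro h
        exact hHA (h.trans Finset.inter_subset_left)
  rw [h2, key, Finset.prod_insertNone]
  have h3 : Ex p (fun A => f none (A ∩ S none)) = p ^ H.card := by
    rw [← Pr_subset p H]
    unfold Pr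
    congr 1
    funext A
    simp only [hf, hS, Option.elim]
    congr 1
    rw [eq_iff_iff]
    exact ⟨fun h => h.trans Finset.inter_subset_left, fun h => Finset.subset_inter h hH⟩
  rw [h3]
  apply mul_le_mul_of_nonneg_left _ (by positivity)
  rw [hD, Finset.prod_filter]
  apply Finset.prod_le_prod
  · intro w _
    split_ifs
    · exact Ex_nonneg h0 h1 (fun A => by simp only [hf, Option.elim]; split_ifs <;> norm_num)
    · exact zero_le_one
  · intro w hw
    have := hH2 w hw
    unfold wt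
    rw [if_neg (show ¬ dg H w < 2 by omega)]
    split_ifs with h
    · refine le_trans (le_of_eq ?_) (hb w hw)
      unfold Pr
      congr 1
      funext A
      simp only [hf, hS, Option.elim]
      congr
    · exact le_rfl

/-- the event seen from outside -/
def Ev {n : ℕ} (d : ℕ) (U R : Finset (Fin n)) (G : SimpleGraph (Fin n)) : Prop :=
  (∀ w ∈ U, (nb G w ∩ R).card + 1 ≤ d ∧ d + 1 ≤ (nb G w ∩ R).card + (nb G w ∩ U).card) ∧
    2 * U.card + 2 ≤ eo G U ∧ 4 * eo G U ≤ 10 * U.card

theorem prob_Ev {n : ℕ} {p π : ℝ} (h0 : 0 ≤ p) (h1 : p ≤ 1) (hπ : 0 ≤ π) (U R : Finset (Fin n))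
    (hUR : Disjoint U R) (d : ℕ) (hd : 1 ≤ d)
    (hb : ∀ w ∈ U, Pr p (fun B => (B ∩ ER R w).card = d - 1) ≤ π) :
    Pr p (fun B : Finset (Edg n) => Ev d U R (gr B)) ≤
      ∑ j ∈ range (U.card / 4), p ^ (U.card + 1 + j) * NN U π (U.card + 1 + j) (fun _ => 0) := by
  calc Pr p (fun B : Finset (Edg n) => Ev d U R (gr B))
      ≤ Pr p (fun B : Finset (Edg n) => ∃ x ∈ (range (U.card / 4)).sigma
          (fun j => (powersetCard (U.card + 1 + j) (IE U)).filter (fun H => ∀ w ∈ U, 2 ≤ dg H w)),
          x.2 ⊆ B ∧ ∀ w ∈ U, dg x.2 w = 2 → (B ∩ ER R w).card = d - 1) := by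
        apply Pr_mono h0 h1
        rintro B ⟨hB1, hB2, hB3⟩
        rw [eo_eq] at hB2 hB3
        refine ⟨⟨(B ∩ IE U).card - (U.card + 1), B ∩ IE U⟩, ?_, Finset.inter_subset_left, ?_⟩
        · rw [Finset.mem_sigma]
          simp only
          rw [Finset.mem_filter, Finset.mem_powersetCard, Finset.mem_range]
          refine ⟨by omega, ⟨Finset.inter_subset_right, by omega⟩, ?_⟩
          intro w hw
          rw [dg_inter_IE B U w hw]
          have := hB1 w hw
          omega
        · intro w hw hw2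
          rw [dg_inter_IE B U w hw] at hw2
          rw [card_inter_ER B R w (Finset.disjoint_left.1 hUR hw)]
          have := hB1 w hw
          omega
    _ ≤ ∑ x ∈ (range (U.card / 4)).sigma
          (fun j => (powersetCard (U.card + 1 + j) (IE U)).filter (fun H => ∀ w ∈ U, 2 ≤ dg H w)),
          Pr p (fun B : Finset (Edg n) => x.2 ⊆ B ∧
            ∀ w ∈ U, dg x.2 w = 2 → (B ∩ ER R w).card = d - 1) := Pr_exists_le h0 h1 _ _
    _ ≤ ∑ x ∈ (range (U.card / 4)).sigma
          (fun j => (powersetCard (U.card + 1 + j) (IE U)).filter (fun H => ∀ w ∈ U, 2 ≤ dg H w)),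
          p ^ (x.2).card * ∏ w ∈ U, wt π (dg x.2 w) := by
        apply Finset.sum_le_sum
        intro x hx
        rw [Finset.mem_sigma, Finset.mem_filter, Finset.mem_powersetCard] at hx
        exact prob_H h0 h1 U R hUR d hb x.2 hx.2.1.1 hx.2.2
    _ ≤ _ := by
        rw [Finset.sum_sigma]
        apply Finset.sum_le_sum
        intro j _
        unfold NN
        rw [Finset.mul_sum]
        calc _ ≤ ∑ H ∈ powersetCard (U.card + 1 + j) (IE U), p ^ H.card * ∏ w ∈ U, wt π (dg H w) := by
              apply Finset.sum_le_sum_of_subset_of_nonneg (Finset.filter_subset _ _)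
              intro H _ _
              exact mul_nonneg (by positivity) (Finset.prod_nonneg (fun _ _ => wt_nonneg hπ _))
          _ = _ := by
              apply Finset.sum_congr rfl
              intro H hH
              rw [(Finset.mem_powersetCard.1 hH).2]
              simp only [zero_add]

theorem del_resample {n : ℕ} (A B : Finset (Edg n)) (U : Finset (Fin n)) :
    del (gr ((A \ SE U) ∪ (B ∩ SE U))) U = del (gr A) U := by
  ext a b
  simp only [ind, gr_adj, Finset.mem_compl, Finset.mem_union, Finset.mem_sdiff, Finset.mem_inter]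
  constructor
  · rintro ⟨⟨h, (⟨h1, h2⟩ | ⟨h1, h2⟩)⟩, ha, hb⟩
    · exact ⟨⟨h, h1⟩, ha, hb⟩
    · exfalso
      unfold SE at h2
      rw [Finset.mem_filter] at h2
      obtain ⟨-, v, hv, hv2⟩ := h2
      simp only [Sym2.mem_iff] at hv2
      rcases hv2 with rfl | rfl
      · exact ha hv
      · exact hb hv
  · rintro ⟨⟨h, h1⟩, ha, hb⟩
    refine ⟨⟨h, Or.inl ⟨h1, ?_⟩⟩, ha, hb⟩
    intro h2
    unfold SE at h2
    rw [Finset.mem_filter] at h2
    obtain ⟨-, v, hv, hv2⟩ := h2
    simp only [Sym2.mem_iff] at hv2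
    rcases hv2 with rfl | rfl
    · exact ha hv
    · exact hb hv

theorem adj_resample {n : ℕ} (A B : Finset (Edg n)) (U : Finset (Fin n)) (w x : Fin n)
    (hw : w ∈ U) : (gr ((A \ SE U) ∪ (B ∩ SE U))).Adj w x ↔ (gr B).Adj w x := by
  simp only [gr_adj, Finset.mem_union, Finset.mem_sdiff, Finset.mem_inter]
  have h2 : ∀ h : w ≠ x, (⟨s(w, x), by simpa using h⟩ : Edg n) ∈ SE U := by
    intro h
    unfold SE
    rw [Finset.mem_filter]
    exact ⟨Finset.mem_univ _, w, hw, by simp⟩
  constructor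
  · rintro ⟨h, (⟨h1, h3⟩ | ⟨h1, h3⟩)⟩
    · exact absurd (h2 h) h3
    · exact ⟨h, h1⟩
  · rintro ⟨h, h1⟩
    exact ⟨h, Or.inr ⟨h1, h2 h⟩⟩

theorem Ev_resample {n : ℕ} (d : ℕ) (A B : Finset (Edg n)) (U R : Finset (Fin n)) :
    Ev d U R (gr ((A \ SE U) ∪ (B ∩ SE U))) ↔ Ev d U R (gr B) := by
  have h1 : ∀ w ∈ U, nb (gr ((A \ SE U) ∪ (B ∩ SE U))) w = nb (gr B) w := by
    intro w hw
    unfold nb
    apply Finset.filter_congr
    intro x _
    exact adj_resample A B U w x hw
  have h2 : eo (gr ((A \ SE U) ∪ (B ∩ SE U))) U = eo (gr B) U := by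
    rw [eo_eq_sum, eo_eq_sum]
    apply Finset.sum_congr rfl
    intro w hw
    rw [h1 w hw]
  unfold Ev
  rw [h2]
  constructor
  · rintro ⟨h3, h4⟩
    refine ⟨fun w hw => ?_, h4⟩
    rw [← h1 w hw]
    exact h3 w hw
  · rintro ⟨h3, h4⟩
    refine ⟨fun w hw => ?_, h4⟩
    rw [h1 w hw]
    exact h3 w hw

theorem prob_U {n : ℕ} {p π β : ℝ} (h0 : 0 ≤ p) (h1 : p ≤ 1) (hπ : 0 ≤ π) (d : ℕ) (hd : 1 ≤ d)
    (hb : ∀ R : Finset (Fin n), β * n ≤ R.card → ∀ w ∉ R,
      Pr p (fun B : Finset (Edg n) => (B ∩ ER R w).card = d - 1) ≤ π)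
    (R : SimpleGraph (Fin n) → Finset (Fin n)) (U : Finset (Fin n)) :
    Pr p (fun A : Finset (Edg n) => Disjoint U (R (del (gr A) U)) ∧
        β * n ≤ (R (del (gr A) U)).card ∧ Ev d U (R (del (gr A) U)) (gr A)) ≤
      ∑ j ∈ range (U.card / 4), p ^ (U.card + 1 + j) * NN U π (U.card + 1 + j) (fun _ => 0) := by
  set b := ∑ j ∈ range (U.card / 4), p ^ (U.card + 1 + j) * NN U π (U.card + 1 + j) (fun _ => 0)
    with hbdef
  have hb0 : 0 ≤ b := Finset.sum_nonneg
    (fun j _ => mul_nonneg (by positivity) (NN_nonneg U hπ _ _))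
  unfold Pr
  rw [resample' (SE U)]
  refine (Ex_mono h0 h1 (g := fun _ => b) ?_).trans (le_of_eq (Ex_const p b))
  intro A
  simp only [del_resample, Ev_resample]
  by_cases hA : Disjoint U (R (del (gr A) U)) ∧ β * n ≤ (R (del (gr A) U)).card
  · have := prob_Ev h0 h1 hπ U (R (del (gr A) U)) hA.1 d hd
      (fun w hw => hb _ hA.2 w (Finset.disjoint_left.1 hA.1 hw))
    refine le_trans ?_ this
    apply Ex_mono h0 h1
    intro B
    by_cases hB : Ev d U (R (del (gr A) U)) (gr B)
    · simp only [hA.1, hA.2, hB, true_and, if_true, le_refl]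
    · simp only [hB, and_false, if_false, le_refl]
  · have : ∀ B : Finset (Edg n), ¬ (Disjoint U (R (del (gr A) U)) ∧
        β * n ≤ (R (del (gr A) U)).card ∧ Ev d U (R (del (gr A) U)) (gr B)) :=
      fun B h => hA ⟨h.1, h.2.1⟩
    simp only [this, if_false]
    rw [Ex_const]
    exact hb0


/-! ### analysis -/

theorem fact_two (e : ℕ) : ((2 * e).factorial : ℝ) ≤ 4 ^ e * (e.factorial : ℝ) ^ 2 := by
  have h1 : (2 * e).choose e ≤ 2 ^ (2 * e) := Nat.choose_le_two_pow _ _
  have h2 : (2 * e).choose e * e.factorial * (2 * e - e).factorial = (2 * e).factorial :=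
    Nat.choose_mul_factorial_mul_factorial (by omega)
  rw [show 2 * e - e = e by omega] at h2
  have h3 : (2 * e).factorial ≤ 4 ^ e * e.factorial ^ 2 := by
    rw [← h2]
    calc (2 * e).choose e * e.factorial * e.factorial
        ≤ 2 ^ (2 * e) * e.factorial * e.factorial := by
          apply Nat.mul_le_mul_right
          apply Nat.mul_le_mul_right
          exact h1
      _ = 4 ^ e * e.factorial ^ 2 := by
          rw [pow_mul]; norm_num; ring
  exact_mod_cast h3

theorem fact_add (s k : ℕ) : ((s + k).factorial : ℝ) ≤ (s.factorial : ℝ) * ((s : ℝ) + k) ^ k := by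
  have h1 := Nat.factorial_mul_ascFactorial s k
  have h2 := Nat.ascFactorial_le_pow_add s k
  have h3 : (s + k).factorial ≤ s.factorial * (s + k) ^ k := by
    rw [← h1]
    exact Nat.mul_le_mul_left _ h2
  exact_mod_cast h3

/-- the bound of the number of graphs -/
noncomputable def TT (z g : ℝ) (s e : ℕ) : ℝ :=
  g ^ s * (((2 * e).factorial : ℝ) / z ^ (2 * e)) / (2 ^ e * (e.factorial : ℝ))

theorem NN_TT {n : ℕ} (U : Finset (Fin n)) {π : ℝ} (hπ : 0 ≤ π) (e : ℕ) {z : ℝ} (hz : 0 < z) :
    NN U π e (fun _ => 0) ≤ TT z (GG π 0 z) U.card e := by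
  have h1 := NN_le U hπ e (fun _ => 0)
  have h2 := HH_le U hπ (2 * e) (fun _ => 0) z hz.le
  rw [Finset.prod_const] at h2
  have h3 : (0 : ℝ) < 2 ^ e * (e.factorial : ℝ) := by positivity
  unfold TT
  rw [le_div_iff₀ h3]
  refine h1.trans ?_
  have h4 : (0 : ℝ) < z ^ (2 * e) := by positivity
  have h5 : (0 : ℝ) < ((2 * e).factorial : ℝ) := by positivity
  calc HH U π (2 * e) (fun _ => 0)
      = (HH U π (2 * e) (fun _ => 0) * (z ^ (2 * e) / ((2 * e).factorial : ℝ))) *
        (((2 * e).factorial : ℝ) / z ^ (2 * e)) := by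
        field_simp
    _ ≤ _ := mul_le_mul_of_nonneg_right h2 (by positivity)

theorem per_term {n s k : ℕ} (hn : 1 ≤ n) {c z g : ℝ} (hc : 0 < c) (hz : 0 < z) (hg : 0 ≤ g) :
    (n.choose s : ℝ) * ((c / n) ^ (s + k) * TT z g s (s + k)) ≤
      (2 * c * g / z ^ 2) ^ s * (2 * c * ((s : ℝ) + k) / (n * z ^ 2)) ^ k := by
  have hn0 : (0 : ℝ) < n := by exact_mod_cast hn
  have h1 : (n.choose s : ℝ) ≤ (n : ℝ) ^ s / (s.factorial : ℝ) := Nat.choose_le_pow_div s n
  have hs0 : (0 : ℝ) < (s.factorial : ℝ) := by positivity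
  have he0 : (0 : ℝ) < ((s + k).factorial : ℝ) := by positivity
  have hT : TT z g s (s + k) ≤ g ^ s * 2 ^ (s + k) * ((s.factorial : ℝ) * ((s : ℝ) + k) ^ k) /
      z ^ (2 * (s + k)) := by
    unfold TT
    have hz2 : 0 < z ^ (2 * (s + k)) := by positivity
    rw [div_le_div_iff₀ (by positivity) hz2]
    have e1 : g ^ s * (((2 * (s + k)).factorial : ℝ) / z ^ (2 * (s + k))) * z ^ (2 * (s + k)) =
        g ^ s * ((2 * (s + k)).factorial : ℝ) := by field_simp
    rw [e1]
    calc g ^ s * ((2 * (s + k)).factorial : ℝ)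
        ≤ g ^ s * (4 ^ (s + k) * ((s + k).factorial : ℝ) ^ 2) :=
          mul_le_mul_of_nonneg_left (fact_two _) (by positivity)
      _ = g ^ s * 2 ^ (s + k) * ((s + k).factorial : ℝ) * (2 ^ (s + k) * ((s + k).factorial : ℝ)) := by
          rw [show (4 : ℝ) = 2 * 2 by norm_num, mul_pow]; ring
      _ ≤ g ^ s * 2 ^ (s + k) * ((s.factorial : ℝ) * ((s : ℝ) + k) ^ k) *
          (2 ^ (s + k) * ((s + k).factorial : ℝ)) := by
          apply mul_le_mul_of_nonneg_right _ (by positivity)
          exact mul_le_mul_of_nonneg_left (fact_add s k) (by positivity)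
  have hT0 : 0 ≤ TT z g s (s + k) := by unfold TT; positivity
  calc (n.choose s : ℝ) * ((c / n) ^ (s + k) * TT z g s (s + k))
      ≤ ((n : ℝ) ^ s / (s.factorial : ℝ)) * ((c / n) ^ (s + k) *
        (g ^ s * 2 ^ (s + k) * ((s.factorial : ℝ) * ((s : ℝ) + k) ^ k) / z ^ (2 * (s + k)))) := by
        apply mul_le_mul h1 _ (by positivity) (by positivity)
        exact mul_le_mul_of_nonneg_left hT (by positivity)
    _ = _ := by
        rw [div_pow, div_pow, div_pow, pow_mul, pow_add, pow_add, pow_add, mul_pow, mul_pow,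
          mul_pow, mul_pow, mul_pow, pow_add]
        field_simp

theorem per_s {n s : ℕ} (hn : 1 ≤ n) {c z g θ : ℝ} (hc : 0 < c) (hz : 0 < z) (hg : 0 ≤ g)
    (hθ : 2 * c * g / z ^ 2 ≤ θ) (hs : (s : ℝ) ≤ z ^ 2 / (5 * c) * n) :
    (n.choose s : ℝ) * (∑ j ∈ range (s / 4), (c / n) ^ (s + 1 + j) * TT z g s (s + 1 + j)) ≤
      5 * c / (z ^ 2 * n) * (s * θ ^ s) := by
  have hn0 : (0 : ℝ) < n := by exact_mod_cast hn
  set x : ℝ := 5 * c * s / (2 * n * z ^ 2) with hx
  have hx0 : 0 ≤ x := by positivity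
  have hx1 : x ≤ 1 / 2 := by
    rw [hx, div_le_iff₀ (by positivity)]
    have : 5 * c * (s : ℝ) ≤ 5 * c * (z ^ 2 / (5 * c) * n) :=
      mul_le_mul_of_nonneg_left hs (by positivity)
    have e : 5 * c * (z ^ 2 / (5 * c) * n) = z ^ 2 * n := by field_simp
    rw [e] at this
    linarith
  have h0 : 0 ≤ 2 * c * g / z ^ 2 := by positivity
  have hθ00 : 0 ≤ θ := h0.trans hθ
  have h1 : ∀ j ∈ range (s / 4), (n.choose s : ℝ) * ((c / n) ^ (s + 1 + j) * TT z g s (s + 1 + j)) ≤
      θ ^ s * (x * (1 / 2) ^ j) := by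
    intro j hj
    rw [Finset.mem_range] at hj
    have h2 := per_term (n := n) (s := s) (k := 1 + j) hn hc hz hg
    rw [← add_assoc] at h2
    refine h2.trans ?_
    apply mul_le_mul (pow_le_pow_left₀ h0 hθ s) _ (by positivity) (pow_nonneg hθ00 s)
    have h3 : 2 * c * ((s : ℝ) + ((1 + j : ℕ) : ℝ)) / (n * z ^ 2) ≤ x := by
      rw [hx, div_le_div_iff₀ (by positivity) (by positivity)]
      have h4 : 4 * ((1 + j : ℕ) : ℝ) ≤ s := by
        have : 4 * (1 + j) ≤ s := by omega
        exact_mod_cast this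
      have h5 : 0 < c * (n * z ^ 2) := by positivity
      nlinarith
    have h30 : 0 ≤ 2 * c * ((s : ℝ) + ((1 + j : ℕ) : ℝ)) / (n * z ^ 2) := by positivity
    calc (2 * c * ((s : ℝ) + ((1 + j : ℕ) : ℝ)) / (n * z ^ 2)) ^ (1 + j)
        ≤ x ^ (1 + j) := pow_le_pow_left₀ h30 h3 _
      _ = x * x ^ j := by rw [pow_add, pow_one]
      _ ≤ x * (1 / 2) ^ j :=
          mul_le_mul_of_nonneg_left (pow_le_pow_left₀ hx0 hx1 j) hx0
  rw [Finset.mul_sum]
  refine (Finset.sum_le_sum h1).trans ?_
  rw [← Finset.mul_sum, ← Finset.mul_sum]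
  have h6 : ∑ j ∈ range (s / 4), ((1 : ℝ) / 2) ^ j ≤ 2 := by
    rw [geom_sum_eq (by norm_num)]
    have : (0 : ℝ) < (1 / 2) ^ (s / 4) := by positivity
    rw [div_le_iff_of_neg (by norm_num)]
    linarith
  have hθ0 : 0 ≤ θ := h0.trans hθ
  calc θ ^ s * (x * ∑ j ∈ range (s / 4), (1 / 2) ^ j)
      ≤ θ ^ s * (x * 2) := by
        apply mul_le_mul_of_nonneg_left _ (by positivity)
        exact mul_le_mul_of_nonneg_left h6 hx0
    _ = _ := by
        rw [hx]; field_simp

theorem bin_le {n k r : ℕ} (hn : 1 ≤ n) {c β : ℝ} (hc : 0 < c) (hβ : 0 < β)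
    (h1 : (k : ℝ) ≤ c * β) (hr : β * n ≤ r) (hcn : c / n ≤ 1) :
    (r.choose k : ℝ) * ((c / n) ^ k * (1 - c / n) ^ (r - k)) ≤
      (Real.exp (-(c * β)) * (c * β) ^ k / (k.factorial : ℝ)) * Real.exp (c * k / n) := by
  have hn0 : (0 : ℝ) < n := by exact_mod_cast hn
  have hp0 : 0 < c / n := by positivity
  rcases lt_or_ge r k with hrk | hrk
  · rw [Nat.choose_eq_zero_of_lt hrk]
    simp only [Nat.cast_zero, zero_mul]
    positivity
  · set p := c / n with hp
    set y := c * β with hy
    have hy0 : 0 < y := by positivity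
    set x := p * r with hx
    have hxy : y ≤ x := by
      rw [hx, hp, hy]
      calc c * β = c / n * (β * n) := by field_simp
        _ ≤ c / n * r := mul_le_mul_of_nonneg_left hr hp0.le
    have e1 : (r.choose k : ℝ) ≤ (r : ℝ) ^ k / (k.factorial : ℝ) := Nat.choose_le_pow_div k r
    have e2 : (1 - p) ^ (r - k) ≤ Real.exp (-x) * Real.exp (c * k / n) := by
      calc (1 - p) ^ (r - k) ≤ (Real.exp (-p)) ^ (r - k) := by
            apply pow_le_pow_left₀ (by linarith)
            have := Real.add_one_le_exp (-p)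
            linarith
        _ = Real.exp (-x) * Real.exp (c * k / n) := by
            rw [← Real.exp_nat_mul, ← Real.exp_add]
            congr 1
            rw [Nat.cast_sub hrk, hx, hp]
            field_simp
            ring
    have e3 : x ^ k * Real.exp (-x) ≤ y ^ k * Real.exp (-y) := by
      have e4 : x ≤ y * Real.exp ((x - y) / y) := by
        have := Real.add_one_le_exp ((x - y) / y)
        calc x = y * ((x - y) / y + 1) := by field_simp; ring
          _ ≤ _ := mul_le_mul_of_nonneg_left this hy0.le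
      have e5 : x ^ k ≤ y ^ k * Real.exp (x - y) := by
        calc x ^ k ≤ (y * Real.exp ((x - y) / y)) ^ k :=
              pow_le_pow_left₀ (hy0.le.trans hxy) e4 k
          _ = y ^ k * Real.exp (k * ((x - y) / y)) := by
              rw [mul_pow, ← Real.exp_nat_mul]
          _ ≤ y ^ k * Real.exp (x - y) := by
              apply mul_le_mul_of_nonneg_left _ (by positivity)
              apply Real.exp_le_exp.2
              have h6 : (k : ℝ) * ((x - y) / y) ≤ y * ((x - y) / y) :=
                mul_le_mul_of_nonneg_right h1 (div_nonneg (by linarith) hy0.le)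
              have h7 : y * ((x - y) / y) = x - y := by field_simp
              linarith
      calc x ^ k * Real.exp (-x) ≤ y ^ k * Real.exp (x - y) * Real.exp (-x) :=
            mul_le_mul_of_nonneg_right e5 (Real.exp_pos _).le
        _ = y ^ k * Real.exp (-y) := by
            rw [mul_assoc, ← Real.exp_add]; congr 2; ring
    calc (r.choose k : ℝ) * (p ^ k * (1 - p) ^ (r - k))
        ≤ ((r : ℝ) ^ k / (k.factorial : ℝ)) * (p ^ k * (Real.exp (-x) * Real.exp (c * k / n))) := by
          apply mul_le_mul e1 _ _ (by positivity)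
          · exact mul_le_mul_of_nonneg_left e2 (by positivity)
          · have : 0 ≤ 1 - p := by linarith
            positivity
      _ = (x ^ k * Real.exp (-x)) * (Real.exp (c * k / n) / (k.factorial : ℝ)) := by
          rw [hx, mul_pow]; ring
      _ ≤ (y ^ k * Real.exp (-y)) * (Real.exp (c * k / n) / (k.factorial : ℝ)) :=
          mul_le_mul_of_nonneg_right e3 (by positivity)
      _ = _ := by ring

theorem GG0_le {π z : ℝ} (hz : 0 ≤ z) (hz1 : z ≤ 1) : GG π 0 z ≤ π * z ^ 2 / 2 + z ^ 3 := by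
  simp only [GG]
  have h := Real.exp_bound' hz hz1 (n := 3) (by norm_num)
  simp only [Finset.sum_range_succ, Finset.sum_range_zero, Nat.factorial] at h
  norm_num at h
  have : 0 ≤ z ^ 3 := by positivity
  nlinarith

end FM

open FM in
/-- first moment bound for the small bad sets, uniform in the set-valued function `R` -/
theorem first_moment (d : ℕ) (hd : 2 ≤ d) (c β : ℝ) (hc : 0 < c) (hβ : 0 < β)
    (h1 : (d : ℝ) - 1 ≤ c * β) (h2 : c * fp d (c * β) < 1) :
    ∃ α > 0, ∀ η > 0, ∃ N : ℕ, ∀ n : ℕ, N ≤ n →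
      ∀ R : SimpleGraph (Fin n) → Finset (Fin n),
      Pr (c / n) (fun A : Finset (Edg n) => ∃ U : Finset (Fin n), U.Nonempty ∧
        (U.card : ℝ) ≤ α * n ∧ Disjoint U (R (del (gr A) U)) ∧
        β * n ≤ (R (del (gr A) U)).card ∧
        (∀ w ∈ U, (nb (gr A) w ∩ R (del (gr A) U)).card + 1 ≤ d ∧
          d + 1 ≤ (nb (gr A) w ∩ R (del (gr A) U)).card + (nb (gr A) w ∩ U).card) ∧
        2 * U.card + 2 ≤ eo (gr A) U ∧ 4 * eo (gr A) U ≤ 10 * U.card) ≤ η := by
  set φ := fp d (c * β) with hφ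
  have hφ0 : 0 ≤ φ := by
    rw [hφ]; unfold fp; positivity
  have hk : ((d - 1 : ℕ) : ℝ) = (d : ℝ) - 1 := by
    rw [Nat.cast_sub (by omega)]; simp
  -- the constants
  obtain ⟨π, hπφ, hπc⟩ : ∃ π : ℝ, φ < π ∧ c * π < 1 := by
    refine ⟨(φ + 1 / c) / 2, ?_, ?_⟩
    · have : φ < 1 / c := by
        rw [lt_div_iff₀ hc]; linarith
      linarith
    · have : c * ((φ + 1 / c) / 2) = (c * φ + 1) / 2 := by field_simp
      rw [this]; linarith
  have hπ : 0 ≤ π := hφ0.trans hπφ.le
  set z : ℝ := min 1 ((1 - c * π) / (4 * c)) with hz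
  have hz0 : 0 < z := by
    rw [hz]; apply lt_min one_pos
    apply div_pos (by linarith) (by positivity)
  have hz1 : z ≤ 1 := min_le_left _ _
  have hz2 : z ≤ (1 - c * π) / (4 * c) := min_le_right _ _
  set g := GG π 0 z with hg
  have hg0 : 0 ≤ g := GG_nonneg hπ 0 hz0.le
  set θ : ℝ := (1 + c * π) / 2 with hθ
  have hθ0 : 0 ≤ θ := by rw [hθ]; positivity
  have hθ1 : θ < 1 := by rw [hθ]; linarith
  have hgθ : 2 * c * g / z ^ 2 ≤ θ := by
    rw [div_le_iff₀ (by positivity)]
    have h3 : g ≤ π * z ^ 2 / 2 + z ^ 3 := GG0_le hz0.le hz1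
    have h4 : 4 * c * z ≤ 1 - c * π := by
      rw [le_div_iff₀ (by positivity)] at hz2
      linarith
    calc 2 * c * g ≤ 2 * c * (π * z ^ 2 / 2 + z ^ 3) :=
          mul_le_mul_of_nonneg_left h3 (by positivity)
      _ = (c * π + 2 * c * z) * z ^ 2 := by ring
      _ ≤ θ * z ^ 2 := by
          apply mul_le_mul_of_nonneg_right _ (by positivity)
          rw [hθ]; linarith
  refine ⟨z ^ 2 / (5 * c), by positivity, ?_⟩
  intro η hη
  have hsum : Summable (fun s : ℕ => (s : ℝ) * θ ^ s) := by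
    have := summable_pow_mul_geometric_of_norm_lt_one 1
      (r := θ) (by rw [Real.norm_eq_abs, abs_of_nonneg hθ0]; exact hθ1)
    simpa using this
  set C := ∑' s : ℕ, (s : ℝ) * θ ^ s with hC
  have hev1 : ∀ᶠ n : ℕ in Filter.atTop, c / n ≤ 1 := by
    have := tendsto_const_div_atTop_nhds_zero_nat c
    exact (this.eventually (gt_mem_nhds one_pos)).mono (fun n hn => hn.le)
  have hev2 : ∀ᶠ n : ℕ in Filter.atTop, φ * Real.exp (c * ((d - 1 : ℕ) : ℝ) / n) ≤ π := by
    have t1 := tendsto_const_div_atTop_nhds_zero_nat (c * ((d - 1 : ℕ) : ℝ))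
    have t2 : Filter.Tendsto (fun n : ℕ => φ * Real.exp (c * ((d - 1 : ℕ) : ℝ) / n)) Filter.atTop
        (nhds (φ * Real.exp 0)) :=
      ((Real.continuous_exp.tendsto 0).comp t1).const_mul φ
    rw [Real.exp_zero, mul_one] at t2
    exact (t2.eventually (gt_mem_nhds hπφ)).mono (fun n hn => hn.le)
  have hev3 : ∀ᶠ n : ℕ in Filter.atTop, (5 * c / z ^ 2 * C) / n ≤ η := by
    have := tendsto_const_div_atTop_nhds_zero_nat (5 * c / z ^ 2 * C)
    exact (this.eventually (gt_mem_nhds hη)).mono (fun n hn => hn.le)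
  obtain ⟨N, hN⟩ := Filter.eventually_atTop.1 (hev1.and (hev2.and (hev3.and
    (Filter.eventually_ge_atTop 1))))
  refine ⟨N, ?_⟩
  intro n hn R
  obtain ⟨hcn, hb, hfin, hn1⟩ := hN n hn
  have hn0 : (0 : ℝ) < n := by exact_mod_cast hn1
  have hp0 : 0 ≤ c / n := by positivity
  have hbR : ∀ R : Finset (Fin n), β * n ≤ R.card → ∀ w ∉ R,
      Pr (c / n) (fun B : Finset (Edg n) => (B ∩ ER R w).card = d - 1) ≤ π := by
    intro R hR w hw
    refine (prob_card hp0 hcn (ER R w) (d - 1)).trans ?_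
    rw [card_ER R w hw]
    refine (bin_le hn1 hc hβ (by rw [hk]; exact h1) hR hcn).trans ?_
    exact hb
  set F : ℕ → ℝ := fun s => if (s : ℝ) ≤ z ^ 2 / (5 * c) * n then
    ∑ j ∈ range (s / 4), (c / n) ^ (s + 1 + j) * TT z g s (s + 1 + j) else 0 with hF
  have hF0 : ∀ s, 0 ≤ F s := by
    intro s
    rw [hF]
    simp only
    split_ifs
    · apply Finset.sum_nonneg
      intro j _
      unfold TT
      positivity
    · exact le_rfl
  calc Pr (c / n) (fun A : Finset (Edg n) => ∃ U : Finset (Fin n), U.Nonempty ∧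
        (U.card : ℝ) ≤ z ^ 2 / (5 * c) * n ∧ Disjoint U (R (del (gr A) U)) ∧
        β * n ≤ (R (del (gr A) U)).card ∧
        (∀ w ∈ U, (nb (gr A) w ∩ R (del (gr A) U)).card + 1 ≤ d ∧
          d + 1 ≤ (nb (gr A) w ∩ R (del (gr A) U)).card + (nb (gr A) w ∩ U).card) ∧
        2 * U.card + 2 ≤ eo (gr A) U ∧ 4 * eo (gr A) U ≤ 10 * U.card)
      ≤ Pr (c / n) (fun A : Finset (Edg n) => ∃ U ∈ univ.filter
          (fun U : Finset (Fin n) => (U.card : ℝ) ≤ z ^ 2 / (5 * c) * n),
          Disjoint U (R (del (gr A) U)) ∧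
          β * n ≤ (R (del (gr A) U)).card ∧ Ev d U (R (del (gr A) U)) (gr A)) := by
        apply Pr_mono hp0 hcn
        rintro A ⟨U, hU1, hU2, hU3, hU4, hU5, hU6, hU7⟩
        exact ⟨U, by simp [hU2], hU3, hU4, hU5, hU6, hU7⟩
    _ ≤ ∑ U ∈ univ.filter (fun U : Finset (Fin n) => (U.card : ℝ) ≤ z ^ 2 / (5 * c) * n),
          Pr (c / n) (fun A : Finset (Edg n) => Disjoint U (R (del (gr A) U)) ∧
          β * n ≤ (R (del (gr A) U)).card ∧ Ev d U (R (del (gr A) U)) (gr A)) :=
        Pr_exists_le hp0 hcn _ _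
    _ ≤ ∑ U ∈ univ.filter (fun U : Finset (Fin n) => (U.card : ℝ) ≤ z ^ 2 / (5 * c) * n),
          F U.card := by
        apply Finset.sum_le_sum
        intro U hU
        rw [Finset.mem_filter] at hU
        refine (prob_U hp0 hcn hπ d (by omega) hbR R U).trans ?_
        rw [hF]
        simp only
        rw [if_pos hU.2]
        apply Finset.sum_le_sum
        intro j _
        exact mul_le_mul_of_nonneg_left (NN_TT U hπ _ hz0) (by positivity)
    _ ≤ ∑ U ∈ (univ : Finset (Fin n)).powerset, F U.card := by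
        apply Finset.sum_le_sum_of_subset_of_nonneg
        · intro U _
          simp
        · intro U _ _
          exact hF0 _
    _ = ∑ s ∈ range (n + 1), n.choose s • F s := by
        rw [Finset.sum_powerset_apply_card, Finset.card_univ, Fintype.card_fin]
    _ ≤ ∑ s ∈ range (n + 1), 5 * c / (z ^ 2 * n) * (s * θ ^ s) := by
        apply Finset.sum_le_sum
        intro s _
        rw [nsmul_eq_mul, hF]
        simp only
        split_ifs with hs
        · exact per_s hn1 hc hz0 hg0 hgθ hs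
        · rw [mul_zero]; positivity
    _ = 5 * c / (z ^ 2 * n) * ∑ s ∈ range (n + 1), (s * θ ^ s) := by rw [Finset.mul_sum]
    _ ≤ 5 * c / (z ^ 2 * n) * C := by
        apply mul_le_mul_of_nonneg_left _ (by positivity)
        exact hsum.sum_le_tsum _ (fun s _ => by positivity)
    _ = (5 * c / z ^ 2 * C) / n := by field_simp
    _ ≤ η := hfin

end Pool.Agent.GRI
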