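import Pool.Agent.Lib_MP_264ef2_ins.Main

set_option autoImplicit false

/-! Final assembly. -/

namespace Pool.Agent.GRI

open Finset
open scoped Classical

theorem BadU_mono {n d : ℕ} {α β β' : ℝ} {R : SimpleGraph (Fin n) → Finset (Fin n)}
    {G : SimpleGraph (Fin n)} (h : β ≤ β') (hb : BadU d α β' R G) : BadU d α β R G := by
  obtain ⟨U, h1, h2, h3, h4, h5⟩ := hb
  exact ⟨U, h1, h2, h3, (mul_le_mul_of_nonneg_right h (Nat.cast_nonneg n)).trans h4, h5⟩

/-- supercritical case: everything we need about one graph holds with high probability -/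
theorem super (d : ℕ) (hd : 2 ≤ d) (c0 c : ℝ) (h0 : 0 < c0) (hc : c0 < c)
    (H : ∀ η > 0, ∃ N : ℕ, ∀ n : ℕ, N ≤ n →
      Pr (c0 / n) (fun A : Finset (Edg n) => ∀ S : Finset (Fin n),
        eo (gr A) S ≤ 2 * d * S.card) ≤ η) :
    ∃ β > 0, ∀ η > 0, ∃ N : ℕ, ∀ n : ℕ, N ≤ n →
      Pr (c / n) (fun A : Finset (Edg n) => ¬
        (((rigF d n (gr A) (Hat d (gr A)) ∧ ∀ T : Finset (Fin n), Hat d (gr A) ⊆ T →
            rigF d n (gr A) T → T = Hat d (gr A)) ∧
          (∀ S : Finset (Fin n), (rigF d n (gr A) S ∧ ∀ T : Finset (Fin n), S ⊆ T →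
            rigF d n (gr A) T → T = S) → S ≠ Hat d (gr A) → S.card < 5 * d)) ∧
          β * n ≤ ((Hat d (gr A)).card : ℝ))) ≤ η := by
  have hcpos : 0 < c := h0.trans hc
  have hd1 : 1 ≤ d := by omega
  have hdR : (0:ℝ) < d := by exact_mod_cast hd1
  obtain ⟨y, hy0, hy1, hy2, hlow, hup⟩ := stepCD d hd c0 c h0 hc H
  set x := y / c with hx
  have hxpos : 0 < x := by positivity
  have hcx : c * x = y := by rw [hx]; field_simp
  -- choose β0
  have hcont : ContinuousAt (fun b : ℝ => c * fp d (c * b)) x := by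
    apply Continuous.continuousAt
    exact continuous_const.mul ((fp_continuous d).comp (continuous_const.mul continuous_id))
  have hev1 : ∀ᶠ b in nhds x, c * fp d (c * b) < 1 := by
    have : c * fp d (c * x) < 1 := by rw [hcx]; exact hy1
    exact hcont.eventually_lt continuousAt_const this
  have hev2 : ∀ᶠ b in nhds x, (d : ℝ) - 1 < c * b := by
    have : (d : ℝ) - 1 < c * x := by rw [hcx]; exact hy2
    exact continuousAt_const.eventually_lt
      (continuous_const.mul continuous_id).continuousAt this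
  obtain ⟨ρ, hρ, hball⟩ := Metric.eventually_nhds_iff.1 (hev1.and hev2)
  set e0 := min (ρ / 2) (x / 2) with he0
  have he0pos : 0 < e0 := lt_min (by positivity) (by positivity)
  set β0 := x - e0 with hβ0
  have hβ0pos : 0 < β0 := by
    have : e0 ≤ x / 2 := min_le_right _ _
    rw [hβ0]; linarith
  have hβ0d : dist β0 x < ρ := by
    rw [Real.dist_eq, hβ0]
    have : e0 ≤ ρ / 2 := min_le_left _ _
    rw [abs_lt]; constructor <;> linarith
  obtain ⟨hb1, hb2⟩ := hball hβ0d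
  obtain ⟨α, hα, hFM⟩ := first_moment d hd c β0 hcpos hβ0pos hb2.le hb1
  obtain ⟨ε4, hε4, hsp4⟩ := sparse c hcpos 4 (by norm_num)
  obtain ⟨ε8, hε8, hsp8⟩ := sparse c hcpos (8 * d) (by omega)
  -- the precision
  set e := min (min (e0) (α / 2)) (min (min (ε8 / (2 * d)) (ε4 / 2)) (x / 6)) with he
  have hepos : 0 < e := by
    refine lt_min (lt_min he0pos (by positivity)) (lt_min (lt_min (by positivity) (by positivity))
      (by positivity))
  have e1 : e ≤ e0 := (min_le_left _ _).trans (min_le_left _ _)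
  have e2 : e ≤ α / 2 := (min_le_left _ _).trans (min_le_right _ _)
  have e3 : e ≤ ε8 / (2 * d) := (min_le_right _ _).trans ((min_le_left _ _).trans (min_le_left _ _))
  have e4 : e ≤ ε4 / 2 := (min_le_right _ _).trans ((min_le_left _ _).trans (min_le_right _ _))
  have e5 : e ≤ x / 6 := (min_le_right _ _).trans (min_le_right _ _)
  set β := x - e with hβ
  set γ := x + e with hγ
  have hβpos : 0 < β := by rw [hβ]; linarith
  refine ⟨β, hβpos, fun η hη => ?_⟩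
  obtain ⟨N1, h1⟩ := hlow e hepos (η/5) (by positivity)
  obtain ⟨N2, h2⟩ := hup e hepos (η/5) (by positivity)
  obtain ⟨N3, h3⟩ := hFM (η/5) (by positivity)
  obtain ⟨N4, h4⟩ := hsp4 (η/5) (by positivity)
  obtain ⟨N5, h5⟩ := hsp8 (η/5) (by positivity)
  obtain ⟨N6, h6⟩ := exists_nat_gt_of c
  obtain ⟨N7, h7⟩ := exists_nat_gt_of (5 * d / ε4)
  obtain ⟨N8, h8⟩ := exists_nat_gt_of (d / (x / 2))
  obtain ⟨N9, h9⟩ := exists_nat_gt_of (5 * d / β)
  refine ⟨N1 + N2 + N3 + N4 + N5 + N6 + N7 + N8 + N9, fun n hn => ?_⟩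
  obtain ⟨q, hq⟩ := exists_good n d
  have hn6 := h6 n (by omega)
  obtain ⟨p0, p1⟩ := p_bounds hcpos hn6
  have hn0 : (0:ℝ) ≤ n := Nat.cast_nonneg n
  have a7 : 5 * (d:ℝ) ≤ ε4 * n := by
    have := (h7 n (by omega)).1
    rw [div_le_iff₀ hε4] at this; linarith
  have a8 : (d:ℝ) ≤ (2 * β - γ) * n := by
    have := (h8 n (by omega)).1
    rw [div_le_iff₀ (by positivity)] at this
    have h10 : x / 2 ≤ 2 * β - γ := by rw [hβ, hγ]; linarith
    nlinarith
  have a9 : 5 * (d:ℝ) ≤ β * n := by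
    have := (h9 n (by omega)).1
    rw [div_le_iff₀ hβpos] at this; linarith
  have b1 := h1 n (by omega) q hq
  have b2 := h2 n (by omega)
  have b3 := h3 n (by omega) (Rfun q (β * n))
  have b4 := h4 n (by omega)
  have b5 := h5 n (by omega)
  -- union bound
  set B1 : Finset (Edg n) → Prop := fun A => ¬ ∃ K : Finset (Fin n),
          Rg q (gr A) K ∧ (x - e) * n ≤ K.card with hB1
  set B2 : Finset (Edg n) → Prop := fun A => ¬ ((Hat d (gr A)).card : ℝ) ≤ (x + e) * n with hB2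
  set B3 : Finset (Edg n) → Prop := fun A => BadU d α β0 (Rfun q (β * n)) (gr A) with hB3
  set B4 : Finset (Edg n) → Prop := fun A => ¬ Sp 4 ε4 (gr A) with hB4
  set B5 : Finset (Edg n) → Prop := fun A => ¬ Sp (8 * d) ε8 (gr A) with hB5
  have hU : Pr (c / n) (fun A => (((B1 A ∨ B2 A) ∨ B3 A) ∨ B4 A) ∨ B5 A) ≤ η := by
    have u1 := Pr_or_le p0 p1 B1 B2
    have u2 := Pr_or_le p0 p1 (fun A => B1 A ∨ B2 A) B3
    have u3 := Pr_or_le p0 p1 (fun A => (B1 A ∨ B2 A) ∨ B3 A) B4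
    have u4 := Pr_or_le p0 p1 (fun A => ((B1 A ∨ B2 A) ∨ B3 A) ∨ B4 A) B5
    have b3' : Pr (c / n) B3 ≤ η / 5 := b3
    linarith
  refine le_trans (Pr_mono p0 p1 (fun A hA => ?_)) hU
  by_contra hno
  push Not at hno
  obtain ⟨⟨⟨⟨g1, g2⟩, g3⟩, g4⟩, g5⟩ := hno
  apply hA
  simp only [hB1, hB2, hB3, hB4, hB5, not_not] at g1 g2 g3 g4 g5
  obtain ⟨K0, hK0, hK0c⟩ := g1
  have hbad : ¬ BadU d α β (Rfun q (β * n)) (gr A) := by
    intro hb
    refine g3 (BadU_mono ?_ hb)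
    rw [hβ0, hβ]; linarith
  obtain ⟨r1, r2, r3⟩ := det_main hd hq (gr A) ε4 ε8 α β γ g4 g5 a7 K0 hK0 hK0c g2 a8 a9
    (by
      have : γ - β = 2 * e := by rw [hβ, hγ]; ring
      rw [this]
      have h10 : (d:ℝ) * (2 * e) ≤ d * (2 * (ε8 / (2 * d))) := by
        apply mul_le_mul_of_nonneg_left _ hdR.le
        linarith
      have h11 : (d:ℝ) * (2 * (ε8 / (2 * d))) = ε8 := by field_simp
      linarith)
    (by rw [hβ, hγ]; linarith) (by rw [hβ, hγ]; linarith) hbad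
  have hcard : d + 1 ≤ (Hat d (gr A)).card := by
    have h10 : (5 * d : ℝ) ≤ (Hat d (gr A)).card := a9.trans r3
    have h11 : 5 * d ≤ (Hat d (gr A)).card := by exact_mod_cast h10
    omega
  exact ⟨det_frozen hd hq (gr A) ε4 g4 a7 r1 r2 hcard, r3⟩

/-- subcritical case -/
theorem sub (d : ℕ) (hd : 2 ≤ d) (c c1 : ℝ) (h0 : 0 < c) (hc : c < c1)
    (H : ∀ η > 0, ∃ N : ℕ, ∀ n : ℕ, N ≤ n →
      Pr (c1 / n) (fun A : Finset (Edg n) => ¬ ∀ S : Finset (Fin n),
        eo (gr A) S ≤ 2 * d * S.card) ≤ η) :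
    ∀ η > 0, ∃ N : ℕ, ∀ n : ℕ, N ≤ n →
      Pr (c / n) (fun A : Finset (Edg n) => ¬ ∀ S : Finset (Fin n),
        (rigF d n (gr A) S ∧ ∀ T : Finset (Fin n), S ⊆ T → rigF d n (gr A) T → T = S) →
          S.card ≤ 3) ≤ η := by
  obtain ⟨ε4, hε4, hsp4⟩ := sparse c h0 4 (by norm_num)
  obtain ⟨ε, hε, hspr⟩ := sprinkle d (d * (d + 1)) c c1 ε4 h0 hc hε4
  intro η hη
  obtain ⟨N1, h1⟩ := hsp4 (η/3) (by positivity)
  obtain ⟨N2, h2⟩ := hspr (η/3) (by positivity)
  obtain ⟨N3, h3⟩ := H (η/3) (by positivity)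
  obtain ⟨N4, h4⟩ := exists_nat_gt_of c1
  refine ⟨N1 + N2 + N3 + N4, fun n hn => ?_⟩
  have hn4 := h4 n (by omega)
  obtain ⟨p0, p1⟩ := p_bounds h0 ⟨hc.le.trans hn4.1, hn4.2⟩
  obtain ⟨p0', p1'⟩ := p_bounds (h0.trans hc) hn4
  have hn0 : (0:ℝ) < n := by exact_mod_cast hn4.2
  have b1 := h1 n (by omega)
  have b2 := h2 n (by omega)
  have b3 := h3 n (by omega)
  have b4 : Pr (c1 / n) (fun A : Finset (Edg n) => ∃ S : Finset (Fin n),
        2 * d * (S.card : ℝ) + ε * n ≤ eo (gr A) S) ≤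
      Pr (c1 / n) (fun A : Finset (Edg n) => ¬ ∀ S : Finset (Fin n),
        eo (gr A) S ≤ 2 * d * S.card) := by
    refine Pr_mono p0' p1' (fun A hA => ?_)
    rintro hall
    obtain ⟨S, hS⟩ := hA
    have h5 : ((eo (gr A) S : ℕ) : ℝ) ≤ 2 * d * S.card := by exact_mod_cast hall S
    have : 0 < ε * n := by positivity
    linarith
  have u1 := Pr_or_le p0 p1 (fun A : Finset (Edg n) => ¬ Sp 4 ε4 (gr A))
    (fun A : Finset (Edg n) => ∃ S : Finset (Fin n),
        ε4 * n ≤ S.card ∧ 2 * d * S.card ≤ eo (gr A) S + d * (d + 1))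
  refine le_trans (Pr_mono p0 p1 (fun A hA => ?_)) (u1.trans ?_)
  · by_contra hno
    push Not at hno
    apply hA
    intro S hS
    refine det_sub hd (gr A) ε4 hε4 hno.1 ?_ S hS.1
    rintro ⟨S', h6, h7⟩
    have := hno.2 S' h6
    omega
  · linarith

end Pool.Agent.GRI
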