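import Pool.Agent.Lib_MP_264ef2_ins.Poisson

set_option autoImplicit false

namespace Pool.Agent.GRI

open Finset
open scoped Classical

namespace Fix

variable {n d : ℕ}

/-- total loss of freedom -/
noncomputable def loss (S : Sys n d) (H : SimpleGraph (Fin n)) (T T' : Finset (Fin n)) : ℝ :=
  ∑ u, ((S.k H T u : ℝ) - (S.k H T' u : ℝ))

theorem loss_nonneg (S : Sys n d) (H : SimpleGraph (Fin n)) {T T' : Finset (Fin n)}
    (h : T ⊆ T') : 0 ≤ loss S H T T' :=
  sum_nonneg fun u _ => by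
    have := S.anti H T T' u h
    have : (S.k H T' u : ℝ) ≤ S.k H T u := by exact_mod_cast this
    linarith

theorem loss_mono (S : Sys n d) (H : SimpleGraph (Fin n)) {T T' T'' : Finset (Fin n)}
    (h : T' ⊆ T'') : loss S H T T' ≤ loss S H T T'' :=
  sum_le_sum fun u _ => by
    have := S.anti H T' T'' u h
    have : (S.k H T'' u : ℝ) ≤ S.k H T' u := by exact_mod_cast this
    linarith

/-- probability that a random set has at least `d` points in `Z` -/
noncomputable def BB (n d : ℕ) (p : ℝ) (Z : Finset (Fin n)) : ℝ :=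
  Pr p (fun X : Finset (Fin n) => d ≤ (X ∩ Z).card)

/-- indicator -/
noncomputable def J (n d : ℕ) (X Z : Finset (Fin n)) : ℝ := if d ≤ (X ∩ Z).card then 1 else 0

theorem J_nonneg (X Z : Finset (Fin n)) : 0 ≤ J n d X Z := by unfold J; split_ifs <;> norm_num
theorem J_le (X Z : Finset (Fin n)) : J n d X Z ≤ 1 := by unfold J; split_ifs <;> norm_num

theorem BB_eq (p : ℝ) (Z : Finset (Fin n)) : BB n d p Z = Ex p (fun X => J n d X Z) := by
  unfold BB Pr J
  congr 1
  funext X
  congr 1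

theorem card_inter' (p : ℝ) (X : Finset (Fin n)) :
    Ex p (fun A : Finset (Fin n) => ((A ∩ X).card : ℝ)) = p * X.card := by
  exact Ex_card_interD p X

theorem mem_erase' (a : Fin n) (p : ℝ) (f : Finset (Fin n) → ℝ) :
    Ex p (fun A => if a ∈ A then f (A.erase a) else 0) = p * Ex p (fun A => f (A.erase a)) := by
  exact Ex_mem_eraseD a p f

theorem union' (p q : ℝ) (f : Finset (Fin n) → ℝ) :
    Ex p (fun A => Ex q (fun B => f (A ∪ B))) = Ex (p + q - p * q) f := by
  exact Ex_unionD p q f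

theorem J_diff (X : Finset (Fin n)) {Z Z' : Finset (Fin n)} (h : Z' ⊆ Z) :
    |J n d X Z - J n d X Z'| ≤ ((X ∩ (Z \ Z')).card : ℝ) := by
  rcases (X ∩ (Z \ Z')).eq_empty_or_nonempty with h0 | h0
  · have : X ∩ Z = X ∩ Z' := by
      ext u
      simp only [mem_inter]
      constructor
      · rintro ⟨a, b⟩
        refine ⟨a, ?_⟩
        by_contra hc
        have : u ∈ X ∩ (Z \ Z') := by simp [a, b, hc]
        rw [h0] at this
        simp at this
      · rintro ⟨a, b⟩
        exact ⟨a, h b⟩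
    simp [J, this]
  · have h1 : (1 : ℝ) ≤ ((X ∩ (Z \ Z')).card : ℝ) := by exact_mod_cast h0.card_pos
    have h2 : |J n d X Z - J n d X Z'| ≤ 1 := by
      rw [abs_le]
      constructor <;> linarith [J_nonneg (d := d) X Z, J_le (d := d) X Z,
        J_nonneg (d := d) X Z', J_le (d := d) X Z']
    linarith

variable {p : ℝ}

theorem BB_diff (h0 : 0 ≤ p) (h1 : p ≤ 1) {Z Z' : Finset (Fin n)} (h : Z' ⊆ Z) :
    |BB n d p Z - BB n d p Z'| ≤ p * (Z \ Z').card := by
  rw [BB_eq, BB_eq, ← Ex_sub]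
  calc |Ex p (fun X => J n d X Z - J n d X Z')|
      ≤ Ex p (fun X => |J n d X Z - J n d X Z'|) := abs_Ex_le h0 h1 _
    _ ≤ Ex p (fun X : Finset (Fin n) => ((X ∩ (Z \ Z')).card : ℝ)) :=
        Ex_mono h0 h1 (fun X => J_diff X h)
    _ = p * (Z \ Z').card := card_inter' _ _

theorem BB_nonneg (h0 : 0 ≤ p) (h1 : p ≤ 1) (Z : Finset (Fin n)) : 0 ≤ BB n d p Z :=
  Pr_nonneg h0 h1 _
theorem BB_le (h0 : 0 ≤ p) (h1 : p ≤ 1) (Z : Finset (Fin n)) : BB n d p Z ≤ 1 :=
  Pr_le_one h0 h1 _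

/-- one-vertex comparison -/
theorem Phi_sub (S : Sys n d) (G : SimpleGraph (Fin n)) (T : Finset (Fin n)) (v : Fin n) :
    (S.Phi (del G {v}) T).erase v ⊆ S.Phi G T := by
  intro u hu
  rw [mem_erase] at hu
  obtain ⟨hne, hu⟩ := hu
  simp only [Sys.Phi, mem_filter, mem_univ, true_and] at hu ⊢
  have := S.up G T v u hne
  omega

theorem Phi_diff (S : Sys n d) (G : SimpleGraph (Fin n)) (T : Finset (Fin n)) (v : Fin n) :
    ((S.Phi G T \ (S.Phi (del G {v}) T).erase v).card : ℝ) ≤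
      1 + loss S (del G {v}) T (T ∪ nb G v) := by
  have hsub : S.Phi G T \ (S.Phi (del G {v}) T).erase v ⊆
      {v} ∪ univ.filter (fun u => S.k (del G {v}) T u ≠ 0 ∧ S.k (del G {v}) (T ∪ nb G v) u = 0) := by
    intro u hu
    rw [mem_sdiff, mem_erase] at hu
    obtain ⟨h1, h2⟩ := hu
    simp only [Sys.Phi, mem_filter, mem_univ, true_and, mem_union, mem_singleton] at h1 h2 ⊢
    by_cases hne : u = v
    · exact Or.inl hne
    · right
      refine ⟨fun h => h2 ⟨hne, h⟩, ?_⟩
      have := S.down G T v u hne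
      omega
  have h1 : ((S.Phi G T \ (S.Phi (del G {v}) T).erase v).card : ℝ) ≤
      1 + ((univ.filter (fun u => S.k (del G {v}) T u ≠ 0 ∧
        S.k (del G {v}) (T ∪ nb G v) u = 0)).card : ℝ) := by
    have := (card_le_card hsub).trans (card_union_le _ _)
    rw [card_singleton] at this
    exact_mod_cast this
  have h2 : ((univ.filter (fun u => S.k (del G {v}) T u ≠ 0 ∧
        S.k (del G {v}) (T ∪ nb G v) u = 0)).card : ℝ) ≤ loss S (del G {v}) T (T ∪ nb G v) := by
    rw [card_filter]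
    push_cast
    unfold loss
    refine sum_le_sum fun u _ => ?_
    have h3 := S.anti (del G {v}) T (T ∪ nb G v) u subset_union_left
    split_ifs with h
    · have h4 : 1 ≤ S.k (del G {v}) T u := Nat.one_le_iff_ne_zero.mpr h.1
      rw [h.2]
      have : (1 : ℝ) ≤ S.k (del G {v}) T u := by exact_mod_cast h4
      simpa using this
    · have : (S.k (del G {v}) (T ∪ nb G v) u : ℝ) ≤ S.k (del G {v}) T u := by exact_mod_cast h3
      linarith
  linarith

/-- `Y v`, indicator that `v` has `d` pinned neighbours in `G - v` -/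
noncomputable def Y (S : Sys n d) (v : Fin n) (G : SimpleGraph (Fin n)) (T : Finset (Fin n)) : ℝ :=
  J n d (nb G v) (S.Phi (del G {v}) T)

/-- conditional probability -/
noncomputable def Bv (S : Sys n d) (p : ℝ) (v : Fin n) (G : SimpleGraph (Fin n))
    (T : Finset (Fin n)) : ℝ := BB n d p ((S.Phi (del G {v}) T).erase v)

noncomputable def FF (S : Sys n d) (v w : Fin n) (G : SimpleGraph (Fin n)) (T : Finset (Fin n)) :
    Finset (Fin n) := ((S.Phi (del (del G {v}) {w}) T).erase w).erase v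

theorem FF_symm (S : Sys n d) (v w : Fin n) (G : SimpleGraph (Fin n)) (T : Finset (Fin n)) :
    FF S v w G T = FF S w v G T := by
  unfold FF
  rw [del_del, erase_right_comm]

noncomputable def Z (S : Sys n d) (p : ℝ) (v : Fin n) (G : SimpleGraph (Fin n))
    (T : Finset (Fin n)) : ℝ := Y S v G T - Bv S p v G T

noncomputable def Z' (S : Sys n d) (p : ℝ) (v w : Fin n) (G : SimpleGraph (Fin n))
    (T : Finset (Fin n)) : ℝ := J n d (nb G v) (FF S v w G T) - BB n d p (FF S v w G T)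

theorem Z_abs (h0 : 0 ≤ p) (h1 : p ≤ 1) (S : Sys n d) (v : Fin n) (G : SimpleGraph (Fin n))
    (T : Finset (Fin n)) : |Z S p v G T| ≤ 1 := by
  unfold Z Y Bv
  rw [abs_le]
  constructor <;> linarith [J_nonneg (d := d) (nb G v) (S.Phi (del G {v}) T),
    J_le (d := d) (nb G v) (S.Phi (del G {v}) T),
    BB_nonneg (d := d) h0 h1 ((S.Phi (del G {v}) T).erase v),
    BB_le (d := d) h0 h1 ((S.Phi (del G {v}) T).erase v)]

theorem Z'_abs (h0 : 0 ≤ p) (h1 : p ≤ 1) (S : Sys n d) (v w : Fin n) (G : SimpleGraph (Fin n))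
    (T : Finset (Fin n)) : |Z' S p v w G T| ≤ 1 := by
  unfold Z'
  rw [abs_le]
  constructor <;> linarith [J_nonneg (d := d) (nb G v) (FF S v w G T),
    J_le (d := d) (nb G v) (FF S v w G T),
    BB_nonneg (d := d) h0 h1 (FF S v w G T),
    BB_le (d := d) h0 h1 (FF S v w G T)]

/-- expected loss in `g G` when a random set is added -/
noncomputable def D (S : Sys n d) (p : ℝ) (g : SimpleGraph (Fin n) → SimpleGraph (Fin n))
    (T : Finset (Fin n)) : ℝ :=
  Ex p (fun A : Finset (Edg n) => Ex p (fun X : Finset (Fin n) => loss S (g (gr A)) T (T ∪ X)))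

theorem D_nonneg (h0 : 0 ≤ p) (h1 : p ≤ 1) (S : Sys n d)
    (g : SimpleGraph (Fin n) → SimpleGraph (Fin n)) (T : Finset (Fin n)) : 0 ≤ D S p g T :=
  Ex_nonneg h0 h1 fun _ => Ex_nonneg h0 h1 fun _ => loss_nonneg _ _ subset_union_left

noncomputable abbrev g1 (v : Fin n) (G : SimpleGraph (Fin n)) : SimpleGraph (Fin n) := del G {v}
noncomputable abbrev g2 (v w : Fin n) (G : SimpleGraph (Fin n)) : SimpleGraph (Fin n) := del (del G {v}) {w}

theorem Ex_loss (h0 : 0 ≤ p) (h1 : p ≤ 1) (S : Sys n d)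
    (g : SimpleGraph (Fin n) → SimpleGraph (Fin n)) (w : Fin n) (T : Finset (Fin n)) :
    Ex p (fun A : Finset (Edg n) => loss S (g (del (gr A) {w})) T (T ∪ nb (gr A) w)) ≤
      D S p (fun G => g (del G {w})) T := by
  have := Ex_vertex p w (fun H N => loss S (g H) T (T ∪ N))
  rw [this]
  unfold D
  refine Ex_mono h0 h1 fun A => Ex_mono h0 h1 fun X => loss_mono _ _ ?_
  exact union_subset_union_right (erase_subset _ _)

/-- Lemma A -/
theorem lemA (h0 : 0 ≤ p) (h1 : p ≤ 1) (S : Sys n d) (v : Fin n) (T : Finset (Fin n)) :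
    Ex p (fun A : Finset (Edg n) => |(if v ∈ S.Phi (gr A) T then (1 : ℝ) else 0) - Y S v (gr A) T|) ≤
      (if v ∈ T then 1 else 0) + p * D S p (g1 v) T := by
  -- pointwise
  have hpt : ∀ G : SimpleGraph (Fin n),
      |(if v ∈ S.Phi G T then (1 : ℝ) else 0) - Y S v G T| ≤ (if v ∈ T then 1 else 0) +
        ∑ u, (if u ∈ nb G v then ((S.k (del G {v}) T u : ℝ) -
          (S.k (del G {v}) (T ∪ (nb G v).erase u) u : ℝ)) else 0) := by
    intro G
    have hnn : ∀ u : Fin n, 0 ≤ (if u ∈ nb G v then ((S.k (del G {v}) T u : ℝ) -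
          (S.k (del G {v}) (T ∪ (nb G v).erase u) u : ℝ)) else 0) := by
      intro u
      split_ifs with h
      · have := S.anti (del G {v}) T (T ∪ (nb G v).erase u) u subset_union_left
        have : (S.k (del G {v}) (T ∪ (nb G v).erase u) u : ℝ) ≤ S.k (del G {v}) T u := by
          exact_mod_cast this
        linarith
      · exact le_rfl
    have hsum := sum_nonneg fun u (_ : u ∈ (univ : Finset (Fin n))) => hnn u
    have hle1 : |(if v ∈ S.Phi G T then (1 : ℝ) else 0) - Y S v G T| ≤ 1 := by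
      unfold Y
      have := J_nonneg (d := d) (nb G v) (S.Phi (del G {v}) T)
      have := J_le (d := d) (nb G v) (S.Phi (del G {v}) T)
      rw [abs_le]
      split_ifs <;> constructor <;> linarith
    by_cases hvT : v ∈ T
    · simp only [hvT, if_true]
      linarith
    · simp only [hvT, if_false, zero_add]
      by_cases hbad : ∀ u ∈ nb G v, S.k (del G {v}) (T ∪ (nb G v).erase u) u = S.k (del G {v}) T u
      · have hst := S.star G T v hvT hbad
        have : (if v ∈ S.Phi G T then (1 : ℝ) else 0) = Y S v G T := by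
          unfold Y J
          have e1 : (v ∈ S.Phi G T) ↔ S.k G T v = 0 := by simp [Sys.Phi]
          have e2 : nb G v ∩ S.Phi (del G {v}) T =
              (nb G v).filter (fun u => S.k (del G {v}) T u = 0) := by
            ext u; simp [Sys.Phi]
          rw [e2]
          simp only [e1, hst]
        rw [this, sub_self, abs_zero]
        exact hsum
      · push Not at hbad
        obtain ⟨u, hu, hne⟩ := hbad
        refine hle1.trans ?_
        have h3 := S.anti (del G {v}) T (T ∪ (nb G v).erase u) u subset_union_left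
        have h4 : S.k (del G {v}) (T ∪ (nb G v).erase u) u + 1 ≤ S.k (del G {v}) T u := by omega
        have h5 : (S.k (del G {v}) (T ∪ (nb G v).erase u) u : ℝ) + 1 ≤ S.k (del G {v}) T u := by
          exact_mod_cast h4
        have h6 := single_le_sum (fun u _ => hnn u) (mem_univ u)
        simp only [hu, if_true] at h6
        linarith
  refine (Ex_mono h0 h1 (fun A => hpt (gr A))).trans ?_
  rw [Ex_add, Ex_const]
  gcongr
  have hv := Ex_vertex p v (fun H N => ∑ u, (if u ∈ N then ((S.k H T u : ℝ) -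
          (S.k H (T ∪ N.erase u) u : ℝ)) else 0))
  rw [hv]
  unfold D
  rw [← Ex_mul_left]
  refine Ex_mono h0 h1 fun A => ?_
  set H := del (gr A) {v} with hH
  rw [Ex_sum]
  have hloss : Ex p (fun X : Finset (Fin n) => loss S (g1 v (gr A)) T (T ∪ X)) =
      ∑ u, Ex p (fun X : Finset (Fin n) => ((S.k H T u : ℝ) - (S.k H (T ∪ X) u : ℝ))) := by
    rw [← Ex_sum]
    rfl
  rw [hloss, mul_sum]
  refine sum_le_sum fun u _ => ?_
  by_cases huv : u = v
  · have : (fun X : Finset (Fin n) => (if u ∈ X.erase v then ((S.k H T u : ℝ) -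
          (S.k H (T ∪ (X.erase v).erase u) u : ℝ)) else 0)) = fun _ => (0 : ℝ) := by
      funext X
      simp [huv]
    rw [this, Ex_const]
    refine mul_nonneg h0 (Ex_nonneg h0 h1 fun X => ?_)
    have := S.anti H T (T ∪ X) u subset_union_left
    have : (S.k H (T ∪ X) u : ℝ) ≤ S.k H T u := by exact_mod_cast this
    linarith
  · have : (fun X : Finset (Fin n) => (if u ∈ X.erase v then ((S.k H T u : ℝ) -
          (S.k H (T ∪ (X.erase v).erase u) u : ℝ)) else 0)) =
        fun X : Finset (Fin n) => (if u ∈ X then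
          (fun Y : Finset (Fin n) => ((S.k H T u : ℝ) - (S.k H (T ∪ Y.erase v) u : ℝ))) (X.erase u)
          else 0) := by
      funext X
      simp only [mem_erase, ne_eq, huv, not_false_eq_true, true_and, erase_right_comm]
    rw [this, mem_erase' u p (fun Y : Finset (Fin n) => ((S.k H T u : ℝ) - (S.k H (T ∪ Y.erase v) u : ℝ)))]
    refine mul_le_mul_of_nonneg_left (Ex_mono h0 h1 fun X => ?_) h0
    have := S.anti H (T ∪ (X.erase u).erase v) (T ∪ X) u
      (union_subset_union_right ((erase_subset _ _).trans (erase_subset _ _)))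
    have : (S.k H (T ∪ X) u : ℝ) ≤ S.k H (T ∪ (X.erase u).erase v) u := by exact_mod_cast this
    linarith

/-- Lemma B -/
theorem lemB (h0 : 0 ≤ p) (h1 : p ≤ 1) (S : Sys n d) (v : Fin n) (T : Finset (Fin n)) :
    Ex p (fun A : Finset (Edg n) => |Bv S p v (gr A) T - BB n d p (S.Phi (gr A) T)|) ≤
      p * (1 + D S p (g1 v) T) := by
  calc Ex p (fun A : Finset (Edg n) => |Bv S p v (gr A) T - BB n d p (S.Phi (gr A) T)|)
      ≤ Ex p (fun A : Finset (Edg n) => p * (1 + loss S (del (gr A) {v}) T (T ∪ nb (gr A) v))) := by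
        refine Ex_mono h0 h1 fun A => ?_
        rw [abs_sub_comm]
        refine (BB_diff h0 h1 (Phi_sub S (gr A) T v)).trans ?_
        exact mul_le_mul_of_nonneg_left (Phi_diff S (gr A) T v) h0
    _ = p * (1 + Ex p (fun A : Finset (Edg n) => loss S (del (gr A) {v}) T (T ∪ nb (gr A) v))) := by
        rw [Ex_mul_left, Ex_add, Ex_const]
    _ ≤ _ := by
        gcongr
        exact Ex_loss h0 h1 S id v T

theorem not_mem_nb (G : SimpleGraph (Fin n)) (v : Fin n) : v ∉ nb G v := by simp [nb]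

/-- E Z'_v Z'_w = 0 -/
theorem lemC1 (S : Sys n d) {v w : Fin n} (hvw : v ≠ w) (T : Finset (Fin n)) :
    Ex p (fun A : Finset (Edg n) => Z' S p v w (gr A) T * Z' S p w v (gr A) T) = 0 := by
  have hv := Ex_vertex p v (fun H N =>
    (J n d N (((S.Phi (del H {w}) T).erase w).erase v) -
      BB n d p (((S.Phi (del H {w}) T).erase w).erase v)) *
    (J n d (nb H w) (((S.Phi (del H {w}) T).erase w).erase v) -
      BB n d p (((S.Phi (del H {w}) T).erase w).erase v)))
  have e1 : (fun A : Finset (Edg n) => Z' S p v w (gr A) T * Z' S p w v (gr A) T) =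
      fun A : Finset (Edg n) =>
        (J n d (nb (gr A) v) (((S.Phi (del (del (gr A) {v}) {w}) T).erase w).erase v) -
      BB n d p (((S.Phi (del (del (gr A) {v}) {w}) T).erase w).erase v)) *
    (J n d (nb (del (gr A) {v}) w) (((S.Phi (del (del (gr A) {v}) {w}) T).erase w).erase v) -
      BB n d p (((S.Phi (del (del (gr A) {v}) {w}) T).erase w).erase v)) := by
    funext A
    unfold Z'
    rw [FF_symm S w v]
    unfold FF
    congr 2
    unfold J
    have : nb (del (gr A) {v}) w ∩ ((S.Phi (del (del (gr A) {v}) {w}) T).erase w).erase v =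
        nb (gr A) w ∩ ((S.Phi (del (del (gr A) {v}) {w}) T).erase w).erase v := by
      rw [nb_del _ hvw.symm]
      ext u
      simp only [mem_inter, mem_erase]
      tauto
    rw [this]
  rw [e1, hv]
  have e2 : ∀ A : Finset (Edg n), Ex p (fun X : Finset (Fin n) =>
      (J n d (X.erase v) (((S.Phi (del (del (gr A) {v}) {w}) T).erase w).erase v) -
      BB n d p (((S.Phi (del (del (gr A) {v}) {w}) T).erase w).erase v)) *
    (J n d (nb (del (gr A) {v}) w) (((S.Phi (del (del (gr A) {v}) {w}) T).erase w).erase v) -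
      BB n d p (((S.Phi (del (del (gr A) {v}) {w}) T).erase w).erase v))) = 0 := by
    intro A
    set F := ((S.Phi (del (del (gr A) {v}) {w}) T).erase w).erase v with hF
    have : (fun X : Finset (Fin n) => (J n d (X.erase v) F - BB n d p F) *
        (J n d (nb (del (gr A) {v}) w) F - BB n d p F)) = fun X : Finset (Fin n) =>
        (J n d (nb (del (gr A) {v}) w) F - BB n d p F) * (J n d X F - BB n d p F) := by
      funext X
      rw [mul_comm]
      congr 2
      unfold J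
      have : X.erase v ∩ F = X ∩ F := by
        ext u
        simp only [hF, mem_inter, mem_erase]
        tauto
      rw [this]
    rw [this, Ex_mul_left, Ex_sub, Ex_const, ← BB_eq, sub_self, mul_zero]
  simp only [e2]
  exact Ex_const p 0

/-- E |Z_v - Z'_v| -/
theorem lemC2 (h0 : 0 ≤ p) (h1 : p ≤ 1) (S : Sys n d) (v w : Fin n) (T : Finset (Fin n)) :
    Ex p (fun A : Finset (Edg n) => |Z S p v (gr A) T - Z' S p v w (gr A) T|) ≤
      2 * p * (1 + D S p (g2 v w) T) := by
  -- the difference set as a function of `del G {v}`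
  set R : SimpleGraph (Fin n) → Finset (Fin n) := fun H =>
    (S.Phi H T).erase v \ ((S.Phi (del H {w}) T).erase w).erase v with hR
  have hsub : ∀ H : SimpleGraph (Fin n),
      ((S.Phi (del H {w}) T).erase w).erase v ⊆ (S.Phi H T).erase v := fun H =>
    erase_subset_erase _ (Phi_sub S H T w)
  have hRc : ∀ H : SimpleGraph (Fin n), ((R H).card : ℝ) ≤
      1 + loss S (del H {w}) T (T ∪ nb H w) := by
    intro H
    refine le_trans ?_ (Phi_diff S H T w)
    have : R H ⊆ S.Phi H T \ (S.Phi (del H {w}) T).erase w := by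
      intro u hu
      simp only [hR, mem_sdiff, mem_erase] at hu ⊢
      tauto
    exact_mod_cast card_le_card this
  have hpt : ∀ G : SimpleGraph (Fin n), |Z S p v G T - Z' S p v w G T| ≤
      ((nb G v ∩ R (del G {v})).card : ℝ) + p * (R (del G {v})).card := by
    intro G
    have e1 : J n d (nb G v) (S.Phi (del G {v}) T) = J n d (nb G v) ((S.Phi (del G {v}) T).erase v) := by
      unfold J
      have : nb G v ∩ (S.Phi (del G {v}) T).erase v = nb G v ∩ S.Phi (del G {v}) T := by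
        ext u
        simp only [mem_inter, mem_erase]
        constructor
        · tauto
        · rintro ⟨a, b⟩
          exact ⟨a, fun h => not_mem_nb G v (h ▸ a), b⟩
      rw [this]
    have e2 : Z S p v G T - Z' S p v w G T =
        (J n d (nb G v) ((S.Phi (del G {v}) T).erase v) -
          J n d (nb G v) (((S.Phi (del (del G {v}) {w}) T).erase w).erase v)) -
        (BB n d p ((S.Phi (del G {v}) T).erase v) -
          BB n d p (((S.Phi (del (del G {v}) {w}) T).erase w).erase v)) := by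
      unfold Z Z' Y Bv FF
      rw [e1]
      ring
    rw [e2]
    refine (abs_sub _ _).trans ?_
    exact add_le_add (J_diff _ (hsub _)) (BB_diff h0 h1 (hsub _))
  refine (Ex_mono h0 h1 (fun A => hpt (gr A))).trans ?_
  rw [Ex_add]
  have e3 : Ex p (fun A : Finset (Edg n) => ((nb (gr A) v ∩ R (del (gr A) {v})).card : ℝ)) ≤
      Ex p (fun A : Finset (Edg n) => p * ((R (del (gr A) {v})).card : ℝ)) := by
    have := Ex_vertex p v (fun H N => ((N ∩ R H).card : ℝ))
    rw [this]
    refine Ex_mono h0 h1 fun A => ?_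
    rw [← card_inter' p (R (del (gr A) {v}))]
    refine Ex_mono h0 h1 fun X => ?_
    exact_mod_cast card_le_card (inter_subset_inter_right (erase_subset _ _))
  have e4 : Ex p (fun A : Finset (Edg n) => p * ((R (del (gr A) {v})).card : ℝ)) ≤
      p * (1 + D S p (g2 v w) T) := by
    rw [Ex_mul_left]
    refine mul_le_mul_of_nonneg_left ?_ h0
    have hD : D S p (g2 v w) T = D S p (fun G => del (del G {w}) {v}) T := by
      unfold D g2
      simp only [del_del _ {v} {w}]
    rw [hD]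
    calc Ex p (fun A : Finset (Edg n) => ((R (del (gr A) {v})).card : ℝ))
        ≤ Ex p (fun A : Finset (Edg n) => 1 +
            loss S (del (del (gr A) {w}) {v}) T (T ∪ nb (gr A) w)) := by
          refine Ex_mono h0 h1 fun A => (hRc _).trans ?_
          rw [del_del (gr A) {v} {w}]
          have : loss S (del (del (gr A) {w}) {v}) T (T ∪ nb (del (gr A) {v}) w) ≤
              loss S (del (del (gr A) {w}) {v}) T (T ∪ nb (gr A) w) := by
            refine loss_mono _ _ (union_subset_union_right ?_)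
            intro u hu
            simp only [nb, mem_filter, mem_univ, true_and, del, ind] at hu ⊢
            exact hu.1
          linarith
      _ = 1 + Ex p (fun A : Finset (Edg n) =>
            loss S (del (del (gr A) {w}) {v}) T (T ∪ nb (gr A) w)) := by
          rw [Ex_add, Ex_const]
      _ ≤ _ := by
          gcongr
          exact Ex_loss h0 h1 S (fun G => del G {v}) w T
  linarith

theorem lemC (h0 : 0 ≤ p) (h1 : p ≤ 1) (S : Sys n d) {v w : Fin n} (hvw : v ≠ w)
    (T : Finset (Fin n)) :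
    Ex p (fun A : Finset (Edg n) => Z S p v (gr A) T * Z S p w (gr A) T) ≤
      2 * p * (1 + D S p (g2 v w) T) + 2 * p * (1 + D S p (g2 w v) T) := by
  have hpt : ∀ G : SimpleGraph (Fin n), Z S p v G T * Z S p w G T ≤
      Z' S p v w G T * Z' S p w v G T + |Z S p v G T - Z' S p v w G T| +
        |Z S p w G T - Z' S p w v G T| := by
    intro G
    have a1 : Z S p v G T * Z S p w G T = Z' S p v w G T * Z' S p w v G T +
      (Z S p v G T - Z' S p v w G T) * Z S p w G T +
      Z' S p v w G T * (Z S p w G T - Z' S p w v G T) := by ring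
    have a2 : (Z S p v G T - Z' S p v w G T) * Z S p w G T ≤ |Z S p v G T - Z' S p v w G T| := by
      refine (le_abs_self _).trans ?_
      rw [abs_mul]
      exact mul_le_of_le_one_right (abs_nonneg _) (Z_abs h0 h1 S w G T)
    have a3 : Z' S p v w G T * (Z S p w G T - Z' S p w v G T) ≤ |Z S p w G T - Z' S p w v G T| := by
      refine (le_abs_self _).trans ?_
      rw [abs_mul]
      exact mul_le_of_le_one_left (abs_nonneg _) (Z'_abs h0 h1 S v w G T)
    linarith
  refine (Ex_mono h0 h1 fun A => hpt (gr A)).trans ?_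
  rw [Ex_add, Ex_add, lemC1 S hvw T]
  linarith [lemC2 h0 h1 S v w T, lemC2 h0 h1 S w v T]

/-- second moment -/
theorem second (h0 : 0 ≤ p) (h1 : p ≤ 1) (S : Sys n d) (T : Finset (Fin n)) :
    Ex p (fun A : Finset (Edg n) => (∑ v, Z S p v (gr A) T) ^ 2) ≤
      n + ∑ v, ∑ w, (2 * p * (1 + D S p (g2 v w) T) + 2 * p * (1 + D S p (g2 w v) T)) := by
  have e1 : (fun A : Finset (Edg n) => (∑ v, Z S p v (gr A) T) ^ 2) =
      fun A : Finset (Edg n) => ∑ v, ∑ w, Z S p v (gr A) T * Z S p w (gr A) T := by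
    funext A
    rw [sq, sum_mul_sum]
  rw [e1, Ex_sum]
  have hn : (n : ℝ) = ∑ _v : Fin n, (1 : ℝ) := by simp
  rw [hn, ← sum_add_distrib]
  refine sum_le_sum fun v _ => ?_
  rw [Ex_sum]
  have hnn : ∀ w, 0 ≤ 2 * p * (1 + D S p (g2 v w) T) + 2 * p * (1 + D S p (g2 w v) T) := by
    intro w
    have := D_nonneg h0 h1 S (g2 v w) T
    have := D_nonneg h0 h1 S (g2 w v) T
    positivity
  rw [← add_sum_erase _ _ (mem_univ v)]
  have b1 : Ex p (fun A : Finset (Edg n) => Z S p v (gr A) T * Z S p v (gr A) T) ≤ 1 := by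
    calc _ ≤ Ex p (fun A : Finset (Edg n) => (1 : ℝ)) := by
          refine Ex_mono h0 h1 fun A => ?_
          have := Z_abs h0 h1 S v (gr A) T
          rw [← abs_mul_abs_self]
          nlinarith [abs_nonneg (Z S p v (gr A) T)]
      _ = 1 := Ex_const _ _
  refine add_le_add b1 ?_
  calc ∑ w ∈ univ.erase v, Ex p (fun A : Finset (Edg n) => Z S p v (gr A) T * Z S p w (gr A) T)
      ≤ ∑ w ∈ univ.erase v, (2 * p * (1 + D S p (g2 v w) T) + 2 * p * (1 + D S p (g2 w v) T)) :=
        sum_le_sum fun w hw => lemC h0 h1 S (ne_of_mem_erase hw).symm T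
    _ ≤ _ := sum_le_sum_of_subset_of_nonneg (erase_subset _ _) fun w _ _ => hnn w

/-- main estimate for fixed `T` -/
theorem mainT (h0 : 0 ≤ p) (h1 : p ≤ 1) (hn : 0 < n) (S : Sys n d) (T : Finset (Fin n))
    {c η ε' : ℝ} (hη : 0 < η)
    (hpo : ∀ X : Finset (Fin n), |BB n d p X - Fp d (c * rho X)| ≤ ε') :
    Ex p (fun A : Finset (Edg n) =>
        |rho (S.Phi (gr A) T) - Fp d (c * rho (S.Phi (gr A) T))|) ≤
      (1 / n) * ∑ v, ((if v ∈ T then 1 else 0) + p * D S p (g1 v) T) +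
      ((1 / (2 * η)) * ((1 / (n : ℝ) ^ 2) * (n + ∑ v, ∑ w, (2 * p * (1 + D S p (g2 v w) T) +
        2 * p * (1 + D S p (g2 w v) T)))) + η / 2) +
      (1 / n) * ∑ v, (p * (1 + D S p (g1 v) T)) + ε' := by
  have hn' : (0 : ℝ) < n := by exact_mod_cast hn
  have hpt : ∀ G : SimpleGraph (Fin n), |rho (S.Phi G T) - Fp d (c * rho (S.Phi G T))| ≤
      (1 / n) * ∑ v, |(if v ∈ S.Phi G T then (1 : ℝ) else 0) - Y S v G T| +
      ((1 / (2 * η)) * ((1 / (n : ℝ) ^ 2) * (∑ v, Z S p v G T) ^ 2) + η / 2) +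
      (1 / n) * ∑ v, |Bv S p v G T - BB n d p (S.Phi G T)| + ε' := by
    intro G
    have c1 : rho (S.Phi G T) = (1 / n) * ∑ v, (if v ∈ S.Phi G T then (1 : ℝ) else 0) := by
      unfold rho
      rw [sum_ite_mem, univ_inter, sum_const, nsmul_eq_mul, mul_one]
      ring
    have c2 : BB n d p (S.Phi G T) = (1 / n) * ∑ _v : Fin n, BB n d p (S.Phi G T) := by
      rw [sum_const, card_univ, Fintype.card_fin, nsmul_eq_mul]
      field_simp
    have c3 : rho (S.Phi G T) - Fp d (c * rho (S.Phi G T)) =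
        (1 / n) * ∑ v, ((if v ∈ S.Phi G T then (1 : ℝ) else 0) - Y S v G T) +
        (1 / n) * ∑ v, Z S p v G T +
        (1 / n) * ∑ v, (Bv S p v G T - BB n d p (S.Phi G T)) +
        (BB n d p (S.Phi G T) - Fp d (c * rho (S.Phi G T))) := by
      have : ∑ v, Z S p v G T = ∑ v, Y S v G T - ∑ v, Bv S p v G T := by
        unfold Z; rw [sum_sub_distrib]
      rw [this, sum_sub_distrib, sum_sub_distrib]
      rw [c1]
      have c2' := c2
      rw [← c1]
      nlinarith [c2']
    have d1 : |(1 / (n : ℝ)) * ∑ v, ((if v ∈ S.Phi G T then (1 : ℝ) else 0) - Y S v G T)| ≤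
        (1 / n) * ∑ v, |(if v ∈ S.Phi G T then (1 : ℝ) else 0) - Y S v G T| := by
      rw [abs_mul, abs_of_nonneg (by positivity : (0 : ℝ) ≤ 1 / n)]
      exact mul_le_mul_of_nonneg_left (abs_sum_le_sum_abs _ _) (by positivity)
    have d3 : |(1 / (n : ℝ)) * ∑ v, (Bv S p v G T - BB n d p (S.Phi G T))| ≤
        (1 / n) * ∑ v, |Bv S p v G T - BB n d p (S.Phi G T)| := by
      rw [abs_mul, abs_of_nonneg (by positivity : (0 : ℝ) ≤ 1 / n)]
      exact mul_le_mul_of_nonneg_left (abs_sum_le_sum_abs _ _) (by positivity)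
    have d2 : |(1 / (n : ℝ)) * ∑ v, Z S p v G T| ≤
        (1 / (2 * η)) * ((1 / (n : ℝ) ^ 2) * (∑ v, Z S p v G T) ^ 2) + η / 2 := by
      set W := (1 / (n : ℝ)) * ∑ v, Z S p v G T with hW
      have : (1 / (n : ℝ) ^ 2) * (∑ v, Z S p v G T) ^ 2 = |W| ^ 2 := by
        rw [sq_abs, hW]; ring
      rw [this]
      have h5 : 0 ≤ (|W| - η) ^ 2 := sq_nonneg _
      have : (1 / (2 * η)) * |W| ^ 2 + η / 2 - |W| = (1 / (2 * η)) * (|W| - η) ^ 2 := by
        field_simp
        ring
      have h6 : 0 ≤ (1 / (2 * η)) * (|W| - η) ^ 2 := by positivity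
      linarith
    rw [c3]
    have t1 := abs_add_le ((1 / n) * ∑ v, ((if v ∈ S.Phi G T then (1 : ℝ) else 0) - Y S v G T) +
        (1 / n) * ∑ v, Z S p v G T +
        (1 / n) * ∑ v, (Bv S p v G T - BB n d p (S.Phi G T)))
        (BB n d p (S.Phi G T) - Fp d (c * rho (S.Phi G T)))
    have t2 := abs_add_le ((1 / n) * ∑ v, ((if v ∈ S.Phi G T then (1 : ℝ) else 0) - Y S v G T) +
        (1 / n) * ∑ v, Z S p v G T)
        ((1 / n) * ∑ v, (Bv S p v G T - BB n d p (S.Phi G T)))
    have t3 := abs_add_le ((1 / n) * ∑ v, ((if v ∈ S.Phi G T then (1 : ℝ) else 0) - Y S v G T))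
        ((1 / n) * ∑ v, Z S p v G T)
    have t4 := hpo (S.Phi G T)
    linarith
  refine (Ex_mono h0 h1 fun A => hpt (gr A)).trans ?_
  rw [Ex_add, Ex_add, Ex_add, Ex_add, Ex_const, Ex_const, Ex_mul_left, Ex_mul_left, Ex_mul_left,
    Ex_mul_left, Ex_sum, Ex_sum]
  have f1 : ∑ v, Ex p (fun A : Finset (Edg n) =>
      |(if v ∈ S.Phi (gr A) T then (1 : ℝ) else 0) - Y S v (gr A) T|) ≤
      ∑ v, ((if v ∈ T then 1 else 0) + p * D S p (g1 v) T) :=
    sum_le_sum fun v _ => lemA h0 h1 S v T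
  have f2 := second h0 h1 S T
  have f3 : ∑ v, Ex p (fun A : Finset (Edg n) =>
      |Bv S p v (gr A) T - BB n d p (S.Phi (gr A) T)|) ≤ ∑ v, (p * (1 + D S p (g1 v) T)) :=
    sum_le_sum fun v _ => lemB h0 h1 S v T
  gcongr

/-- averaged total freedom -/
noncomputable def Psi (S : Sys n d) (p : ℝ) (g : SimpleGraph (Fin n) → SimpleGraph (Fin n))
    (i : ℕ) : ℝ :=
  Ex p (fun A : Finset (Edg n) => Ex (th p i) (fun T : Finset (Fin n) =>
    ∑ u, (S.k (g (gr A)) T u : ℝ)))

theorem th_succ (p : ℝ) (i : ℕ) : th p (i + 1) = th p i + p - th p i * p := by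
  unfold th; ring

theorem th_nonneg (h0 : 0 ≤ p) (h1 : p ≤ 1) (i : ℕ) : 0 ≤ th p i := by
  unfold th
  have : (1 - p) ^ i ≤ 1 := pow_le_one₀ (by linarith) (by linarith)
  linarith

theorem th_le_one (h1 : p ≤ 1) (i : ℕ) : th p i ≤ 1 := by
  unfold th
  have : 0 ≤ (1 - p) ^ i := pow_nonneg (by linarith) _
  linarith

theorem th_le (h1 : p ≤ 1) (i : ℕ) : th p i ≤ i * p := by
  unfold th
  have := one_add_mul_le_pow (a := -p) (by linarith) i
  have h2 : (1 + -p) = 1 - p := by ring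
  rw [h2] at this
  linarith

theorem Ex_D (S : Sys n d) (g : SimpleGraph (Fin n) → SimpleGraph (Fin n)) (i : ℕ) :
    Ex (th p i) (fun T => D S p g T) = Psi S p g i - Psi S p g (i + 1) := by
  unfold D Psi
  rw [Ex_comm, ← Ex_sub]
  congr 1
  funext A
  rw [th_succ, ← union', ← Ex_sub]
  congr 1
  funext T
  unfold loss
  simp only [sum_sub_distrib]
  rw [Ex_sub, Ex_const]

theorem Psi_nonneg (h0 : 0 ≤ p) (h1 : p ≤ 1) (S : Sys n d)
    (g : SimpleGraph (Fin n) → SimpleGraph (Fin n)) (i : ℕ) : 0 ≤ Psi S p g i :=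
  Ex_nonneg h0 h1 fun _ => Ex_nonneg (th_nonneg h0 h1 i) (th_le_one h1 i) fun _ =>
    sum_nonneg fun _ _ => Nat.cast_nonneg _

theorem Psi_le (h0 : 0 ≤ p) (h1 : p ≤ 1) (S : Sys n d)
    (g : SimpleGraph (Fin n) → SimpleGraph (Fin n)) (i : ℕ) : Psi S p g i ≤ d * n := by
  calc Psi S p g i ≤ Ex p (fun A : Finset (Edg n) => Ex (th p i) (fun T : Finset (Fin n) =>
        (d * n : ℝ))) := by
        refine Ex_mono h0 h1 fun A => Ex_mono (th_nonneg h0 h1 i) (th_le_one h1 i) fun T => ?_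
        calc ∑ u, (S.k (g (gr A)) T u : ℝ) ≤ ∑ _u : Fin n, (d : ℝ) :=
              sum_le_sum fun u _ => by exact_mod_cast S.le _ _ _
          _ = d * n := by simp [mul_comm]
    _ = d * n := by simp only [Ex_const]

/-- the weight that telescopes -/
noncomputable def Wt (S : Sys n d) (p : ℝ) (i : ℕ) : ℝ :=
  ∑ v, ∑ w, Psi S p (g2 v w) i + n * ∑ v, Psi S p (g1 v) i

theorem pigeon (h0 : 0 ≤ p) (h1 : p ≤ 1) (S : Sys n d) (I0 M : ℕ) (hM : 0 < M) :
    ∃ i, I0 ≤ i ∧ i < I0 + M ∧ Wt S p i - Wt S p (i + 1) ≤ 2 * d * n ^ 3 / M := by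
  have hW0 : ∀ i, 0 ≤ Wt S p i := fun i => by
    unfold Wt
    have a : 0 ≤ ∑ v, ∑ w, Psi S p (g2 v w) i :=
      sum_nonneg fun v _ => sum_nonneg fun w _ => Psi_nonneg h0 h1 S _ _
    have b : 0 ≤ ∑ v, Psi S p (g1 v) i := sum_nonneg fun v _ => Psi_nonneg h0 h1 S _ _
    exact add_nonneg a (mul_nonneg (Nat.cast_nonneg _) b)
  have hW1 : ∀ i, Wt S p i ≤ 2 * d * n ^ 3 := fun i => by
    unfold Wt
    have a : ∑ v, ∑ w, Psi S p (g2 v w) i ≤ ∑ _v : Fin n, ∑ _w : Fin n, (d * n : ℝ) :=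
      sum_le_sum fun v _ => sum_le_sum fun w _ => Psi_le h0 h1 S _ _
    have b : ∑ v, Psi S p (g1 v) i ≤ ∑ _v : Fin n, (d * n : ℝ) :=
      sum_le_sum fun v _ => Psi_le h0 h1 S _ _
    simp only [sum_const, card_univ, Fintype.card_fin, nsmul_eq_mul] at a b
    have c : (n : ℝ) * ∑ v, Psi S p (g1 v) i ≤ n * (n * (d * n)) :=
      mul_le_mul_of_nonneg_left b (Nat.cast_nonneg _)
    nlinarith
  have hM' : (0 : ℝ) < M := by exact_mod_cast hM
  have htel : ∑ j ∈ range M, (Wt S p (I0 + j) - Wt S p (I0 + (j + 1))) =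
      Wt S p (I0 + 0) - Wt S p (I0 + M) := sum_range_sub' (fun j => Wt S p (I0 + j)) M
  have hle : ∑ j ∈ range M, (Wt S p (I0 + j) - Wt S p (I0 + (j + 1))) ≤
      ∑ _j ∈ range M, (2 * d * n ^ 3 / M : ℝ) := by
    rw [htel, sum_const, card_range, nsmul_eq_mul]
    have : (M : ℝ) * (2 * d * n ^ 3 / M) = 2 * d * n ^ 3 := by field_simp
    rw [this]
    linarith [hW0 (I0 + M), hW1 (I0 + 0)]
  obtain ⟨j, hj, hj'⟩ := exists_le_of_sum_le (nonempty_range_iff.mpr hM.ne') hle
  refine ⟨I0 + j, by omega, by have := mem_range.mp hj; omega, ?_⟩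
  exact hj'

theorem g2_comm_sum (S : Sys n d) (p : ℝ) (T : Finset (Fin n)) :
    ∑ v, ∑ w, D S p (g2 w v) T = ∑ v, ∑ w, D S p (g2 v w) T := sum_comm

/-- the estimate after averaging over `T` -/
theorem mainI (h0 : 0 ≤ p) (h1 : p ≤ 1) (hn : 0 < n) (S : Sys n d) (i : ℕ)
    {c η ε' : ℝ} (hη : 0 < η)
    (hpo : ∀ X : Finset (Fin n), |BB n d p X - Fp d (c * rho X)| ≤ ε') :
    Ex p (fun A : Finset (Edg n) => Ex (th p i) (fun T : Finset (Fin n) =>
        |rho (S.Phi (gr A) T) - Fp d (c * rho (S.Phi (gr A) T))|)) ≤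
      th p i + p + (1 / (2 * η)) * (1 / n + 4 * p) + η / 2 + ε' +
      (2 / n) * p * ∑ v, (Psi S p (g1 v) i - Psi S p (g1 v) (i + 1)) +
      (1 / (2 * η)) * (4 / (n : ℝ) ^ 2) * p *
        ∑ v, ∑ w, (Psi S p (g2 v w) i - Psi S p (g2 v w) (i + 1)) := by
  have hn' : (0 : ℝ) < n := by exact_mod_cast hn
  rw [Ex_comm]
  refine (Ex_mono (th_nonneg h0 h1 i) (th_le_one h1 i) fun T =>
    mainT h0 h1 hn S T hη hpo).trans (le_of_eq ?_)
  have hT : Ex (th p i) (fun T : Finset (Fin n) => ∑ v, (if v ∈ T then (1 : ℝ) else 0)) =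
      th p i * n := by
    have := card_inter' (th p i) (univ : Finset (Fin n))
    rw [card_univ, Fintype.card_fin] at this
    rw [← this]
    congr 1
    funext T
    simp
  -- rewrite the integrand as a linear expression
  have e1 : (fun T : Finset (Fin n) => (1 / (n : ℝ)) * ∑ v, ((if v ∈ T then 1 else 0) + p * D S p (g1 v) T) +
      ((1 / (2 * η)) * ((1 / (n : ℝ) ^ 2) * (n + ∑ v, ∑ w, (2 * p * (1 + D S p (g2 v w) T) +
        2 * p * (1 + D S p (g2 w v) T)))) + η / 2) +
      (1 / n) * ∑ v, (p * (1 + D S p (g1 v) T)) + ε') =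
      fun T : Finset (Fin n) => (1 / (n : ℝ)) * (∑ v, (if v ∈ T then (1 : ℝ) else 0)) +
        ((2 / n) * p * ∑ v, D S p (g1 v) T + ((1 / (2 * η)) * (4 / (n : ℝ) ^ 2) * p *
          ∑ v, ∑ w, D S p (g2 v w) T +
        (p + (1 / (2 * η)) * (1 / n + 4 * p) + η / 2 + ε'))) := by
    funext T
    have s1 : ∑ v, ((if v ∈ T then (1 : ℝ) else 0) + p * D S p (g1 v) T) =
        ∑ v, (if v ∈ T then (1 : ℝ) else 0) + p * ∑ v, D S p (g1 v) T := by
      rw [sum_add_distrib, mul_sum]
    have s2 : ∑ v, (p * (1 + D S p (g1 v) T)) = p * n + p * ∑ v, D S p (g1 v) T := by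
      rw [← mul_sum, sum_add_distrib, sum_const, card_univ, Fintype.card_fin, nsmul_eq_mul]
      ring
    have s3 : ∑ v, ∑ w, (2 * p * (1 + D S p (g2 v w) T) + 2 * p * (1 + D S p (g2 w v) T)) =
        4 * p * (n : ℝ) ^ 2 + 4 * p * ∑ v, ∑ w, D S p (g2 v w) T := by
      simp only [sum_add_distrib, ← mul_sum]
      rw [g2_comm_sum]
      simp only [sum_const, card_univ, Fintype.card_fin, nsmul_eq_mul]
      ring
    rw [s1, s2, s3]
    field_simp
    ring
  rw [e1, Ex_add, Ex_add, Ex_add, Ex_const, Ex_mul_left, Ex_mul_left, Ex_mul_left, hT, Ex_sum,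
    Ex_sum]
  simp only [Ex_sum, Ex_D]
  field_simp
  ring

end Fix

/-- The density of pinned vertices is an approximate fixed point of `x ↦ Fp d (c x)`. -/
theorem fixpoint (d : ℕ) (hd : 1 ≤ d) (c : ℝ) (hc : 0 < c) (ε : ℝ) (hε : 0 < ε) (I0 : ℕ) :
    ∃ I N : ℕ, ∀ n : ℕ, N ≤ n → ∀ S : Sys n d, ∃ i : ℕ, I0 ≤ i ∧ i < I ∧
      Ex (c / n) (fun A : Finset (Edg n) => Ex (th (c / n) i) (fun T : Finset (Fin n) =>
        |rho (S.Phi (gr A) T) - Fp d (c * rho (S.Phi (gr A) T))|)) ≤ ε := by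
  -- η = ε/3, so η/2 = ε/6 and 1/(2η) = 3/(2ε)
  obtain ⟨N1, hN1⟩ := poisson d c hc (ε / 6) (by positivity)
  set K1 : ℝ := 4 * c * d + (1 / (2 * (ε / 3))) * (8 * c * d) with hK1
  obtain ⟨M, hM⟩ := exists_nat_gt (6 * K1 / ε)
  have hK1' : 0 ≤ K1 := by positivity
  have hM0 : (0 : ℝ) < M := lt_of_le_of_lt (by positivity) hM
  have hM0' : 0 < M := by exact_mod_cast hM0
  set K2 : ℝ := (I0 + M) * c + c + (1 / (2 * (ε / 3))) * (1 + 4 * c) with hK2
  have hK2' : 0 < K2 := by positivity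
  obtain ⟨N2, hN2⟩ := exists_nat_gt (6 * K2 / ε)
  obtain ⟨N3, hN3⟩ := exists_nat_gt c
  refine ⟨I0 + M, max N1 (max N2 (max N3 1)), fun n hn S => ?_⟩
  have hn1 : N1 ≤ n := (le_max_left _ _).trans hn
  have hn2 : N2 ≤ n := ((le_max_left _ _).trans (le_max_right _ _)).trans hn
  have hn3 : N3 ≤ n := ((le_max_left _ _).trans ((le_max_right _ _).trans (le_max_right _ _))).trans hn
  have hn4 : 1 ≤ n := ((le_max_right _ _).trans ((le_max_right _ _).trans (le_max_right _ _))).trans hn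
  have hn0 : (0 : ℝ) < n := by exact_mod_cast hn4
  have hp0 : 0 ≤ c / n := by positivity
  have hp1 : c / n ≤ 1 := by
    rw [div_le_one hn0]
    exact hN3.le.trans (by exact_mod_cast hn3)
  obtain ⟨i, hi1, hi2, hi3⟩ := Fix.pigeon hp0 hp1 S I0 M hM0'
  refine ⟨i, hi1, hi2, ?_⟩
  refine (Fix.mainI hp0 hp1 hn4 S i (c := c) (η := ε / 3) (ε' := ε / 6) (by positivity)
    (fun X => by
      have := hN1 n hn1 X
      unfold Fix.BB
      convert this)).trans ?_
  -- telescoping differences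
  set P1 := ∑ v, (Fix.Psi S (c / n) (Fix.g1 v) i - Fix.Psi S (c / n) (Fix.g1 v) (i + 1)) with hP1
  set P2 := ∑ v, ∑ w, (Fix.Psi S (c / n) (Fix.g2 v w) i - Fix.Psi S (c / n) (Fix.g2 v w) (i + 1))
    with hP2
  have hth0 := Fix.th_nonneg hp0 hp1 i
  have hP1n : 0 ≤ P1 := by
    refine sum_nonneg fun v _ => ?_
    rw [← Fix.Ex_D]
    exact Ex_nonneg hth0 (Fix.th_le_one hp1 i) fun T => Fix.D_nonneg hp0 hp1 S _ T
  have hP2n : 0 ≤ P2 := by
    refine sum_nonneg fun v _ => sum_nonneg fun w _ => ?_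
    rw [← Fix.Ex_D]
    exact Ex_nonneg hth0 (Fix.th_le_one hp1 i) fun T => Fix.D_nonneg hp0 hp1 S _ T
  have hW : P2 + n * P1 ≤ 2 * d * n ^ 3 / M := by
    have : Fix.Wt S (c / n) i - Fix.Wt S (c / n) (i + 1) = P2 + n * P1 := by
      unfold Fix.Wt
      rw [hP1, hP2]
      simp only [sum_sub_distrib]
      ring
    rw [← this]
    exact hi3
  have hP2 : P2 ≤ 2 * d * n ^ 3 / M := by
    have : 0 ≤ n * P1 := mul_nonneg hn0.le hP1n
    linarith
  have hP1' : P1 ≤ 2 * d * n ^ 2 / M := by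
    have : n * P1 ≤ n * (2 * d * n ^ 2 / M) := by
      have e : (n : ℝ) * (2 * d * n ^ 2 / M) = 2 * d * n ^ 3 / M := by ring
      rw [e]
      linarith
    exact le_of_mul_le_mul_left this hn0
  have b0 : th (c / n) i ≤ (I0 + M) * c / n := by
    refine (Fix.th_le hp1 i).trans ?_
    rw [mul_div_assoc]
    refine mul_le_mul_of_nonneg_right ?_ hp0
    have : (i : ℝ) ≤ ((I0 + M : ℕ) : ℝ) := by exact_mod_cast hi2.le
    push_cast at this
    exact this
  have b1 : 2 / (n : ℝ) * (c / n) * P1 ≤ 4 * c * d / M := by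
    calc 2 / (n : ℝ) * (c / n) * P1 ≤ 2 / (n : ℝ) * (c / n) * (2 * d * n ^ 2 / M) :=
          mul_le_mul_of_nonneg_left hP1' (by positivity)
      _ = 4 * c * d / M := by field_simp; ring
  have b2 : 1 / (2 * (ε / 3)) * (4 / (n : ℝ) ^ 2) * (c / n) * P2 ≤
      (1 / (2 * (ε / 3))) * (8 * c * d) / M := by
    calc 1 / (2 * (ε / 3)) * (4 / (n : ℝ) ^ 2) * (c / n) * P2 ≤
        1 / (2 * (ε / 3)) * (4 / (n : ℝ) ^ 2) * (c / n) * (2 * d * n ^ 3 / M) :=
          mul_le_mul_of_nonneg_left hP2 (by positivity)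
      _ = (1 / (2 * (ε / 3))) * (8 * c * d) / M := by field_simp; ring
  have b3 : K1 / M ≤ ε / 6 := by
    rw [div_le_iff₀ hM0]
    rw [div_lt_iff₀ hε] at hM
    linarith
  have b4 : K2 / n ≤ ε / 6 := by
    have hnn : (6 * K2 / ε : ℝ) < n := hN2.trans_le (by exact_mod_cast hn2)
    rw [div_le_iff₀ hn0]
    rw [div_lt_iff₀ hε] at hnn
    linarith
  have b5 : K1 / M = 4 * c * d / M + (1 / (2 * (ε / 3))) * (8 * c * d) / M := by
    rw [hK1, add_div]
  have b6 : K2 / n = (I0 + M) * c / n + c / n + 1 / (2 * (ε / 3)) * (1 / n + 4 * (c / n)) := by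
    rw [hK2]
    ring
  linarith

end Pool.Agent.GRI
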