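import Pool.Agent.Lib_MP_264ef2_ins.Final
import Pool.Agent.Lib_MP_264ef2_ins.Defs

set_option autoImplicit false

/-! Generic placements exist, and at a generic placement the rank is maximal. -/

namespace Pool.Agent.RigidINS

open Finset
open scoped Classical

/-! ### generic placements -/

open Cardinal in
/-- a transcendence basis of `ℝ` over `ℚ` is infinite -/
theorem trans_infinite (s : Set ℝ) (hs : IsTranscendenceBasis ℚ ((↑) : s → ℝ)) : s.Infinite := by
  intro hfin
  have : Countable s := hfin.countable
  have h1 : Algebra.IsAlgebraic (Algebra.adjoin ℚ (Set.range ((↑) : s → ℝ))) ℝ :=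
    hs.isAlgebraic
  have h2 : #(Algebra.adjoin ℚ (Set.range ((↑) : s → ℝ))) ≤ ℵ₀ := by
    have h3 := hs.1.aevalEquiv.toEquiv.symm.injective
    have : Countable (MvPolynomial s ℚ) := by
      rw [← Cardinal.mk_le_aleph0_iff]
      refine (MvPolynomial.cardinalMk_le_max (σ := s) (R := ℚ)).trans ?_
      simp
    exact Cardinal.mk_le_aleph0_iff.2 h3.countable
  have h4 : #ℝ ≤ ℵ₀ := by
    refine (Algebra.IsAlgebraic.cardinalMk_le_max
      (Algebra.adjoin ℚ (Set.range ((↑) : s → ℝ))) ℝ).trans ?_
    exact max_le h2 le_rfl
  rw [Cardinal.mk_real] at h4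
  exact absurd h4 (not_le.2 aleph0_lt_continuum)

/-- generic placements exist -/
theorem exists_generic (V : Type) [Fintype V] (d : ℕ) : ∃ p : V → Fin d → ℝ, Generic p := by
  obtain ⟨s, hs⟩ := exists_isTranscendenceBasis ℚ ℝ
  have hinf : Infinite s := (trans_infinite s hs).to_subtype
  let e : V × Fin d → s := fun x => Infinite.natEmbedding s (Fintype.equivFin (V × Fin d) x)
  have he : Function.Injective e := fun i j h =>
    (Fintype.equivFin (V × Fin d)).injective (Fin.ext ((Infinite.natEmbedding s).injective h))
  refine ⟨fun v i => ((e (v, i) : s) : ℝ), ?_⟩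
  exact hs.1.comp e he

/-- at an algebraically independent point the rank of a matrix with rational polynomial entries is
maximal -/
theorem rank_generic {m k σ : Type} [Fintype m] [Fintype k]
    (M : Matrix m k (MvPolynomial σ ℚ)) (x y : σ → ℝ) (hx : AlgebraicIndependent ℚ x) :
    (M.map (MvPolynomial.aeval y)).rank ≤ (M.map (MvPolynomial.aeval x)).rank := by
  obtain ⟨s, -, -, hspan, hind⟩ := exists_linearIndepOn_extension
    (K := ℝ) (v := fun i : m => (M.map (MvPolynomial.aeval y)).row i) (s := ∅) (t := Set.univ)
      (linearIndepOn_empty ℝ _) (Set.empty_subset _)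
  have hcard : (M.map (MvPolynomial.aeval y)).rank = Fintype.card s := by
    rw [Matrix.rank_eq_finrank_span_row]
    have : Submodule.span ℝ (Set.range (M.map (MvPolynomial.aeval y)).row)
        = Submodule.span ℝ ((fun i : m => (M.map (MvPolynomial.aeval y)).row i) '' s) := by
      apply le_antisymm
      · rw [Submodule.span_le]
        rw [Set.image_univ] at hspan
        exact hspan
      · exact Submodule.span_mono (Set.image_subset_range _ _)
    rw [this, Set.image_eq_range]
    exact finrank_span_eq_card hind
  -- the chosen rows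
  let N : Matrix s k (MvPolynomial σ ℚ) := fun i j => M i.1 j
  have hmap : ∀ z : σ → ℝ, MvPolynomial.aeval z (N * N.transpose).det =
      ((N.map (MvPolynomial.aeval z)) * (N.map (MvPolynomial.aeval z)).transpose).det := by
    intro z
    have h1 : (MvPolynomial.aeval z : MvPolynomial σ ℚ →ₐ[ℚ] ℝ) (N * N.transpose).det =
        (MvPolynomial.aeval z : MvPolynomial σ ℚ →ₐ[ℚ] ℝ).toRingHom (N * N.transpose).det := rfl
    rw [h1, RingHom.map_det]
    congr 1
    rw [RingHom.mapMatrix_apply, Matrix.map_mul]
    rfl
  have hy : (N.map (MvPolynomial.aeval y)).rank = Fintype.card s := by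
    apply LinearIndependent.rank_matrix
    exact hind
  have hdet : MvPolynomial.aeval y (N * N.transpose).det ≠ 0 := by
    rw [hmap y]
    intro h0
    have h1 : ((N.map (MvPolynomial.aeval y)) * (N.map (MvPolynomial.aeval y)).transpose).rank =
        Fintype.card s := by rw [Matrix.rank_self_mul_transpose, hy]
    have h2 : LinearIndependent ℝ
        ((N.map (MvPolynomial.aeval y)) * (N.map (MvPolynomial.aeval y)).transpose).row := by
      rw [linearIndependent_iff_card_eq_finrank_span, ← h1, Matrix.rank_eq_finrank_span_row]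
      rfl
    have h3 := Matrix.linearIndependent_rows_iff_isUnit.1 h2
    rw [Matrix.isUnit_iff_isUnit_det] at h3
    exact h3.ne_zero h0
  have hP : (N * N.transpose).det ≠ 0 := by
    intro h0
    rw [h0, map_zero] at hdet
    exact hdet rfl
  have hxdet : MvPolynomial.aeval x (N * N.transpose).det ≠ 0 := by
    intro h0
    apply hP
    exact (injective_iff_map_eq_zero _).1 hx _ h0
  rw [hmap x] at hxdet
  have h4 : IsUnit ((N.map (MvPolynomial.aeval x)) * (N.map (MvPolynomial.aeval x)).transpose) := by
    rw [Matrix.isUnit_iff_isUnit_det]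
    exact isUnit_iff_ne_zero.2 hxdet
  have h5 : (N.map (MvPolynomial.aeval x)).rank = Fintype.card s := by
    rw [← Matrix.rank_self_mul_transpose, Matrix.rank_of_isUnit _ h4]
  have h6 : (N.map (MvPolynomial.aeval x)).rank ≤ (M.map (MvPolynomial.aeval x)).rank := by
    rw [Matrix.rank_eq_finrank_span_row, Matrix.rank_eq_finrank_span_row]
    apply Submodule.finrank_mono
    apply Submodule.span_mono
    rintro _ ⟨i, rfl⟩
    exact ⟨i.1, rfl⟩
  omega

end Pool.Agent.RigidINS
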