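import Pool.Agent.Lib_MP_264ef2_ins.Base

/-! Linear algebra of generic frameworks (helper46). -/

set_option autoImplicit false

namespace Pool.Agent.GRI

open Finset
open scoped Classical

namespace GoodAux

/-- along a line, the dimension of the kernel only drops, except at finitely many points -/
theorem ker_semicont {V Y : Type*} [AddCommGroup V] [Module ℝ V] [FiniteDimensional ℝ V]
    [AddCommGroup Y] [Module ℝ Y] (A B : V →ₗ[ℝ] Y) :
    {t : ℝ | ¬ Module.finrank ℝ (LinearMap.ker (A + t • B)) ≤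
      Module.finrank ℝ (LinearMap.ker A)}.Finite := by
  obtain ⟨W, hW⟩ := Submodule.exists_isCompl (LinearMap.ker A)
  have hinj : LinearMap.ker (A ∘ₗ W.subtype) = ⊥ := by
    rw [LinearMap.ker_eq_bot']
    intro w hw
    have h1 : (w : V) ∈ LinearMap.ker A ⊓ W := ⟨by simpa using hw, w.2⟩
    rw [hW.inf_eq_bot] at h1
    exact Subtype.ext (by simpa using h1)
  obtain ⟨R, hR⟩ := (A ∘ₗ W.subtype).exists_leftInverse_of_injective hinj
  set M : Module.End ℝ W := R ∘ₗ B ∘ₗ W.subtype with hM
  have hfin : (Set.range fun μ : Module.End.Eigenvalues M => -(μ : ℝ)⁻¹).Finite :=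
    Set.finite_range _
  refine hfin.subset ?_
  intro t ht
  by_contra hcon
  apply ht
  have key : Disjoint W (LinearMap.ker (A + t • B)) := by
    rw [Submodule.disjoint_def]
    intro w hw hk
    by_contra hw0
    have h1 : A w + t • B w = 0 := by simpa using hk
    have h2 : R (A w) = ⟨w, hw⟩ := by
      have := LinearMap.congr_fun hR ⟨w, hw⟩
      simpa using this
    have h3 : (⟨w, hw⟩ : W) + t • M ⟨w, hw⟩ = 0 := by
      have h4 : R (A w + t • B w) = 0 := by rw [h1, map_zero]
      rw [map_add, map_smul, h2] at h4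
      simpa [hM] using h4
    have ht0 : t ≠ 0 := by
      rintro rfl
      rw [zero_smul, add_zero] at h3
      exact hw0 (by simpa using congrArg Subtype.val h3)
    have h5 : M ⟨w, hw⟩ = (-t⁻¹) • (⟨w, hw⟩ : W) := by
      have h6 : t • M ⟨w, hw⟩ = - (⟨w, hw⟩ : W) := by
        rw [eq_neg_iff_add_eq_zero, add_comm]; exact h3
      calc M ⟨w, hw⟩ = t⁻¹ • (t • M ⟨w, hw⟩) := by rw [smul_smul, inv_mul_cancel₀ ht0, one_smul]
        _ = _ := by rw [h6, smul_neg, neg_smul]
    have h7 : Module.End.HasEigenvalue M (-t⁻¹) := by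
      apply Module.End.hasEigenvalue_of_hasEigenvector (x := (⟨w, hw⟩ : W))
      refine ⟨Module.End.mem_eigenspace_iff.mpr h5, ?_⟩
      intro h8
      exact hw0 (by simpa using congrArg Subtype.val h8)
    apply hcon
    refine ⟨⟨-t⁻¹, h7⟩, ?_⟩
    show -(-t⁻¹)⁻¹ = t
    rw [neg_inv, neg_neg, inv_inv]
  have h1 := Submodule.finrank_add_finrank_le_of_disjoint key
  have h2 := Submodule.finrank_add_eq_of_isCompl hW
  omega

end GoodAux

namespace GoodAux

/-- the edge part of the constraint map -/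
noncomputable def LE {n d : ℕ} (q : Mot n d) (G : SimpleGraph (Fin n)) :
    Mot n d →ₗ[ℝ] (Fin n × Fin n → ℝ) where
  toFun m e := if G.Adj e.1 e.2 then (q e.1 - q e.2) ⬝ᵥ (m e.1 - m e.2) else 0
  map_add' a b := by
    ext e
    by_cases h : G.Adj e.1 e.2
    · simp only [h, if_true, Pi.add_apply]
      rw [← dotProduct_add]
      congr 1
      abel
    · simp [h]
  map_smul' c a := by
    ext e
    by_cases h : G.Adj e.1 e.2
    · simp only [h, if_true, Pi.smul_apply, RingHom.id_apply]
      rw [← smul_sub, dotProduct_smul]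
    · simp [h]

/-- the constraint map -/
noncomputable def LL {n d : ℕ} (q : Mot n d) (G : SimpleGraph (Fin n)) (T : Finset (Fin n)) :
    Mot n d →ₗ[ℝ] (Fin n × Fin n → ℝ) × Mot n d := (LE q G).prod (PK T)

theorem ker_LL {n d : ℕ} (q : Mot n d) (G : SimpleGraph (Fin n)) (T : Finset (Fin n)) :
    LinearMap.ker (LL q G T) = Mo q G T := by
  ext m
  rw [LinearMap.mem_ker]
  have : LL q G T m = (LE q G m, PK T m) := rfl
  rw [this, Prod.mk_eq_zero]
  constructor
  · rintro ⟨h1, h2⟩
    refine ⟨fun t ht => ?_, fun u w h => ?_⟩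
    · have := congrFun h2 t
      simpa [PK, ht] using this
    · have := congrFun h1 (u, w)
      simpa [LE, h] using this
  · rintro ⟨h1, h2⟩
    refine ⟨?_, ?_⟩
    · ext e
      show (if G.Adj e.1 e.2 then (q e.1 - q e.2) ⬝ᵥ (m e.1 - m e.2) else 0) = 0
      by_cases h : G.Adj e.1 e.2
      · rw [if_pos h, h2 _ _ h]
      · rw [if_neg h]
    · ext v i
      by_cases h : v ∈ T
      · simp [PK, h, h1 v h]
      · simp [PK, h]

theorem LL_line {n d : ℕ} (q q' : Mot n d) (G : SimpleGraph (Fin n)) (T : Finset (Fin n)) (t : ℝ) :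
    LL (q + t • (q' - q)) G T = LL q G T + t • (LL q' G T - LL q G T) := by
  apply LinearMap.ext
  intro m
  apply Prod.ext
  · ext e
    show (if G.Adj e.1 e.2 then ((q + t • (q' - q)) e.1 - (q + t • (q' - q)) e.2) ⬝ᵥ
        (m e.1 - m e.2) else 0) =
      (if G.Adj e.1 e.2 then (q e.1 - q e.2) ⬝ᵥ (m e.1 - m e.2) else 0) +
        t • ((if G.Adj e.1 e.2 then (q' e.1 - q' e.2) ⬝ᵥ (m e.1 - m e.2) else 0) -
        (if G.Adj e.1 e.2 then (q e.1 - q e.2) ⬝ᵥ (m e.1 - m e.2) else 0))
    by_cases h : G.Adj e.1 e.2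
    · simp only [h, if_true]
      rw [← sub_dotProduct, ← smul_dotProduct, ← add_dotProduct]
      congr 1
      ext i
      simp only [Pi.add_apply, Pi.smul_apply, Pi.sub_apply, smul_eq_mul]
      ring
    · simp [h]
  · simp [LL]

/-- all constraint spaces in a finite family can be made minimal at once -/
theorem exists_min {n d : ℕ} (F : Finset (SimpleGraph (Fin n) × Finset (Fin n))) :
    ∃ q : Mot n d, ∀ p ∈ F, ∀ q' : Mot n d,
      Module.finrank ℝ (Mo q p.1 p.2) ≤ Module.finrank ℝ (Mo q' p.1 p.2) := by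
  induction F using Finset.induction_on with
  | empty => exact ⟨0, by simp⟩
  | insert p F hp ih =>
    obtain ⟨q, hq⟩ := ih
    obtain ⟨q', hq'⟩ : ∃ q' : Mot n d, ∀ q'' : Mot n d,
        Module.finrank ℝ (Mo q' p.1 p.2) ≤ Module.finrank ℝ (Mo q'' p.1 p.2) := by
      have hne : (Set.range fun q : Mot n d => Module.finrank ℝ (Mo q p.1 p.2)).Nonempty :=
        ⟨_, q, rfl⟩
      obtain ⟨q', hq'⟩ := Nat.sInf_mem hne
      exact ⟨q', fun q'' => by
        have := Nat.sInf_le (Set.mem_range_self (f := fun q : Mot n d =>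
          Module.finrank ℝ (Mo q p.1 p.2)) q'')
        simp only at hq'
        omega⟩
    -- good parameters
    have h1 : ∀ r ∈ F, {t : ℝ | ¬ Module.finrank ℝ (Mo (q + t • (q' - q)) r.1 r.2) ≤
        Module.finrank ℝ (Mo q r.1 r.2)}.Finite := by
      intro r _
      have := ker_semicont (LL q r.1 r.2) (LL q' r.1 r.2 - LL q r.1 r.2)
      refine this.subset ?_
      intro t ht
      simp only [Set.mem_ofPred_eq] at ht ⊢
      rw [← LL_line, ker_LL, ker_LL]
      exact ht
    have h2 : {t : ℝ | ¬ Module.finrank ℝ (Mo (q + t • (q' - q)) p.1 p.2) ≤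
        Module.finrank ℝ (Mo q' p.1 p.2)}.Finite := by
      have h3 := ker_semicont (LL q' p.1 p.2) (LL q p.1 p.2 - LL q' p.1 p.2)
      have h4 : {t : ℝ | ¬ Module.finrank ℝ (Mo (q + t • (q' - q)) p.1 p.2) ≤
        Module.finrank ℝ (Mo q' p.1 p.2)} ⊆ (fun t => 1 - t) '' {t : ℝ | ¬ Module.finrank ℝ
          (LinearMap.ker (LL q' p.1 p.2 + t • (LL q p.1 p.2 - LL q' p.1 p.2))) ≤
          Module.finrank ℝ (LinearMap.ker (LL q' p.1 p.2))} := by
        intro t ht
        refine ⟨1 - t, ?_, by ring⟩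
        simp only [Set.mem_ofPred_eq] at ht ⊢
        rw [← LL_line, ker_LL, ker_LL]
        have : q' + (1 - t) • (q - q') = q + t • (q' - q) := by
          ext v i
          simp only [Pi.add_apply, Pi.smul_apply, Pi.sub_apply, smul_eq_mul]
          ring
        rw [this]
        exact ht
      exact (h3.image _).subset h4
    have h5 : (⋃ r ∈ F, {t : ℝ | ¬ Module.finrank ℝ (Mo (q + t • (q' - q)) r.1 r.2) ≤
        Module.finrank ℝ (Mo q r.1 r.2)}).Finite :=
      Set.Finite.biUnion F.finite_toSet (fun r hr => h1 r hr)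
    obtain ⟨t, ht⟩ := ((h5.union h2).infinite_compl).nonempty
    refine ⟨q + t • (q' - q), ?_⟩
    intro r hr q''
    rw [Set.mem_compl_iff, Set.mem_union, not_or] at ht
    rcases Finset.mem_insert.mp hr with rfl | hr
    · have := ht.2
      simp only [Set.mem_ofPred_eq, not_not] at this
      exact this.trans (hq' q'')
    · have := ht.1
      simp only [Set.mem_iUnion, not_exists, Set.mem_ofPred_eq, not_not] at this
      exact (this r hr).trans (hq r hr q'')

end GoodAux

theorem exists_good (n d : ℕ) : ∃ q : Mot n d, Good q := by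
  obtain ⟨q, hq⟩ := GoodAux.exists_min (n := n) (d := d) Finset.univ
  exact ⟨q, fun G T q' => hq (G, T) (Finset.mem_univ _) q'⟩

variable {n d : ℕ} {q : Mot n d}

theorem mem_Mo {G : SimpleGraph (Fin n)} {T : Finset (Fin n)} {m : Mot n d} :
    m ∈ Mo q G T ↔ (∀ t ∈ T, m t = 0) ∧
      ∀ u w, G.Adj u w → (q u - q w) ⬝ᵥ (m u - m w) = 0 := Iff.rfl

theorem Mo_anti {G G' : SimpleGraph (Fin n)} {T T' : Finset (Fin n)} (hG : G ≤ G') (hT : T ⊆ T') :
    Mo q G' T' ≤ Mo q G T := fun _ hm =>
  ⟨fun t ht => hm.1 t (hT ht), fun u w h => hm.2 u w (hG h)⟩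

theorem kk_eq_zero {G : SimpleGraph (Fin n)} {T : Finset (Fin n)} {w : Fin n} :
    kk q G T w = 0 ↔ ∀ m ∈ Mo q G T, m w = 0 := by
  rw [kk, Submodule.finrank_eq_zero]
  constructor
  · intro h m hm
    have : (LinearMap.proj (R := ℝ) (φ := fun _ : Fin n => Fin d → ℝ) w) m ∈
      (Mo q G T).map (LinearMap.proj (R := ℝ) (φ := fun _ : Fin n => Fin d → ℝ) w) :=
      Submodule.mem_map_of_mem hm
    rw [h] at this
    simpa using this
  · intro h
    rw [eq_bot_iff]
    rintro _ ⟨m, hm, rfl⟩
    simpa using h m hm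

namespace GoodAux

/-- the star -/
def star (v : Fin n) (U : Finset (Fin n)) (hv : v ∉ U) : SimpleGraph (Fin n) where
  Adj a b := (a = v ∧ b ∈ U) ∨ (b = v ∧ a ∈ U)
  symm := ⟨fun _ _ h => h.symm⟩
  loopless := ⟨fun a h => by
    rcases h with ⟨rfl, h⟩ | ⟨rfl, h⟩ <;> exact hv h⟩

/-- the matrix of the directions at `v` -/
def AA (q : Mot n d) (v : Fin n) (U : Finset (Fin n)) : Matrix U (Fin d) ℝ :=
  Matrix.of fun u => q v - q u

theorem finrank_star (q : Mot n d) (v : Fin n) (U : Finset (Fin n)) (hv : v ∉ U) :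
    Module.finrank ℝ (Mo q (star v U hv) {v}ᶜ) + (AA q v U).rank = d := by
  set φ : (Fin d → ℝ) →ₗ[ℝ] Mot n d := LinearMap.single ℝ (fun _ : Fin n => Fin d → ℝ) v with hφ
  have hinj : Function.Injective φ := by
    intro a b h
    have := congrFun h v
    simpa [hφ] using this
  have hφv : ∀ x, φ x v = x := fun x => by simp [hφ]
  have hφu : ∀ x u, u ≠ v → φ x u = 0 := fun x u h => by simp [hφ, h]
  have h1 : Mo q (star v U hv) {v}ᶜ = (LinearMap.ker (AA q v U).mulVecLin).map φ := by
    ext m
    constructor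
    · rintro ⟨h1, h2⟩
      refine ⟨m v, ?_, ?_⟩
      · rw [SetLike.mem_coe, LinearMap.mem_ker]
        ext u
        have hu : (u : Fin n) ≠ v := fun h => hv (h ▸ u.2)
        have h3 := h2 v u (Or.inl ⟨rfl, u.2⟩)
        rw [h1 u (by simpa using hu), sub_zero] at h3
        exact h3
      · ext u : 1
        by_cases hu : u = v
        · subst hu; rw [hφv]
        · rw [hφu _ _ hu, h1 u (by simpa using hu)]
    · rintro ⟨x, hx, rfl⟩
      rw [SetLike.mem_coe, LinearMap.mem_ker] at hx
      have hx' : ∀ u ∈ U, (q v - q u) ⬝ᵥ x = 0 := fun u hu => congrFun hx ⟨u, hu⟩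
      refine ⟨fun t ht => hφu _ _ (by simpa using ht), ?_⟩
      rintro a b (⟨rfl, h⟩ | ⟨rfl, h⟩)
      · have hu : b ≠ a := fun h' => hv (h' ▸ h)
        rw [hφv, hφu _ _ hu, sub_zero]
        exact hx' b h
      · have hu : a ≠ b := fun h' => hv (h' ▸ h)
        rw [hφv, hφu _ _ hu, zero_sub, ← neg_sub, neg_dotProduct_neg]
        exact hx' a h
  rw [h1, ← (Submodule.equivMapOfInjective φ hinj _).finrank_eq, Matrix.rank, add_comm,
    LinearMap.finrank_range_add_finrank_ker]
  simp

end GoodAux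

open GoodAux in
/-- general position -/
theorem good_indep (hq : Good q) (v : Fin n) (U : Finset (Fin n)) (hv : v ∉ U)
    (hU : U.card ≤ d) : LinearIndependent ℝ (fun u : U => q v - q u) := by
  obtain ⟨e⟩ : Nonempty (U ↪ Fin d) := Function.Embedding.nonempty_of_card_le (by simpa using hU)
  set q' : Mot n d := fun u => if h : u ∈ U then - Pi.single (e ⟨u, h⟩) 1 else 0 with hq'
  have h1 : LinearIndependent ℝ (AA q' v U).row := by
    have h2 : (AA q' v U).row = fun u : U => Pi.basisFun ℝ (Fin d) (e u) := by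
      ext u i
      simp [AA, hq', hv, Matrix.row]
    rw [h2]
    exact (Pi.basisFun ℝ (Fin d)).linearIndependent.comp _ e.injective
  have h2 := h1.rank_matrix
  have h3 := finrank_star q' v U hv
  have h4 := finrank_star q v U hv
  have h5 := hq (star v U hv) {v}ᶜ q'
  have h6 : (AA q v U).rank = U.card := by
    have := Matrix.rank_le_card_height (AA q v U)
    simp only [Fintype.card_coe] at this h2
    omega
  rw [Matrix.rank_eq_finrank_span_row] at h6
  rw [linearIndependent_iff_card_le_finrank_span]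
  simp only [Fintype.card_coe]
  exact h6.symm.le

theorem good_zero (hq : Good q) (v : Fin n) (U : Finset (Fin n)) (hv : v ∉ U)
    (hU : d ≤ U.card) (x : Fin d → ℝ) (hx : ∀ u ∈ U, (q v - q u) ⬝ᵥ x = 0) : x = 0 := by
  obtain ⟨U', hU', hc⟩ := Finset.exists_subset_card_eq hU
  have h1 := good_indep hq v U' (fun h => hv (hU' h)) hc.le
  have h2 : Submodule.span ℝ (Set.range fun u : U' => q v - q u) = ⊤ :=
    h1.span_eq_top_of_card_eq_finrank' (by simp [hc])
  have h3 : ∀ y : Fin d → ℝ, y ⬝ᵥ x = 0 := by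
    intro y
    have hy : y ∈ Submodule.span ℝ (Set.range fun u : U' => q v - q u) := by rw [h2]; trivial
    induction hy using Submodule.span_induction with
    | mem y hy =>
      obtain ⟨u, rfl⟩ := hy
      exact hx u (hU' u.2)
    | zero => simp
    | add a b _ _ ha hb => rw [add_dotProduct, ha, hb, add_zero]
    | smul c a _ ha => rw [smul_dotProduct, ha, smul_zero]
  have := h3 x
  rwa [dotProduct_self_eq_zero] at this

namespace GoodAux

/-- rank-nullity on a submodule -/
theorem rk {V Y : Type*} [AddCommGroup V] [Module ℝ V] [FiniteDimensional ℝ V]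
    [AddCommGroup Y] [Module ℝ Y] (P : Submodule ℝ V) (ψ : V →ₗ[ℝ] Y) :
    Module.finrank ℝ (P.map ψ) + Module.finrank ℝ (P ⊓ LinearMap.ker ψ : Submodule ℝ V) =
      Module.finrank ℝ P := by
  have h := LinearMap.finrank_range_add_finrank_ker (ψ.domRestrict P)
  rw [← h]
  congr 1
  · rw [LinearMap.range_domRestrict]
  · have h2 : (LinearMap.ker (ψ.domRestrict P)).map P.subtype = P ⊓ LinearMap.ker ψ := by
      ext x
      constructor
      · rintro ⟨y, hy, rfl⟩
        exact ⟨y.2, hy⟩
      · rintro ⟨hx, hx'⟩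
        exact ⟨⟨x, hx⟩, hx', rfl⟩
    rw [← h2, (Submodule.equivMapOfInjective P.subtype P.injective_subtype _).finrank_eq]

/-- the star system is solvable -/
theorem solve (hq : Good q) (v : Fin n) (U : Finset (Fin n)) (hv : v ∉ U)
    (hU : U.card ≤ d) (c : Fin n → ℝ) : ∃ x : Fin d → ℝ, ∀ u ∈ U, (q v - q u) ⬝ᵥ x = c u := by
  have h1 : LinearIndependent ℝ (AA q v U).row := good_indep hq v U hv hU
  have h2 := h1.rank_matrix
  have h3 : LinearMap.range (AA q v U).mulVecLin = ⊤ := by
    apply Submodule.eq_top_of_finrank_eq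
    rw [← Matrix.rank, h2]
    simp
  have h4 : (fun u : U => c u) ∈ LinearMap.range (AA q v U).mulVecLin := by rw [h3]; trivial
  obtain ⟨x, hx⟩ := h4
  exact ⟨x, fun u hu => congrFun hx ⟨u, hu⟩⟩

/-- residuals of the constraints at `w` -/
noncomputable def rw' (q : Mot n d) (w : Fin n) (U : Finset (Fin n)) : Mot n d →ₗ[ℝ] (U → ℝ) where
  toFun m u := (q w - q u) ⬝ᵥ (m w - m u)
  map_add' a b := by
    ext u
    simp only [Pi.add_apply]
    rw [← dotProduct_add]
    congr 1
    abel
  map_smul' c a := by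
    ext u
    simp only [Pi.smul_apply, RingHom.id_apply]
    rw [← smul_sub, dotProduct_smul]

theorem del_inf_ker (q : Mot n d) (G : SimpleGraph (Fin n)) (w : Fin n) (T : Finset (Fin n)) :
    Mo q (del G {w}) T ⊓ LinearMap.ker (rw' q w (nb G w)) = Mo q G T := by
  ext m
  rw [Submodule.mem_inf, LinearMap.mem_ker]
  constructor
  · rintro ⟨h1, h2⟩
    have h3 : ∀ u, G.Adj w u → (q w - q u) ⬝ᵥ (m w - m u) = 0 := fun u hu =>
      congrFun h2 ⟨u, by simp [nb, hu]⟩
    refine ⟨h1.1, fun a b hab => ?_⟩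
    by_cases ha : a = w
    · subst ha; exact h3 b hab
    by_cases hb : b = w
    · subst hb
      have := h3 a hab.symm
      rwa [← neg_sub (q a), ← neg_sub (m a), neg_dotProduct_neg] at this
    · exact h1.2 a b ⟨hab, by simpa using ha, by simpa using hb⟩
  · rintro ⟨h1, h2⟩
    refine ⟨⟨h1, fun a b hab => h2 a b hab.1⟩, ?_⟩
    ext u
    have := u.2
    simp only [nb, Finset.mem_filter, Finset.mem_univ, true_and] at this
    exact h2 w u this

end GoodAux

open GoodAux

/-- 0-extension -/
theorem ext0 (hq : Good q) (G : SimpleGraph (Fin n)) (w : Fin n) (h : (nb G w).card ≤ d)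
    (T : Finset (Fin n)) (hw : w ∉ T) (m : Mot n d) (hm : m ∈ Mo q (del G {w}) T) :
    ∃ m' ∈ Mo q G T, ∀ v, v ≠ w → m' v = m v := by
  have hnw : w ∉ nb G w := by simp [nb]
  obtain ⟨x, hx⟩ := solve hq w (nb G w) hnw h (fun u => (q w - q u) ⬝ᵥ m u)
  have h3 : ∀ u, G.Adj w u → (q w - q u) ⬝ᵥ (x - m u) = 0 := fun u hu => by
    rw [dotProduct_sub, hx u (by simp [nb, hu]), sub_self]
  refine ⟨Function.update m w x, ⟨?_, ?_⟩, fun v hv => Function.update_of_ne hv _ _⟩
  · intro t ht
    rw [Function.update_of_ne (by rintro rfl; exact hw ht)]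
    exact hm.1 t ht
  · intro a b hab
    by_cases ha : a = w
    · subst ha
      have hb : b ≠ a := hab.ne'
      rw [Function.update_self, Function.update_of_ne hb]
      exact h3 b hab
    by_cases hb : b = w
    · subst hb
      rw [Function.update_self, Function.update_of_ne ha]
      have := h3 a hab.symm
      rwa [← neg_sub (q a), ← neg_sub (m a), neg_dotProduct_neg] at this
    · rw [Function.update_of_ne ha, Function.update_of_ne hb]
      exact hm.2 a b ⟨hab, by simpa using ha, by simpa using hb⟩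

/-- velocities only see the positions at the ends of edges not inside `T` -/
theorem Mo_congr {q q' : Mot n d} {G : SimpleGraph (Fin n)} {T : Finset (Fin n)}
    (h : ∀ u w, G.Adj u w → (u ∈ T ∧ w ∈ T) ∨ (q u = q' u ∧ q w = q' w)) :
    Mo q G T = Mo q' G T := by
  ext m
  constructor
  · rintro ⟨h1, h2⟩
    refine ⟨h1, fun u w huw => ?_⟩
    rcases h u w huw with ⟨hu, hw⟩ | ⟨hu, hw⟩
    · rw [h1 u hu, h1 w hw, sub_self, dotProduct_zero]
    · rw [← hu, ← hw]; exact h2 u w huw
  · rintro ⟨h1, h2⟩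
    refine ⟨h1, fun u w huw => ?_⟩
    rcases h u w huw with ⟨hu, hw⟩ | ⟨hu, hw⟩
    · rw [h1 u hu, h1 w hw, sub_self, dotProduct_zero]
    · rw [hu, hw]; exact h2 u w huw

/-- adding a vertex of degree at most `d` -/
theorem finrank_del (hq : Good q) (G : SimpleGraph (Fin n)) (w : Fin n)
    (h : (nb G w).card ≤ d) (T : Finset (Fin n)) (hw : w ∉ T) :
    Module.finrank ℝ (Mo q G T) + (nb G w).card = Module.finrank ℝ (Mo q (del G {w}) T) := by
  have h1 := rk (Mo q (del G {w}) T) (rw' q w (nb G w))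
  rw [del_inf_ker] at h1
  have hnw : w ∉ nb G w := by simp [nb]
  have h2 : (Mo q (del G {w}) T).map (rw' q w (nb G w)) = ⊤ := by
    rw [eq_top_iff]
    intro y _
    obtain ⟨x, hx⟩ := solve hq w (nb G w) hnw h (fun u => if hu : u ∈ nb G w then y ⟨u, hu⟩ else 0)
    refine ⟨Pi.single w x, ⟨?_, ?_⟩, ?_⟩
    · intro t ht
      exact Pi.single_eq_of_ne (by rintro rfl; exact hw ht) _
    · intro a b hab
      have ha : a ≠ w := by simpa using hab.2.1
      have hb : b ≠ w := by simpa using hab.2.2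
      rw [Pi.single_eq_of_ne ha, Pi.single_eq_of_ne hb, sub_self, dotProduct_zero]
    · ext u
      have hu : (u : Fin n) ≠ w := by
        have := u.2
        simp only [nb, Finset.mem_filter, Finset.mem_univ, true_and] at this
        exact this.ne'
      show (q w - q u) ⬝ᵥ ((Pi.single w x : Mot n d) w - (Pi.single w x : Mot n d) u) = y u
      rw [Pi.single_eq_same, Pi.single_eq_of_ne hu, sub_zero, hx u u.2]
      simp
  rw [h2, finrank_top] at h1
  simp only [Module.finrank_fintype_fun_eq_card, Fintype.card_coe] at h1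
  omega

/-- adding any vertex -/
theorem finrank_del_le (q : Mot n d) (G : SimpleGraph (Fin n)) (w : Fin n)
    (T : Finset (Fin n)) :
    Module.finrank ℝ (Mo q (del G {w}) T) ≤ Module.finrank ℝ (Mo q G T) + (nb G w).card := by
  have h1 := rk (Mo q (del G {w}) T) (rw' q w (nb G w))
  rw [del_inf_ker] at h1
  have h2 := Submodule.finrank_le ((Mo q (del G {w}) T).map (rw' q w (nb G w)))
  simp only [Module.finrank_fintype_fun_eq_card, Fintype.card_coe] at h2
  omega

/-- grounding one more vertex that is isolated -/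
theorem finrank_insert_isolated (q : Mot n d) (G : SimpleGraph (Fin n)) (w : Fin n)
    (h : nb G w = ∅) (T : Finset (Fin n)) (hw : w ∉ T) :
    Module.finrank ℝ (Mo q G (insert w T)) + d = Module.finrank ℝ (Mo q G T) := by
  have hadj : ∀ u, ¬ G.Adj w u := fun u hu => by
    have : u ∈ nb G w := by simp [nb, hu]
    rw [h] at this
    simp at this
  have h1 := rk (Mo q G T) (LinearMap.proj (R := ℝ) (φ := fun _ : Fin n => Fin d → ℝ) w)
  have h2 : (Mo q G T).map (LinearMap.proj (R := ℝ) (φ := fun _ : Fin n => Fin d → ℝ) w) = ⊤ := by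
    rw [eq_top_iff]
    intro x _
    refine ⟨Pi.single w x, ⟨?_, ?_⟩, by simp⟩
    · intro t ht
      exact Pi.single_eq_of_ne (by rintro rfl; exact hw ht) _
    · intro a b hab
      have ha : a ≠ w := by rintro rfl; exact hadj _ hab
      have hb : b ≠ w := by rintro rfl; exact hadj _ hab.symm
      rw [Pi.single_eq_of_ne ha, Pi.single_eq_of_ne hb, sub_self, dotProduct_zero]
  have h3 : Mo q G T ⊓ LinearMap.ker
      (LinearMap.proj (R := ℝ) (φ := fun _ : Fin n => Fin d → ℝ) w) = Mo q G (insert w T) := by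
    ext m
    rw [Submodule.mem_inf, LinearMap.mem_ker, LinearMap.proj_apply]
    constructor
    · rintro ⟨h1, h2⟩
      refine ⟨fun t ht => ?_, h1.2⟩
      rcases Finset.mem_insert.mp ht with rfl | ht
      · exact h2
      · exact h1.1 t ht
    · rintro ⟨h1, h2⟩
      exact ⟨⟨fun t ht => h1 t (Finset.mem_insert_of_mem ht), h2⟩,
        h1 w (Finset.mem_insert_self _ _)⟩
  rw [h2, h3, finrank_top] at h1
  simp only [Module.finrank_fintype_fun_eq_card, Fintype.card_fin] at h1
  omega

namespace GoodAux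

theorem finrank_Mo_bot (q : Mot n d) (T : Finset (Fin n)) :
    Module.finrank ℝ (Mo q (⊥ : SimpleGraph (Fin n)) T) = d * Tᶜ.card := by
  have key : Module.finrank ℝ (Mo q (⊥ : SimpleGraph (Fin n)) T) + d * T.card = d * n := by
    induction T using Finset.induction_on with
    | empty =>
      have : Mo q (⊥ : SimpleGraph (Fin n)) ∅ = ⊤ := by
        rw [eq_top_iff]
        intro m _
        exact ⟨by simp, by simp⟩
      rw [this, finrank_top]
      simp [Mot, Module.finrank_pi_fintype, mul_comm]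
    | insert w T hw ih =>
      have := finrank_insert_isolated q ⊥ w (by simp [nb]) T hw
      rw [Finset.card_insert_of_notMem hw]
      linarith
  have h2 : T.card + Tᶜ.card = n := by rw [Finset.card_add_card_compl]; simp
  nlinarith

/-- the edges that are not inside `T`, each with one orientation -/
noncomputable def EE (G : SimpleGraph (Fin n)) (T : Finset (Fin n)) : Finset (Fin n × Fin n) :=
  univ.filter (fun e => e.1 < e.2 ∧ G.Adj e.1 e.2 ∧ ¬ (e.1 ∈ T ∧ e.2 ∈ T))

theorem card_EE (G : SimpleGraph (Fin n)) (T : Finset (Fin n)) :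
    2 * (EE G T).card + eo G T = eo G univ := by
  set E' : Finset (Fin n × Fin n) :=
    univ.filter (fun e => e.2 < e.1 ∧ G.Adj e.1 e.2 ∧ ¬ (e.1 ∈ T ∧ e.2 ∈ T)) with hE'
  have h1 : E'.card = (EE G T).card := by
    refine Finset.card_bij' (fun e _ => e.swap) (fun e _ => e.swap) ?_ ?_ ?_ ?_
    · intro e he
      simp only [hE', Finset.mem_filter, Finset.mem_univ, true_and] at he
      simp only [EE, Finset.mem_filter, Finset.mem_univ, true_and, Prod.fst_swap, Prod.snd_swap]
      exact ⟨he.1, he.2.1.symm, fun h => he.2.2 h.symm⟩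
    · intro e he
      simp only [EE, Finset.mem_filter, Finset.mem_univ, true_and] at he
      simp only [hE', Finset.mem_filter, Finset.mem_univ, true_and, Prod.fst_swap, Prod.snd_swap]
      exact ⟨he.1, he.2.1.symm, fun h => he.2.2 h.symm⟩
    · intro e _; rfl
    · intro e _; rfl
  have h2 : eo G univ = ((EE G T ∪ E') ∪ ((T ×ˢ T).filter (fun e => G.Adj e.1 e.2))).card := by
    rw [eo]
    congr 1
    ext ⟨a, b⟩
    simp only [EE, hE', Finset.mem_filter, Finset.mem_product, Finset.mem_univ, true_and,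
      Finset.mem_union]
    constructor
    · intro h
      by_cases hT : a ∈ T ∧ b ∈ T
      · exact Or.inr ⟨hT, h⟩
      · rcases lt_or_gt_of_ne h.ne with h' | h'
        · exact Or.inl (Or.inl ⟨h', h, hT⟩)
        · exact Or.inl (Or.inr ⟨h', h, hT⟩)
    · rintro ((h | h) | h)
      · exact h.2.1
      · exact h.2.1
      · exact h.2
  rw [h2, Finset.card_union_of_disjoint, Finset.card_union_of_disjoint, h1, eo]
  · ring
  · rw [Finset.disjoint_left]
    intro e he he'
    simp only [EE, hE', Finset.mem_filter, Finset.mem_univ, true_and] at he he'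
    exact absurd he.1 (not_lt.mpr he'.1.le)
  · rw [Finset.disjoint_left]
    intro e he he'
    simp only [EE, hE', Finset.mem_filter, Finset.mem_univ, true_and, Finset.mem_union,
      Finset.mem_product] at he he'
    rcases he with he | he
    · exact he.2.2 he'.1
    · exact he.2.2 he'.1

/-- residuals of a set of constraints -/
noncomputable def rE (q : Mot n d) (E : Finset (Fin n × Fin n)) : Mot n d →ₗ[ℝ] (E → ℝ) where
  toFun m e := (q e.1.1 - q e.1.2) ⬝ᵥ (m e.1.1 - m e.1.2)
  map_add' a b := by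
    ext u
    simp only [Pi.add_apply]
    rw [← dotProduct_add]
    congr 1
    abel
  map_smul' c a := by
    ext u
    simp only [Pi.smul_apply, RingHom.id_apply]
    rw [← smul_sub, dotProduct_smul]

theorem bot_inf_ker (q : Mot n d) (G : SimpleGraph (Fin n)) (T : Finset (Fin n)) :
    Mo q (⊥ : SimpleGraph (Fin n)) T ⊓ LinearMap.ker (rE q (EE G T)) = Mo q G T := by
  ext m
  rw [Submodule.mem_inf, LinearMap.mem_ker]
  constructor
  · rintro ⟨h1, h2⟩
    have h3 : ∀ a b, a < b → G.Adj a b → ¬ (a ∈ T ∧ b ∈ T) → (q a - q b) ⬝ᵥ (m a - m b) = 0 :=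
      fun a b hlt hab hT => congrFun h2 ⟨(a, b), by simp [EE, hlt, hab]; tauto⟩
    refine ⟨h1.1, fun a b hab => ?_⟩
    by_cases hT : a ∈ T ∧ b ∈ T
    · rw [h1.1 a hT.1, h1.1 b hT.2, sub_self, dotProduct_zero]
    rcases lt_or_gt_of_ne hab.ne with h' | h'
    · exact h3 a b h' hab hT
    · have := h3 b a h' hab.symm (fun h => hT h.symm)
      rwa [← neg_sub (q a), ← neg_sub (m a), neg_dotProduct_neg] at this
  · rintro ⟨h1, h2⟩
    refine ⟨⟨h1, fun a b hab => hab.elim⟩, ?_⟩
    ext e
    have := e.2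
    simp only [EE, Finset.mem_filter, Finset.mem_univ, true_and] at this
    exact h2 _ _ this.2.1

theorem rk_Mo (q : Mot n d) (G : SimpleGraph (Fin n)) (T : Finset (Fin n)) :
    Module.finrank ℝ ((Mo q (⊥ : SimpleGraph (Fin n)) T).map (rE q (EE G T))) +
      Module.finrank ℝ (Mo q G T) = d * Tᶜ.card := by
  have h1 := rk (Mo q (⊥ : SimpleGraph (Fin n)) T) (rE q (EE G T))
  rwa [bot_inf_ker, finrank_Mo_bot] at h1

end GoodAux

/-- rank is at most the number of edges -/
theorem finrank_Mo_ge (q : Mot n d) (G : SimpleGraph (Fin n)) (T : Finset (Fin n)) :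
    2 * (d * Tᶜ.card) ≤ 2 * Module.finrank ℝ (Mo q G T) + (eo G univ - eo G T) := by
  have h1 := rk_Mo q G T
  have h2 := Submodule.finrank_le ((Mo q (⊥ : SimpleGraph (Fin n)) T).map (rE q (EE G T)))
  simp only [Module.finrank_fintype_fun_eq_card, Fintype.card_coe] at h2
  have h3 := card_EE G T
  omega

/-- independent edges extend motions: if the edges that meet `W` (inside `W ∪ K`) impose
independent conditions on the velocities of `W`, then every motion of `G[K]` extends to `G[W ∪ K]` -/
theorem extW (q : Mot n d) (G : SimpleGraph (Fin n)) (W K : Finset (Fin n)) (hWK : Disjoint W K)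
    (h : 2 * Module.finrank ℝ (Mo q (ind G (W ∪ K)) Wᶜ) +
      (eo G W + 2 * ∑ w ∈ W, (nb G w ∩ K).card) = 2 * (d * W.card))
    (m : Mot n d) (hm : m ∈ Mo q (ind G K) ∅) :
    ∃ m' ∈ Mo q (ind G (W ∪ K)) ∅, ∀ v ∈ K, m' v = m v := by
  have hKW : ∀ v ∈ K, v ∉ W := fun v hv hw => (Finset.disjoint_left.mp hWK) hw hv
  have h1 := rk_Mo q (ind G (W ∪ K)) Wᶜ
  have h3 := card_EE (ind G (W ∪ K)) Wᶜ
  have h4 : eo (ind G (W ∪ K)) univ = eo (ind G (W ∪ K)) Wᶜ +
      (eo G W + 2 * ∑ w ∈ W, (nb G w ∩ K).card) := by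
    -- split the ordered pairs
    have e1 : eo (ind G (W ∪ K)) univ =
        (((Wᶜ ×ˢ Wᶜ).filter (fun e => (ind G (W ∪ K)).Adj e.1 e.2)) ∪
        ((W ×ˢ W).filter (fun e => G.Adj e.1 e.2)) ∪
        ((W ×ˢ K).filter (fun e => G.Adj e.1 e.2)) ∪
        ((K ×ˢ W).filter (fun e => G.Adj e.1 e.2))).card := by
      rw [eo]
      congr 1
      ext ⟨a, b⟩
      have := hKW a
      have := hKW b
      simp only [ind, Finset.mem_filter, Finset.mem_product, Finset.mem_univ, true_and,
        Finset.mem_union, Finset.mem_compl]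
      tauto
    have e2 : ((W ×ˢ K).filter (fun e => G.Adj e.1 e.2)).card = ∑ w ∈ W, (nb G w ∩ K).card := by
      rw [Finset.card_filter, Finset.sum_product]
      apply Finset.sum_congr rfl
      intro w _
      rw [← Finset.card_filter]
      congr 1
      ext u
      simp only [nb, Finset.mem_filter, Finset.mem_inter, Finset.mem_univ, true_and]
      tauto
    have e3 : ((K ×ˢ W).filter (fun e => G.Adj e.1 e.2)).card =
        ((W ×ˢ K).filter (fun e => G.Adj e.1 e.2)).card := by
      refine Finset.card_bij' (fun e _ => e.swap) (fun e _ => e.swap) ?_ ?_ ?_ ?_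
      · intro e he
        simp only [Finset.mem_filter, Finset.mem_product, Prod.fst_swap, Prod.snd_swap] at he ⊢
        exact ⟨he.1.symm, he.2.symm⟩
      · intro e he
        simp only [Finset.mem_filter, Finset.mem_product, Prod.fst_swap, Prod.snd_swap] at he ⊢
        exact ⟨he.1.symm, he.2.symm⟩
      · intro e _; rfl
      · intro e _; rfl
    rw [e1, Finset.card_union_of_disjoint, Finset.card_union_of_disjoint,
      Finset.card_union_of_disjoint, e3, e2, eo, eo]
    · ring
    · rw [Finset.disjoint_left]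
      intro e he he'
      simp only [Finset.mem_filter, Finset.mem_product, Finset.mem_compl] at he he'
      tauto
    · rw [Finset.disjoint_left]
      intro e he he'
      have := hKW e.1
      have := hKW e.2
      simp only [Finset.mem_filter, Finset.mem_product, Finset.mem_compl, Finset.mem_union]
        at he he'
      tauto
    · rw [Finset.disjoint_left]
      intro e he he'
      have := hKW e.1
      have := hKW e.2
      simp only [Finset.mem_filter, Finset.mem_product, Finset.mem_compl, Finset.mem_union]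
        at he he'
      tauto
  set E := EE (ind G (W ∪ K)) Wᶜ with hE
  have h5 : (Mo q (⊥ : SimpleGraph (Fin n)) Wᶜ).map (rE q E) = ⊤ := by
    apply Submodule.eq_top_of_finrank_eq
    simp only [Module.finrank_fintype_fun_eq_card, Fintype.card_coe]
    rw [compl_compl] at h1
    omega
  set m0 : Mot n d := fun v => if v ∈ W then 0 else m v with hm0
  have h6 : (fun e : E => - ((q e.1.1 - q e.1.2) ⬝ᵥ (m0 e.1.1 - m0 e.1.2))) ∈
      (Mo q (⊥ : SimpleGraph (Fin n)) Wᶜ).map (rE q E) := by rw [h5]; trivial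
  obtain ⟨m1, hm1, hm1'⟩ := h6
  have h7 : ∀ e ∈ E, (q e.1 - q e.2) ⬝ᵥ (m1 e.1 - m1 e.2) =
      - ((q e.1 - q e.2) ⬝ᵥ (m0 e.1 - m0 e.2)) := fun e he => congrFun hm1' ⟨e, he⟩
  have h8 : ∀ a b, (ind G (W ∪ K)).Adj a b → a < b →
      (q a - q b) ⬝ᵥ ((m0 + m1) a - (m0 + m1) b) = 0 := by
    intro a b hab hlt
    have e0 : (m0 + m1) a - (m0 + m1) b = (m0 a - m0 b) + (m1 a - m1 b) := by
      simp only [Pi.add_apply]; abel
    rw [e0, dotProduct_add]
    by_cases hW : a ∈ Wᶜ ∧ b ∈ Wᶜ
    · rw [hm1.1 a hW.1, hm1.1 b hW.2, sub_self, dotProduct_zero, add_zero]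
      have ha : a ∉ W := by simpa using hW.1
      have hb : b ∉ W := by simpa using hW.2
      simp only [hm0, ha, hb, if_false]
      apply hm.2
      obtain ⟨h1, h2, h3⟩ := hab
      simp only [Finset.mem_union] at h2 h3
      exact ⟨h1, h2.resolve_left ha, h3.resolve_left hb⟩
    · rw [h7 (a, b) (by
        simp only [hE, EE, Finset.mem_filter, Finset.mem_univ, true_and]
        exact ⟨hlt, hab, hW⟩)]
      ring
  refine ⟨m0 + m1, ⟨by simp, ?_⟩, ?_⟩
  · intro a b hab
    rcases lt_or_gt_of_ne hab.ne with h' | h'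
    · exact h8 a b hab h'
    · have := h8 b a hab.symm h'
      rwa [← neg_sub (q a), ← neg_sub ((m0 + m1) a), neg_dotProduct_neg] at this
  · intro v hv
    have := hm1.1 v (by simpa using hKW v hv)
    simp only [Pi.add_apply, this, add_zero, hm0, hKW v hv, if_false]

end Pool.Agent.GRI
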