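import Pool.Agent.Lib_MP_264ef2_ins.Base

set_option autoImplicit false

namespace Pool.Agent.GRI

open Finset
open scoped Classical

namespace Link

variable {n d : ℕ}

/-- the rigidity matrix of the frozen statement -/
noncomputable def rmat (q : Mot n d) (G : SimpleGraph (Fin n)) (S : Finset (Fin n)) :
    Matrix (Fin n × Fin n) (Fin n × Fin d) ℝ :=
  Matrix.of (fun (e : Fin n × Fin n) (x : Fin n × Fin d) =>
                if e.1 ∈ S ∧ e.2 ∈ S ∧ G.Adj e.1 e.2 then
                  (if x.1 = e.1 then q e.1 x.2 - q e.2 x.2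
                   else if x.1 = e.2 then q e.2 x.2 - q e.1 x.2 else 0)
                else 0)

theorem rmat_mulVec (q : Mot n d) (G : SimpleGraph (Fin n)) (S : Finset (Fin n))
    (m : Fin n × Fin d → ℝ) (u w : Fin n) :
    (rmat q G S).mulVec m (u, w) =
      if u ∈ S ∧ w ∈ S ∧ G.Adj u w then
        (q u - q w) ⬝ᵥ ((fun i => m (u, i)) - fun i => m (w, i)) else 0 := by
  rw [Matrix.mulVec, dotProduct]
  simp only [rmat, Matrix.of_apply]
  split_ifs with h
  · have hne : u ≠ w := h.2.2.ne
    rw [Fintype.sum_prod_type]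
    have h1 : ∀ v : Fin n, (∑ i : Fin d, (if v = u then q u i - q w i
        else if v = w then q w i - q u i else 0) * m (v, i)) =
        (if v = u then ∑ i, (q u i - q w i) * m (u, i) else 0) +
        (if v = w then ∑ i, (q w i - q u i) * m (w, i) else 0) := by
      intro v
      by_cases hv : v = u
      · subst hv
        simp [hne]
      · by_cases hw : v = w
        · subst hw
          simp [hv]
        · simp [hv, hw]
    simp only [h1]
    rw [Finset.sum_add_distrib, Finset.sum_ite_eq' , Finset.sum_ite_eq']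
    simp only [mem_univ, if_true]
    rw [← Finset.sum_add_distrib, dotProduct]
    refine Finset.sum_congr rfl fun i _ => ?_
    simp only [Pi.sub_apply]
    ring
  · simp

theorem rank_add (q : Mot n d) (G : SimpleGraph (Fin n)) (S : Finset (Fin n)) :
    (rmat q G S).rank + Module.finrank ℝ (Mo q (ind G S) ∅) = d * n := by
  let e : (Fin n × Fin d → ℝ) ≃ₗ[ℝ] Mot n d := LinearEquiv.curry ℝ ℝ (Fin n) (Fin d)
  have h1 : (LinearMap.ker (rmat q G S).mulVecLin).map (e : (Fin n × Fin d → ℝ) →ₗ[ℝ] Mot n d)
      = Mo q (ind G S) ∅ := by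
    ext m
    constructor
    · rintro ⟨x, hx, rfl⟩
      refine ⟨by simp, fun u w h => ?_⟩
      have h2 : (rmat q G S).mulVec x (u, w) = 0 := by
        have := congrFun (LinearMap.mem_ker.mp hx) (u, w)
        simpa using this
      rw [rmat_mulVec, if_pos ⟨h.2.1, h.2.2, h.1⟩] at h2
      exact h2
    · intro hm
      refine ⟨e.symm m, ?_, by simp⟩
      rw [SetLike.mem_coe, LinearMap.mem_ker]
      ext ⟨u, w⟩
      rw [Matrix.mulVecLin_apply, rmat_mulVec]
      split_ifs with h
      · exact hm.2 u w ⟨h.2.2, h.1, h.2.1⟩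
      · rfl
  have h2 : Module.finrank ℝ (Mo q (ind G S) ∅) =
      Module.finrank ℝ (LinearMap.ker (rmat q G S).mulVecLin) := by
    rw [← h1]
    exact LinearEquiv.finrank_map_eq e _
  have h3 := LinearMap.finrank_range_add_finrank_ker (rmat q G S).mulVecLin
  rw [h2, Matrix.rank, h3, Module.finrank_fintype_fun_eq_card, Fintype.card_prod,
    Fintype.card_fin, Fintype.card_fin, mul_comm]

/-- velocities supported off `S` -/
theorem finrank_off (S : Finset (Fin n)) :
    Module.finrank ℝ (LinearMap.ker (PK (d := d) S)) = d * (n - S.card) := by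
  have h1 := LinearMap.finrank_range_add_finrank_ker (PK (n := n) (d := d) S)
  have h2 : Module.finrank ℝ (LinearMap.range (PK (n := n) (d := d) S)) = d * S.card := by
    have e : (LinearMap.range (PK (n := n) (d := d) S)) ≃ₗ[ℝ] (S → Fin d → ℝ) :=
      { toFun := fun m v => m.1 v
        map_add' := fun a b => rfl
        map_smul' := fun c a => rfl
        invFun := fun f => ⟨fun v => if h : v ∈ S then f ⟨v, h⟩ else 0,
          ⟨fun v => if h : v ∈ S then f ⟨v, h⟩ else 0, by
            ext v i
            by_cases hv : v ∈ S <;> simp [PK, hv]⟩⟩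
        left_inv := by
          rintro ⟨_, ⟨m, rfl⟩⟩
          ext v i
          by_cases hv : v ∈ S <;> simp [PK, hv]
        right_inv := by
          intro f
          ext v i
          simp }
    rw [e.finrank_eq, Module.finrank_pi_fintype]
    simp [mul_comm]
  have h3 : Module.finrank ℝ (Mot n d) = d * n := by
    rw [Module.finrank_pi_fintype]; simp [mul_comm]
  rw [h2, h3] at h1
  rw [Nat.mul_sub]
  omega

theorem finrank_Mo_eq (q : Mot n d) (G : SimpleGraph (Fin n)) (S : Finset (Fin n)) :
    Module.finrank ℝ (Mo q (ind G S) ∅) = rd q (ind G S) S + d * (n - S.card) := by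
  have hker : LinearMap.ker (PK (d := d) S) ≤ Mo q (ind G S) ∅ := by
    intro m hm
    have h0 : ∀ v ∈ S, m v = 0 := by
      intro v hv
      have := congrFun (LinearMap.mem_ker.mp hm) v
      simpa [PK, hv] using this
    refine ⟨by simp, fun u w h => ?_⟩
    rw [h0 u h.2.1, h0 w h.2.2]
    simp
  have h1 := LinearMap.finrank_range_add_finrank_ker
    ((PK (d := d) S).domRestrict (Mo q (ind G S) ∅))
  have h2 : LinearMap.range ((PK (d := d) S).domRestrict (Mo q (ind G S) ∅)) =
      (Mo q (ind G S) ∅).map (PK S) := by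
    rw [LinearMap.range_domRestrict]
  have h3 : Module.finrank ℝ (LinearMap.ker ((PK (d := d) S).domRestrict (Mo q (ind G S) ∅))) =
      Module.finrank ℝ (LinearMap.ker (PK (n := n) (d := d) S)) := by
    rw [LinearMap.ker_domRestrict]
    exact (Submodule.comapSubtypeEquivOfLe hker).finrank_eq
  rw [h2, h3, finrank_off] at h1
  exact h1.symm

end Link

open Link

/-- the frozen predicate for sets with more than `d` vertices -/
theorem rigF_iff {n d : ℕ} {q : Mot n d} (hq : Good q) (G : SimpleGraph (Fin n))
    (S : Finset (Fin n)) (hS : d + 1 ≤ S.card) : rigF d n G S ↔ Rg q (ind G S) S := by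
  have hD : d * (d + 1) / 2 ≤ d * S.card :=
    (Nat.div_le_self _ _).trans (Nat.mul_le_mul_left d hS)
  have hn : S.card ≤ n := by simpa using S.card_le_univ
  have hdn : d * (n - S.card) + d * S.card = d * n := by
    rw [← Nat.mul_add]; congr 1; omega
  have key : ∀ q' : Mot n d, (rmat q' G S).rank + rd q' (ind G S) S = d * S.card := by
    intro q'
    have h1 := rank_add q' G S
    have h2 := finrank_Mo_eq q' G S
    omega
  constructor
  · rintro (⟨h, -⟩ | ⟨-, q', h⟩)
    · omega
    · have h0 : d * S.card - d * (d + 1) / 2 ≤ (rmat q' G S).rank := h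
      have h1 := key q'
      have h2 := finrank_Mo_eq q' G S
      have h3 := finrank_Mo_eq q G S
      have h4 := hq (ind G S) ∅ q'
      unfold Rg
      omega
  · intro h
    refine Or.inr ⟨hS, q, ?_⟩
    have h1 := key q
    unfold Rg at h
    show d * S.card - d * (d + 1) / 2 ≤ (rmat q G S).rank
    omega

end Pool.Agent.GRI
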