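import Pool.Agent.Lib_MP_264ef2_ins.Good

set_option autoImplicit false

namespace Pool.Agent.GRI

open Finset
open scoped Classical

namespace RSys

variable {n d : ℕ}

theorem del_le (G : SimpleGraph (Fin n)) (U : Finset (Fin n)) : del G U ≤ G :=
  fun _ _ h => h.1

theorem del_adj {G : SimpleGraph (Fin n)} {v a b : Fin n} (h : G.Adj a b) (ha : a ≠ v)
    (hb : b ≠ v) : (del G {v}).Adj a b := by
  refine ⟨h, ?_, ?_⟩ <;> simp [ha, hb]

theorem nb_del (G : SimpleGraph (Fin n)) (v : Fin n) : nb (del G {v}) v = ∅ := by
  ext u
  simp only [nb, mem_filter, mem_univ, true_and, Finset.notMem_empty, iff_false]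
  intro h
  have := h.2.1
  simp at this

theorem kk_mono {q : Mot n d} {G G' : SimpleGraph (Fin n)} {T T' : Finset (Fin n)} {w : Fin n}
    (h : ∀ m ∈ Mo q G T, ∃ m' ∈ Mo q G' T', m' w = m w) : kk q G T w ≤ kk q G' T' w := by
  unfold kk
  apply Submodule.finrank_mono
  rintro x ⟨m, hm, rfl⟩
  obtain ⟨m', hm', h'⟩ := h m hm
  exact ⟨m', hm', h'⟩

theorem exists_generic_point {ι : Type*} (s : Finset ι) (a : ι → Fin d → ℝ) (b : ι → ℝ)
    (ha : ∀ i ∈ s, a i ≠ 0) : ∃ z : Fin d → ℝ, ∀ i ∈ s, z ⬝ᵥ a i ≠ b i := by
  induction s using Finset.induction_on with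
  | empty => exact ⟨0, by simp⟩
  | insert i s hi ih =>
    obtain ⟨z, hz⟩ := ih (fun j hj => ha j (mem_insert_of_mem hj))
    have hai : a i ≠ 0 := ha i (mem_insert_self _ _)
    have hpos : a i ⬝ᵥ a i ≠ 0 := by
      intro h
      exact hai (dotProduct_self_eq_zero.1 h)
    -- bad values of t
    have hfin : ∀ j ∈ insert i s, {t : ℝ | (z + t • a i) ⬝ᵥ a j = b j}.Finite := by
      intro j hj
      apply Set.Subsingleton.finite
      intro t ht t' ht'
      simp only [Set.mem_setOf_eq, add_dotProduct, smul_dotProduct, smul_eq_mul] at ht ht'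
      have h1 : (t - t') * (a i ⬝ᵥ a j) = 0 := by linear_combination ht - ht'
      rcases mul_eq_zero.1 h1 with h2 | h2
      · linarith
      · exfalso
        rcases mem_insert.1 hj with rfl | hj'
        · exact hpos h2
        · rw [h2, mul_zero, add_zero] at ht
          exact hz j hj' ht
    have hU : (⋃ j ∈ insert i s, {t : ℝ | (z + t • a i) ⬝ᵥ a j = b j}).Finite :=
      Set.Finite.biUnion (Finset.finite_toSet _) hfin
    obtain ⟨t, ht⟩ := hU.exists_notMem
    refine ⟨z + t • a i, fun j hj h => ht ?_⟩
    simp only [Set.mem_iUnion]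
    exact ⟨j, hj, h⟩

theorem star_mpr {q : Mot n d} (hq : Good q) (G : SimpleGraph (Fin n)) (T : Finset (Fin n))
    (v : Fin n)
    (h : d ≤ ((nb G v).filter (fun u => kk q (del G {v}) T u = 0)).card) :
    kk q G T v = 0 := by
  rw [kk_eq_zero]
  intro m hm
  refine good_zero hq v ((nb G v).filter (fun u => kk q (del G {v}) T u = 0)) ?_ h (m v) ?_
  · simp [nb]
  · intro u hu
    rw [mem_filter] at hu
    have h1 : m u = 0 := kk_eq_zero.1 hu.2 m (Mo_anti (del_le G {v}) (le_refl T) hm)
    have hadj : G.Adj v u := by simpa [nb] using hu.1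
    have h2 := hm.2 v u hadj
    rwa [h1, sub_zero] at h2

theorem star_mp {q : Mot n d} (hq : Good q) (G : SimpleGraph (Fin n)) (T : Finset (Fin n))
    (v : Fin n) (hv : v ∉ T)
    (hyp : ∀ u ∈ nb G v, kk q (del G {v}) (T ∪ (nb G v).erase u) u = kk q (del G {v}) T u)
    (h0 : kk q G T v = 0) :
    d ≤ ((nb G v).filter (fun u => kk q (del G {v}) T u = 0)).card := by
  set H := del G {v} with hH
  set N := nb G v with hN
  set N' := N.filter (fun u => ¬ kk q H T u = 0) with hN'
  have hcard : (N.filter (fun u => kk q H T u = 0)).card + N'.card = N.card :=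
    Finset.card_filter_add_card_filter_not _
  have hvN : v ∉ N := by simp [hN, nb]
  -- witnesses
  have hw : ∀ u : Fin n, u ∈ N' → ∃ m ∈ Mo q H (insert v T), (∀ u' ∈ N, u' ≠ u → m u' = 0) ∧
      m u ≠ 0 := by
    intro u hu
    rw [hN', mem_filter] at hu
    have h1 : ¬ kk q H (T ∪ N.erase u) u = 0 := by rw [hyp u hu.1]; exact hu.2
    rw [kk_eq_zero] at h1
    push Not at h1
    obtain ⟨m, hm, hmu⟩ := h1
    have huv : u ≠ v := by rintro rfl; exact hvN hu.1
    refine ⟨Function.update m v 0, ⟨?_, ?_⟩, ?_, ?_⟩
    · intro t ht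
      rcases mem_insert.1 ht with rfl | ht
      · simp
      · by_cases htv : t = v
        · subst htv; simp
        · rw [Function.update_of_ne htv]
          exact hm.1 t (mem_union_left _ ht)
    · intro a b hab
      have ha : a ≠ v := by
        rintro rfl
        have := hab.2.1
        simp at this
      have hb : b ≠ v := by
        rintro rfl
        have := hab.2.2
        simp at this
      rw [Function.update_of_ne ha, Function.update_of_ne hb]
      exact hm.2 a b hab
    · intro u' hu' hne
      have hu'v : u' ≠ v := by rintro rfl; exact hvN hu'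
      rw [Function.update_of_ne hu'v]
      exact hm.1 u' (mem_union_right _ (mem_erase.2 ⟨hne, hu'⟩))
    · rw [Function.update_of_ne huv]
      exact hmu
  choose! w hwM hw0 hwne using hw
  obtain ⟨z, hz⟩ := exists_generic_point N' (fun u => w u u) (fun u => q u ⬝ᵥ w u u)
    (fun u hu => hwne u hu)
  set q' : Mot n d := Function.update q v z with hq'
  have hqv : q' v = z := by simp [hq']
  have hqu : ∀ u, u ≠ v → q' u = q u := fun u hu => by simp [hq', hu]
  -- the evaluation map
  let ev : Mo q H (insert v T) →ₗ[ℝ] (N' → ℝ) :=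
    { toFun := fun m u => (z - q u) ⬝ᵥ (m : Mot n d) u
      map_add' := by
        intro a b; ext u
        simp [dotProduct_add]
      map_smul' := by
        intro c a; ext u
        simp [dotProduct_smul] }
  have hsurj : Function.Surjective ev := by
    rw [← LinearMap.range_eq_top, eq_top_iff]
    rintro f -
    have hf : f = ∑ u : N', (f u / ((z - q u) ⬝ᵥ w u u)) •
        ev ⟨w u, hwM u u.2⟩ := by
      ext x
      simp only [Finset.sum_apply, Pi.smul_apply, smul_eq_mul]
      rw [Finset.sum_eq_single x]
      · have hne : (z - q (x : Fin n)) ⬝ᵥ w x x ≠ 0 := by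
          rw [sub_dotProduct]
          exact sub_ne_zero.2 (hz x x.2)
        change f x = f x / ((z - q (x : Fin n)) ⬝ᵥ w x x) * ((z - q (x : Fin n)) ⬝ᵥ w x x)
        field_simp
      · intro u _ hux
        have : (w u) (x : Fin n) = 0 := by
          apply hw0 u u.2 x
          · exact (mem_filter.1 x.2).1
          · intro h; exact hux (Subtype.ext h).symm
        change _ * ((z - q (x : Fin n)) ⬝ᵥ (w u) (x : Fin n)) = 0
        rw [this]; simp
      · intro h; exact absurd (mem_univ _) h
    rw [hf]
    exact Submodule.sum_mem _ (fun u _ => Submodule.smul_mem _ _ (LinearMap.mem_range_self _ _))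
  have hker : Module.finrank ℝ (LinearMap.ker ev) + N'.card
      = Module.finrank ℝ (Mo q H (insert v T)) := by
    have h1 := LinearMap.finrank_range_add_finrank_ker ev
    rw [LinearMap.range_eq_top.2 hsurj, finrank_top, Module.finrank_fintype_fun_eq_card,
      Fintype.card_coe] at h1
    omega
  have hle : Module.finrank ℝ (Mo q' G (insert v T)) ≤ Module.finrank ℝ (LinearMap.ker ev) := by
    have hsub : Mo q' G (insert v T) ≤ (LinearMap.ker ev).map (Submodule.subtype _) := by
      intro m hm
      have hmM : m ∈ Mo q H (insert v T) := by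
        refine ⟨hm.1, fun a b hab => ?_⟩
        have ha : a ≠ v := by
          rintro rfl
          have := hab.2.1
          simp at this
        have hb : b ≠ v := by
          rintro rfl
          have := hab.2.2
          simp at this
        have := hm.2 a b hab.1
        rwa [hqu a ha, hqu b hb] at this
      refine ⟨⟨m, hmM⟩, ?_, rfl⟩
      simp only [SetLike.mem_coe, LinearMap.mem_ker]
      ext u
      have huN : (u : Fin n) ∈ N := (mem_filter.1 u.2).1
      have hadj : G.Adj v u := by simpa [hN, nb] using huN
      have huv : (u : Fin n) ≠ v := by intro h; exact hvN (h ▸ huN)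
      have h1 := hm.2 v u hadj
      rw [hqv, hqu u huv, hm.1 v (mem_insert_self _ _), zero_sub, dotProduct_neg, neg_eq_zero] at h1
      exact h1
    refine (Submodule.finrank_mono hsub).trans ?_
    exact Submodule.finrank_map_le _ _
  have hgood := hq G (insert v T) q'
  have h1 : Mo q G T = Mo q G (insert v T) := by
    apply le_antisymm
    · intro m hm
      refine ⟨fun t ht => ?_, hm.2⟩
      rcases mem_insert.1 ht with rfl | ht
      · exact kk_eq_zero.1 h0 m hm
      · exact hm.1 t ht
    · exact Mo_anti (le_refl G) (subset_insert v T)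
  have h2 := finrank_insert_isolated q H v (nb_del G v) T hv
  have h3 := finrank_del_le q G v T
  rw [h1] at h3
  rw [← hH, ← hN] at h3
  omega

end RSys

/-- grounded rigidity of a generic framework is a system -/
theorem rigSys {n d : ℕ} {q : Mot n d} (hq : Good q) :
    ∃ S : Sys n d, ∀ G T, S.Phi G T = PhiR q G T := by
  refine ⟨{ k := kk q, le := ?_, anti := ?_, up := ?_, down := ?_, star := ?_ }, fun G T => rfl⟩
  · intro G T w
    have := Submodule.finrank_le
      ((Mo q G T).map (LinearMap.proj (R := ℝ) (φ := fun _ : Fin n => Fin d → ℝ) w))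
    simpa [kk] using this
  · intro G T T' w h
    exact RSys.kk_mono fun m hm => ⟨m, Mo_anti (le_refl G) h hm, rfl⟩
  · intro G T v w _
    exact RSys.kk_mono fun m hm => ⟨m, Mo_anti (RSys.del_le G {v}) (le_refl T) hm, rfl⟩
  · intro G T v w hwv
    refine RSys.kk_mono fun m hm => ⟨Function.update m v 0, ⟨?_, ?_⟩, ?_⟩
    · intro t ht
      by_cases htv : t = v
      · subst htv; simp
      · rw [Function.update_of_ne htv]
        exact hm.1 t (mem_union_left _ ht)
    · intro a b hab
      by_cases ha : a = v
      · subst ha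
        have hb : b ≠ a := hab.ne'
        rw [Function.update_self, Function.update_of_ne hb,
          hm.1 b (mem_union_right _ (by simpa [nb] using hab))]
        simp
      · by_cases hb : b = v
        · subst hb
          rw [Function.update_self, Function.update_of_ne ha,
            hm.1 a (mem_union_right _ (by simpa [nb] using hab.symm))]
          simp
        · rw [Function.update_of_ne ha, Function.update_of_ne hb]
          exact hm.2 a b (RSys.del_adj hab ha hb)
    · rw [Function.update_of_ne hwv]
  · intro G T v hv hyp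
    exact ⟨RSys.star_mp hq G T v hv hyp, RSys.star_mpr hq G T v⟩

end Pool.Agent.GRI
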