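import Pool.Agent.Lib_MP_264ef2_ins.Det
import Pool.Agent.Lib_MP_264ef2_ins.Fix
import Pool.Agent.Lib_MP_264ef2_ins.Ana
import Pool.Agent.Lib_MP_264ef2_ins.RSys
import Pool.Agent.Lib_MP_264ef2_ins.Null
import Pool.Agent.Lib_MP_264ef2_ins.Unground
import Pool.Agent.Lib_MP_264ef2_ins.FM

set_option autoImplicit false

/-! Probabilistic assembly. -/

namespace Pool.Agent.GRI

open Finset
open scoped Classical

/-- small probability of a bad event -/
def Small (c : ℝ) (B : (n : ℕ) → SimpleGraph (Fin n) → Prop) : Prop :=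
  ∀ η > 0, ∃ N : ℕ, ∀ n : ℕ, N ≤ n → Pr (c / n) (fun A : Finset (Edg n) => B n (gr A)) ≤ η

/-- double expectation -/
noncomputable def EE (c : ℝ) (n i : ℕ) (f : SimpleGraph (Fin n) → Finset (Fin n) → ℝ) : ℝ :=
  Ex (c / n) (fun A : Finset (Edg n) => Ex (th (c / n) i) (fun T : Finset (Fin n) => f (gr A) T))

theorem exists_nat_gt_of (c : ℝ) : ∃ N : ℕ, ∀ n : ℕ, N ≤ n → c ≤ n ∧ 1 ≤ n := by
  obtain ⟨N, hN⟩ := exists_nat_ge c
  refine ⟨N + 1, fun n hn => ⟨?_, by omega⟩⟩
  have : (N : ℝ) ≤ n := by exact_mod_cast (by omega : N ≤ n)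
  linarith

theorem p_bounds {c : ℝ} {n : ℕ} (hc : 0 < c) (h : c ≤ n ∧ 1 ≤ n) : 0 ≤ c / n ∧ c / n ≤ 1 := by
  have hn : (0:ℝ) < n := by exact_mod_cast h.2
  exact ⟨by positivity, by rw [div_le_one hn]; exact h.1⟩

theorem th_bounds {p : ℝ} (h0 : 0 ≤ p) (h1 : p ≤ 1) (i : ℕ) : 0 ≤ th p i ∧ th p i ≤ 1 := by
  have ha : 0 ≤ (1 - p) ^ i := pow_nonneg (by linarith) i
  have hb : (1 - p) ^ i ≤ 1 := pow_le_one₀ (by linarith) (by linarith)
  unfold th
  constructor <;> linarith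

theorem th_mono {p p' : ℝ} (h0 : 0 ≤ p) (hp : p ≤ p') (h1 : p' ≤ 1) {i i' : ℕ} (hi : i ≤ i') :
    th p i ≤ th p' i' := by
  have ha : (1 - p') ^ i' ≤ (1 - p') ^ i := pow_le_pow_of_le_one (by linarith) (by linarith) hi
  have hb : (1 - p') ^ i ≤ (1 - p) ^ i := pow_le_pow_left₀ (by linarith) (by linarith) i
  unfold th
  linarith

theorem EE_mono {c : ℝ} {n i : ℕ} (hc : 0 < c) (h : c ≤ n ∧ 1 ≤ n)
    {f g : SimpleGraph (Fin n) → Finset (Fin n) → ℝ} (hfg : ∀ G T, f G T ≤ g G T) :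
    EE c n i f ≤ EE c n i g := by
  obtain ⟨h0, h1⟩ := p_bounds hc h
  obtain ⟨t0, t1⟩ := th_bounds h0 h1 i
  exact Ex_mono h0 h1 (fun A => Ex_mono t0 t1 (fun T => hfg _ _))

theorem EE_add (c : ℝ) (n i : ℕ) (f g : SimpleGraph (Fin n) → Finset (Fin n) → ℝ) :
    EE c n i (fun G T => f G T + g G T) = EE c n i f + EE c n i g := by
  unfold EE
  simp only [Ex_add]

theorem EE_mul (c : ℝ) (n i : ℕ) (a : ℝ) (f : SimpleGraph (Fin n) → Finset (Fin n) → ℝ) :
    EE c n i (fun G T => a * f G T) = a * EE c n i f := by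
  unfold EE
  simp only [Ex_mul_left]

theorem EE_const (c : ℝ) (n i : ℕ) (a : ℝ) : EE c n i (fun _ _ => a) = a := by
  unfold EE
  simp only [Ex_const]

theorem EE_anti {c c' : ℝ} {n i i' : ℕ} (hc : 0 < c) (hcc : c ≤ c') (h : c' ≤ n ∧ 1 ≤ n)
    (hi : i ≤ i') {f : SimpleGraph (Fin n) → Finset (Fin n) → ℝ}
    (hf : ∀ G G' T T', G ≤ G' → T ⊆ T' → f G' T' ≤ f G T) : EE c' n i' f ≤ EE c n i f := by
  obtain ⟨h0', h1'⟩ := p_bounds (hc.trans_le hcc) h
  obtain ⟨h0, h1⟩ := p_bounds hc ⟨hcc.trans h.1, h.2⟩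
  have hn : (0:ℝ) < n := by exact_mod_cast h.2
  have hp : c / n ≤ c' / n := div_le_div_of_nonneg_right hcc hn.le
  obtain ⟨t0, t1⟩ := th_bounds h0 h1 i
  obtain ⟨t0', t1'⟩ := th_bounds h0' h1' i'
  have htt := th_mono h0 hp h1' hi
  unfold EE
  refine (Ex_antitone h0 hp h1' (fun A B hAB => ?_)).trans (Ex_mono h0 h1 (fun A => ?_))
  · exact Ex_mono t0' t1' (fun T => hf _ _ _ _ (gr_mono hAB) (subset_refl _))
  · exact Ex_antitone t0 htt t1' (fun T T' hT => hf _ _ _ _ le_rfl hT)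

theorem PhiR_mono {n d : ℕ} (q : Mot n d) {G G' : SimpleGraph (Fin n)} {T T' : Finset (Fin n)}
    (hG : G ≤ G') (hT : T ⊆ T') : PhiR q G T ⊆ PhiR q G' T' := by
  intro v hv
  simp only [PhiR, mem_filter, mem_univ, true_and, kk_eq_zero] at hv ⊢
  exact fun m hm => hv m (Mo_anti hG hT hm)

theorem rho_le_one {n : ℕ} (X : Finset (Fin n)) : rho X ≤ 1 := by
  unfold rho
  rcases Nat.eq_zero_or_pos n with h | h
  · subst h; simp
  · rw [div_le_one (by exact_mod_cast h)]
    have := card_le_univ X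
    rw [Fintype.card_fin] at this
    exact_mod_cast this

theorem rho_nonneg {n : ℕ} (X : Finset (Fin n)) : 0 ≤ rho X := by unfold rho; positivity

theorem rho_mono {n : ℕ} {X Y : Finset (Fin n)} (h : X ⊆ Y) : rho X ≤ rho Y := by
  unfold rho
  apply div_le_div_of_nonneg_right _ (Nat.cast_nonneg n)
  exact_mod_cast card_le_card h

/-- fixed point theorem for rigidity -/
theorem fix_R (d : ℕ) (hd : 1 ≤ d) (c : ℝ) (hc : 0 < c) (ε : ℝ) (hε : 0 < ε) (I0 : ℕ) :
    ∃ I N : ℕ, ∀ n : ℕ, N ≤ n → ∀ q : Mot n d, Good q → ∃ i : ℕ, I0 ≤ i ∧ i < I ∧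
      EE c n i (fun G T => |rho (PhiR q G T) - Fp d (c * rho (PhiR q G T))|) ≤ ε := by
  obtain ⟨I, N, h⟩ := fixpoint d hd c hc ε hε I0
  refine ⟨I, N, fun n hn q hq => ?_⟩
  obtain ⟨S, hS⟩ := rigSys hq
  obtain ⟨i, h1, h2, h3⟩ := h n hn S
  refine ⟨i, h1, h2, ?_⟩
  simp only [hS] at h3
  exact h3

/-- fixed point theorem for the core -/
theorem fix_C (d : ℕ) (hd : 1 ≤ d) (c : ℝ) (hc : 0 < c) (ε : ℝ) (hε : 0 < ε) (I0 : ℕ) :
    ∃ I N : ℕ, ∀ n : ℕ, N ≤ n → ∃ i : ℕ, I0 ≤ i ∧ i < I ∧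
      EE c n i (fun G T => |rho (PhiC d G T) - Fp d (c * rho (PhiC d G T))|) ≤ ε := by
  obtain ⟨I, N, h⟩ := fixpoint d hd c hc ε hε I0
  refine ⟨I, N, fun n hn => ?_⟩
  obtain ⟨S, hS⟩ := coreSys (d := d) n hd
  obtain ⟨i, h1, h2, h3⟩ := h n hn S
  refine ⟨i, h1, h2, ?_⟩
  simp only [hS] at h3
  exact h3

/-- Step A -/
theorem stepA (d : ℕ) (hd : 2 ≤ d) (c0 c' : ℝ) (h0 : 0 < c0) (hc : c0 < c')
    (H : ∀ η > 0, ∃ N : ℕ, ∀ n : ℕ, N ≤ n →
      Pr (c0 / n) (fun A : Finset (Edg n) => ∀ S : Finset (Fin n),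
        eo (gr A) S ≤ 2 * d * S.card) ≤ η) :
    ∃ z, 0 < z ∧ z = c' * Fp d z ∧ ∀ ε > 0, ∀ η > 0, ∃ I N : ℕ, ∀ n : ℕ, N ≤ n →
      ∀ q : Mot n d, Good q → ∃ i : ℕ, i < I ∧
      EE c' n i (fun G T => if c' * rho (PhiR q G T) < z - ε then 1 else 0) ≤ η := by
  have hc' : 0 < c' := h0.trans hc
  have hd1 : 1 ≤ d := by omega
  obtain ⟨ε', hε', hgl⟩ := grounded_lower d hd c0 c' h0 hc H
  -- approximate fixed points
  have hap : ∀ δ > 0, ∃ x, c' * ε' ≤ x ∧ x ≤ c' ∧ |x - c' * Fp d x| ≤ δ := by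
    intro δ hδ
    by_contra hno
    push Not at hno
    obtain ⟨I0, N1, h1⟩ := hgl (1/4) (by norm_num)
    obtain ⟨I, N2, h2⟩ := fix_R d hd1 c' hc' (δ / (4 * c')) (by positivity) I0
    obtain ⟨N3, h3⟩ := exists_nat_gt_of c'
    set n := max N1 (max N2 N3) with hn
    obtain ⟨q, hq⟩ := exists_good n d
    have hn3 := h3 n (by omega)
    obtain ⟨i, hi1, hi2, hi3⟩ := h2 n (by omega) q hq
    have hi4 := h1 n (by omega) i hi1 q hq
    have key : EE c' n i (fun _ _ => 1) ≤ EE c' n i (fun G T =>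
        (if rho (PhiR q G T) < ε' then 1 else 0) +
        (c' / δ) * |rho (PhiR q G T) - Fp d (c' * rho (PhiR q G T))|) := by
      refine EE_mono hc' hn3 (fun G T => ?_)
      set r := rho (PhiR q G T) with hr
      have hr1 : r ≤ 1 := rho_le_one _
      split_ifs with hlt
      · have : 0 ≤ (c' / δ) * |r - Fp d (c' * r)| := by positivity
        linarith
      · push Not at hlt
        have h5 := hno (c' * r) (mul_le_mul_of_nonneg_left hlt hc'.le)
          (by nlinarith)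
        have h6 : |c' * r - c' * Fp d (c' * r)| = c' * |r - Fp d (c' * r)| := by
          rw [← mul_sub, abs_mul, abs_of_pos hc']
        rw [h6] at h5
        have : 1 ≤ (c' / δ) * |r - Fp d (c' * r)| := by
          rw [div_mul_eq_mul_div, le_div_iff₀ hδ]; linarith
        linarith
    rw [EE_const, EE_add, EE_mul] at key
    have h7 : EE c' n i (fun G T => if rho (PhiR q G T) < ε' then 1 else 0) ≤ 1/4 := hi4
    have h8 : (c' / δ) * EE c' n i (fun G T =>
        |rho (PhiR q G T) - Fp d (c' * rho (PhiR q G T))|) ≤ (c' / δ) * (δ / (4 * c')) :=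
      mul_le_mul_of_nonneg_left hi3 (by positivity)
    have h9 : (c' / δ) * (δ / (4 * c')) = 1/4 := by field_simp
    linarith
  obtain ⟨z, hz0, hz1, hz2⟩ := an_small d hd c' hc' (c' * ε') (by positivity) hap
  refine ⟨z, hz0, hz1, fun ε hε η hη => ?_⟩
  obtain ⟨δ, hδ, hst⟩ := hz2 (c' * ε') (by positivity) ε hε
  obtain ⟨I0, N1, h1⟩ := hgl (η/2) (by positivity)
  obtain ⟨I, N2, h2⟩ := fix_R d hd1 c' hc' (δ * η / (2 * c')) (by positivity) I0
  obtain ⟨N3, h3⟩ := exists_nat_gt_of c'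
  refine ⟨I, max N1 (max N2 N3), fun n hn q hq => ?_⟩
  have hn3 := h3 n (by omega)
  obtain ⟨i, hi1, hi2, hi3⟩ := h2 n (by omega) q hq
  have hi4 := h1 n (by omega) i hi1 q hq
  refine ⟨i, hi2, ?_⟩
  have key : EE c' n i (fun G T => if c' * rho (PhiR q G T) < z - ε then 1 else 0) ≤
      EE c' n i (fun G T => (if rho (PhiR q G T) < ε' then 1 else 0) +
        (c' / δ) * |rho (PhiR q G T) - Fp d (c' * rho (PhiR q G T))|) := by
    refine EE_mono hc' hn3 (fun G T => ?_)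
    set r := rho (PhiR q G T) with hr
    have hr1 : r ≤ 1 := rho_le_one _
    have hnn : 0 ≤ (c' / δ) * |r - Fp d (c' * r)| := by positivity
    by_cases hlt : r < ε'
    · rw [if_pos hlt]; split_ifs <;> linarith
    · rw [if_neg hlt]
      push Not at hlt
      split_ifs with hz3
      · have h6 : |c' * r - c' * Fp d (c' * r)| = c' * |r - Fp d (c' * r)| := by
          rw [← mul_sub, abs_mul, abs_of_pos hc']
        have h5 : δ < |c' * r - c' * Fp d (c' * r)| := by
          by_contra hle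
          push Not at hle
          have := hst (c' * r) (mul_le_mul_of_nonneg_left hlt hc'.le) (by nlinarith) hle
          linarith
        rw [h6] at h5
        have : 1 ≤ (c' / δ) * |r - Fp d (c' * r)| := by
          rw [div_mul_eq_mul_div, le_div_iff₀ hδ]; linarith
        linarith
      · linarith
  refine key.trans ?_
  rw [EE_add, EE_mul]
  have h7 : EE c' n i (fun G T => if rho (PhiR q G T) < ε' then 1 else 0) ≤ η / 2 := hi4
  have h8 : (c' / δ) * EE c' n i (fun G T =>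
      |rho (PhiR q G T) - Fp d (c' * rho (PhiR q G T))|) ≤ (c' / δ) * (δ * η / (2 * c')) :=
    mul_le_mul_of_nonneg_left hi3 (by positivity)
  have h9 : (c' / δ) * (δ * η / (2 * c')) = η / 2 := by field_simp
  linarith

/-- Step B -/
theorem stepB (d : ℕ) (hd : 2 ≤ d) (c' c1 z y1 : ℝ) (hc' : 0 < c') (hc : c' < c1) (hz : 0 < z)
    (hA : ∀ ε > 0, ∀ η > 0, ∃ I N : ℕ, ∀ n : ℕ, N ≤ n →
      ∀ q : Mot n d, Good q → ∃ i : ℕ, i < I ∧
      EE c' n i (fun G T => if c' * rho (PhiR q G T) < z - ε then 1 else 0) ≤ η)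
    (hst : ∀ ε > 0, ∃ δ > 0, ∀ x, z ≤ x → x ≤ c1 → |x - c1 * Fp d x| ≤ δ → |x - y1| ≤ ε)
    (ε : ℝ) (hε : 0 < ε) (η : ℝ) (hη : 0 < η) :
    ∃ I N : ℕ, ∀ n : ℕ, N ≤ n → ∀ q : Mot n d, Good q → ∃ i : ℕ, i < I ∧
      EE c1 n i (fun G T => if c1 * rho (PhiR q G T) < y1 - ε then 1 else 0) ≤ η := by
  have hc1 : 0 < c1 := hc'.trans hc
  have hd1 : 1 ≤ d := by omega
  have hεz : 0 < z * (1 - c' / c1) := by
    apply mul_pos hz
    rw [sub_pos, div_lt_one hc1]; exact hc
  obtain ⟨I', N1, h1⟩ := hA (z * (1 - c' / c1)) hεz (η/2) (by positivity)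
  obtain ⟨δ, hδ, hst'⟩ := hst ε hε
  obtain ⟨I, N2, h2⟩ := fix_R d hd1 c1 hc1 (δ * η / (2 * c1)) (by positivity) I'
  obtain ⟨N3, h3⟩ := exists_nat_gt_of c1
  refine ⟨I, max N1 (max N2 N3), fun n hn q hq => ?_⟩
  have hn3 := h3 n (by omega)
  obtain ⟨i', hi', hi''⟩ := h1 n (by omega) q hq
  obtain ⟨i, hi1, hi2, hi3⟩ := h2 n (by omega) q hq
  refine ⟨i, hi2, ?_⟩
  set t := z - z * (1 - c' / c1) with ht
  have htz : t = z * (c' / c1) := by rw [ht]; ring
  have hcmp : EE c1 n i (fun G T => if c' * rho (PhiR q G T) < t then 1 else 0) ≤ η / 2 := by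
    refine (EE_anti hc' hc.le hn3 (hi'.le.trans hi1) (fun G G' T T' hG hT => ?_)).trans hi''
    have hm := rho_mono (PhiR_mono q hG hT)
    by_cases h4 : c' * rho (PhiR q G' T') < t
    · have h5 : c' * rho (PhiR q G T) < t :=
        lt_of_le_of_lt (mul_le_mul_of_nonneg_left hm hc'.le) h4
      rw [if_pos h4, if_pos h5]
    · rw [if_neg h4]; split_ifs <;> norm_num
  have key : EE c1 n i (fun G T => if c1 * rho (PhiR q G T) < y1 - ε then 1 else 0) ≤
      EE c1 n i (fun G T => (if c' * rho (PhiR q G T) < t then 1 else 0) +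
        (c1 / δ) * |rho (PhiR q G T) - Fp d (c1 * rho (PhiR q G T))|) := by
    refine EE_mono hc1 hn3 (fun G T => ?_)
    set r := rho (PhiR q G T) with hr
    have hr1 : r ≤ 1 := rho_le_one _
    have hnn : 0 ≤ (c1 / δ) * |r - Fp d (c1 * r)| := by positivity
    by_cases hlt : c' * r < t
    · rw [if_pos hlt]; split_ifs <;> linarith
    · rw [if_neg hlt]
      push Not at hlt
      split_ifs with hz3
      · have h6 : |c1 * r - c1 * Fp d (c1 * r)| = c1 * |r - Fp d (c1 * r)| := by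
          rw [← mul_sub, abs_mul, abs_of_pos hc1]
        have hzr : z ≤ c1 * r := by
          rw [htz] at hlt
          have h10 : z * c' ≤ (c' * r) * c1 := by
            have := mul_le_mul_of_nonneg_right hlt hc1.le
            have e : z * (c' / c1) * c1 = z * c' := by field_simp
            linarith
          nlinarith
        have h5 : δ < |c1 * r - c1 * Fp d (c1 * r)| := by
          by_contra hle
          push Not at hle
          have := hst' (c1 * r) hzr (by nlinarith) hle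
          rw [abs_le] at this
          linarith
        rw [h6] at h5
        have : 1 ≤ (c1 / δ) * |r - Fp d (c1 * r)| := by
          rw [div_mul_eq_mul_div, le_div_iff₀ hδ]; linarith
        linarith
      · linarith
  refine key.trans ?_
  rw [EE_add, EE_mul]
  have h8 : (c1 / δ) * EE c1 n i (fun G T =>
      |rho (PhiR q G T) - Fp d (c1 * rho (PhiR q G T))|) ≤ (c1 / δ) * (δ * η / (2 * c1)) :=
    mul_le_mul_of_nonneg_left hi3 (by positivity)
  have h9 : (c1 / δ) * (δ * η / (2 * c1)) = η / 2 := by field_simp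
  linarith

/-- Step C and D: the parameters at `c`, the large rigid set, and the size of `Hat` -/
theorem stepCD (d : ℕ) (hd : 2 ≤ d) (c0 c : ℝ) (h0 : 0 < c0) (hc : c0 < c)
    (H : ∀ η > 0, ∃ N : ℕ, ∀ n : ℕ, N ≤ n →
      Pr (c0 / n) (fun A : Finset (Edg n) => ∀ S : Finset (Fin n),
        eo (gr A) S ≤ 2 * d * S.card) ≤ η) :
    ∃ y, 0 < y ∧ c * fp d y < 1 ∧ (d : ℝ) - 1 < y ∧
      (∀ ε > 0, ∀ η > 0, ∃ N : ℕ, ∀ n : ℕ, N ≤ n → ∀ q : Mot n d, Good q →
        Pr (c / n) (fun A : Finset (Edg n) => ¬ ∃ K : Finset (Fin n),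
          Rg q (gr A) K ∧ (y / c - ε) * n ≤ K.card) ≤ η) ∧
      (∀ ε > 0, ∀ η > 0, ∃ N : ℕ, ∀ n : ℕ, N ≤ n →
        Pr (c / n) (fun A : Finset (Edg n) =>
          ¬ ((Hat d (gr A)).card : ℝ) ≤ (y / c + ε) * n) ≤ η) := by
  set c' := (c0 + c) / 2 with hc'def
  have hc0' : c0 < c' := by rw [hc'def]; linarith
  have hc'c : c' < c := by rw [hc'def]; linarith
  have hc' : 0 < c' := h0.trans hc0'
  have hcpos : 0 < c := hc'.trans hc'c
  have hd1 : 1 ≤ d := by omega
  obtain ⟨z, hz0, hz1, hA⟩ := stepA d hd c0 c' h0 hc0' H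
  obtain ⟨y, hy1, hy2, hy3, hy4, hy5⟩ := an_root d hd c' c z hc' hc'c hz0 hz1
  have hy0 : 0 < y := hz0.trans hy1
  refine ⟨y, hy0, hy3, hy4, ?_, ?_⟩
  · intro ε hε η hη
    -- pick c1 close to c
    set e1 := min (c * ε / 4) (z / 2) with he1
    have he1pos : 0 < e1 := lt_min (by positivity) (by positivity)
    obtain ⟨δ, hδ, hst⟩ := hy5 e1 he1pos
    set c1 := max ((c' + c) / 2) (c - δ) with hc1
    have hc1c : c1 < c := max_lt (by linarith) (by linarith)
    have hc'c1 : c' < c1 := lt_of_lt_of_le (by linarith) (le_max_left _ _)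
    have hc1pos : 0 < c1 := hc'.trans hc'c1
    have hcc1 : c - c1 ≤ δ := by
      have := le_max_right ((c' + c) / 2) (c - δ)
      rw [← hc1] at this; linarith
    obtain ⟨y1, hy11, hy12, _, _, hy15⟩ := an_root d hd c' c1 z hc' hc'c1 hz0 hz1
    have hy1pos : 0 < y1 := hz0.trans hy11
    have hF0 := Fp_nonneg d hy1pos.le
    have hF1 := Fp_le_one d hy1pos.le
    have hy1c1 : y1 ≤ c1 := by rw [hy12]; nlinarith
    have hclose : |y1 - y| ≤ e1 := by
      refine hst y1 hy11.le (hy1c1.trans hc1c.le) ?_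
      have : y1 - c * Fp d y1 = - ((c - c1) * Fp d y1) := by
        calc y1 - c * Fp d y1 = c1 * Fp d y1 - c * Fp d y1 := by rw [← hy12]
          _ = _ := by ring
      rw [this, abs_neg, abs_of_nonneg (mul_nonneg (by linarith) hF0)]
      nlinarith
    obtain ⟨I, N1, h1⟩ := stepB d hd c' c1 z y1 hc' hc'c1 hz0 hA hy15 e1 he1pos (η/3) (by positivity)
    obtain ⟨N2, h2⟩ := unground d hd1 c1 c hc1pos hc1c I ((y1 - e1) / c1) (ε / 4) (η/3)
      (by positivity) (by positivity)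
    obtain ⟨N3, h3⟩ := exists_nat_gt_of c
    refine ⟨max N1 (max N2 N3), fun n hn q hq => ?_⟩
    have hn3 := h3 n (by omega)
    obtain ⟨p0, p1⟩ := p_bounds hcpos hn3
    obtain ⟨i, hi, hi2⟩ := h1 n (by omega) q hq
    have h4 := h2 n (by omega) i hi q hq (by
      refine le_trans (le_of_eq ?_) hi2
      unfold EE
      congr 1
      ext A
      congr 1
      ext T
      have : rho (PhiR q (gr A) T) < (y1 - e1) / c1 ↔ c1 * rho (PhiR q (gr A) T) < y1 - e1 := by
        rw [lt_div_iff₀ hc1pos, mul_comm]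
      simp only [this])
    have h5 : 3 * (η / 3) = η := by ring
    rw [h5] at h4
    refine le_trans (Pr_mono p0 p1 (fun A hA' => ?_)) h4
    rintro ⟨K, hK, hKc⟩
    apply hA'
    refine ⟨K, hK, le_trans ?_ hKc⟩
    apply mul_le_mul_of_nonneg_right _ (Nat.cast_nonneg n)
    -- y/c - ε ≤ (y1 - e1)/c1 - ε/4
    have he1a : e1 ≤ c * ε / 4 := min_le_left _ _
    have he1b : e1 ≤ z / 2 := min_le_right _ _
    have h6 : (y1 - e1) / c ≤ (y1 - e1) / c1 := by
      apply div_le_div_of_nonneg_left _ hc1pos hc1c.le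
      linarith
    have h7 : (y - 2 * e1) / c ≤ (y1 - e1) / c := by
      apply div_le_div_of_nonneg_right _ hcpos.le
      rw [abs_le] at hclose
      linarith
    have h8 : (y - 2 * e1) / c = y / c - 2 * (e1 / c) := by ring
    have h9 : e1 / c ≤ ε / 4 := by
      rw [div_le_iff₀ hcpos]; linarith
    linarith
  · intro ε hε η hη
    obtain ⟨δ, hδ, hst⟩ := hy5 (c * ε / 2) (by positivity)
    obtain ⟨I, N1, h1⟩ := fix_C d hd1 c hcpos (δ * η / c) (by positivity) 0
    obtain ⟨N3, h3⟩ := exists_nat_gt_of c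
    refine ⟨max N1 N3, fun n hn => ?_⟩
    have hn3 := h3 n (by omega)
    obtain ⟨p0, p1⟩ := p_bounds hcpos hn3
    have hn0 : (0:ℝ) < n := by exact_mod_cast hn3.2
    obtain ⟨i, _, hi, hi2⟩ := h1 n (by omega)
    obtain ⟨t0, t1⟩ := th_bounds p0 p1 i
    have key : EE c n i (fun G _ => if ¬ ((Hat d G).card : ℝ) ≤ (y / c + ε) * n then 1 else 0) ≤
        EE c n i (fun G T => (c / δ) * |rho (PhiC d G T) - Fp d (c * rho (PhiC d G T))|) := by
      refine EE_mono hcpos hn3 (fun G T => ?_)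
      set r := rho (PhiC d G T) with hr
      have hr1 : r ≤ 1 := rho_le_one _
      have hnn : 0 ≤ (c / δ) * |r - Fp d (c * r)| := by positivity
      split_ifs with hlt
      · exact hnn
      · push Not at hlt
        have h5 : rho (Hat d G) ≤ r := rho_mono (Hat_subset_PhiC G T)
        have h6 : y / c + ε < r := by
          refine lt_of_lt_of_le ?_ h5
          unfold rho
          rw [lt_div_iff₀ hn0]; exact hlt
        have h7 : y + c * ε < c * r := by
          have := mul_lt_mul_of_pos_left h6 hcpos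
          have e : c * (y / c + ε) = y + c * ε := by field_simp
          linarith
        have h8 : |c * r - c * Fp d (c * r)| = c * |r - Fp d (c * r)| := by
          rw [← mul_sub, abs_mul, abs_of_pos hcpos]
        have hcε : 0 < c * ε := by positivity
        have h9 : δ < |c * r - c * Fp d (c * r)| := by
          by_contra hle
          push Not at hle
          have := hst (c * r) (by linarith) (by nlinarith) hle
          rw [abs_le] at this
          linarith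
        rw [h8] at h9
        rw [div_mul_eq_mul_div, le_div_iff₀ hδ]; linarith
    have h10 : EE c n i (fun G _ => if ¬ ((Hat d G).card : ℝ) ≤ (y / c + ε) * n then 1 else 0) =
        Pr (c / n) (fun A : Finset (Edg n) => ¬ ((Hat d (gr A)).card : ℝ) ≤ (y / c + ε) * n) := by
      unfold EE
      rw [Pr_eq_Ex]
      congr 1
      ext A
      exact Ex_const _ _
    rw [← h10]
    refine key.trans ?_
    rw [EE_mul]
    have h8 : (c / δ) * EE c n i (fun G T =>
        |rho (PhiC d G T) - Fp d (c * rho (PhiC d G T))|) ≤ (c / δ) * (δ * η / c) :=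
      mul_le_mul_of_nonneg_left hi2 (by positivity)
    have h9 : (c / δ) * (δ * η / c) = η := by field_simp
    linarith

end Pool.Agent.GRI
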