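import Pool.Agent.Lib_MP_264ef2_ins.Gen

set_option autoImplicit false

namespace Pool.Agent.RigidINS

open Finset
open scoped Classical
open Pool.Agent.GRI

/-- the rigidity matrix with polynomial entries -/
noncomputable def polyMat {V : Type} [Fintype V] (d : ℕ) (H : SimpleGraph V) :
    Matrix H.edgeSet (V × Fin d) (MvPolynomial (V × Fin d) ℚ) :=
  Matrix.of fun e x => ∑ y : V, if s(x.1, y) = (e : Sym2 V) then
    MvPolynomial.X (x.1, x.2) - MvPolynomial.X (y, x.2) else 0

theorem polyMat_map {V : Type} [Fintype V] {d : ℕ} (H : SimpleGraph V) (p : V → Fin d → ℝ) :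
    (polyMat d H).map (MvPolynomial.aeval (fun x : V × Fin d => p x.1 x.2)) =
      rigidityMatrix H p := by
  ext e x
  simp only [polyMat, rigidityMatrix, Matrix.map_apply, Matrix.of_apply, map_sum]
  refine Finset.sum_congr rfl fun y _ => ?_
  split_ifs with h
  · rw [map_sub, MvPolynomial.aeval_X, MvPolynomial.aeval_X]
  · rw [map_zero]

theorem rank_le_generic {V : Type} [Fintype V] {d : ℕ} (H : SimpleGraph V)
    (p q : V → Fin d → ℝ) (hp : Generic p) :
    (rigidityMatrix H q).rank ≤ (rigidityMatrix H p).rank := by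
  have h := rank_generic (polyMat d H) (fun x : V × Fin d => p x.1 x.2)
    (fun x : V × Fin d => q x.1 x.2) hp
  rwa [polyMat_map, polyMat_map] at h

theorem rm_mulVec {V : Type} [Fintype V] {d : ℕ} (H : SimpleGraph V) (p : V → Fin d → ℝ)
    (m : V × Fin d → ℝ) (u w : V) (h : s(u, w) ∈ H.edgeSet) :
    (rigidityMatrix H p).mulVec m ⟨s(u, w), h⟩ =
      (p u - p w) ⬝ᵥ ((fun i => m (u, i)) - fun i => m (w, i)) := by
  have hne : u ≠ w := H.ne_of_adj ((SimpleGraph.mem_edgeSet H).1 h)
  rw [Matrix.mulVec, dotProduct]
  simp only [rigidityMatrix, Matrix.of_apply]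
  rw [Fintype.sum_prod_type]
  have h0 : ∀ (v : V) (i : Fin d), (∑ y : V, if s(v, y) = s(u, w) then p v i - p y i else 0) =
      if v = u then p u i - p w i else if v = w then p w i - p u i else 0 := by
    intro v i
    by_cases hv : v = u
    · subst hv
      rw [if_pos rfl]
      rw [Finset.sum_eq_single w]
      · rw [if_pos rfl]
      · intro y _ hy
        rw [if_neg]
        intro h1
        rcases Sym2.eq_iff.1 h1 with ⟨-, h2⟩ | ⟨h2, -⟩
        · exact hy h2
        · exact hne h2
      · intro h1
        exact absurd (mem_univ _) h1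
    · rw [if_neg hv]
      by_cases hw : v = w
      · subst hw
        rw [if_pos rfl]
        rw [Finset.sum_eq_single u]
        · rw [if_pos Sym2.eq_swap]
        · intro y _ hy
          rw [if_neg]
          intro h1
          rcases Sym2.eq_iff.1 h1 with ⟨h2, -⟩ | ⟨-, h2⟩
          · exact hne h2.symm
          · exact hy h2
        · intro h1
          exact absurd (mem_univ _) h1
      · rw [if_neg hw]
        apply Finset.sum_eq_zero
        intro y _
        rw [if_neg]
        intro h1
        rcases Sym2.eq_iff.1 h1 with ⟨h2, -⟩ | ⟨h2, -⟩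
        · exact hv h2
        · exact hw h2
  simp only [h0]
  have h1 : ∀ v : V, (∑ i : Fin d, (if v = u then p u i - p w i
      else if v = w then p w i - p u i else 0) * m (v, i)) =
      (if v = u then ∑ i, (p u i - p w i) * m (u, i) else 0) +
      (if v = w then ∑ i, (p w i - p u i) * m (w, i) else 0) := by
    intro v
    by_cases hv : v = u
    · subst hv
      simp [hne]
    · by_cases hw : v = w
      · subst hw
        simp [hv]
      · simp [hv, hw]
  simp only [h1]
  rw [Finset.sum_add_distrib, Finset.sum_ite_eq', Finset.sum_ite_eq']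
  simp only [mem_univ, if_true]
  rw [← Finset.sum_add_distrib, dotProduct]
  refine Finset.sum_congr rfl fun i _ => ?_
  simp only [Pi.sub_apply]
  ring

variable {n d : ℕ}

/-- extension of velocities by zero -/
noncomputable def ext0L (A : Finset (Fin n)) :
    (((A : Set (Fin n)) : Type) × Fin d → ℝ) →ₗ[ℝ] Mot n d where
  toFun m v i := if h : v ∈ (A : Set (Fin n)) then m (⟨v, h⟩, i) else 0
  map_add' a b := by
    ext v i
    show (if h : v ∈ (A : Set (Fin n)) then (a + b) (⟨v, h⟩, i) else 0) =
      (if h : v ∈ (A : Set (Fin n)) then a (⟨v, h⟩, i) else 0) +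
      (if h : v ∈ (A : Set (Fin n)) then b (⟨v, h⟩, i) else 0)
    by_cases h : v ∈ (A : Set (Fin n))
    · rw [dif_pos h, dif_pos h, dif_pos h]; rfl
    · rw [dif_neg h, dif_neg h, dif_neg h, add_zero]
  map_smul' c a := by
    ext v i
    show (if h : v ∈ (A : Set (Fin n)) then (c • a) (⟨v, h⟩, i) else 0) =
      c * (if h : v ∈ (A : Set (Fin n)) then a (⟨v, h⟩, i) else 0)
    by_cases h : v ∈ (A : Set (Fin n))
    · rw [dif_pos h, dif_pos h]; rfl
    · rw [dif_neg h, dif_neg h, mul_zero]

/-- the rank of the rigidity matrix of an induced subgraph -/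
theorem rank_induce (G : SimpleGraph (Fin n)) (A : Finset (Fin n))
    (p : ((A : Set (Fin n)) : Type) → Fin d → ℝ) (q : Mot n d)
    (hq : ∀ v : ((A : Set (Fin n)) : Type), q v = p v) :
    (rigidityMatrix (G.induce (A : Set (Fin n))) p).rank + rd q (ind G A) A = d * A.card := by
  have hinj : Function.Injective (ext0L (d := d) A) := by
    intro a b hab
    funext x
    obtain ⟨⟨v, hv⟩, i⟩ := x
    have h1 := congrFun (congrFun hab v) i
    have h2 : ∀ c : ((A : Set (Fin n)) : Type) × Fin d → ℝ, ext0L (d := d) A c v i =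
        c (⟨v, hv⟩, i) := by
      intro c
      show (if h : v ∈ (A : Set (Fin n)) then c (⟨v, h⟩, i) else 0) = _
      rw [dif_pos hv]
    rw [h2, h2] at h1
    exact h1
  have hval : ∀ (c : ((A : Set (Fin n)) : Type) × Fin d → ℝ) (v : Fin n)
      (hv : v ∈ (A : Set (Fin n))), ext0L (d := d) A c v = fun i => c (⟨v, hv⟩, i) := by
    intro c v hv
    funext i
    show (if h : v ∈ (A : Set (Fin n)) then c (⟨v, h⟩, i) else 0) = _
    rw [dif_pos hv]
  have h1 : (LinearMap.ker (rigidityMatrix (G.induce (A : Set (Fin n))) p).mulVecLin).map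
      (ext0L (d := d) A) = (Mo q (ind G A) ∅).map (PK A) := by
    ext m
    constructor
    · rintro ⟨x, hx, rfl⟩
      refine ⟨ext0L A x, ⟨by simp, fun u w h => ?_⟩, ?_⟩
      · have hu : u ∈ (A : Set (Fin n)) := h.2.1
        have hw : w ∈ (A : Set (Fin n)) := h.2.2
        have he : s((⟨u, hu⟩ : ((A : Set (Fin n)) : Type)), ⟨w, hw⟩) ∈
            (G.induce (A : Set (Fin n))).edgeSet := h.1
        have h2 : (rigidityMatrix (G.induce (A : Set (Fin n))) p).mulVec x ⟨_, he⟩ = 0 := by
          have := congrFun (LinearMap.mem_ker.mp hx) ⟨_, he⟩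
          simpa using this
        rw [rm_mulVec] at h2
        rw [hval x u hu, hval x w hw]
        have e1 := hq ⟨u, hu⟩
        have e2 := hq ⟨w, hw⟩
        simp only at e1 e2
        rw [e1, e2]
        exact h2
      · ext v i
        show (if v ∈ A then ext0L (d := d) A x v else 0) i = ext0L (d := d) A x v i
        by_cases hv : v ∈ A
        · rw [if_pos hv]
        · rw [if_neg hv]
          show (0 : ℝ) = (if h : v ∈ (A : Set (Fin n)) then x (⟨v, h⟩, i) else 0)
          rw [dif_neg (by simpa using hv)]
    · rintro ⟨m, hm, rfl⟩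
      refine ⟨fun x => m x.1 x.2, ?_, ?_⟩
      · rw [SetLike.mem_coe, LinearMap.mem_ker]
        funext e
        obtain ⟨e, he⟩ := e
        induction e using Sym2.ind with
        | _ u w =>
          rw [Matrix.mulVecLin_apply, rm_mulVec]
          have hadj : G.Adj (u : Fin n) (w : Fin n) := he
          have h3 := hm.2 u w ⟨hadj, u.2, w.2⟩
          rw [hq u, hq w] at h3
          exact h3
      · ext v i
        show (if h : v ∈ (A : Set (Fin n)) then m v i else 0) = (if v ∈ A then m v else 0) i
        by_cases hv : v ∈ A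
        · rw [if_pos hv, dif_pos (by simpa using hv)]
        · rw [if_neg hv, dif_neg (by simpa using hv)]
          rfl
  have h2 : rd q (ind G A) A = Module.finrank ℝ
      (LinearMap.ker (rigidityMatrix (G.induce (A : Set (Fin n))) p).mulVecLin) := by
    rw [rd, ← h1]
    exact (Submodule.equivMapOfInjective (ext0L (d := d) A) hinj _).finrank_eq.symm
  have h3 := LinearMap.finrank_range_add_finrank_ker
    (rigidityMatrix (G.induce (A : Set (Fin n))) p).mulVecLin
  rw [h2, Matrix.rank, h3, Module.finrank_fintype_fun_eq_card, Fintype.card_prod,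
    Fintype.card_fin, mul_comm]
  congr 1
  simp

/-- the rigidity of an induced subgraph is the predicate of the library -/
theorem rigid_iff (d : ℕ) {n : ℕ} (G : SimpleGraph (Fin n)) (A : Finset (Fin n)) :
    Rigid d (G.induce (A : Set (Fin n))) ↔ rigF d n G A := by
  have hc : Fintype.card ((A : Set (Fin n)) : Type) = A.card := by simp
  by_cases hA : A.card ≤ d
  · -- small sets
    constructor
    · rintro (⟨-, h⟩ | ⟨h, -⟩)
      · refine Or.inl ⟨hA, fun u hu v hv huv => ?_⟩
        have h1 : (G.induce (A : Set (Fin n))).Adj ⟨u, hu⟩ ⟨v, hv⟩ := by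
          rw [h]
          intro h2
          exact huv (congrArg Subtype.val h2)
        exact h1
      · omega
    · rintro (⟨-, h⟩ | ⟨h, -⟩)
      · refine Or.inl ⟨by omega, ?_⟩
        ext ⟨u, hu⟩ ⟨v, hv⟩
        constructor
        · intro h1
          exact h1.ne
        · intro h1
          exact h u hu v hv (fun h2 => h1 (Subtype.ext h2))
      · omega
  · have hA' : d + 1 ≤ A.card := by omega
    obtain ⟨q, hq⟩ := exists_good n d
    rw [rigF_iff hq G A hA']
    have hge := rd_ge hq (ind G A) A (by omega)
    have hch : (d + 1).choose 2 = d * (d + 1) / 2 := by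
      rw [Nat.choose_two_right, Nat.add_sub_cancel, mul_comm]
    -- a generic placement has the same dimension of the motions as `q`
    have key : ∀ p : ((A : Set (Fin n)) : Type) → Fin d → ℝ, Generic p →
        (rigidityMatrix (G.induce (A : Set (Fin n))) p).rank + rd q (ind G A) A =
          d * A.card := by
      intro p hp
      have h1 := rank_le_generic (G.induce (A : Set (Fin n))) p
        (fun v : ((A : Set (Fin n)) : Type) => q v) hp
      have h2 := rank_induce G A (fun v : ((A : Set (Fin n)) : Type) => q v) q (fun v => rfl)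
      let q' : Mot n d := fun v => if h : v ∈ (A : Set (Fin n)) then p ⟨v, h⟩ else 0
      have h3 := rank_induce G A p q' (fun v => by
        show (if h : (v : Fin n) ∈ (A : Set (Fin n)) then p ⟨v, h⟩ else 0) = p v
        rw [dif_pos v.2])
      have h4 := hq (ind G A) ∅ q'
      have h5 := Link.finrank_Mo_eq q G A
      have h6 := Link.finrank_Mo_eq q' G A
      omega
    constructor
    · rintro (⟨h, -⟩ | ⟨-, h⟩)
      · omega
      · obtain ⟨p, hp⟩ := exists_generic ((A : Set (Fin n)) : Type) d
        have h1 := h p hp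
        have h2 := key p hp
        rw [hc] at h1
        unfold Rg
        omega
    · intro h
      refine Or.inr ⟨by omega, fun p hp => ?_⟩
      have h2 := key p hp
      unfold Rg at h
      rw [hc]
      omega

theorem component_iff (d : ℕ) {n : ℕ} (G : SimpleGraph (Fin n)) (A : Finset (Fin n)) :
    IsRigidComponent d G A ↔
      (rigF d n G A ∧ ∀ T : Finset (Fin n), A ⊆ T → rigF d n G T → T = A) := by
  unfold IsRigidComponent Maximal
  simp only [rigid_iff]
  constructor
  · rintro ⟨h1, h2⟩
    exact ⟨h1, fun T hT hr => Finset.Subset.antisymm (h2 hr hT) hT⟩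
  · rintro ⟨h1, h2⟩
    exact ⟨h1, fun T hr hT => (h2 T hT hr).le⟩

end Pool.Agent.RigidINS
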