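import Pool.Agent.Lib_MP_264ef2_ins.Prob

set_option autoImplicit false

namespace Pool.Agent.GRI

open Finset
open scoped Classical

namespace Sparse

/-- edges inside `S` -/
noncomputable def IE {n : ℕ} (S : Finset (Fin n)) : Finset (Edg n) :=
  univ.filter (fun e => ∀ v ∈ (e : Sym2 (Fin n)), v ∈ S)

theorem eo_eq {n : ℕ} (A : Finset (Edg n)) (S : Finset (Fin n)) :
    eo (gr A) S = 2 * (A ∩ IE S).card := by
  have h1 : (S ×ˢ S).filter (fun e => (gr A).Adj e.1 e.2) =
      (A ∩ IE S).biUnion (fun e => univ.filter (fun x : Fin n × Fin n => s(x.1, x.2) = e.1)) := by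
    ext ⟨u, v⟩
    simp only [mem_filter, mem_product, mem_biUnion, mem_inter, mem_univ, true_and, IE]
    constructor
    · rintro ⟨⟨hu, hv⟩, hadj⟩
      rw [gr_adj] at hadj
      obtain ⟨hne, hA⟩ := hadj
      refine ⟨_, ⟨hA, ?_⟩, rfl⟩
      intro w hw
      rcases Sym2.mem_iff.1 hw with rfl | rfl
      · exact hu
      · exact hv
    · rintro ⟨e, ⟨heA, heS⟩, he⟩
      have hu : u ∈ e.1 := by rw [← he]; simp
      have hv : v ∈ e.1 := by rw [← he]; simp
      refine ⟨⟨heS u hu, heS v hv⟩, ?_⟩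
      rw [gr_adj]
      have hne : u ≠ v := by
        intro h
        apply e.2
        rw [← he, h]
        simp
      refine ⟨hne, ?_⟩
      have : (⟨s(u, v), by simpa using hne⟩ : Edg n) = e := Subtype.ext he
      rw [this]; exact heA
  have h2 : ∀ e : Edg n, (univ.filter (fun x : Fin n × Fin n => s(x.1, x.2) = e.1)).card = 2 := by
    rintro ⟨e, he⟩
    induction e using Sym2.ind with
    | _ a b =>
      have hab : a ≠ b := by simpa using he
      have : (univ.filter (fun x : Fin n × Fin n => s(x.1, x.2) = s(a, b))) = {(a, b), (b, a)} := by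
        ext ⟨x, y⟩
        simp only [mem_filter, mem_univ, true_and, Sym2.eq_iff, mem_insert, mem_singleton,
          Prod.mk.injEq]
      rw [this, card_pair]
      intro h
      exact hab (Prod.mk.injEq _ _ _ _ ▸ h).1
  unfold eo
  rw [h1, card_biUnion]
  · rw [Finset.sum_congr rfl (fun e _ => h2 e)]
    simp [mul_comm]
  · intro e _ f _ hef
    rw [Function.onFun, Finset.disjoint_left]
    rintro x hx hy
    simp only [mem_filter, mem_univ, true_and] at hx hy
    exact hef (Subtype.ext (hx.symm.trans hy))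

theorem two_card_IE {n : ℕ} (S : Finset (Fin n)) : 2 * (IE S).card = S.card * S.card - S.card := by
  have h := eo_eq (n := n) univ S
  rw [univ_inter] at h
  rw [← h, ← offDiag_card]
  unfold eo
  congr 1
  ext ⟨u, v⟩
  simp only [mem_filter, mem_product, gr_adj, mem_univ, exists_prop, and_true, mem_offDiag]
  tauto

theorem card_IE_le {n : ℕ} (S : Finset (Fin n)) : (IE S).card ≤ S.card ^ 2 := by
  have := two_card_IE S
  have h2 : S.card * S.card - S.card ≤ S.card * S.card := Nat.sub_le _ _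
  rw [pow_two]; omega

/-- the deterministic estimate for one term of the union bound -/
theorem term_le (c : ℝ) (hc : 0 < c) (L : ℕ) (n s : ℕ) (hn : 1 ≤ n) (hs : 1 ≤ s)
    (k : ℕ) (hk1 : 1 ≤ k) (hks : k ≤ s) (hkL : s ≤ L * k)
    (K : ℝ) (hK : K = Real.exp (2 * L) * (max c 1) ^ (L + 1))
    (hsmall : K * s / n ≤ (1 / 4 : ℝ) ^ L) :
    (n.choose s : ℝ) * (((s ^ 2).choose (s + k) : ℕ) * (c / n) ^ (s + k)) ≤
      K * 4 ^ L / n * (1 / 2) ^ s := by
  have hn0 : (0 : ℝ) < n := by exact_mod_cast hn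
  have hs0 : (0 : ℝ) < s := by exact_mod_cast hs
  have hc1 : (1 : ℝ) ≤ max c 1 := le_max_right _ _
  have hK0 : 0 < K := by rw [hK]; positivity
  have e1 : (n.choose s : ℝ) ≤ (n : ℝ) ^ s / (s.factorial : ℝ) := Nat.choose_le_pow_div s n
  have e2 : ((s ^ 2).choose (s + k) : ℝ) ≤ ((s : ℝ) ^ 2) ^ (s + k) / ((s + k).factorial : ℝ) := by
    have := Nat.choose_le_pow_div (α := ℝ) (s + k) (s ^ 2)
    push_cast at this ⊢
    exact this
  have e3 : (s : ℝ) ^ s / (s.factorial : ℝ) ≤ Real.exp s := Real.pow_div_factorial_le_exp _ hs0.le _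
  have e4 : (s : ℝ) ^ (s + k) / ((s + k).factorial : ℝ) ≤ Real.exp s :=
    Real.pow_div_factorial_le_exp _ hs0.le _
  have f1 : (0 : ℝ) < (s.factorial : ℝ) := by exact_mod_cast Nat.factorial_pos _
  have f2 : (0 : ℝ) < ((s + k).factorial : ℝ) := by exact_mod_cast Nat.factorial_pos _
  -- main bound
  have main : (n.choose s : ℝ) * (((s ^ 2).choose (s + k) : ℕ) * (c / n) ^ (s + k)) ≤
      (K * s / n) ^ k := by
    calc (n.choose s : ℝ) * (((s ^ 2).choose (s + k) : ℕ) * (c / n) ^ (s + k))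
        ≤ ((n : ℝ) ^ s / (s.factorial : ℝ)) * ((((s : ℝ) ^ 2) ^ (s + k) / ((s + k).factorial : ℝ)) *
            (c / n) ^ (s + k)) := by gcongr
      _ = ((s : ℝ) ^ s / (s.factorial : ℝ)) * ((s : ℝ) ^ (s + k) / ((s + k).factorial : ℝ)) *
            c ^ (s + k) * (s / n) ^ k := by
          rw [div_pow, div_pow, pow_add (n : ℝ) s k, ← pow_mul, show 2 * (s + k) = s + k + (s + k) by ring,
            pow_add (s : ℝ) (s + k) (s + k)]
          have : (s : ℝ) ^ (s + k) = (s : ℝ) ^ s * (s : ℝ) ^ k := pow_add _ _ _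
          rw [this]
          field_simp
      _ ≤ Real.exp s * Real.exp s * c ^ (s + k) * (s / n) ^ k := by gcongr
      _ ≤ Real.exp (2 * L) ^ k * (max c 1) ^ ((L + 1) * k) * (s / n) ^ k := by
          have g1 : Real.exp s * Real.exp s ≤ Real.exp (2 * L) ^ k := by
            rw [← Real.exp_add, ← Real.exp_nat_mul]
            apply Real.exp_le_exp.2
            have : (s : ℝ) ≤ L * k := by exact_mod_cast hkL
            nlinarith
          have g2 : c ^ (s + k) ≤ (max c 1) ^ ((L + 1) * k) := by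
            calc c ^ (s + k) ≤ (max c 1) ^ (s + k) := by gcongr; exact le_max_left _ _
              _ ≤ (max c 1) ^ ((L + 1) * k) := by
                apply pow_le_pow_right₀ hc1
                nlinarith
          gcongr
      _ = (K * s / n) ^ k := by
          rw [hK, pow_mul, ← mul_pow, ← mul_pow]
          congr 1
          ring
  refine main.trans ?_
  have hx0 : 0 ≤ K * s / n := by positivity
  obtain ⟨j, rfl⟩ : ∃ j, k = j + 1 := ⟨k - 1, by omega⟩
  have g3 : ((1 / 4 : ℝ) ^ L) ^ j ≤ 4 ^ L / 4 ^ s := by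
    rw [le_div_iff₀ (by positivity), ← pow_mul, one_div, inv_pow, inv_mul_le_iff₀ (by positivity), ← pow_add]
    apply pow_le_pow_right₀ (by norm_num)
    nlinarith
  have g4 : (s : ℝ) ≤ 2 ^ s := by exact_mod_cast (Nat.lt_two_pow_self (n := s)).le
  calc (K * s / n) ^ (j + 1) = (K * s / n) * (K * s / n) ^ j := by ring
    _ ≤ (K * s / n) * ((1 / 4 : ℝ) ^ L) ^ j := by gcongr
    _ ≤ (K * s / n) * (4 ^ L / 4 ^ s) := by gcongr
    _ ≤ (K * 2 ^ s / n) * (4 ^ L / 4 ^ s) := by gcongr
    _ = K * 4 ^ L / n * (1 / 2) ^ s := by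
        rw [show (4 : ℝ) ^ s = 2 ^ s * 2 ^ s by rw [← mul_pow]; norm_num, one_div, inv_pow]
        field_simp

end Sparse

open Sparse

/-- small sets of vertices span few edges -/
theorem sparse (c : ℝ) (hc : 0 < c) (L : ℕ) (hL : 1 ≤ L) :
    ∃ ε > 0, ∀ η > 0, ∃ N : ℕ, ∀ n : ℕ, N ≤ n →
      Pr (c / n) (fun A : Finset (Edg n) => ¬ Sp L ε (gr A)) ≤ η := by
  set K : ℝ := Real.exp (2 * L) * (max c 1) ^ (L + 1) with hK
  have hc1 : (1 : ℝ) ≤ max c 1 := le_max_right _ _
  have hK0 : 0 < K := by rw [hK]; positivity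
  refine ⟨(1 / 4 : ℝ) ^ L / K, by positivity, fun η hη => ?_⟩
  refine ⟨⌈max c (K * 4 ^ L / η)⌉₊ + 1, fun n hn => ?_⟩
  have hn1 : 1 ≤ n := by omega
  have hn0 : (0 : ℝ) < n := by exact_mod_cast hn1
  have hnc : max c (K * 4 ^ L / η) ≤ n := by
    calc max c (K * 4 ^ L / η) ≤ ⌈max c (K * 4 ^ L / η)⌉₊ := Nat.le_ceil _
      _ ≤ n := by exact_mod_cast (by omega : ⌈max c (K * 4 ^ L / η)⌉₊ ≤ n)
  have hp0 : 0 ≤ c / n := by positivity
  have hp1 : c / n ≤ 1 := by rw [div_le_one hn0]; exact (le_max_left _ _).trans hnc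
  set kf : ℕ → ℕ := fun s => (s + L - 1) / L with hkf
  have hkfL : ∀ s, 1 ≤ s → s ≤ L * kf s := by
    intro s hs
    have := Nat.lt_div_mul_add (a := s + L - 1) (show 0 < L by omega)
    rw [hkf]; simp only
    rw [mul_comm]; omega
  have hkfs : ∀ s, 1 ≤ s → kf s ≤ s := by
    intro s hs
    rw [hkf]; simp only
    apply Nat.lt_succ_iff.1
    rw [Nat.div_lt_iff_lt_mul (by omega)]
    have h1 : s ≤ s * L := Nat.le_mul_of_pos_right s hL
    rw [Nat.succ_mul]
    omega
  have hkf1 : ∀ s, 1 ≤ s → 1 ≤ kf s := by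
    intro s hs
    rw [hkf]; simp only
    rw [Nat.one_le_div_iff (by omega)]
    omega
  set ε : ℝ := (1 / 4 : ℝ) ^ L / K with hε
  set P : Finset (Finset (Fin n)) := univ.filter (fun S => S.Nonempty ∧ (S.card : ℝ) ≤ ε * n) with hP
  have step1 : Pr (c / n) (fun A : Finset (Edg n) => ¬ Sp L ε (gr A)) ≤
      Pr (c / n) (fun A : Finset (Edg n) => ∃ S ∈ P, ∃ F ∈ powersetCard (S.card + kf S.card) (IE S), F ⊆ A) := by
    apply Pr_mono hp0 hp1
    intro A hA
    unfold Sp at hA
    push Not at hA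
    obtain ⟨S, hS, hSc, hSe⟩ := hA
    refine ⟨S, by simp [hP, hS, hSc], ?_⟩
    rw [eo_eq] at hSe
    have hs1 : 1 ≤ S.card := hS.card_pos
    have hcard : S.card + kf S.card ≤ (A ∩ IE S).card := by
      have h1 : (L + 1) * S.card ≤ L * (A ∩ IE S).card := by nlinarith
      have h2 : S.card ≤ (A ∩ IE S).card := by
        by_contra hlt
        push Not at hlt
        have : L * (A ∩ IE S).card ≤ L * S.card := Nat.mul_le_mul_left _ hlt.le
        nlinarith
      obtain ⟨b, hb⟩ := Nat.exists_eq_add_of_le h2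
      rw [hb] at h1 ⊢
      apply Nat.add_le_add_left
      rw [hkf]; simp only
      apply Nat.lt_succ_iff.1
      rw [Nat.div_lt_iff_lt_mul (by omega)]
      have : S.card ≤ L * b := by nlinarith
      rw [Nat.succ_mul, mul_comm b L]
      omega
    obtain ⟨F, hF, hFc⟩ := exists_subset_card_eq hcard
    refine ⟨F, ?_, hF.trans inter_subset_left⟩
    rw [mem_powersetCard]
    exact ⟨hF.trans inter_subset_right, hFc⟩
  have step2 : Pr (c / n) (fun A : Finset (Edg n) => ∃ S ∈ P, ∃ F ∈ powersetCard (S.card + kf S.card) (IE S), F ⊆ A)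
      ≤ ∑ S ∈ P, (((S.card ^ 2).choose (S.card + kf S.card) : ℕ) : ℝ) * (c / n) ^ (S.card + kf S.card) := by
    refine (Pr_exists_le hp0 hp1 P _).trans ?_
    apply Finset.sum_le_sum
    intro S _
    refine (Pr_exists_le hp0 hp1 _ _).trans ?_
    have : ∀ F ∈ powersetCard (S.card + kf S.card) (IE S),
        Pr (c / n) (fun A : Finset (Edg n) => F ⊆ A) = (c / n) ^ (S.card + kf S.card) := by
      intro F hF
      rw [Pr_subset, (mem_powersetCard.1 hF).2]
    rw [Finset.sum_congr rfl this, sum_const, card_powersetCard, nsmul_eq_mul]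
    gcongr
    exact card_IE_le S
  refine step1.trans (step2.trans ?_)
  set g : ℕ → ℝ := fun s => if 1 ≤ s ∧ (s : ℝ) ≤ ε * n then
    (((s ^ 2).choose (s + kf s) : ℕ) : ℝ) * (c / n) ^ (s + kf s) else 0 with hg
  have step3 : ∑ S ∈ P, (((S.card ^ 2).choose (S.card + kf S.card) : ℕ) : ℝ) *
      (c / n) ^ (S.card + kf S.card) = ∑ s ∈ range (n + 1), (n.choose s : ℝ) * g s := by
    have h1 := Finset.sum_powerset_apply_card g (x := (univ : Finset (Fin n)))
    rw [powerset_univ, card_univ, Fintype.card_fin] at h1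
    simp only [nsmul_eq_mul] at h1
    rw [← h1, hP, Finset.sum_filter]
    apply Finset.sum_congr rfl
    intro S _
    simp only [hg]
    have : S.Nonempty ↔ 1 ≤ S.card := by rw [Nat.one_le_iff_ne_zero, ← Finset.card_pos]; omega
    simp only [this]
  rw [step3]
  have step4 : ∀ s ∈ range (n + 1), (n.choose s : ℝ) * g s ≤ K * 4 ^ L / n * (if 1 ≤ s then (1 / 2 : ℝ) ^ s else 0) := by
    intro s _
    simp only [hg]
    by_cases h : 1 ≤ s ∧ (s : ℝ) ≤ ε * n
    · rw [if_pos h, if_pos h.1]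
      apply term_le c hc L n s hn1 h.1 (kf s) (hkf1 s h.1) (hkfs s h.1) (hkfL s h.1) K hK
      have : K * s / n ≤ K * ε := by
        rw [div_le_iff₀ hn0]
        have := h.2
        nlinarith
      refine this.trans ?_
      rw [hε]
      field_simp
      exact le_refl _
    · rw [if_neg h, mul_zero]
      positivity
  refine (Finset.sum_le_sum step4).trans ?_
  rw [← Finset.mul_sum]
  have step5 : ∑ s ∈ range (n + 1), (if 1 ≤ s then (1 / 2 : ℝ) ^ s else 0) ≤ 1 := by
    have h : ∀ m : ℕ, ∑ s ∈ range (m + 1), (if 1 ≤ s then (1 / 2 : ℝ) ^ s else 0) = 1 - (1 / 2) ^ m := by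
      intro m
      induction m with
      | zero => simp
      | succ m ih =>
        rw [Finset.sum_range_succ, ih, if_pos (by omega)]
        rw [pow_succ]; ring
    rw [h]
    have : (0 : ℝ) ≤ (1 / 2) ^ n := by positivity
    linarith
  calc K * 4 ^ L / n * ∑ s ∈ range (n + 1), (if 1 ≤ s then (1 / 2 : ℝ) ^ s else 0)
      ≤ K * 4 ^ L / n * 1 := by gcongr
    _ ≤ η := by
      rw [mul_one, div_le_iff₀ hn0]
      have := (le_max_right _ _).trans hnc
      rw [div_le_iff₀ hη] at this
      linarith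

theorem Sparse.sprinkle_abs {α : Type*} [Fintype α] (p0 r p1 η : ℝ) (h0 : 0 ≤ p0) (h1 : p0 ≤ 1)
    (hr0 : 0 ≤ r) (hr1 : r ≤ 1) (hη : 0 ≤ η) (hu : p0 + r - p0 * r = p1) (Q0 Q : Finset α → Prop)
    (key : ∀ A, Q0 A → 1 - η ≤ Pr r (fun B => Q (A ∪ B))) : Pr p0 Q0 ≤ Pr p1 Q + η := by
  have e1 : Pr p1 Q = Ex p0 (fun A => Pr r (fun B : Finset α => Q (A ∪ B))) := by
    have := Ex_union p0 r (fun A => if Q A then (1 : ℝ) else 0)
    rw [hu] at this
    exact this.symm
  have e2 : Pr p0 Q0 - η ≤ Ex p0 (fun A => Pr r (fun B : Finset α => Q (A ∪ B))) := by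
    have : Pr p0 Q0 - η = Ex p0 (fun A : Finset α => (if Q0 A then (1 : ℝ) else 0) - η) := by
      rw [Ex_sub, Ex_const]
      rfl
    rw [this]
    apply Ex_mono h0 h1
    intro A
    by_cases hA : Q0 A
    · rw [if_pos hA]; exact key A hA
    · rw [if_neg hA]
      have := Pr_nonneg hr0 hr1 (fun B : Finset α => Q (A ∪ B))
      linarith
  linarith

theorem Sparse.sprinkle_absD {α : Type*} [Fintype α] [inst : DecidableEq α] (p0 r p1 η : ℝ)
    (h0 : 0 ≤ p0) (h1 : p0 ≤ 1)
    (hr0 : 0 ≤ r) (hr1 : r ≤ 1) (hη : 0 ≤ η) (hu : p0 + r - p0 * r = p1) (Q0 Q : Finset α → Prop)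
    (key : ∀ A, Q0 A → 1 - η ≤ Pr r (fun B => Q (A ∪ B))) : Pr p0 Q0 ≤ Pr p1 Q + η := by
  obtain rfl : inst = fun a b => Classical.propDecidable (a = b) := Subsingleton.elim _ _
  exact Sparse.sprinkle_abs p0 r p1 η h0 h1 hr0 hr1 hη hu Q0 Q key

/-- sprinkling adds linearly many edges to every linear set -/
theorem sprinkle (d D : ℕ) (c0 c1 ε0 : ℝ) (h0 : 0 < c0) (h1 : c0 < c1) (hε : 0 < ε0) :
    ∃ ε > 0, ∀ η > 0, ∃ N : ℕ, ∀ n : ℕ, N ≤ n →
      Pr (c0 / n) (fun A : Finset (Edg n) => ∃ S : Finset (Fin n),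
        ε0 * n ≤ S.card ∧ 2 * d * S.card ≤ eo (gr A) S + D) ≤
      Pr (c1 / n) (fun A : Finset (Edg n) => ∃ S : Finset (Fin n),
        2 * d * (S.card : ℝ) + ε * n ≤ eo (gr A) S) + η := by
  have hc : 0 < c1 - c0 := by linarith
  set γ : ℝ := (c1 - c0) * ε0 ^ 2 / 4 with hγ
  have hγ0 : 0 < γ := by rw [hγ]; positivity
  refine ⟨γ / 2, by positivity, fun η hη => ?_⟩
  -- conditions on n
  refine ⟨⌈max (max (c1 + 1) (4 / (γ * η))) (max (D / (γ / 2)) (2 * (1 / 2 + (d + γ / 4)) / (ε0 ^ 2 / 2)))⌉₊ + 1,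
    fun n hn => ?_⟩
  have hn1 : 1 ≤ n := by omega
  have hn0 : (0 : ℝ) < n := by exact_mod_cast hn1
  have hnc : max (max (c1 + 1) (4 / (γ * η))) (max (D / (γ / 2)) (2 * (1 / 2 + (d + γ / 4)) / (ε0 ^ 2 / 2))) ≤ n := by
    refine (Nat.le_ceil _).trans ?_
    exact_mod_cast (by omega : ⌈_⌉₊ ≤ n)
  have hn2 : c1 + 1 ≤ n := ((le_max_left _ _).trans (le_max_left _ _)).trans hnc
  have hn3 : 4 / (γ * η) ≤ n := ((le_max_right _ _).trans (le_max_left _ _)).trans hnc
  have hn4 : D / (γ / 2) ≤ n := ((le_max_left _ _).trans (le_max_right _ _)).trans hnc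
  have hn5 : 2 * (1 / 2 + (d + γ / 4)) / (ε0 ^ 2 / 2) ≤ n := ((le_max_right _ _).trans (le_max_right _ _)).trans hnc
  rw [div_le_iff₀ (by positivity)] at hn3 hn4 hn5
  set p0 : ℝ := c0 / n with hp0
  set p1 : ℝ := c1 / n with hp1
  have hp0' : 0 < p0 := by rw [hp0]; positivity
  have hp01 : p0 < p1 := by rw [hp0, hp1]; gcongr
  have hp1' : p1 < 1 := by rw [hp1, div_lt_one hn0]; linarith
  set r : ℝ := (p1 - p0) / (1 - p0) with hr
  have h1p : 0 < 1 - p0 := by linarith
  have hr0 : 0 < r := by rw [hr]; apply div_pos <;> linarith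
  have hr1 : r ≤ 1 := by rw [hr, div_le_one h1p]; linarith
  have hunion : p0 + r - p0 * r = p1 := by
    rw [hr]; field_simp; ring
  have hrge : (c1 - c0) / n ≤ r := by
    have : (c1 - c0) / n = p1 - p0 := by rw [hp0, hp1]; ring
    rw [this, hr, le_div_iff₀ h1p]
    nlinarith
  set Q : Finset (Edg n) → Prop := fun A => ∃ S : Finset (Fin n),
        2 * d * (S.card : ℝ) + γ / 2 * n ≤ eo (gr A) S with hQ
  have key : ∀ A : Finset (Edg n), (∃ S : Finset (Fin n),
        ε0 * n ≤ S.card ∧ 2 * d * S.card ≤ eo (gr A) S + D) →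
      1 - η ≤ Pr r (fun B : Finset (Edg n) => Q (A ∪ B)) := by
    rintro A ⟨S, hS1, hS2⟩
    have hS2' : 2 * d * (S.card : ℝ) ≤ eo (gr A) S + D := by exact_mod_cast hS2
    by_cases hbig : 2 * d * (S.card : ℝ) + γ / 2 * n ≤ eo (gr A) S
    · have : Pr r (fun B : Finset (Edg n) => Q (A ∪ B)) = 1 := by
        have h : (fun B : Finset (Edg n) => Q (A ∪ B)) = fun _ => True := by
          funext B
          simp only [eq_iff_iff, iff_true]
          refine ⟨S, hbig.trans ?_⟩
          rw [eo_eq, eo_eq]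
          exact_mod_cast Nat.mul_le_mul_left 2 (card_le_card (inter_subset_inter_right subset_union_left))
        unfold Pr
        rw [h]
        simp only [if_true]
        exact Ex_const _ _
      rw [this]; linarith
    · push Not at hbig
      set X : Finset (Edg n) := IE S \ A with hX
      have hcardX : (ε0 ^ 2 / 4) * (n : ℝ) ^ 2 ≤ X.card := by
        have e1 : (X.card : ℝ) + (A ∩ IE S).card = (IE S).card := by
          have := card_sdiff_add_card_inter (IE S) A
          rw [inter_comm] at this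
          exact_mod_cast this
        have e2 : 2 * ((IE S).card : ℝ) = (S.card : ℝ) * S.card - S.card := by
          have h := two_card_IE S
          have h' : 2 * (IE S).card + S.card = S.card * S.card := by
            have : S.card ≤ S.card * S.card := Nat.le_mul_self _
            omega
          have h'' : 2 * ((IE S).card : ℝ) + S.card = (S.card : ℝ) * S.card := by exact_mod_cast h'
          linarith
        have e3 : (eo (gr A) S : ℝ) = 2 * (A ∩ IE S).card := by rw [eo_eq]; push_cast; ring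
        rw [e3] at hbig
        have e4 : (S.card : ℝ) ≤ n := by
          have := card_le_univ S
          rw [Fintype.card_fin] at this
          exact_mod_cast this
        have e5 : (ε0 * n) * (ε0 * n) - n ≤ (S.card : ℝ) * S.card - S.card := by
          have : (ε0 * n) * (ε0 * n) ≤ (S.card : ℝ) * S.card := by gcongr
          linarith
        have e6 : (d : ℝ) * S.card ≤ d * n := by gcongr
        nlinarith
      have hmono : ∀ B : Finset (Edg n), ¬ (((B ∩ X).card : ℝ) ≤ r * X.card - r * X.card / 2) → Q (A ∪ B) := by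
        intro B hB
        push Not at hB
        refine ⟨S, ?_⟩
        have e1 : ((A ∪ B) ∩ IE S).card = (A ∩ IE S).card + (B ∩ X).card := by
          rw [← card_union_of_disjoint]
          · congr 1
            ext e
            simp only [hX, mem_inter, mem_union, mem_sdiff]
            tauto
          · rw [disjoint_left]
            intro e he he'
            simp only [hX, mem_inter, mem_sdiff] at he he'
            exact he'.2.2 he.1
        have e2 : (eo (gr (A ∪ B)) S : ℝ) = eo (gr A) S + 2 * (B ∩ X).card := by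
          rw [eo_eq, eo_eq, e1]; push_cast; ring
        rw [e2]
        have e3 : γ * n ≤ r * X.card := by
          calc γ * n = (c1 - c0) / n * ((ε0 ^ 2 / 4) * (n : ℝ) ^ 2) := by rw [hγ]; field_simp
            _ ≤ r * X.card := by gcongr
        nlinarith
      have hrX : γ * n ≤ r * X.card := by
          calc γ * n = (c1 - c0) / n * ((ε0 ^ 2 / 4) * (n : ℝ) ^ 2) := by rw [hγ]; field_simp
            _ ≤ r * X.card := by gcongr
      have hrX0 : 0 < r * X.card := lt_of_lt_of_le (by positivity) hrX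
      have ht : Pr r (fun B : Finset (Edg n) => ((B ∩ X).card : ℝ) ≤ r * X.card - r * X.card / 2) ≤
          r * X.card / (r * X.card / 2) ^ 2 := by
        exact Pr_lower_tailD hr0.le hr1 X (t := r * X.card / 2) (by positivity)
      have hle : Pr r (fun B : Finset (Edg n) => ¬ (((B ∩ X).card : ℝ) ≤ r * X.card - r * X.card / 2)) ≤
          Pr r (fun B : Finset (Edg n) => Q (A ∪ B)) := Pr_mono hr0.le hr1 hmono
      rw [Pr_not] at hle
      have hb : r * X.card / (r * X.card / 2) ^ 2 ≤ η := by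
        rw [div_le_iff₀ (by positivity)]
        have : 4 ≤ η * (r * X.card) := by nlinarith
        nlinarith
      linarith
  have hfin := Sparse.sprinkle_absD (α := Edg n) p0 r p1 η hp0'.le (by linarith) hr0.le hr1 hη.le hunion
    (fun A : Finset (Edg n) => ∃ S : Finset (Fin n),
        ε0 * n ≤ S.card ∧ 2 * d * S.card ≤ eo (gr A) S + D) Q (by
      intro A hA
      exact key A hA)
  exact hfin

end Pool.Agent.GRI
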